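import Pool.Agent.Work.MP_8e3fb2_ag.VT.Defs

set_option autoImplicit false

/-!
# The accessory degree of the sextic: definitions
-/

namespace Pool.Agent.Sextic.AD

open IntermediateField

noncomputable section

/-- The splitting field of the general polynomial of degree `n` in `Om n`. -/
def spl (n : ℕ) : IntermediateField ℂ (Om n) :=
  base n ⊔ IntermediateField.adjoin ℂ {y : Om n | Polynomial.aeval y (gen n) = 0}

/-- `E` is a function field of one variable over `ℂ`. -/
def FF (E : Type) [Field E] [Algebra ℂ E] : Prop :=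
  ∃ t : E, Transcendental ℂ t ∧ FiniteDimensional (ℂ⟮t⟯ : IntermediateField ℂ E) E

/-- Normalised discrete valuation, trivial on `ℂ`, with residue field `ℂ` (a place); `v 0 = 0` is a
convention. -/
structure IsPl {E : Type} [Field E] [Algebra ℂ E] (v : E → ℤ) : Prop where
  zero : v 0 = 0
  mul : ∀ f g, f ≠ 0 → g ≠ 0 → v (f * g) = v f + v g
  add : ∀ f g, f ≠ 0 → g ≠ 0 → f + g ≠ 0 → min (v f) (v g) ≤ v (f + g)
  const : ∀ c : ℂ, v (algebraMap ℂ E c) = 0
  unif : ∃ u : E, u ≠ 0 ∧ v u = 1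
  res : ∀ f, f ≠ 0 → v f = 0 → ∃ c : ℂ, f = algebraMap ℂ E c ∨ 0 < v (f - algebraMap ℂ E c)

/-- The places of `E`. -/
def Pl (E : Type) [Field E] [Algebra ℂ E] : Type := {v : E → ℤ // IsPl v}

section

variable {E : Type} [Field E] [Algebra ℂ E]

/-- Automorphisms act on the places: `(σ • P) (σ f) = P f`. -/
instance : MulAction (E ≃ₐ[ℂ] E) (Pl E) where
  smul σ P := ⟨fun f => P.1 (σ.symm f), by
    refine ⟨?_, ?_, ?_, ?_, ?_, ?_⟩
    · rw [map_zero]; exact P.2.zero
    · intro f g hf hg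
      rw [map_mul]
      exact P.2.mul _ _ (by simpa using hf) (by simpa using hg)
    · intro f g hf hg hfg
      have h1 : σ.symm (f + g) ≠ 0 := by simpa only [ne_eq, EmbeddingLike.map_eq_zero_iff] using hfg
      rw [map_add] at h1 ⊢
      exact P.2.add _ _ (by simpa using hf) (by simpa using hg) h1
    · intro c
      rw [AlgEquiv.commutes]; exact P.2.const c
    · obtain ⟨u, hu, hu1⟩ := P.2.unif
      exact ⟨σ u, by simpa using hu, by simpa using hu1⟩
    · intro f hf h
      obtain ⟨c, hc⟩ := P.2.res (σ.symm f) (by simpa using hf) h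
      refine ⟨c, ?_⟩
      rcases hc with hc | hc
      · left
        have := congrArg σ hc
        simpa using this
      · right
        rw [map_sub, AlgEquiv.commutes]
        exact hc⟩
  one_smul P := rfl
  mul_smul σ τ P := rfl

theorem smul_val (σ : E ≃ₐ[ℂ] E) (P : Pl E) (f : E) : (σ • P).1 (σ f) = P.1 f := by
  show P.1 (σ.symm (σ f)) = P.1 f
  rw [AlgEquiv.symm_apply_apply]

theorem smul_val' (σ : E ≃ₐ[ℂ] E) (P : Pl E) (f : E) : (σ • P).1 f = P.1 (σ.symm f) := rfl

/-- The space of the functions `w` with `ord_P w ≥ - N P` for all `P`. -/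
def RR (N : Pl E → ℤ) : Submodule ℂ E where
  carrier := {w | w = 0 ∨ ∀ P : Pl E, - N P ≤ P.1 w}
  zero_mem' := Or.inl rfl
  add_mem' := by
    intro a b ha hb
    rcases ha with rfl | ha
    · simpa using hb
    rcases hb with rfl | hb
    · simpa using Or.inr ha
    by_cases h : a + b = 0
    · exact Or.inl h
    by_cases ha0 : a = 0
    · subst ha0; exact Or.inr (by simpa using hb)
    by_cases hb0 : b = 0
    · subst hb0; exact Or.inr (by simpa using ha)
    right
    intro P
    exact le_trans (le_min (ha P) (hb P)) (P.2.add a b ha0 hb0 h)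
  smul_mem' := by
    intro c a ha
    rcases ha with rfl | ha
    · left; simp
    by_cases hc : c = 0
    · left; simp [hc]
    by_cases ha0 : a = 0
    · left; simp [ha0]
    right
    intro P
    have h1 : algebraMap ℂ E c ≠ 0 := by
      rw [Ne, map_eq_zero]; exact hc
    rw [Algebra.smul_def, P.2.mul _ _ h1 ha0, P.2.const c, zero_add]
    exact ha P

end

/-- A linear system on the curve of `E` with an action of `G`: a finite dimensional space `W ≤ E` of
dimension at least `2` and a cocycle `e` such that `w ↦ (e g)⁻¹ * g w` maps `W` to `W`; `m P` is the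
minimum of `ord_P` on `W`. -/
structure LS (E : Type) [Field E] [Algebra ℂ E] (G : Type) [Group G] (b : G →* (E ≃ₐ[ℂ] E)) where
  W : Submodule ℂ E
  finW : FiniteDimensional ℂ W
  two : 2 ≤ Module.finrank ℂ W
  e : G → E
  e_ne : ∀ g, e g ≠ 0
  e_mul : ∀ g h, e (g * h) = e g * b g (e h)
  e_W : ∀ g, ∀ w ∈ W, (e g)⁻¹ * b g w ∈ W
  m : Pl E → ℤ
  m_fin : (Function.support m).Finite
  m_le : ∀ P : Pl E, ∀ w ∈ W, w ≠ 0 → m P ≤ P.1 w
  m_eq : ∀ P : Pl E, ∃ w ∈ W, w ≠ 0 ∧ P.1 w = m P

section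

variable {E : Type} [Field E] [Algebra ℂ E] {G : Type} [Group G] {b : G →* (E ≃ₐ[ℂ] E)}

/-- The representation of `G` on `W`. -/
def LS.rho (S : LS E G b) : Representation ℂ G S.W where
  toFun g :=
    { toFun := fun w => ⟨(S.e g)⁻¹ * b g w.1, S.e_W g w.1 w.2⟩
      map_add' := by
        intro u v
        ext
        simp only [Submodule.coe_add, map_add, mul_add]
      map_smul' := by
        intro c u
        ext
        simp only [Submodule.coe_smul, map_smul, RingHom.id_apply, mul_smul_comm] }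
  map_one' := by
    have h1 : S.e 1 = 1 := by
      have h := S.e_mul 1 1
      rw [mul_one, map_one, AlgEquiv.one_apply] at h
      have h2 := S.e_ne 1
      field_simp at h
      exact h.symm
    ext w
    simp [h1]
  map_mul' := by
    intro g h
    ext w
    simp only [S.e_mul, map_mul, AlgEquiv.mul_apply, LinearMap.coe_mk, AddHom.coe_mk,
      Module.End.mul_apply, mul_inv_rev, map_inv₀]
    ring

theorem LS.rho_val (S : LS E G b) (g : G) (w : S.W) :
    ((S.rho g w : S.W) : E) = (S.e g)⁻¹ * b g w.1 := rfl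

/-- The degree of the linear system. -/
def LS.deg (S : LS E G b) : ℤ := - ∑ᶠ P : Pl E, S.m P

/-- The divisor of `w` in the linear system. -/
def LS.D (S : LS E G b) (w : E) (P : Pl E) : ℤ := P.1 w - S.m P

end

/-- The common eigenspace of `T` with the character `χ`. -/
def Eig {G : Type} [Group G] {V : Type} [AddCommGroup V] [Module ℂ V]
    (ρ : Representation ℂ G V) (T : Subgroup G) (χ : G → ℂ) : Submodule ℂ V where
  carrier := {v | ∀ t ∈ T, ρ t v = χ t • v}
  zero_mem' := by intro t _; simp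
  add_mem' := by
    intro a b ha hb t ht
    rw [map_add, ha t ht, hb t ht, smul_add]
  smul_mem' := by
    intro c a ha t ht
    rw [map_smul, ha t ht, smul_comm]

/-- The situation `E ≤ M ≥ ℂ(x_1, ..., x_n)` with a group of permutations of the `x_i`. -/
structure Dat (n : ℕ) (G : Subgroup (Equiv.Perm (Fin n))) (M : Type) [Field M] [Algebra ℂ M]
    (E : IntermediateField ℂ M) where
  x : Fin n → M
  ind : AlgebraicIndependent ℂ x
  fin : FiniteDimensional (IntermediateField.adjoin ℂ (Set.range x)) M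
  a : G →* (M ≃ₐ[ℂ] M)
  ax : ∀ g i, a g (x i) = x (g.1 i)
  st : ∀ g, ∀ y ∈ E, a g y ∈ E
  ff : FF E

section

variable {n : ℕ} {G : Subgroup (Equiv.Perm (Fin n))} {M : Type} [Field M] [Algebra ℂ M]
  {E : IntermediateField ℂ M}

/-- The action of `G` on `E`. -/
def Dat.b (d : Dat n G M E) : G →* (E ≃ₐ[ℂ] E) where
  toFun g := AlgEquiv.ofAlgHom
    ((((d.a g : M ≃ₐ[ℂ] M) : M →ₐ[ℂ] M).comp E.val).codRestrict E.toSubalgebra
      (fun y => d.st g y.1 y.2))
    ((((d.a g⁻¹ : M ≃ₐ[ℂ] M) : M →ₐ[ℂ] M).comp E.val).codRestrict E.toSubalgebra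
      (fun y => d.st g⁻¹ y.1 y.2))
    (by
      ext y
      show d.a g (d.a g⁻¹ y.1) = y.1
      rw [← AlgEquiv.mul_apply, ← map_mul, mul_inv_cancel, map_one]; rfl)
    (by
      ext y
      show d.a g⁻¹ (d.a g y.1) = y.1
      rw [← AlgEquiv.mul_apply, ← map_mul, inv_mul_cancel, map_one]; rfl)
  map_one' := by
    ext y
    show d.a 1 y.1 = y.1
    rw [map_one]; rfl
  map_mul' := by
    intro g h
    ext y
    show d.a (g * h) y.1 = d.a g (d.a h y.1)
    rw [map_mul]; rfl

theorem Dat.b_val (d : Dat n G M E) (g : G) (y : E) : ((d.b g y : E) : M) = d.a g y.1 := rfl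

/-- The degree of `M` over `ℂ(x_1, ..., x_n)`. -/
def Dat.k (d : Dat n G M E) : ℕ := Module.finrank (IntermediateField.adjoin ℂ (Set.range d.x)) M

end

/-! ### Subgroups of the symmetric group on six letters -/

/-- `(ℤ/2)^3`, generated by the transpositions `(01)`, `(23)`, `(45)`. -/
def T6 : Subgroup (Equiv.Perm (Fin 6)) where
  carrier := {g | ∀ i, (g i).1 / 2 = i.1 / 2}
  one_mem' := by intro i; rfl
  mul_mem' := by
    intro g h hg hh i
    rw [Equiv.Perm.mul_apply, hg, hh]
  inv_mem' := by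
    intro g hg i
    have := hg (g⁻¹ i)
    rw [show g (g⁻¹ i) = i from Equiv.apply_symm_apply g i] at this
    exact this.symm

/-- The permutations of the pairs `{0,1}`, `{2,3}`, `{4,5}`, of order `48`. -/
def N6 : Subgroup (Equiv.Perm (Fin 6)) where
  carrier := {g | ∀ i j, i.1 / 2 = j.1 / 2 ↔ (g i).1 / 2 = (g j).1 / 2}
  one_mem' := by intro i j; rfl
  mul_mem' := by
    intro g h hg hh i j
    rw [Equiv.Perm.mul_apply, Equiv.Perm.mul_apply, ← hg, ← hh]
  inv_mem' := by
    intro g hg i j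
    have := hg (g⁻¹ i) (g⁻¹ j)
    rw [show g (g⁻¹ i) = i from Equiv.apply_symm_apply g i,
      show g (g⁻¹ j) = j from Equiv.apply_symm_apply g j] at this
    exact this.symm

/-- `S_4 × S_2`, of order `48`. -/
def NT : Subgroup (Equiv.Perm (Fin 6)) where
  carrier := {g | ∀ i, (g i).1 / 4 = i.1 / 4}
  one_mem' := by intro i; rfl
  mul_mem' := by
    intro g h hg hh i
    rw [Equiv.Perm.mul_apply, hg, hh]
  inv_mem' := by
    intro g hg i
    have := hg (g⁻¹ i)
    rw [show g (g⁻¹ i) = i from Equiv.apply_symm_apply g i] at this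
    exact this.symm

/-- `S_3 ≀ S_2`, of order `72`. -/
def NH : Subgroup (Equiv.Perm (Fin 6)) where
  carrier := {g | ∀ i j, i.1 / 3 = j.1 / 3 ↔ (g i).1 / 3 = (g j).1 / 3}
  one_mem' := by intro i j; rfl
  mul_mem' := by
    intro g h hg hh i j
    rw [Equiv.Perm.mul_apply, Equiv.Perm.mul_apply, ← hg, ← hh]
  inv_mem' := by
    intro g hg i j
    have := hg (g⁻¹ i) (g⁻¹ j)
    rw [show g (g⁻¹ i) = i from Equiv.apply_symm_apply g i,
      show g (g⁻¹ j) = j from Equiv.apply_symm_apply g j] at this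
    exact this.symm

/-- The cycle `(0 1 2)`. -/
def k1 : Equiv.Perm (Fin 6) := Equiv.swap 0 1 * Equiv.swap 1 2

/-- The cycle `(3 4 5)`. -/
def k2 : Equiv.Perm (Fin 6) := Equiv.swap 3 4 * Equiv.swap 4 5

/-- The permutation `(0 2 4)(1 3 5)`. -/
def k3 : Equiv.Perm (Fin 6) := Equiv.swap 0 2 * Equiv.swap 2 4 * (Equiv.swap 1 3 * Equiv.swap 3 5)

/-- `(ℤ/3)^2`, generated by `(012)` and `(345)` (it is its own centraliser). -/
def H6 : Subgroup (Equiv.Perm (Fin 6)) where
  carrier := {g | g * k1 = k1 * g ∧ g * k2 = k2 * g}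
  one_mem' := by simp
  mul_mem' := by
    rintro g h ⟨h1, h2⟩ ⟨h3, h4⟩
    exact ⟨by rw [mul_assoc, h3, ← mul_assoc, h1, mul_assoc],
      by rw [mul_assoc, h4, ← mul_assoc, h2, mul_assoc]⟩
  inv_mem' := by
    rintro g ⟨h1, h2⟩
    exact ⟨by rw [inv_mul_eq_iff_eq_mul, ← mul_assoc, h1, mul_inv_cancel_right],
      by rw [inv_mul_eq_iff_eq_mul, ← mul_assoc, h2, mul_inv_cancel_right]⟩

/-- `(ℤ/2)^3`, generated by `(01)(23)`, `(02)(13)`, `(45)` (it is its own centraliser). -/
def T7 : Subgroup (Equiv.Perm (Fin 6)) where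
  carrier := {g | g * (Equiv.swap 0 1 * Equiv.swap 2 3) = (Equiv.swap 0 1 * Equiv.swap 2 3) * g ∧
    g * (Equiv.swap 0 2 * Equiv.swap 1 3) = (Equiv.swap 0 2 * Equiv.swap 1 3) * g ∧
    g * Equiv.swap 4 5 = Equiv.swap 4 5 * g}
  one_mem' := by simp
  mul_mem' := by
    rintro g h ⟨h1, h2, h3⟩ ⟨h4, h5, h6⟩
    exact ⟨by rw [mul_assoc, h4, ← mul_assoc, h1, mul_assoc],
      by rw [mul_assoc, h5, ← mul_assoc, h2, mul_assoc],
      by rw [mul_assoc, h6, ← mul_assoc, h3, mul_assoc]⟩
  inv_mem' := by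
    rintro g ⟨h1, h2, h3⟩
    exact ⟨by rw [inv_mul_eq_iff_eq_mul, ← mul_assoc, h1, mul_inv_cancel_right],
      by rw [inv_mul_eq_iff_eq_mul, ← mul_assoc, h2, mul_inv_cancel_right],
      by rw [inv_mul_eq_iff_eq_mul, ← mul_assoc, h3, mul_inv_cancel_right]⟩

instance : DecidablePred (· ∈ T6) := fun g =>
  inferInstanceAs (Decidable (∀ i, (g i).1 / 2 = i.1 / 2))

instance : DecidablePred (· ∈ N6) := fun g =>
  inferInstanceAs (Decidable (∀ i j : Fin 6, i.1 / 2 = j.1 / 2 ↔ (g i).1 / 2 = (g j).1 / 2))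

instance : DecidablePred (· ∈ NT) := fun g =>
  inferInstanceAs (Decidable (∀ i, (g i).1 / 4 = i.1 / 4))

instance : DecidablePred (· ∈ NH) := fun g =>
  inferInstanceAs (Decidable (∀ i j : Fin 6, i.1 / 3 = j.1 / 3 ↔ (g i).1 / 3 = (g j).1 / 3))

instance : DecidablePred (· ∈ H6) := fun g =>
  inferInstanceAs (Decidable (g * k1 = k1 * g ∧ g * k2 = k2 * g))

instance : DecidablePred (· ∈ T7) := fun g =>
  inferInstanceAs (Decidable
    (g * (Equiv.swap 0 1 * Equiv.swap 2 3) = (Equiv.swap 0 1 * Equiv.swap 2 3) * g ∧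
    g * (Equiv.swap 0 2 * Equiv.swap 1 3) = (Equiv.swap 0 2 * Equiv.swap 1 3) * g ∧
    g * Equiv.swap 4 5 = Equiv.swap 4 5 * g))

/-- The signature as a complex number. -/
def sg (g : Equiv.Perm (Fin 6)) : ℂ := ((Equiv.Perm.sign g : ℤ) : ℂ)

open scoped Classical in
/-- How often the prime `p` divides the ideal `(y)`. -/
def cnt {O : Type} [CommRing O] [IsDedekindDomain O] (p : Ideal O) (y : O) : ℕ :=
  (UniqueFactorizationMonoid.normalizedFactors (Ideal.span {y})).count p

/-- The space spanned by the coefficients of a polynomial. -/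
def cs {E : Type} [Field E] [Algebra ℂ E] {n : ℕ} (φ : MvPolynomial (Fin n) E) : Submodule ℂ E :=
  Submodule.span ℂ (Set.range fun α : Fin n →₀ ℕ => φ.coeff α)

end

end Pool.Agent.Sextic.AD
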