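import Pool.Agent.Work.MP_8e3fb2_ag.AD.Stmts

set_option autoImplicit false

/-!
# Item Art: Artin's theorem and the essential dimension
-/

namespace Pool.Agent.Sextic.AD

open IntermediateField

noncomputable section

private theorem Art_artin {E : Type} [Field E] [Algebra ℂ E] (H : Subgroup (E ≃ₐ[ℂ] E))
    [Finite H] : Module.finrank (IntermediateField.fixedField H) E = Nat.card H := by
  cases nonempty_fintype H
  rw [Nat.card_eq_fintype_card]
  exact FixedPoints.finrank_eq_card H E

/-- The degree over the fixed field of a stable subfield on which the group acts faithfully. -/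
private theorem Art_aux {Ω : Type} [Field Ω] [Algebra ℂ Ω] (M E F : IntermediateField ℂ Ω)
    (hEM : E ≤ M) {A : Type} [Group A] [Finite A] (a : A →* (M ≃ₐ[ℂ] M))
    (hst : ∀ (g : A) (y : M), (y : Ω) ∈ E → ((a g y : M) : Ω) ∈ E)
    (hfa : ∀ g : A, (∀ y : M, (y : Ω) ∈ E → a g y = y) → g = 1) (hFE : F ≤ E)
    (hF : ∀ y : M, (y : Ω) ∈ F ↔ (y : Ω) ∈ E ∧ ∀ g : A, a g y = y) :
    relfinrank F E = Nat.card A := by
  classical
  let r : A → (E →ₐ[ℂ] E) := fun g =>
    (M.val.comp ((a g : M →ₐ[ℂ] M).comp (IntermediateField.inclusion hEM))).codRestrict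
      E.toSubalgebra (fun y => hst g _ y.2)
  have hr : ∀ (g : A) (y : E), ((r g y : E) : Ω) = (a g ⟨y, hEM y.2⟩ : M) := fun g y => rfl
  have hrr : ∀ (g h : A) (y : E), r g (r h y) = r (g * h) y := by
    intro g h y
    apply Subtype.ext
    show ((a g (a h ⟨(y : Ω), hEM y.2⟩) : M) : Ω) = (a (g * h) ⟨(y : Ω), hEM y.2⟩ : M)
    rw [map_mul, AlgEquiv.mul_apply]
  have hr1 : ∀ y : E, r 1 y = y := by
    intro y
    apply Subtype.ext
    rw [hr, map_one]
    rfl
  let b : A →* (E ≃ₐ[ℂ] E) :=
    { toFun := fun g => AlgEquiv.ofAlgHom (r g) (r g⁻¹)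
        (by
          ext y
          show ((r g (r g⁻¹ y) : E) : Ω) = y
          rw [hrr, mul_inv_cancel, hr1])
        (by
          ext y
          show ((r g⁻¹ (r g y) : E) : Ω) = y
          rw [hrr, inv_mul_cancel, hr1])
      map_one' := by
        ext y
        show ((r 1 y : E) : Ω) = y
        rw [hr1]
      map_mul' := by
        intro g h
        ext y
        show ((r (g * h) y : E) : Ω) = (r g (r h y) : E)
        rw [hrr] }
  have hb : ∀ (g : A) (y : E), ((b g y : E) : Ω) = (a g ⟨y, hEM y.2⟩ : M) := fun g y => rfl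
  have hbinj : Function.Injective b := by
    rw [injective_iff_map_eq_one]
    intro g hg
    apply hfa
    intro y hy
    apply Subtype.ext
    have h1 := hb g ⟨y, hy⟩
    rw [hg] at h1
    exact h1.symm
  have hfix : (IntermediateField.fixedField b.range).map E.val = F := by
    apply le_antisymm
    · rintro _ ⟨z, hz, rfl⟩
      refine (hF ⟨z, hEM z.2⟩).2 ⟨z.2, fun g => ?_⟩
      have h1 := (IntermediateField.mem_fixedField_iff _ _).1 hz (b g) ⟨g, rfl⟩
      apply Subtype.ext
      rw [← hb g z, h1]
    · intro y hy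
      have h1 := (hF ⟨y, hEM (hFE hy)⟩).1 hy
      refine ⟨⟨y, h1.1⟩, (IntermediateField.mem_fixedField_iff _ _).2 ?_, rfl⟩
      rintro _ ⟨g, rfl⟩
      apply Subtype.ext
      rw [hb]
      exact congrArg Subtype.val (h1.2 g)
  have hfin : Finite b.range := Finite.of_surjective _ b.rangeRestrict_surjective
  have h2 : relfinrank F E = Module.finrank (IntermediateField.fixedField b.range) E := by
    rw [← relfinrank_top_right, ← relfinrank_map_map _ _ E.val, hfix,
      ← AlgHom.fieldRange_eq_map, IntermediateField.fieldRange_val]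
  rw [h2, Art_artin]
  exact (Nat.card_congr (MonoidHom.ofInjective hbinj).toEquiv).symm

theorem prArt : StArt := by
  intro Ω _ _ K M E hKM hEM A _ _ a haK hfix hst hfa htr
  have hfaM : ∀ g : A, (∀ y : M, (y : Ω) ∈ M → a g y = y) → g = 1 :=
    fun g hg => hfa g (fun y _ => hg y y.2)
  -- `[M : K] = |A|`
  have h1 : relfinrank K M = Nat.card A := by
    apply Art_aux M M K le_rfl a (fun g y _ => (a g y).2) hfaM hKM
    intro y
    exact ⟨fun hy => ⟨y.2, fun g => haK g y hy⟩, fun hy => hfix y hy.2⟩
  -- `[E : E ⊓ K] = |A|`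
  have h2 : relfinrank (E ⊓ K) E = Nat.card A := by
    apply Art_aux M E (E ⊓ K) hEM a hst hfa inf_le_left
    intro y
    exact ⟨fun hy => ⟨hy.1, fun g => haK g y hy.2⟩, fun hy => ⟨hy.1, hfix y hy.2⟩⟩
  -- `K ⊔ E = M`
  have hle : K ⊔ E ≤ M := sup_le hKM hEM
  have h3 : relfinrank K (K ⊔ E) = Nat.card A := by
    apply Art_aux M (K ⊔ E) K hle a _ _ le_sup_left
    · intro y
      exact ⟨fun hy => ⟨(le_sup_left : K ≤ K ⊔ E) hy, fun g => haK g y hy⟩, fun hy => hfix y hy.2⟩
    · intro g y hy
      -- the image of `K ⊔ E` under `a g`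
      have h4 : (K ⊔ E).comap M.val ≤ ((K ⊔ E).comap M.val).comap (a g : M →ₐ[ℂ] M) := by
        have h5 : ((K ⊔ E).comap M.val) = K.comap M.val ⊔ E.comap M.val := by
          apply IntermediateField.map_injective M.val
          rw [IntermediateField.map_sup, IntermediateField.map_comap_eq,
            IntermediateField.map_comap_eq, IntermediateField.map_comap_eq,
            IntermediateField.fieldRange_val, inf_eq_left.2 hle, inf_eq_left.2 hKM,
            inf_eq_left.2 hEM]
        rw [h5]
        apply sup_le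
        · intro z hz
          show a g z ∈ K.comap M.val ⊔ E.comap M.val
          rw [haK g z hz]
          exact (le_sup_left : K.comap M.val ≤ K.comap M.val ⊔ E.comap M.val) hz
        · intro z hz
          exact (le_sup_right : E.comap M.val ≤ K.comap M.val ⊔ E.comap M.val) (hst g z hz)
      exact h4 hy
    · intro g hg
      exact hfa g (fun y hy => hg y ((le_sup_right : E ≤ K ⊔ E) hy))
  have hA0 : Nat.card A ≠ 0 := Nat.card_pos.ne'
  have h4 : K ⊔ E = M := by
    apply le_antisymm hle
    have h5 := relfinrank_mul_relfinrank (le_sup_left : K ≤ K ⊔ E) hle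
    rw [h3, h1] at h5
    have h6 : relfinrank (K ⊔ E) M = 1 :=
      Nat.eq_of_mul_eq_mul_left (Nat.pos_of_ne_zero hA0) (by rw [h5, mul_one])
    exact relfinrank_eq_one_iff.1 h6
  refine ⟨E ⊓ K, E, inf_le_right, inf_le_left, ?_, h4, by rw [h2]; exact hA0, by rw [h2, h1]⟩
  exact (_root_.trdeg_le_of_injective
    (IntermediateField.inclusion (inf_le_left : E ⊓ K ≤ E))
    (IntermediateField.inclusion_injective _)).trans (by exact_mod_cast htr)

end

end Pool.Agent.Sextic.AD
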