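import Pool.Agent.Work.MP_8e3fb2_ag.AD.Stmts

set_option autoImplicit false

/-!
# The accessory degree of the sextic: the order of a commutative group of exponent `p` divides `p`
times the degree
-/

namespace Pool.Agent.Sextic.AD

open IntermediateField

noncomputable section

/-- item BD -/
theorem prBD (h1 : StOrb) (h2 : StEig) (h3 : StCyc) (h4 : StDiv) (h5 : StEInv) : StBD := by
  intro E _ _ G _ _ b S hFF hb p B hcomm hp
  have _ := S.finW
  have hnt : Nontrivial S.W := by
    apply Module.nontrivial_of_finrank_pos (R := ℂ)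
    have h6 := S.two
    omega
  obtain ⟨v, χ, hv, hvE⟩ := h2 S.W G S.rho B hcomm
  have hinv := h5 E G b S hFF B χ v hv hvE
  have hv' : (v : E) ≠ 0 := fun h => hv (Subtype.ext h)
  obtain ⟨-, hD⟩ := h4 E G b S hFF
  obtain ⟨-, hDf, hDs, -⟩ := hD v.1 v.2 hv'
  let A : MulAction B (Pl E) := MulAction.compHom (Pl E) (b.comp B.subtype)
  have hstab : ∀ x : Pl E, Nat.card (MulAction.stabilizer B x) ∣ p := by
    intro x
    have hcyc : IsCyclic (MulAction.stabilizer B x) := by
      refine h3 E (MulAction.stabilizer B x) (b.comp (B.subtype.comp (MulAction.stabilizer B x).subtype))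
        (hb.comp (Subtype.val_injective.comp Subtype.val_injective)) x (fun h => ?_)
      exact h.2
    obtain ⟨g, hg⟩ := IsCyclic.exists_ofOrder_eq_natCard (α := MulAction.stabilizer B x)
    rw [← hg]
    apply orderOf_dvd_of_pow_eq_one
    apply Subtype.ext
    apply Subtype.ext
    exact hp g.1.1 g.1.2
  have h6 := h1 (Pl E) B p (S.D v.1) hDf (fun g x => hinv g.1 g.2 x) hstab
  rw [hDs] at h6
  exact h6

end

end Pool.Agent.Sextic.AD
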