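import Pool.Agent.Work.MP_8e3fb2_ag.AD.Stmts

set_option autoImplicit false

/-!
# The accessory degree of the sextic: item Bas
-/

namespace Pool.Agent.Sextic.AD

open IntermediateField

noncomputable section

private theorem Bas_trans {E : Type} [Field E] [Algebra ℂ E] (x : E)
    (h : ∀ c : ℂ, x ≠ algebraMap ℂ E c) : Transcendental ℂ x := by
  intro ha
  have h1 : IsIntegral ℂ x := ha.isIntegral
  have h2 := IsAlgClosed.degree_eq_one_of_irreducible ℂ (minpoly.irreducible h1)
  obtain ⟨c, hc⟩ := minpoly.mem_range_of_degree_eq_one ℂ x h2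
  exact h c hc.symm

private theorem Bas_adj {E : Type} [Field E] [Algebra ℂ E] (u v : E) :
    (ℂ⟮v / u⟯ : IntermediateField ℂ E) = ℂ⟮u / v⟯ := by
  have key : ∀ a b : E, (ℂ⟮a / b⟯ : IntermediateField ℂ E) ≤ ℂ⟮b / a⟯ := by
    intro a b
    rw [IntermediateField.adjoin_simple_le_iff]
    have h := inv_mem (IntermediateField.mem_adjoin_simple_self ℂ (b / a))
    rwa [inv_div] at h
  exact le_antisymm (key v u) (key u v)

theorem prBas (h1 : StDeg) (h2 : StDiv) : StBas := by
  intro E _ _ G _ b S hFF u hu v hv hv0 hc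
  have hu0 : u ≠ 0 := by
    intro h
    have h3 := hc 0
    rw [zero_smul] at h3
    exact h3 h
  have ht : Transcendental ℂ (u / v) := by
    refine Bas_trans _ fun c h => hc c ?_
    rw [Algebra.smul_def, ← h, div_mul_cancel₀ _ hv0]
  refine ⟨ht, ?_⟩
  have ht' : Transcendental ℂ (v / u) := by
    intro h
    apply ht
    have h3 := h.inv
    rwa [inv_div] at h3
  obtain ⟨hfin, hsum⟩ := h1 E hFF (v / u) ht'
  obtain ⟨-, hD⟩ := h2 E G b S hFF
  obtain ⟨-, hDf, hDs, -⟩ := hD v hv hv0
  have hval : ∀ P : Pl E, P.1 (v / u) = P.1 v - P.1 u := by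
    intro P
    have h3 := P.2.mul (v / u) u (div_ne_zero hv0 hu0) hu0
    rw [div_mul_cancel₀ _ hu0] at h3
    omega
  have hmin : ∀ P : Pl E, min (S.D u P) (S.D v P) = S.D v P - max (P.1 (v / u)) 0 := by
    intro P
    rw [hval]
    unfold LS.D
    omega
  have hsupp : (Function.support fun P : Pl E => max (P.1 (v / u)) 0).Finite := by
    refine hfin.subset ?_
    intro P hP
    rw [Function.mem_support] at hP
    show 0 < P.1 (v / u)
    by_contra hcon
    exact hP (max_eq_right (not_lt.1 hcon))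
  rw [finsum_congr hmin, finsum_sub_distrib hDf hsupp, hDs, hsum, Bas_adj]

end

end Pool.Agent.Sextic.AD
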