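import Pool.Agent.Work.MP_8e3fb2_ag.AD.Stmts

set_option autoImplicit false

/-!
# The accessory degree of the sextic: item C1
-/

namespace Pool.Agent.Sextic.AD

open IntermediateField

noncomputable section

theorem C1_sg (n t : Equiv.Perm (Fin 6)) : sg (n * t * n⁻¹) = sg t := by
  unfold sg
  have h : Equiv.Perm.sign (n * t * n⁻¹) = Equiv.Perm.sign t := by
    rw [map_mul, map_mul, map_inv, mul_comm (Equiv.Perm.sign n), mul_assoc, mul_inv_cancel,
      mul_one]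
  rw [h]

theorem C1_card (T : Subgroup (Equiv.Perm (Fin 6))) :
    Nat.card (T.subgroupOf (⊤ : Subgroup (Equiv.Perm (Fin 6)))) = Nat.card T :=
  Nat.card_congr (Subgroup.subgroupOfEquivOfLe (le_top : T ≤ ⊤)).toEquiv

theorem C1_key (h1 : StPJ) (h2 : StP3) (h6 : StOrd) (E : Type) [Field E] [Algebra ℂ E]
    (b : (⊤ : Subgroup (Equiv.Perm (Fin 6))) →* (E ≃ₐ[ℂ] E)) (S : LS E (⊤ : Subgroup _) b)
    (hE : FF E) (hb : Function.Injective b) (hdeg : S.deg = 12)
    (T N : Subgroup (Equiv.Perm (Fin 6))) (χ : Equiv.Perm (Fin 6) → ℂ)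
    (hn : ∀ n ∈ N, ∀ t ∈ T, n * t * n⁻¹ ∈ T) (hχ : ∀ n ∈ N, ∀ t ∈ T, χ (n * t * n⁻¹) = χ t)
    (hc1 : 6 < Nat.card T) (hc2 : Nat.card T < 12)
    (hN : 6 * (12 - (Nat.card T : ℤ)) < Nat.card N) :
    Module.finrank ℂ (Eig S.rho (T.subgroupOf ⊤) (fun g => χ g.1)) ≤ 1 := by
  have hle : Module.finrank ℂ (Eig S.rho (T.subgroupOf ⊤) (fun g => χ g.1)) ≤ 2 := by
    by_contra hlt
    have := h1 E _ b S hE hb (T.subgroupOf ⊤) (fun g => χ g.1) 2 (not_le.1 hlt)
    rw [hdeg, C1_card] at this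
    push_cast at this
    omega
  by_contra hgt
  have heq : Module.finrank ℂ (Eig S.rho (T.subgroupOf ⊤) (fun g => χ g.1)) = 2 := by omega
  obtain ⟨g, _, hg⟩ := h2 E _ b S hE hb (T.subgroupOf ⊤) (N.subgroupOf ⊤) (fun g => χ g.1)
    (fun n hn' t ht => by
      rw [Subgroup.mem_subgroupOf] at hn' ht ⊢
      exact hn n.1 hn' t.1 ht)
    (fun n hn' t ht => by
      rw [Subgroup.mem_subgroupOf] at hn' ht
      exact hχ n.1 hn' t.1 ht) heq
    (by rw [C1_card, hdeg]; exact_mod_cast hc2)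
    (by rw [C1_card, hdeg]; omega)
  rw [C1_card, C1_card, hdeg] at hg
  have ho : (orderOf g : ℤ) ≤ 6 := by
    have := h6 g.1
    rw [Subgroup.orderOf_coe] at this
    exact_mod_cast this
  have h0 : (0 : ℤ) ≤ 12 - (Nat.card T : ℤ) := by omega
  have := mul_le_mul_of_nonneg_right ho h0
  omega

theorem prC1 (h1 : StPJ) (h2 : StP3) (h3 : StR6) (h4 : StCard) (h5 : StNrm) (h6 : StOrd) :
    StC1 := by
  intro E _ _ G b S hE hb hG
  subst hG
  intro hdeg
  obtain ⟨c1, c2, c3, c4, c5, c6, -⟩ := h4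
  obtain ⟨-, -, -, -, -, -, n1, n2, n3⟩ := h5
  have := S.finW
  let ρ : Representation ℂ (Equiv.Perm (Fin 6)) S.W :=
    S.rho.comp (Subgroup.topEquiv (G := Equiv.Perm (Fin 6))).symm.toMonoidHom
  have hEig : ∀ (T : Subgroup (Equiv.Perm (Fin 6))) (χ : Equiv.Perm (Fin 6) → ℂ),
      Eig ρ T χ = Eig S.rho (T.subgroupOf ⊤) (fun g => χ g.1) := by
    intro T χ
    ext v
    constructor
    · intro hv t ht
      rw [Subgroup.mem_subgroupOf] at ht
      exact hv t.1 ht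
    · intro hv t ht
      exact hv ⟨t, Subgroup.mem_top t⟩ (by rw [Subgroup.mem_subgroupOf]; exact ht)
  have key := C1_key h1 h2 h6 E b S hE hb hdeg
  have hW : Module.finrank ℂ S.W ≤ 1 := by
    refine h3 S.W ρ ?_ ?_ ?_ ?_ ?_
    · rw [hEig]
      exact key T6 N6 (fun _ => 1) n1 (fun _ _ _ _ => rfl) (by rw [c1]; norm_num)
        (by rw [c1]; norm_num) (by rw [c1, c4]; norm_num)
    · rw [hEig]
      exact key T6 N6 sg n1 (fun n _ t _ => C1_sg n t) (by rw [c1]; norm_num)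
        (by rw [c1]; norm_num) (by rw [c1, c4]; norm_num)
    · rw [hEig]
      exact key T7 NT (fun _ => 1) n2 (fun _ _ _ _ => rfl) (by rw [c2]; norm_num)
        (by rw [c2]; norm_num) (by rw [c2, c5]; norm_num)
    · rw [hEig]
      exact key T7 NT sg n2 (fun n _ t _ => C1_sg n t) (by rw [c2]; norm_num)
        (by rw [c2]; norm_num) (by rw [c2, c5]; norm_num)
    · rw [hEig]
      exact key H6 NH (fun _ => 1) n3 (fun _ _ _ _ => rfl) (by rw [c3]; norm_num)
        (by rw [c3]; norm_num) (by rw [c3, c6]; norm_num)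
  have := S.two
  omega

end

end Pool.Agent.Sextic.AD
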