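import Pool.Agent.Work.MP_8e3fb2_ag.AD.Stmts

set_option autoImplicit false

/-!
# The accessory degree of the sextic: the case of a linear system of degree one
-/

namespace Pool.Agent.Sextic.AD

open IntermediateField

noncomputable section

/-- a nonnegative function with finite support and sum `1` has exactly one point in its support -/
theorem C12_pt {X : Type} (D : X → ℤ) (h0 : ∀ x, 0 ≤ D x) (hf : (Function.support D).Finite)
    (h1 : ∑ᶠ x, D x = 1) : ∃ x, D x ≠ 0 ∧ ∀ y, D y ≠ 0 → y = x := by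
  rw [finsum_eq_sum D hf] at h1
  have h2 : ∀ x ∈ hf.toFinset, (1 : ℤ) ≤ D x := by
    intro x hx
    have h3 : D x ≠ 0 := by
      rw [Set.Finite.mem_toFinset, Function.mem_support] at hx
      exact hx
    have h4 := h0 x
    omega
  have h3 := Finset.card_nsmul_le_sum hf.toFinset D 1 h2
  rw [h1, nsmul_eq_mul, mul_one] at h3
  have h4 : hf.toFinset.card ≤ 1 := by exact_mod_cast h3
  have h5 : hf.toFinset.Nonempty := by
    by_contra h
    rw [Finset.not_nonempty_iff_eq_empty] at h
    rw [h, Finset.sum_empty] at h1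
    exact zero_ne_one h1
  obtain ⟨x, hx⟩ := h5
  refine ⟨x, ?_, ?_⟩
  · rw [Set.Finite.mem_toFinset, Function.mem_support] at hx
    exact hx
  · intro y hy
    have hy' : y ∈ hf.toFinset := by
      rw [Set.Finite.mem_toFinset, Function.mem_support]
      exact hy
    exact Finset.card_le_one.1 h4 y hy' x hx

/-- item C12 -/
theorem prC12 (h1 : StEig) (h2 : StEInv) (h3 : StDiv) (h4 : StCyc) (h5 : StG60) : StC12 := by
  intro E _ _ G b S hFF hb hcard hdeg
  haveI : Fact (Nat.Prime 2) := ⟨Nat.prime_two⟩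
  obtain ⟨P, hP⟩ := Sylow.exists_subgroup_card_pow_prime (G := G) 2 (n := 2) (by
    rw [hcard]; norm_num)
  have hcomm : ∀ g ∈ P, ∀ h ∈ P, g * h = h * g := by
    intro g hg h hh
    have h6 := IsPGroup.commutative_of_card_eq_prime_sq (p := 2) hP ⟨g, hg⟩ ⟨h, hh⟩
    exact congrArg Subtype.val h6
  haveI := S.finW
  haveI : Nontrivial S.W := by
    apply Module.nontrivial_of_finrank_pos (R := ℂ)
    have h6 := S.two
    omega
  obtain ⟨v, χ, hv, hvE⟩ := h1 S.W G S.rho P hcomm
  have hinv := h2 E G b S hFF P χ v hv hvE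
  have hv' : (v : E) ≠ 0 := fun h => hv (Subtype.ext h)
  obtain ⟨-, hD⟩ := h3 E G b S hFF
  obtain ⟨hD0, hDf, hDs, -⟩ := hD v.1 v.2 hv'
  rw [hdeg] at hDs
  obtain ⟨Q, hQ, hQu⟩ := C12_pt (S.D v.1) hD0 hDf hDs
  have hfix : ∀ g ∈ P, b g • Q = Q := by
    intro g hg
    apply hQu
    rw [hinv g hg Q]
    exact hQ
  have hcyc : IsCyclic P := h4 E P (b.comp P.subtype)
    (hb.comp Subtype.val_injective) Q (fun h => hfix h.1 h.2)
  exact h5 G hcard P (by rw [hP]; norm_num) hcyc

end

end Pool.Agent.Sextic.AD
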