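import Pool.Agent.Work.MP_8e3fb2_ag.AD.Stmts

set_option autoImplicit false

/-!
# Item C2: no linear system of degree six for the alternating group
-/

namespace Pool.Agent.Sextic.AD

open IntermediateField

noncomputable section

/-- the order of the intersection with `A` -/
theorem C2_card (K A : Subgroup (Equiv.Perm (Fin 6))) :
    Nat.card (K.subgroupOf A) = Nat.card (K ⊓ A : Subgroup (Equiv.Perm (Fin 6))) := by
  rw [← Subgroup.subgroupOf_map_subtype K A]
  exact Nat.card_congr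
    (Subgroup.equivMapOfInjective (K.subgroupOf A) A.subtype A.subtype_injective).toEquiv

/-- the invariants of `T` have dimension at most one -/
theorem C2_le (h1 : StPJ) (h2 : StP3) (h6 : StOrd) {E : Type} [Field E] [Algebra ℂ E]
    (A : Subgroup (Equiv.Perm (Fin 6))) (b : A →* (E ≃ₐ[ℂ] E)) (S : LS E A b) (hE : FF E)
    (hb : Function.Injective b) (hdeg : S.deg = 6) (T N : Subgroup (Equiv.Perm (Fin 6)))
    (hn : ∀ n ∈ N, ∀ t ∈ T, n * t * n⁻¹ ∈ T)
    (hT : Nat.card (T ⊓ A : Subgroup (Equiv.Perm (Fin 6))) = 4)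
    (hN : Nat.card (N ⊓ A : Subgroup (Equiv.Perm (Fin 6))) = 24) :
    Module.finrank ℂ (Eig S.rho (T.subgroupOf A) (fun _ => 1)) ≤ 1 := by
  rw [← C2_card] at hT hN
  by_contra hcon
  have h3 : Module.finrank ℂ (Eig S.rho (T.subgroupOf A) (fun _ => 1)) = 2 := by
    by_contra hne
    have h4 := h1 E A b S hE hb (T.subgroupOf A) (fun _ => 1) 2 (by omega)
    rw [hT, hdeg] at h4
    norm_num at h4
  obtain ⟨g, -, hg⟩ := h2 E A b S hE hb (T.subgroupOf A) (N.subgroupOf A) (fun _ => 1)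
    (fun n hn' t ht => hn _ hn' _ ht) (fun _ _ _ _ => rfl) h3 (by rw [hT, hdeg]; norm_num)
    (by rw [hT, hdeg]; norm_num)
  have h5 := h6 (g : Equiv.Perm (Fin 6))
  rw [Subgroup.orderOf_coe] at h5
  rw [hN, hT, hdeg] at hg
  have h7 : (orderOf g : ℤ) ≤ 6 := by exact_mod_cast h5
  push_cast at hg
  omega

/-- **C2** -/
theorem prC2 (h1 : StPJ) (h2 : StP3) (h3 : StRA) (h4 : StCard) (h5 : StNrm) (h6 : StOrd) :
    StC2 := by
  rintro E _ _ G b S hE hb rfl hdeg
  obtain ⟨-, -, hH, -, -, -, c1, c2, c3, c4, c5⟩ := h4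
  obtain ⟨-, -, -, -, -, -, n1, n2, -⟩ := h5
  have hfin := S.finW
  have hH' : Nat.card (H6.subgroupOf (alternatingGroup (Fin 6))) = 9 := by
    rw [C2_card, inf_eq_left.2 c5, hH]
  have hT7 : Nat.card (T7.subgroupOf (alternatingGroup (Fin 6))) = 4 := by
    rw [C2_card, c2]
  have e := h3 S.W S.rho (C2_le h1 h2 h6 _ b S hE hb hdeg T6 N6 n1 c1 c3)
    (C2_le h1 h2 h6 _ b S hE hb hdeg T7 NT n2 c2 c4)
    (by
      intro χ
      by_contra hcon
      have h := h1 E _ b S hE hb (T7.subgroupOf _) χ 2 (by omega)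
      rw [hT7, hdeg] at h
      norm_num at h)
    (by
      by_contra hcon
      have h := h1 E _ b S hE hb (H6.subgroupOf _) (fun _ => 1) 1 (by omega)
      rw [hH', hdeg] at h
      norm_num at h)
  have := S.two
  omega

end

end Pool.Agent.Sextic.AD
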