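import Pool.Agent.Work.MP_8e3fb2_ag.AD.Stmts

set_option autoImplicit false

/-!
# Block AD, item C6: no linear system of degree two for the Frobenius group of order 20
-/

namespace Pool.Agent.Sextic.AD

open IntermediateField

noncomputable section

section

variable {E : Type} [Field E] [Algebra ℂ E] {G : Type} [Group G] {b : G →* (E ≃ₐ[ℂ] E)}

theorem C6_ord_smul (P : Pl E) (c : ℂ) (w : E) (hc : c ≠ 0) (hw : w ≠ 0) :
    P.1 (c • w) = P.1 w := by
  have h1 : algebraMap ℂ E c ≠ 0 := by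
    rw [Ne, map_eq_zero]; exact hc
  rw [Algebra.smul_def, P.2.mul _ _ h1 hw, P.2.const c, zero_add]

theorem C6_ord_div (P : Pl E) (u w : E) (hu : u ≠ 0) (hw : w ≠ 0) :
    P.1 (u / w) = P.1 u - P.1 w := by
  have h1 : P.1 (u / w * w) = P.1 (u / w) + P.1 w :=
    P.2.mul _ _ (div_ne_zero hu hw) hw
  rw [div_mul_cancel₀ u hw] at h1
  linarith

/-- an eigenvector of `ρ z` -/
theorem C6_bz (S : LS E G b) (z : G) (w : S.W) (c : ℂ) (h : S.rho z w = c • w) :
    b z w.1 = S.e z * (c • w.1) := by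
  have h1 := congrArg Subtype.val h
  rw [LS.rho_val] at h1
  have h2 : ((c • w : S.W) : E) = c • w.1 := rfl
  rw [h2] at h1
  rw [← h1, mul_inv_cancel_left₀ (S.e_ne z)]

theorem C6_c_ne (S : LS E G b) (z : G) (w : S.W) (c : ℂ) (h : S.rho z w = c • w) (hw : w ≠ 0) :
    c ≠ 0 := by
  intro hc
  have h1 := C6_bz S z w c h
  rw [hc, zero_smul, mul_zero] at h1
  have h2 : w.1 = 0 := by
    have h3 := congrArg (b z).symm h1
    rwa [AlgEquiv.symm_apply_apply, map_zero] at h3
  exact hw (Subtype.ext h2)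

/-- the quotient of two eigenvectors -/
theorem C6_quot (S : LS E G b) (z : G) (u w : S.W) (c d : ℂ) (hu : S.rho z u = c • u)
    (hw : S.rho z w = d • w) (hw0 : w ≠ 0) :
    b z (u.1 / w.1) = (c / d) • (u.1 / w.1) := by
  have hd := C6_c_ne S z w d hw hw0
  have hw1 : w.1 ≠ 0 := fun h => hw0 (Subtype.ext h)
  have he := S.e_ne z
  have hd' : algebraMap ℂ E d ≠ 0 := by
    rw [Ne, map_eq_zero]; exact hd
  rw [map_div₀, C6_bz S z u c hu, C6_bz S z w d hw, Algebra.smul_def, Algebra.smul_def,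
    Algebra.smul_def, map_div₀]
  field_simp

theorem C6_D_smul (S : LS E G b) (w : E) (c : ℂ) (hc : c ≠ 0) (hw : w ≠ 0) (P : Pl E) :
    S.D (c • w) P = S.D w P := by
  unfold LS.D
  rw [C6_ord_smul P c w hc hw]

theorem C6_sum_le {X : Type} (D : X → ℤ) (h0 : ∀ x, 0 ≤ D x) (hf : (Function.support D).Finite)
    (s : Finset X) : ∑ x ∈ s, D x ≤ ∑ᶠ x, D x := by
  classical
  rw [finsum_eq_sum_of_support_subset D (s := s ∪ hf.toFinset) (by
    intro x hx
    simp only [Finset.coe_union, Set.Finite.coe_toFinset]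
    exact Or.inr hx)]
  exact Finset.sum_le_sum_of_subset_of_nonneg Finset.subset_union_left fun x _ _ => h0 x

/-- a function constant on the orbits of a map of order five, of total sum two, is supported in the
set of the fixed points -/
theorem C6_fix {X : Type} (f : X → X) (hf : ∀ x, f^[5] x = x) (D : X → ℤ) (h0 : ∀ x, 0 ≤ D x)
    (hfin : (Function.support D).Finite) (hsum : ∑ᶠ x, D x = 2) (hinv : ∀ x, D (f x) = D x)
    (x : X) (hx : D x ≠ 0) : f x = x := by
  classical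
  have h1 : Function.minimalPeriod f x ∣ 5 :=
    Function.IsPeriodicPt.minimalPeriod_dvd (hf x)
  rcases (Nat.dvd_prime (by norm_num : Nat.Prime 5)).1 h1 with h2 | h2
  · exact Function.minimalPeriod_eq_one_iff_isFixedPt.1 h2
  · exfalso
    have hinj : Set.InjOn (fun i : ℕ => f^[i] x) (Finset.range 5 : Finset ℕ) := by
      have := Function.iterate_injOn_Iio_minimalPeriod (f := f) (x := x)
      rw [h2] at this
      intro i hi j hj hij
      exact this (by simpa using hi) (by simpa using hj) hij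
    have hD : ∀ i : ℕ, D (f^[i] x) = D x := by
      intro i
      induction i with
      | zero => rfl
      | succ i ih => rw [Function.iterate_succ_apply', hinv, ih]
    have h3 := C6_sum_le D h0 hfin ((Finset.range 5).image fun i : ℕ => f^[i] x)
    rw [Finset.sum_image hinj, Finset.sum_congr rfl fun i _ => hD i, Finset.sum_const,
      Finset.card_range, hsum] at h3
    have h4 : 0 < D x := lt_of_le_of_ne (h0 x) (Ne.symm hx)
    simp only [nsmul_eq_mul] at h3
    push_cast at h3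
    linarith

theorem C6_six (a : Fin 4 → ℤ) (h0 : ∀ i, 0 ≤ a i) (hne : ∀ i j, i ≠ j → a i ≠ a j) :
    6 ≤ ∑ i, a i := by
  rw [Fin.sum_univ_four]
  have h01 := hne 0 1 (by decide)
  have h02 := hne 0 2 (by decide)
  have h03 := hne 0 3 (by decide)
  have h12 := hne 1 2 (by decide)
  have h13 := hne 1 3 (by decide)
  have h23 := hne 2 3 (by decide)
  have p0 := h0 0
  have p1 := h0 1
  have p2 := h0 2
  have p3 := h0 3
  omega

end

theorem prC6 (h1 : StC6a) (h2 : StC6b) (h3 : StFive) (h4 : StDiv) (_h5 : StEInv)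
    (h6 : StBas) (h7 : StFd) (h8 : StFF1) : StC6 := by
  intro E _ _ G _ _ b S hFF hb z t hz hzt hdeg
  haveI := S.finW
  obtain ⟨-, hDiv⟩ := h4 E G b S hFF
  have hz5 : z ^ 5 = 1 := by
    rw [← hz]
    exact pow_orderOf_eq_one z
  -- the element `z` is not scalar
  have hns : ¬ ∃ c : ℂ, ∀ v : S.W, S.rho z v = c • v := by
    rintro ⟨c, hc⟩
    have htwo := S.two
    obtain ⟨v, hv⟩ : ∃ v : S.W, v ≠ 0 := by
      haveI : Nontrivial S.W := Module.nontrivial_of_finrank_pos (R := ℂ) (by omega)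
      exact exists_ne 0
    obtain ⟨u, hu⟩ : ∃ u : S.W, u ∉ Submodule.span ℂ {v} := by
      by_contra hcon
      push Not at hcon
      have htop : Submodule.span ℂ {v} = ⊤ := by
        rw [eq_top_iff]
        intro u _
        exact hcon u
      have h9 : Module.finrank ℂ (Submodule.span ℂ {v}) = 1 := finrank_span_singleton hv
      rw [htop, finrank_top] at h9
      omega
    have hv1 : v.1 ≠ 0 := fun h => hv (Subtype.ext h)
    have huv : ∀ a : ℂ, u.1 ≠ a • v.1 := by
      intro a ha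
      apply hu
      rw [Submodule.mem_span_singleton]
      exact ⟨a, Subtype.ext ha.symm⟩
    have hu0 : u ≠ 0 := by
      rintro rfl
      exact hu (Submodule.zero_mem _)
    have hu1 : u.1 ≠ 0 := fun h => hu0 (Subtype.ext h)
    obtain ⟨htr, hsum⟩ := h6 E G b S hFF u.1 u.2 v.1 v.2 hv1 huv
    have hfix : b z (u.1 / v.1) = u.1 / v.1 := by
      rw [C6_quot S z u v c c (hc u) (hc v) hv, div_self (C6_c_ne S z v c (hc v) hv), one_smul]
    have hT : ∀ s ∈ Subgroup.zpowers z, b s (u.1 / v.1) = u.1 / v.1 := by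
      intro s hs
      have hle : Subgroup.zpowers z ≤
          (MulAction.stabilizer (E ≃ₐ[ℂ] E) (u.1 / v.1)).comap b := by
        rw [Subgroup.zpowers_le]
        exact hfix
      exact hle hs
    have hdvd := h7 E G b hb (Subgroup.zpowers z) (u.1 / v.1) hT
    rw [Nat.card_zpowers, hz] at hdvd
    haveI := h8 E hFF (u.1 / v.1) htr
    have hpos : 0 < Module.finrank (ℂ⟮u.1 / v.1⟯ : IntermediateField ℂ E) E :=
      Module.finrank_pos
    have hnn : 0 ≤ ∑ᶠ P : Pl E, min (S.D u.1 P) (S.D v.1 P) := by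
      refine finsum_nonneg fun P => le_min ?_ ?_
      · exact (hDiv u.1 u.2 hu1).1 P
      · exact (hDiv v.1 v.2 hv1).1 P
    rw [hsum, hdeg] at hnn
    have h5' := Nat.le_of_dvd hpos hdvd
    have : (5 : ℤ) ≤ (Module.finrank (ℂ⟮u.1 / v.1⟯ : IntermediateField ℂ E) E : ℤ) := by
      exact_mod_cast h5'
    linarith
  obtain ⟨w, c, hw, hcinj⟩ := h1 S.W G S.rho z t hz5 hzt hns
  have hw1 : ∀ i, (w i).1 ≠ 0 := fun i h => (hw i).1 (Subtype.ext h)
  have hc0 : ∀ i, c i ≠ 0 := fun i => C6_c_ne S z (w i) (c i) (hw i).2 (hw i).1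
  -- invariance
  have hinv : ∀ i (P : Pl E), S.D (w i).1 (b z • P) = S.D (w i).1 P := by
    intro i P
    have h9 := (hDiv (w i).1 (w i).2 (hw1 i)).2.2.2 z P
    have h10 : (S.e z)⁻¹ * b z (w i).1 = c i • (w i).1 := by
      rw [C6_bz S z (w i) (c i) (hw i).2, inv_mul_cancel_left₀ (S.e_ne z)]
    rw [h10, C6_D_smul S _ _ (hc0 i) (hw1 i)] at h9
    exact h9
  have hf5 : ∀ P : Pl E, (fun P : Pl E => b z • P)^[5] P = P := by
    intro P
    rw [smul_iterate_apply, ← map_pow, hz5, map_one, one_smul]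
  have hsupp : ∀ i (P : Pl E), S.D (w i).1 P ≠ 0 → b z • P = P := by
    intro i P hP
    have h9 := hDiv (w i).1 (w i).2 (hw1 i)
    exact C6_fix (fun P : Pl E => b z • P) hf5 (S.D (w i).1) h9.1 h9.2.1
      (h9.2.2.1.trans hdeg) (hinv i) P hP
  obtain ⟨P₀, hP₀⟩ : ∃ P₀ : Pl E, b z • P₀ = P₀ := by
    have h9 := hDiv (w 0).1 (w 0).2 (hw1 0)
    obtain ⟨P₀, hP₀⟩ : ∃ P₀ : Pl E, S.D (w 0).1 P₀ ≠ 0 := by
      by_contra hcon
      push Not at hcon
      have h10 : ∑ᶠ P, S.D (w 0).1 P = 0 := by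
        rw [finsum_congr hcon, finsum_zero]
      rw [h9.2.2.1, hdeg] at h10
      norm_num at h10
    exact ⟨P₀, hsupp 0 P₀ hP₀⟩
  obtain ⟨Q, hQinj, hQ⟩ := h2 E G b hb z t hz hzt P₀ hP₀
  have hsix : ∀ k, 6 ≤ ∑ i, S.D (w i).1 (Q k) := by
    intro k
    refine C6_six _ (fun i => (hDiv (w i).1 (w i).2 (hw1 i)).1 _) ?_
    intro i j hij heq
    have h9 : (Q k).1 ((w i).1 / (w j).1) = 0 := by
      rw [C6_ord_div _ _ _ (hw1 i) (hw1 j)]
      unfold LS.D at heq
      linarith
    have h10 : c i / c j ≠ 1 := by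
      intro h
      rw [div_eq_one_iff_eq (hc0 j)] at h
      exact hij (hcinj h)
    have h11 : (b z) ^ 5 = 1 := by
      rw [← map_pow, hz5, map_one]
    refine h3 E (b z) 5 (Q k) ((w i).1 / (w j).1) (c i / c j) h11 (hQ k)
      (div_ne_zero (hw1 i) (hw1 j)) (C6_quot S z _ _ _ _ (hw i).2 (hw j).2 (hw j).1) h10 ?_
    rw [h9]
    exact dvd_zero _
  have hle : ∀ i, ∑ k, S.D (w i).1 (Q k) ≤ 2 := by
    intro i
    have h9 := hDiv (w i).1 (w i).2 (hw1 i)
    have h10 := C6_sum_le (S.D (w i).1) h9.1 h9.2.1 (Finset.univ.map ⟨Q, hQinj⟩)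
    rw [Finset.sum_map, h9.2.2.1, hdeg] at h10
    exact h10
  have h12 : ∑ k : Fin 4, (6 : ℤ) ≤ ∑ k, ∑ i, S.D (w i).1 (Q k) :=
    Finset.sum_le_sum fun k _ => hsix k
  have h13 : ∑ i, ∑ k, S.D (w i).1 (Q k) ≤ ∑ i : Fin 4, (2 : ℤ) :=
    Finset.sum_le_sum fun i _ => hle i
  rw [Finset.sum_comm] at h12
  have h14 := h12.trans h13
  norm_num at h14

end

end Pool.Agent.Sextic.AD
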