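import Pool.Agent.Work.MP_8e3fb2_ag.AD.Stmts

set_option autoImplicit false

/-!
# Item C6b: the places fixed by an element of order five
-/

namespace Pool.Agent.Sextic.AD

open IntermediateField

noncomputable section

theorem C6b_left {G : Type} [Group G] {z t : G} (h : t * z * t⁻¹ = z ^ 2) (k : ℕ) :
    t ^ k * z = z ^ (2 ^ k) * t ^ k := by
  have h1 : ∀ m : ℕ, t * z ^ m = z ^ (2 * m) * t := by
    intro m
    have h2 : t * z ^ m * t⁻¹ = z ^ (2 * m) := by
      rw [← conj_pow, h, pow_mul]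
    rw [← h2, inv_mul_cancel_right]
  induction k with
  | zero => simp
  | succ k ih =>
    calc t ^ (k + 1) * z = t * (t ^ k * z) := by rw [pow_succ', mul_assoc]
      _ = t * z ^ (2 ^ k) * t ^ k := by rw [ih, mul_assoc]
      _ = z ^ (2 * 2 ^ k) * t * t ^ k := by rw [h1]
      _ = z ^ (2 ^ (k + 1)) * t ^ (k + 1) := by rw [mul_assoc, ← pow_succ' t k, ← pow_succ' 2 k]

theorem C6b_right {G : Type} [Group G] {z t : G} (h5 : z ^ 5 = 1) (h : t * z * t⁻¹ = z ^ 2) (k : ℕ) :
    z * t ^ k = t ^ k * z ^ (3 ^ k) := by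
  have h0 : t * z ^ 3 = z * t := by
    have h2 : t * z ^ 3 * t⁻¹ = z := by
      rw [← conj_pow, h, ← pow_mul]
      calc z ^ (2 * 3) = z ^ 5 * z := by rw [← pow_succ]
        _ = z := by rw [h5, one_mul]
    calc t * z ^ 3 = (t * z ^ 3 * t⁻¹) * t := by rw [inv_mul_cancel_right]
      _ = z * t := by rw [h2]
  have h1 : ∀ m : ℕ, z ^ m * t = t * z ^ (3 * m) := by
    intro m
    induction m with
    | zero => simp
    | succ m ih =>
      calc z ^ (m + 1) * t = z ^ m * (z * t) := by rw [pow_succ, mul_assoc]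
        _ = z ^ m * t * z ^ 3 := by rw [← h0, mul_assoc]
        _ = t * (z ^ (3 * m) * z ^ 3) := by rw [ih, mul_assoc]
        _ = t * z ^ (3 * (m + 1)) := by rw [← pow_add]; congr 2
  induction k with
  | zero => simp
  | succ k ih =>
    calc z * t ^ (k + 1) = z * t ^ k * t := by rw [pow_succ, mul_assoc]
      _ = t ^ k * (z ^ (3 ^ k) * t) := by rw [ih, mul_assoc]
      _ = t ^ k * t * z ^ (3 * 3 ^ k) := by rw [h1, mul_assoc]
      _ = t ^ (k + 1) * z ^ (3 ^ (k + 1)) := by rw [← pow_succ, pow_succ' 3 k]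

/-- the stabiliser of a place -/
def C6b_H {E : Type} [Field E] [Algebra ℂ E] {G : Type} [Group G] (b : G →* (E ≃ₐ[ℂ] E)) (P : Pl E) :
    Subgroup G where
  carrier := {g | b g • P = P}
  one_mem' := by
    show b 1 • P = P
    rw [map_one, one_smul]
  mul_mem' := by
    intro g h hg hh
    show b (g * h) • P = P
    rw [map_mul, mul_smul, show b h • P = P from hh, show b g • P = P from hg]
  inv_mem' := by
    intro g hg
    show b g⁻¹ • P = P
    rw [map_inv, inv_smul_eq_iff]
    exact (show b g • P = P from hg).symm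

theorem prC6b (h : StCyc) : StC6b := by
  intro E _ _ G _ _ b hb z t hz htz P hP
  have h5 : z ^ 5 = 1 := by rw [← hz]; exact pow_orderOf_eq_one z
  have hzH : z ∈ C6b_H b P := hP
  have hcyc : IsCyclic (C6b_H b P) := by
    refine h E (C6b_H b P) (b.comp (C6b_H b P).subtype) (hb.comp Subtype.val_injective) P ?_
    rintro ⟨g, hg⟩
    exact hg
  have hcomm : ∀ x ∈ C6b_H b P, ∀ y ∈ C6b_H b P, x * y = y * x := by
    intro x hx y hy
    let _ := hcyc.commGroup
    have h1 := mul_comm (⟨x, hx⟩ : C6b_H b P) ⟨y, hy⟩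
    exact congrArg Subtype.val h1
  -- no small power of t fixes P
  have hno : ∀ k : ℕ, 1 ≤ k → k ≤ 3 → b (t ^ k) • P ≠ P := by
    intro k hk1 hk3 hk
    have h1 := hcomm (t ^ k) hk z hzH
    rw [C6b_left htz] at h1
    have h2 : z ^ (2 ^ k) = z := mul_right_cancel h1
    have h3 : z ^ (2 ^ k - 1) = 1 := by
      have h4 : z ^ (2 ^ k - 1) * z = 1 * z := by
        rw [← pow_succ, Nat.sub_add_cancel Nat.one_le_two_pow, h2, one_mul]
      exact mul_right_cancel h4
    have h4 : 5 ∣ 2 ^ k - 1 := by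
      rw [← hz]
      exact orderOf_dvd_of_pow_eq_one h3
    interval_cases k <;> omega
  have key : ∀ i j : ℕ, i < j → j < 4 → b (t ^ i) • P ≠ b (t ^ j) • P := by
    intro i j hij hj heq
    apply hno (j - i) (by omega) (by omega)
    have h1 : t ^ j = t ^ i * t ^ (j - i) := by rw [← pow_add]; congr 1; omega
    rw [h1, map_mul, mul_smul] at heq
    exact (MulAction.injective (b (t ^ i)) heq).symm
  refine ⟨fun i => b (t ^ i.1) • P, ?_, ?_⟩
  · intro i j hij
    rcases lt_trichotomy i.1 j.1 with h1 | h1 | h1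
    · exact absurd hij (key i.1 j.1 h1 j.2)
    · exact Fin.ext h1
    · exact absurd hij.symm (key j.1 i.1 h1 i.2)
  · intro i
    show b z • b (t ^ i.1) • P = b (t ^ i.1) • P
    rw [← mul_smul, ← map_mul, C6b_right h5 htz, map_mul, mul_smul]
    congr 1
    exact (C6b_H b P).pow_mem hzH (3 ^ i.1)

end

end Pool.Agent.Sextic.AD
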