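import Pool.Agent.Work.MP_8e3fb2_ag.AD.Stmts

/-! Block AD, item CS (helper96): sums of class functions over small subgroups of the symmetric
group on six letters. -/

set_option autoImplicit false

namespace Pool.Agent.Sextic.AD

noncomputable section

theorem CS_sum (S : Subgroup (Equiv.Perm (Fin 6))) (l : List (Equiv.Perm (Fin 6)))
    (hl : l.Nodup) (hS : ∀ g, g ∈ S ↔ g ∈ l) (f : Equiv.Perm (Fin 6) → ℂ) :
    ∑ᶠ (t) (_ : t ∈ S), f t = (l.map f).sum := by
  have h : ∀ t, (t ∈ S) = (t ∈ ((l.toFinset : Finset (Equiv.Perm (Fin 6))) :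
      Set (Equiv.Perm (Fin 6)))) := by
    intro t
    rw [Finset.mem_coe, List.mem_toFinset, hS]
  simp only [h]
  rw [finsum_mem_coe_finset, List.sum_toFinset f hl]

theorem CS_conj {X : Equiv.Perm (Fin 6) → ℂ}
    (hX : ∀ g ∈ alternatingGroup (Fin 6), ∀ h, X (g * h * g⁻¹) = X h)
    (g h a : Equiv.Perm (Fin 6)) (hg : Equiv.Perm.sign g = 1) (ha : g * h * g⁻¹ = a) :
    X a = X h := by
  rw [← ha]
  exact hX g (Equiv.Perm.mem_alternatingGroup.2 hg) h

theorem CS_sg1 {t : Equiv.Perm (Fin 6)} (h : Equiv.Perm.sign t = 1) : sg t = 1 := by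
  unfold sg
  rw [h]
  norm_num

theorem CS_sgm {t : Equiv.Perm (Fin 6)} (h : Equiv.Perm.sign t = -1) : sg t = -1 := by
  unfold sg
  rw [h]
  norm_num

def CS_lT6 : List (Equiv.Perm (Fin 6)) :=
  [1,
    Equiv.swap 4 5,
    Equiv.swap 2 3,
    Equiv.swap 2 3 * Equiv.swap 4 5,
    Equiv.swap 0 1,
    Equiv.swap 0 1 * Equiv.swap 4 5,
    Equiv.swap 0 1 * Equiv.swap 2 3,
    Equiv.swap 0 1 * Equiv.swap 2 3 * Equiv.swap 4 5]

theorem CS_ndT6 : CS_lT6.Nodup := by decide +kernel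

theorem CS_memT6 : ∀ g, g ∈ T6 ↔ g ∈ CS_lT6 := by decide +kernel

def CS_lT7 : List (Equiv.Perm (Fin 6)) :=
  [1,
    Equiv.swap 4 5,
    Equiv.swap 0 1 * Equiv.swap 2 3,
    Equiv.swap 0 1 * Equiv.swap 2 3 * Equiv.swap 4 5,
    Equiv.swap 0 2 * Equiv.swap 1 3,
    Equiv.swap 0 2 * Equiv.swap 1 3 * Equiv.swap 4 5,
    Equiv.swap 0 3 * Equiv.swap 1 2,
    Equiv.swap 0 3 * Equiv.swap 1 2 * Equiv.swap 4 5]

theorem CS_ndT7 : CS_lT7.Nodup := by decide +kernel

theorem CS_memT7 : ∀ g, g ∈ T7 ↔ g ∈ CS_lT7 := by decide +kernel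

def CS_lH6 : List (Equiv.Perm (Fin 6)) :=
  [1,
    k2,
    k2 * k2,
    k1,
    k1 * k2,
    k1 * k2 * k2,
    k1 * k1,
    k1 * k1 * k2,
    k1 * k1 * k2 * k2]

theorem CS_ndH6 : CS_lH6.Nodup := by decide +kernel

theorem CS_memH6 : ∀ g, g ∈ H6 ↔ g ∈ CS_lH6 := by decide +kernel

def CS_lE6 : List (Equiv.Perm (Fin 6)) :=
  [1,
    Equiv.swap 2 3 * Equiv.swap 4 5,
    Equiv.swap 0 1 * Equiv.swap 4 5,
    Equiv.swap 0 1 * Equiv.swap 2 3]

theorem CS_ndE6 : CS_lE6.Nodup := by decide +kernel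

theorem CS_auxE6 : ∀ g : Equiv.Perm (Fin 6), (g ∈ T6 ∧ Equiv.Perm.sign g = 1) ↔ g ∈ CS_lE6 := by
  decide +kernel

theorem CS_memE6 : ∀ g, g ∈ T6 ⊓ alternatingGroup (Fin 6) ↔ g ∈ CS_lE6 := by
  intro g
  rw [Subgroup.mem_inf, Equiv.Perm.mem_alternatingGroup]
  exact CS_auxE6 g

def CS_lE7 : List (Equiv.Perm (Fin 6)) :=
  [1,
    Equiv.swap 0 1 * Equiv.swap 2 3,
    Equiv.swap 0 2 * Equiv.swap 1 3,
    Equiv.swap 0 3 * Equiv.swap 1 2]

theorem CS_ndE7 : CS_lE7.Nodup := by decide +kernel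

theorem CS_auxE7 : ∀ g : Equiv.Perm (Fin 6), (g ∈ T7 ∧ Equiv.Perm.sign g = 1) ↔ g ∈ CS_lE7 := by
  decide +kernel

theorem CS_memE7 : ∀ g, g ∈ T7 ⊓ alternatingGroup (Fin 6) ↔ g ∈ CS_lE7 := by
  intro g
  rw [Subgroup.mem_inf, Equiv.Perm.mem_alternatingGroup]
  exact CS_auxE7 g

theorem prCS : StCS := by
  intro X hX d A B C U W Y Z hd hA hB hC hU hW hY hZ
  have x1 : X (1) = d := hd
  have x2 : X (Equiv.swap 4 5) = A := by
    rw [← hA]
    exact CS_conj hX (Equiv.swap 0 4 * Equiv.swap 1 5) _ _ (by decide) (by decide)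
  have x3 : X (Equiv.swap 2 3) = A := by
    rw [← hA]
    exact CS_conj hX (Equiv.swap 0 2 * Equiv.swap 1 3) _ _ (by decide) (by decide)
  have x4 : X (Equiv.swap 2 3 * Equiv.swap 4 5) = B := by
    rw [← hB]
    exact CS_conj hX (Equiv.swap 0 4 * Equiv.swap 1 5) _ _ (by decide) (by decide)
  have x5 : X (Equiv.swap 0 1) = A := hA
  have x6 : X (Equiv.swap 0 1 * Equiv.swap 4 5) = B := by
    rw [← hB]
    exact CS_conj hX (Equiv.swap 2 4 * Equiv.swap 3 5) _ _ (by decide) (by decide)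
  have x7 : X (Equiv.swap 0 1 * Equiv.swap 2 3) = B := hB
  have x8 : X (Equiv.swap 0 1 * Equiv.swap 2 3 * Equiv.swap 4 5) = C := hC
  have x9 : X (Equiv.swap 0 2 * Equiv.swap 1 3) = B := by
    rw [← hB]
    exact CS_conj hX (Equiv.swap 1 2 * Equiv.swap 4 5) _ _ (by decide) (by decide)
  have x10 : X (Equiv.swap 0 2 * Equiv.swap 1 3 * Equiv.swap 4 5) = C := by
    rw [← hC]
    exact CS_conj hX (Equiv.swap 1 2 * Equiv.swap 4 5) _ _ (by decide) (by decide)
  have x11 : X (Equiv.swap 0 3 * Equiv.swap 1 2) = B := by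
    rw [← hB]
    exact CS_conj hX (Equiv.swap 1 3 * Equiv.swap 2 3) _ _ (by decide) (by decide)
  have x12 : X (Equiv.swap 0 3 * Equiv.swap 1 2 * Equiv.swap 4 5) = C := by
    rw [← hC]
    exact CS_conj hX (Equiv.swap 1 3 * Equiv.swap 2 3) _ _ (by decide) (by decide)
  have x13 : X (k2) = U := by
    rw [← hU]
    exact CS_conj hX (Equiv.swap 0 3 * Equiv.swap 1 4 * Equiv.swap 2 5 * Equiv.swap 4 5) _ _ (by decide) (by decide)
  have x14 : X (k2 * k2) = U := by
    rw [← hU]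
    exact CS_conj hX (Equiv.swap 0 3 * Equiv.swap 1 5 * Equiv.swap 2 4 * Equiv.swap 4 5) _ _ (by decide) (by decide)
  have x15 : X (k1) = U := hU
  have x16 : X (k1 * k2) = W := hW
  have x17 : X (k1 * k2 * k2) = W := by
    rw [← hW]
    exact CS_conj hX (Equiv.swap 0 3 * Equiv.swap 1 5 * Equiv.swap 2 4 * Equiv.swap 4 5) _ _ (by decide) (by decide)
  have x18 : X (k1 * k1) = U := by
    rw [← hU]
    exact CS_conj hX (Equiv.swap 1 2 * Equiv.swap 4 5) _ _ (by decide) (by decide)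
  have x19 : X (k1 * k1 * k2) = W := by
    rw [← hW]
    exact CS_conj hX (Equiv.swap 0 3 * Equiv.swap 1 4 * Equiv.swap 2 5 * Equiv.swap 4 5) _ _ (by decide) (by decide)
  have x20 : X (k1 * k1 * k2 * k2) = W := by
    rw [← hW]
    exact CS_conj hX (Equiv.swap 1 2 * Equiv.swap 4 5) _ _ (by decide) (by decide)
  have x21 : X (k3 * 1) = W := by
    rw [← hW]
    exact CS_conj hX (Equiv.swap 0 5 * Equiv.swap 2 3) _ _ (by decide) (by decide)
  have x22 : X (k3 * Equiv.swap 4 5) = Z := by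
    rw [← hZ]
    exact CS_conj hX (Equiv.swap 2 3 * Equiv.swap 4 5) _ _ (by decide) (by decide)
  have x23 : X (k3 * Equiv.swap 2 3) = Z := by
    rw [← hZ]
    exact CS_conj hX (Equiv.swap 0 1 * Equiv.swap 4 5) _ _ (by decide) (by decide)
  have x24 : X (k3 * (Equiv.swap 2 3 * Equiv.swap 4 5)) = W := by
    rw [← hW]
    exact CS_conj hX (Equiv.swap 1 2 * Equiv.swap 2 5) _ _ (by decide) (by decide)
  have x25 : X (k3 * Equiv.swap 0 1) = Z := hZ
  have x26 : X (k3 * (Equiv.swap 0 1 * Equiv.swap 4 5)) = W := by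
    rw [← hW]
    exact CS_conj hX (Equiv.swap 0 4 * Equiv.swap 3 4) _ _ (by decide) (by decide)
  have x27 : X (k3 * (Equiv.swap 0 1 * Equiv.swap 2 3)) = W := by
    rw [← hW]
    exact CS_conj hX (Equiv.swap 1 3 * Equiv.swap 2 4) _ _ (by decide) (by decide)
  have x28 : X (k3 * (Equiv.swap 0 1 * Equiv.swap 2 3 * Equiv.swap 4 5)) = Z := by
    rw [← hZ]
    exact CS_conj hX (Equiv.swap 0 1 * Equiv.swap 2 3) _ _ (by decide) (by decide)
  have x29 : X (k1 * 1) = U := by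
    rw [← hU]
    exact CS_conj hX (1) _ _ (by decide) (by decide)
  have x30 : X (k1 * Equiv.swap 4 5) = Y := hY
  have x31 : X (k1 * (Equiv.swap 0 1 * Equiv.swap 2 3)) = U := by
    rw [← hU]
    exact CS_conj hX (Equiv.swap 1 2 * Equiv.swap 2 3) _ _ (by decide) (by decide)
  have x32 : X (k1 * (Equiv.swap 0 1 * Equiv.swap 2 3 * Equiv.swap 4 5)) = Y := by
    rw [← hY]
    exact CS_conj hX (Equiv.swap 1 2 * Equiv.swap 2 3) _ _ (by decide) (by decide)
  have x33 : X (k1 * (Equiv.swap 0 2 * Equiv.swap 1 3)) = U := by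
    rw [← hU]
    exact CS_conj hX (Equiv.swap 0 1 * Equiv.swap 1 3) _ _ (by decide) (by decide)
  have x34 : X (k1 * (Equiv.swap 0 2 * Equiv.swap 1 3 * Equiv.swap 4 5)) = Y := by
    rw [← hY]
    exact CS_conj hX (Equiv.swap 0 1 * Equiv.swap 1 3) _ _ (by decide) (by decide)
  have x35 : X (k1 * (Equiv.swap 0 3 * Equiv.swap 1 2)) = U := by
    rw [← hU]
    exact CS_conj hX (Equiv.swap 1 3 * Equiv.swap 2 3) _ _ (by decide) (by decide)
  have x36 : X (k1 * (Equiv.swap 0 3 * Equiv.swap 1 2 * Equiv.swap 4 5)) = Y := by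
    rw [← hY]
    exact CS_conj hX (Equiv.swap 1 3 * Equiv.swap 2 3) _ _ (by decide) (by decide)
  have s1 : sg (1) = 1 := CS_sg1 (by decide)
  have s2 : sg (Equiv.swap 4 5) = -1 := CS_sgm (by decide)
  have s3 : sg (Equiv.swap 2 3) = -1 := CS_sgm (by decide)
  have s4 : sg (Equiv.swap 2 3 * Equiv.swap 4 5) = 1 := CS_sg1 (by decide)
  have s5 : sg (Equiv.swap 0 1) = -1 := CS_sgm (by decide)
  have s6 : sg (Equiv.swap 0 1 * Equiv.swap 4 5) = 1 := CS_sg1 (by decide)
  have s7 : sg (Equiv.swap 0 1 * Equiv.swap 2 3) = 1 := CS_sg1 (by decide)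
  have s8 : sg (Equiv.swap 0 1 * Equiv.swap 2 3 * Equiv.swap 4 5) = -1 := CS_sgm (by decide)
  have s9 : sg (Equiv.swap 0 2 * Equiv.swap 1 3) = 1 := CS_sg1 (by decide)
  have s10 : sg (Equiv.swap 0 2 * Equiv.swap 1 3 * Equiv.swap 4 5) = -1 := CS_sgm (by decide)
  have s11 : sg (Equiv.swap 0 3 * Equiv.swap 1 2) = 1 := CS_sg1 (by decide)
  have s12 : sg (Equiv.swap 0 3 * Equiv.swap 1 2 * Equiv.swap 4 5) = -1 := CS_sgm (by decide)
  refine ⟨?_, ?_, ?_, ?_, ?_, ?_, ?_, ?_, ?_, ?_, ?_, ?_, ?_, ?_, ?_⟩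
  · refine (CS_sum (T6) CS_lT6 CS_ndT6 CS_memT6 (fun t => X t)).trans ?_
    unfold CS_lT6
    simp only [List.map_cons, List.map_nil, List.sum_cons, List.sum_nil]
    rw [x1,
      x2,
      x3,
      x4,
      x5,
      x6,
      x7,
      x8]
    ring
  · refine (CS_sum (T6) CS_lT6 CS_ndT6 CS_memT6 (fun t => sg t * X t)).trans ?_
    unfold CS_lT6
    simp only [List.map_cons, List.map_nil, List.sum_cons, List.sum_nil]
    rw [s1,
      x1,
      s2,
      x2,
      s3,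
      x3,
      s4,
      x4,
      s5,
      x5,
      s6,
      x6,
      s7,
      x7,
      s8,
      x8]
    ring
  · refine (CS_sum (T6) CS_lT6 CS_ndT6 CS_memT6 (fun t => (if t 0 = 0 then 1 else -1) * X t)).trans ?_
    unfold CS_lT6
    simp only [List.map_cons, List.map_nil, List.sum_cons, List.sum_nil]
    rw [if_pos (show ((1 : Equiv.Perm (Fin 6)) 0 = 0) by decide),
      x1,
      if_pos (show ((Equiv.swap 4 5 : Equiv.Perm (Fin 6)) 0 = 0) by decide),
      x2,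
      if_pos (show ((Equiv.swap 2 3 : Equiv.Perm (Fin 6)) 0 = 0) by decide),
      x3,
      if_pos (show ((Equiv.swap 2 3 * Equiv.swap 4 5 : Equiv.Perm (Fin 6)) 0 = 0) by decide),
      x4,
      if_neg (show ¬ ((Equiv.swap 0 1 : Equiv.Perm (Fin 6)) 0 = 0) by decide),
      x5,
      if_neg (show ¬ ((Equiv.swap 0 1 * Equiv.swap 4 5 : Equiv.Perm (Fin 6)) 0 = 0) by decide),
      x6,
      if_neg (show ¬ ((Equiv.swap 0 1 * Equiv.swap 2 3 : Equiv.Perm (Fin 6)) 0 = 0) by decide),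
      x7,
      if_neg (show ¬ ((Equiv.swap 0 1 * Equiv.swap 2 3 * Equiv.swap 4 5 : Equiv.Perm (Fin 6)) 0 = 0) by decide),
      x8]
    ring
  · refine (CS_sum (T6) CS_lT6 CS_ndT6 CS_memT6 (fun t => X (k3 * t))).trans ?_
    unfold CS_lT6
    simp only [List.map_cons, List.map_nil, List.sum_cons, List.sum_nil]
    rw [x21,
      x22,
      x23,
      x24,
      x25,
      x26,
      x27,
      x28]
    ring
  · refine (CS_sum (T6) CS_lT6 CS_ndT6 CS_memT6 (fun t => sg t * X (k3 * t))).trans ?_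
    unfold CS_lT6
    simp only [List.map_cons, List.map_nil, List.sum_cons, List.sum_nil]
    rw [s1,
      x21,
      s2,
      x22,
      s3,
      x23,
      s4,
      x24,
      s5,
      x25,
      s6,
      x26,
      s7,
      x27,
      s8,
      x28]
    ring
  · refine (CS_sum (T7) CS_lT7 CS_ndT7 CS_memT7 (fun t => X t)).trans ?_
    unfold CS_lT7
    simp only [List.map_cons, List.map_nil, List.sum_cons, List.sum_nil]
    rw [x1,
      x2,
      x7,
      x8,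
      x9,
      x10,
      x11,
      x12]
    ring
  · refine (CS_sum (T7) CS_lT7 CS_ndT7 CS_memT7 (fun t => sg t * X t)).trans ?_
    unfold CS_lT7
    simp only [List.map_cons, List.map_nil, List.sum_cons, List.sum_nil]
    rw [s1,
      x1,
      s2,
      x2,
      s7,
      x7,
      s8,
      x8,
      s9,
      x9,
      s10,
      x10,
      s11,
      x11,
      s12,
      x12]
    ring
  · refine (CS_sum (T7) CS_lT7 CS_ndT7 CS_memT7 (fun t => X (k1 * t))).trans ?_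
    unfold CS_lT7
    simp only [List.map_cons, List.map_nil, List.sum_cons, List.sum_nil]
    rw [x29,
      x30,
      x31,
      x32,
      x33,
      x34,
      x35,
      x36]
    ring
  · refine (CS_sum (T7) CS_lT7 CS_ndT7 CS_memT7 (fun t => sg t * X (k1 * t))).trans ?_
    unfold CS_lT7
    simp only [List.map_cons, List.map_nil, List.sum_cons, List.sum_nil]
    rw [s1,
      x29,
      s2,
      x30,
      s7,
      x31,
      s8,
      x32,
      s9,
      x33,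
      s10,
      x34,
      s11,
      x35,
      s12,
      x36]
    ring
  · refine (CS_sum (H6) CS_lH6 CS_ndH6 CS_memH6 (fun t => X t)).trans ?_
    unfold CS_lH6
    simp only [List.map_cons, List.map_nil, List.sum_cons, List.sum_nil]
    rw [x1,
      x13,
      x14,
      x15,
      x16,
      x17,
      x18,
      x19,
      x20]
    ring
  · refine (CS_sum (T6 ⊓ alternatingGroup (Fin 6)) CS_lE6 CS_ndE6 CS_memE6 (fun t => X t)).trans ?_
    unfold CS_lE6
    simp only [List.map_cons, List.map_nil, List.sum_cons, List.sum_nil]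
    rw [x1,
      x4,
      x6,
      x7]
    ring
  · refine (CS_sum (T6 ⊓ alternatingGroup (Fin 6)) CS_lE6 CS_ndE6 CS_memE6 (fun t => X (k3 * t))).trans ?_
    unfold CS_lE6
    simp only [List.map_cons, List.map_nil, List.sum_cons, List.sum_nil]
    rw [x21,
      x24,
      x26,
      x27]
    ring
  · refine (CS_sum (T7 ⊓ alternatingGroup (Fin 6)) CS_lE7 CS_ndE7 CS_memE7 (fun t => X t)).trans ?_
    unfold CS_lE7
    simp only [List.map_cons, List.map_nil, List.sum_cons, List.sum_nil]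
    rw [x1,
      x7,
      x9,
      x11]
    ring
  · refine (CS_sum (T7 ⊓ alternatingGroup (Fin 6)) CS_lE7 CS_ndE7 CS_memE7 (fun t => X (k1 * t))).trans ?_
    unfold CS_lE7
    simp only [List.map_cons, List.map_nil, List.sum_cons, List.sum_nil]
    rw [x29,
      x31,
      x33,
      x35]
    ring
  · refine (CS_sum (T7 ⊓ alternatingGroup (Fin 6)) CS_lE7 CS_ndE7 CS_memE7 (fun t => (if t 0 = 0 ∨ t 0 = 1 then 1 else -1) * X t)).trans ?_
    unfold CS_lE7
    simp only [List.map_cons, List.map_nil, List.sum_cons, List.sum_nil]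
    rw [if_pos (show ((1 : Equiv.Perm (Fin 6)) 0 = 0 ∨ (1 : Equiv.Perm (Fin 6)) 0 = 1) by decide),
      x1,
      if_pos (show ((Equiv.swap 0 1 * Equiv.swap 2 3 : Equiv.Perm (Fin 6)) 0 = 0 ∨ (Equiv.swap 0 1 * Equiv.swap 2 3 : Equiv.Perm (Fin 6)) 0 = 1) by decide),
      x7,
      if_neg (show ¬ ((Equiv.swap 0 2 * Equiv.swap 1 3 : Equiv.Perm (Fin 6)) 0 = 0 ∨ (Equiv.swap 0 2 * Equiv.swap 1 3 : Equiv.Perm (Fin 6)) 0 = 1) by decide),
      x9,
      if_neg (show ¬ ((Equiv.swap 0 3 * Equiv.swap 1 2 : Equiv.Perm (Fin 6)) 0 = 0 ∨ (Equiv.swap 0 3 * Equiv.swap 1 2 : Equiv.Perm (Fin 6)) 0 = 1) by decide),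
      x11]
    ring

end

end Pool.Agent.Sextic.AD
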