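import Pool.Agent.Work.MP_8e3fb2_ag.AD.Stmts

set_option autoImplicit false

/-!
# The accessory degree of the sextic, item Card (helper37)
-/

namespace Pool.Agent.Sextic.AD

theorem Card_aux (p : Equiv.Perm (Fin 6) → Prop) [DecidablePred p]
    (S : Subgroup (Equiv.Perm (Fin 6))) (h : ∀ g, g ∈ S ↔ p g) :
    Nat.card S = (Finset.univ.filter p).card := by
  rw [Nat.card_congr (Equiv.subtypeEquivRight h), Nat.card_eq_fintype_card, Fintype.card_subtype]

theorem Card_inf (S : Subgroup (Equiv.Perm (Fin 6))) (g : Equiv.Perm (Fin 6)) :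
    g ∈ S ⊓ alternatingGroup (Fin 6) ↔ g ∈ S ∧ Equiv.Perm.sign g = 1 := by
  rw [Subgroup.mem_inf, Equiv.Perm.mem_alternatingGroup]

theorem prCard : StCard := by
  refine ⟨?_, ?_, ?_, ?_, ?_, ?_, ?_, ?_, ?_, ?_, ?_⟩
  · rw [Card_aux (· ∈ T6) T6 (fun _ => Iff.rfl)]
    decide +kernel
  · rw [Card_aux (· ∈ T7) T7 (fun _ => Iff.rfl)]
    decide +kernel
  · rw [Card_aux (· ∈ H6) H6 (fun _ => Iff.rfl)]
    decide +kernel
  · rw [Card_aux (· ∈ N6) N6 (fun _ => Iff.rfl)]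
    decide +kernel
  · rw [Card_aux (· ∈ NT) NT (fun _ => Iff.rfl)]
    decide +kernel
  · rw [Card_aux (· ∈ NH) NH (fun _ => Iff.rfl)]
    decide +kernel
  · rw [Card_aux (fun g => g ∈ T6 ∧ Equiv.Perm.sign g = 1) _ (Card_inf T6)]
    decide +kernel
  · rw [Card_aux (fun g => g ∈ T7 ∧ Equiv.Perm.sign g = 1) _ (Card_inf T7)]
    decide +kernel
  · rw [Card_aux (fun g => g ∈ N6 ∧ Equiv.Perm.sign g = 1) _ (Card_inf N6)]
    decide +kernel
  · rw [Card_aux (fun g => g ∈ NT ∧ Equiv.Perm.sign g = 1) _ (Card_inf NT)]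
    decide +kernel
  · intro g hg
    rw [Equiv.Perm.mem_alternatingGroup]
    revert g
    decide +kernel

end Pool.Agent.Sextic.AD
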