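import Pool.Agent.Work.MP_8e3fb2_ag.AD.Stmts

set_option autoImplicit false

/-!
# Item Case: the cases
-/

namespace Pool.Agent.Sextic.AD

noncomputable section

theorem prCase (h1 : StTw) (h2 : StDiv) (h3 : StC1) (h4 : StC2) (h5 : StC6) (h6 : StC12)
    (h7 : StIdx) (h8 : StG6) : StCase := by
  intro E _ _ G b S hE hb
  have k1 := h1 E G b S hE hb
  have k2 := (h2 E G b S hE).1
  by_contra hlt
  rw [not_le] at hlt
  have hi : 0 < G.index := Nat.pos_of_ne_zero Subgroup.index_ne_zero_of_finite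
  obtain ⟨d, hd⟩ : ∃ d : ℕ, S.deg = d := ⟨S.deg.toNat, (Int.toNat_of_nonneg k2.le).symm⟩
  rw [hd] at k1 k2 hlt
  have k1' : 12 ∣ G.index * d := by exact_mod_cast k1
  have k2' : 0 < d := by exact_mod_cast k2
  have hlt' : G.index * d < 24 := by exact_mod_cast hlt
  have e : G.index * d = 12 := by
    obtain ⟨c, hc⟩ := k1'
    have : 0 < G.index * d := Nat.mul_pos hi k2'
    have hc1 : c = 1 := by omega
    rw [hc, hc1]
  have hdvd : G.index ∣ 12 := ⟨d, e.symm⟩
  have hle : G.index ≤ 12 := Nat.le_of_dvd (by norm_num) hdvd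
  have hcard : Nat.card G * G.index = 720 := by
    rw [Subgroup.card_mul_index, Nat.card_eq_fintype_card, Fintype.card_perm, Fintype.card_fin]
    rfl
  obtain ⟨h73, h74⟩ := h7 G
  have hcases : G.index = 1 ∨ G.index = 2 ∨ G.index = 6 ∨ G.index = 12 := by
    generalize G.index = m at *
    interval_cases m <;> simp_all
  rcases hcases with hm | hm | hm | hm
  · rw [hm] at e
    refine h3 E G b S hE hb (Subgroup.index_eq_one.1 hm) ?_
    rw [hd]
    exact_mod_cast (by omega : d = 12)
  · rw [hm] at e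
    refine h4 E G b S hE hb (Equiv.Perm.eq_alternatingGroup_of_index_eq_two hm) ?_
    rw [hd]
    exact_mod_cast (by omega : d = 6)
  · rw [hm] at e
    obtain ⟨z, hz, t, ht, hz5, htz⟩ := h8 G hm
    refine h5 E G b S hE hb ⟨z, hz⟩ ⟨t, ht⟩ ?_ ?_ ?_
    · rw [← hz5]
      exact Subgroup.orderOf_mk z hz
    · ext1
      exact htz
    · rw [hd]
      exact_mod_cast (by omega : d = 2)
  · rw [hm] at e hcard
    refine h6 E G b S hE hb (by omega) ?_
    rw [hd]
    exact_mod_cast (by omega : d = 1)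

end

end Pool.Agent.Sextic.AD
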