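import Pool.Agent.Work.MP_8e3fb2_ag.AD.Stmts

set_option autoImplicit false

/-!
# Item Coc: the cocycle of the irreducible relation
-/

namespace Pool.Agent.Sextic.AD

open IntermediateField

noncomputable section

section

variable {n : ℕ} {G : Subgroup (Equiv.Perm (Fin n))} {M : Type} [Field M] [Algebra ℂ M]
  {E : IntermediateField ℂ M}

/-- the action on the coefficients -/
def Coc_b (d : Dat n G M E) (g : G) : E →+* E := (d.b g).toAlgHom.toRingHom

theorem Coc_b_apply (d : Dat n G M E) (g : G) (c : E) : Coc_b d g c = d.b g c := rfl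

/-- the semilinear action on polynomials -/
def Coc_T (d : Dat n G M E) (g : G) : MvPolynomial (Fin n) E →+* MvPolynomial (Fin n) E :=
  (MvPolynomial.rename (R := E) g.1).toRingHom.comp (MvPolynomial.map (Coc_b d g))

theorem Coc_T_apply (d : Dat n G M E) (g : G) (p : MvPolynomial (Fin n) E) :
    Coc_T d g p = MvPolynomial.rename g.1 (MvPolynomial.map (Coc_b d g) p) := rfl

theorem Coc_T_C (d : Dat n G M E) (g : G) (c : E) :
    Coc_T d g (MvPolynomial.C c) = MvPolynomial.C (d.b g c) := by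
  rw [Coc_T_apply, MvPolynomial.map_C, MvPolynomial.rename_C, Coc_b_apply]

theorem Coc_T_X (d : Dat n G M E) (g : G) (i : Fin n) :
    Coc_T d g (MvPolynomial.X i) = MvPolynomial.X (g.1 i) := by
  rw [Coc_T_apply, MvPolynomial.map_X, MvPolynomial.rename_X]

theorem Coc_aeval (d : Dat n G M E) (g : G) (p : MvPolynomial (Fin n) E) :
    MvPolynomial.aeval d.x (Coc_T d g p) = d.a g (MvPolynomial.aeval d.x p) := by
  have h : ((MvPolynomial.aeval d.x : MvPolynomial (Fin n) E →ₐ[E] M) :
        MvPolynomial (Fin n) E →+* M).comp (Coc_T d g) =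
      ((d.a g).toAlgHom.toRingHom).comp
        ((MvPolynomial.aeval d.x : MvPolynomial (Fin n) E →ₐ[E] M) : MvPolynomial (Fin n) E →+* M) := by
    apply MvPolynomial.ringHom_ext
    · intro c
      show MvPolynomial.aeval d.x (Coc_T d g (MvPolynomial.C c)) =
        d.a g (MvPolynomial.aeval d.x (MvPolynomial.C c))
      rw [Coc_T_C, MvPolynomial.aeval_C, MvPolynomial.aeval_C]
      exact d.b_val g c
    · intro i
      show MvPolynomial.aeval d.x (Coc_T d g (MvPolynomial.X i)) =
        d.a g (MvPolynomial.aeval d.x (MvPolynomial.X i))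
      rw [Coc_T_X, MvPolynomial.aeval_X, MvPolynomial.aeval_X, d.ax]
  exact congrArg (fun f : MvPolynomial (Fin n) E →+* M => f p) h

theorem Coc_T_mul (d : Dat n G M E) (g h : G) (p : MvPolynomial (Fin n) E) :
    Coc_T d (g * h) p = Coc_T d g (Coc_T d h p) := by
  have e : Coc_T d (g * h) = (Coc_T d g).comp (Coc_T d h) := by
    apply MvPolynomial.ringHom_ext
    · intro c
      rw [RingHom.comp_apply, Coc_T_C, Coc_T_C, Coc_T_C, map_mul]
      rfl
    · intro i
      rw [RingHom.comp_apply, Coc_T_X, Coc_T_X, Coc_T_X]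
      rfl
  rw [e, RingHom.comp_apply]

theorem Coc_T_one (d : Dat n G M E) (p : MvPolynomial (Fin n) E) : Coc_T d 1 p = p := by
  have e : Coc_T d 1 = RingHom.id _ := by
    apply MvPolynomial.ringHom_ext
    · intro c
      rw [RingHom.id_apply, Coc_T_C, map_one]
      rfl
    · intro i
      rw [RingHom.id_apply, Coc_T_X]
      rfl
  rw [e, RingHom.id_apply]

end

theorem prCoc : StCoc := by
  intro n G M _ _ E d φ hφ hker
  have h0 : MvPolynomial.aeval d.x φ = 0 := (hker φ).2 dvd_rfl
  have h1 : ∀ g : G, φ ∣ Coc_T d g φ := fun g => by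
    rw [← hker, Coc_aeval, h0, map_zero]
  have h2 : ∀ g : G, Coc_T d g φ ∣ φ := fun g => by
    have h3 := map_dvd (Coc_T d g) (h1 g⁻¹)
    rwa [← Coc_T_mul, mul_inv_cancel, Coc_T_one] at h3
  have h3 : ∀ g : G, ∃ c : E, c ≠ 0 ∧ Coc_T d g φ = MvPolynomial.C c * φ := by
    intro g
    obtain ⟨u, hu⟩ := associated_of_dvd_dvd (h1 g) (h2 g)
    obtain ⟨r, hr, hur⟩ := MvPolynomial.isUnit_iff_eq_C_of_isReduced.1 u.isUnit
    refine ⟨r, hr.ne_zero, ?_⟩
    rw [← hu, hur, mul_comm]
  choose e he0 he using h3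
  refine ⟨e, he0, ?_, ?_⟩
  · intro g h
    have h4 : MvPolynomial.C (e (g * h)) * φ = MvPolynomial.C (e g * d.b g (e h)) * φ := by
      rw [← he, Coc_T_mul, he h, map_mul, Coc_T_C, he g, MvPolynomial.C_mul]
      ring
    exact MvPolynomial.C_injective _ _ (mul_right_cancel₀ hφ h4)
  · intro g α
    have h4 := congrArg (MvPolynomial.coeff (α.mapDomain g.1)) (he g)
    rw [Coc_T_apply, MvPolynomial.coeff_rename_mapDomain _ g.1.injective, MvPolynomial.coeff_map,
      MvPolynomial.coeff_C_mul] at h4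
    exact h4

end

end Pool.Agent.Sextic.AD
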