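import Pool.Agent.Work.MP_8e3fb2_ag.AD.Stmts

set_option autoImplicit false

/-!
# Item Con: points on a conic
-/

namespace Pool.Agent.Sextic.AD

open IntermediateField

/-- A field generated by two algebraically dependent elements. -/
private theorem Con_aux {M : Type} [Field M] [Algebra ℂ M] (a b : M)
    (h : ¬ AlgebraicIndependent ℂ ![a, b]) :
    Algebra.trdeg ℂ (IntermediateField.adjoin ℂ {a, b}) ≤ 1 := by
  classical
  obtain ⟨E, hE⟩ : ∃ E, E = IntermediateField.adjoin ℂ ({a, b} : Set M) := ⟨_, rfl⟩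
  rw [← hE]
  have ha : a ∈ E := hE ▸ IntermediateField.subset_adjoin _ _ (by simp)
  have hb : b ∈ E := hE ▸ IntermediateField.subset_adjoin _ _ (by simp)
  obtain ⟨a', ha'⟩ : ∃ a' : E, a' = ⟨a, ha⟩ := ⟨_, rfl⟩
  obtain ⟨b', hb'⟩ : ∃ b' : E, b' = ⟨b, hb⟩ := ⟨_, rfl⟩
  have hmap : (Algebra.adjoin ℂ ({a', b'} : Set E)).map E.val = Algebra.adjoin ℂ {a, b} := by
    rw [AlgHom.map_adjoin, Set.image_pair, ha', hb']
    rfl
  have hlift : ∀ r ∈ Algebra.adjoin ℂ ({a, b} : Set M), ∃ r' : Algebra.adjoin ℂ ({a', b'} : Set E),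
      ((r' : E) : M) = r := by
    intro r hr
    rw [← hmap] at hr
    obtain ⟨r', hr', h1⟩ := hr
    exact ⟨⟨r', hr'⟩, h1⟩
  have halg : Algebra.IsAlgebraic (Algebra.adjoin ℂ ({a', b'} : Set E)) E := by
    refine ⟨fun y => ?_⟩
    have hy : (y : M) ∈ IntermediateField.adjoin ℂ ({a, b} : Set M) := hE ▸ y.2
    obtain ⟨r, hr, s, hs, h1⟩ := IntermediateField.mem_adjoin_iff_div.1 hy
    obtain ⟨r', hr'⟩ := hlift r hr
    obtain ⟨s', hs'⟩ := hlift s hs
    have h2 : y = algebraMap _ E r' * (algebraMap _ E s')⁻¹ := by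
      apply Subtype.ext
      rw [h1, ← hr', ← hs', div_eq_mul_inv]
      rfl
    rw [h2]
    exact (isAlgebraic_algebraMap r').mul (isAlgebraic_algebraMap s').inv
  obtain ⟨t, hts, ht⟩ := exists_isTranscendenceBasis_subset (R := ℂ) ({a', b'} : Set E)
  rw [← ht.cardinalMk_eq_trdeg, Cardinal.mk_le_one_iff_set_subsingleton]
  intro x hx y hy
  by_contra hne
  apply h
  have hab : a' ∈ t ∧ b' ∈ t := by
    rcases hts hx with h1 | h1
    · rcases hts hy with h2 | h2
      · exact absurd (h1.trans h2.symm) hne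
      · have h2' : y = b' := h2
        exact ⟨h1 ▸ hx, h2' ▸ hy⟩
    · have h1' : x = b' := h1
      rcases hts hy with h2 | h2
      · exact ⟨h2 ▸ hy, h1' ▸ hx⟩
      · have h2' : y = b' := h2
        exact absurd (h1'.trans h2'.symm) hne
  have hab' : a' ≠ b' := by
    intro h1
    rcases hts hx with h2 | h2
    · rcases hts hy with h3 | h3
      · exact hne (h2.trans h3.symm)
      · have h3' : y = b' := h3
        exact hne (h2.trans (h1.trans h3'.symm))
    · have h2' : x = b' := h2
      rcases hts hy with h3 | h3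
      · exact hne (h2'.trans (h1.symm.trans h3.symm))
      · have h3' : y = b' := h3
        exact hne (h2'.trans h3'.symm)
  let f : Fin 2 → t := ![⟨a', hab.1⟩, ⟨b', hab.2⟩]
  have hf : Function.Injective f := by
    intro i j hij
    fin_cases i <;> fin_cases j <;> simp_all [f]
  have h1 := (ht.1.comp f hf).map' (f := E.val) Subtype.val_injective
  have h2 : (E.val ∘ (fun x : t => (x : E)) ∘ f : Fin 2 → M) = ![a, b] := by
    funext i
    fin_cases i
    · show ((a' : E) : M) = a
      rw [ha']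
    · show ((b' : E) : M) = b
      rw [hb']
  rw [← h2]
  exact h1

/-- A quadratic form which vanishes on an affine plane away from the origin is zero. -/
private theorem Con_quad (Q : Matrix (Fin 3) (Fin 3) ℂ) (hQT : Q.transpose = Q) (i₀ : Fin 3)
    (h : ∀ x : Fin 3 → ℂ, x i₀ = 1 → ∑ i, ∑ j, Q i j * (x i * x j) = 0) : Q = 0 := by
  have hs : ∀ i j, Q i j = Q j i := fun i j => congrFun (congrFun hQT j) i
  have h01 := hs 1 0
  have h02 := hs 2 0
  have h12 := hs 2 1
  simp only [Fin.sum_univ_three] at h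
  fin_cases i₀
  · have e1 := h ![1, 0, 0] rfl
    have e2 := h ![1, 1, 0] rfl
    have e3 := h ![1, -1, 0] rfl
    have e4 := h ![1, 0, 1] rfl
    have e5 := h ![1, 0, -1] rfl
    have e6 := h ![1, 1, 1] rfl
    simp [h01, h02, h12] at e1 e2 e3 e4 e5 e6
    have q00 : Q 0 0 = 0 := e1
    have q11 : Q 1 1 = 0 := by linear_combination (e2 + e3) / 2 - q00
    have q01 : Q 0 1 = 0 := by linear_combination (e2 - e3) / 4
    have q22 : Q 2 2 = 0 := by linear_combination (e4 + e5) / 2 - q00
    have q02 : Q 0 2 = 0 := by linear_combination (e4 - e5) / 4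
    have q12 : Q 1 2 = 0 := by
      linear_combination e6 / 2 - q00 / 2 - q11 / 2 - q22 / 2 - q01 - q02
    have q10 : Q 1 0 = 0 := h01.trans q01
    have q20 : Q 2 0 = 0 := h02.trans q02
    have q21 : Q 2 1 = 0 := h12.trans q12
    clear e1 e2 e3 e4 e5 e6 h h01 h02 h12 hs hQT
    ext i j
    fin_cases i <;> fin_cases j <;> simp_all
  · have e1 := h ![0, 1, 0] rfl
    have e2 := h ![1, 1, 0] rfl
    have e3 := h ![-1, 1, 0] rfl
    have e4 := h ![0, 1, 1] rfl
    have e5 := h ![0, 1, -1] rfl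
    have e6 := h ![1, 1, 1] rfl
    simp [h01, h02, h12] at e1 e2 e3 e4 e5 e6
    have q11 : Q 1 1 = 0 := e1
    have q00 : Q 0 0 = 0 := by linear_combination (e2 + e3) / 2 - q11
    have q01 : Q 0 1 = 0 := by linear_combination (e2 - e3) / 4
    have q22 : Q 2 2 = 0 := by linear_combination (e4 + e5) / 2 - q11
    have q12 : Q 1 2 = 0 := by linear_combination (e4 - e5) / 4
    have q02 : Q 0 2 = 0 := by
      linear_combination e6 / 2 - q00 / 2 - q11 / 2 - q22 / 2 - q01 - q12
    have q10 : Q 1 0 = 0 := h01.trans q01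
    have q20 : Q 2 0 = 0 := h02.trans q02
    have q21 : Q 2 1 = 0 := h12.trans q12
    clear e1 e2 e3 e4 e5 e6 h h01 h02 h12 hs hQT
    ext i j
    fin_cases i <;> fin_cases j <;> simp_all
  · have e1 := h ![0, 0, 1] rfl
    have e2 := h ![1, 0, 1] rfl
    have e3 := h ![-1, 0, 1] rfl
    have e4 := h ![0, 1, 1] rfl
    have e5 := h ![0, -1, 1] rfl
    have e6 := h ![1, 1, 1] rfl
    simp [h01, h02, h12] at e1 e2 e3 e4 e5 e6
    have q22 : Q 2 2 = 0 := e1
    have q00 : Q 0 0 = 0 := by linear_combination (e2 + e3) / 2 - q22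
    have q02 : Q 0 2 = 0 := by linear_combination (e2 - e3) / 4
    have q11 : Q 1 1 = 0 := by linear_combination (e4 + e5) / 2 - q22
    have q12 : Q 1 2 = 0 := by linear_combination (e4 - e5) / 4
    have q01 : Q 0 1 = 0 := by
      linear_combination e6 / 2 - q00 / 2 - q11 / 2 - q22 / 2 - q02 - q12
    have q10 : Q 1 0 = 0 := h01.trans q01
    have q20 : Q 2 0 = 0 := h02.trans q02
    have q21 : Q 2 1 = 0 := h12.trans q12
    clear e1 e2 e3 e4 e5 e6 h h01 h02 h12 hs hQT
    ext i j
    fin_cases i <;> fin_cases j <;> simp_all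

theorem prCon : StCon := by
  classical
  intro M _ _ Q v hQT hQ hv hq
  obtain ⟨i₀, hi₀⟩ : ∃ i, v i ≠ 0 := by
    by_contra hcon
    push Not at hcon
    exact hv (funext hcon)
  -- the two other indices
  obtain ⟨j, k, hj, hk, hjk, hall⟩ : ∃ j k : Fin 3, j ≠ i₀ ∧ k ≠ i₀ ∧ j ≠ k ∧
      ∀ i, i = i₀ ∨ i = j ∨ i = k := by
    clear hi₀
    revert i₀
    decide
  have hle : IntermediateField.adjoin ℂ {y : M | ∃ i j, y = v i / v j} ≤
      IntermediateField.adjoin ℂ {v j / v i₀, v k / v i₀} := by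
    rw [IntermediateField.adjoin_le_iff]
    have h1 : ∀ i, v i / v i₀ ∈ IntermediateField.adjoin ℂ ({v j / v i₀, v k / v i₀} : Set M) := by
      intro i
      rcases hall i with h | h | h
      · rw [h, div_self hi₀]; exact one_mem _
      · rw [h]; exact IntermediateField.subset_adjoin _ _ (by simp)
      · rw [h]; exact IntermediateField.subset_adjoin _ _ (by simp)
    rintro _ ⟨i, l, rfl⟩
    have h2 : v i / v l = (v i / v i₀) / (v l / v i₀) := by
      rw [div_div_div_cancel_right₀ hi₀]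
    rw [h2]
    exact div_mem (h1 i) (h1 l)
  refine (trdeg_le_of_injective (IntermediateField.inclusion hle)
    (IntermediateField.inclusion_injective _)).trans (Con_aux _ _ ?_)
  intro hind
  apply hQ
  apply Con_quad Q hQT i₀
  intro x hx
  -- the polynomial relation
  let p : Fin 3 → MvPolynomial (Fin 2) ℂ := fun i =>
    if i = i₀ then 1 else if i = j then MvPolynomial.X 0 else MvPolynomial.X 1
  let q : MvPolynomial (Fin 2) ℂ := ∑ i, ∑ l, MvPolynomial.C (Q i l) * (p i * p l)
  have hp : ∀ i, MvPolynomial.aeval ![v j / v i₀, v k / v i₀] (p i) = v i / v i₀ := by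
    intro i
    rcases hall i with h | h | h
    · simp [p, h, div_self hi₀]
    · simp [p, h, hj]
    · simp [p, h, hk, hjk.symm]
  have hq0 : q = 0 := by
    apply hind
    rw [map_zero]
    have h3 : MvPolynomial.aeval ![v j / v i₀, v k / v i₀] q =
        (∑ i, ∑ l, algebraMap ℂ M (Q i l) * (v i * v l)) / (v i₀ * v i₀) := by
      rw [map_sum, Finset.sum_div]
      refine Finset.sum_congr rfl (fun i _ => ?_)
      rw [map_sum, Finset.sum_div]
      refine Finset.sum_congr rfl (fun l _ => ?_)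
      rw [map_mul, map_mul, hp, hp, MvPolynomial.aeval_C, div_mul_div_comm, ← mul_div_assoc]
    rw [h3, hq, zero_div]
  have h4 : MvPolynomial.eval ![x j, x k] q = 0 := by rw [hq0, map_zero]
  have hpe : ∀ i, MvPolynomial.eval ![x j, x k] (p i) = x i := by
    intro i
    rcases hall i with h | h | h
    · simp [p, h, hx]
    · simp [p, h, hj]
    · simp [p, h, hk, hjk.symm]
  rw [← h4, map_sum]
  refine Finset.sum_congr rfl (fun i _ => ?_)
  rw [map_sum]
  refine Finset.sum_congr rfl (fun l _ => ?_)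
  rw [map_mul, map_mul, hpe, hpe, MvPolynomial.eval_C]

end Pool.Agent.Sextic.AD
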