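import Pool.Agent.Work.MP_8e3fb2_ag.AD.PlAux

set_option autoImplicit false

/-!
# Item Cyc: stabilisers of places are cyclic
-/

namespace Pool.Agent.Sextic.AD

open IntermediateField

/-- If `σ` has finite order, fixes `P` and `σ u / u` has residue one for a uniformizer, then it is the
identity. -/
private theorem Cyc_key {E : Type} [Field E] [Algebra ℂ E] {σ : E ≃ₐ[ℂ] E} {P : Pl E}
    (h : σ • P = P) (N : ℕ) (hN0 : N ≠ 0) (hN : σ ^ N = 1) (u : E) (hu0 : u ≠ 0) (hu : P.1 u = 1)
    (hres : Pl.Rs P (σ u / u) 1) : σ = 1 := by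
  ext y
  rw [AlgEquiv.one_apply]
  by_contra hne
  obtain ⟨w, hw⟩ : ∃ w, w = σ y - y := ⟨_, rfl⟩
  have hw0 : w ≠ 0 := by rw [hw]; exact sub_ne_zero.2 hne
  -- all quotients have residue one
  obtain ⟨η, _, hη, hηn⟩ := Pl.fix_pow h hw0
  have hσu : σ u ≠ 0 := by rw [Ne, EmbeddingLike.map_eq_zero_iff]; exact hu0
  have hqu : P.1 (σ u / u) = 0 := by rw [Pl.div P hσu hu0, Pl.fix_val h, sub_self]
  have hzp : ∀ a : ℤ, Pl.Rs P ((σ u / u) ^ a) 1 := by
    intro a
    cases a with
    | ofNat n =>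
      have h1 := Pl.Rs_pow hres n
      rw [one_pow] at h1
      rw [Int.ofNat_eq_natCast, zpow_natCast]
      exact h1
    | negSucc n =>
      have h1 := Pl.Rs_pow hres (n + 1)
      rw [one_pow] at h1
      have h2 := Pl.Rs_inv h1 (pow_ne_zero _ (div_ne_zero hσu hu0))
        (by rw [Pl.pow P (div_ne_zero hσu hu0), hqu, mul_zero])
      rw [inv_one] at h2
      rw [zpow_negSucc]
      exact h2
  have hone : Pl.Rs P (σ w / w) 1 := by
    obtain ⟨z, hz⟩ : ∃ z, z = w / u ^ (P.1 w) := ⟨_, rfl⟩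
    have hz0 : z ≠ 0 := hz ▸ div_ne_zero hw0 (zpow_ne_zero _ hu0)
    have hPz : P.1 z = 0 := by
      rw [hz, Pl.div P hw0 (zpow_ne_zero _ hu0), Pl.zpow P hu0, hu, mul_one, sub_self]
    have hwe : w = u ^ (P.1 w) * z := by
      rw [hz, mul_div_cancel₀]
      exact zpow_ne_zero _ hu0
    have h1 := Pl.Rs_mul (hzp (P.1 w)) (Pl.fix_unit h hz0 hPz)
    rw [mul_one] at h1
    have h2 : (σ u / u) ^ (P.1 w) * (σ z / z) = σ w / w := by
      conv_rhs => rw [hwe]
      rw [map_mul, map_zpow₀, div_zpow, div_mul_div_comm]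
    rwa [h2] at h1
  have hη1 : η = 1 := Pl.Rs_unique hη hone
  -- the sum of the quotients
  have hsum : ∀ n : ℕ, Pl.Rs P (((σ ^ n) y - y) / w) n := by
    intro n
    induction n with
    | zero =>
      rw [pow_zero, AlgEquiv.one_apply, sub_self, zero_div, Nat.cast_zero]
      exact Or.inl (by rw [map_zero, sub_self])
    | succ n ih =>
      have h1 : ((σ ^ (n + 1)) y - y) / w = ((σ ^ n) y - y) / w + (σ ^ n) w / w := by
        rw [← add_div, hw, map_sub, pow_succ, AlgEquiv.mul_apply]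
        congr 1
        ring
      have h2 := hηn n
      rw [hη1, one_pow] at h2
      show Pl.Mx P _
      have h3 : ((σ ^ (n + 1)) y - y) / w - algebraMap ℂ E ((n + 1 : ℕ) : ℂ) =
          (((σ ^ n) y - y) / w - algebraMap ℂ E (n : ℂ)) + ((σ ^ n) w / w - algebraMap ℂ E 1) := by
        rw [h1]
        push_cast
        ring
      rw [h3]
      exact Pl.Mx_add ih h2
  have h4 := hsum N
  rw [hN, AlgEquiv.one_apply, sub_self, zero_div] at h4
  have h5 : (0 : ℂ) = (N : ℂ) := Pl.Rs_unique (Or.inl (by rw [map_zero, sub_self])) h4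
  exact hN0 (by exact_mod_cast h5.symm)

theorem prCyc : StCyc := by
  intro E _ _ H _ _ b hb P hP
  obtain ⟨u, hu0, hu⟩ := P.2.unif
  have hσu : ∀ h : H, b h u ≠ 0 := by
    intro h
    rw [Ne, EmbeddingLike.map_eq_zero_iff]; exact hu0
  have hex : ∀ h : H, ∃ c : ℂ, c ≠ 0 ∧ Pl.Rs P (b h u / u) c := by
    intro h
    exact Pl.Rs_exists P (div_ne_zero (hσu h) hu0) (by
      rw [Pl.div P (hσu h) hu0, Pl.fix_val (hP h), sub_self])
  choose c hc0 hc using hex
  let χ : H →* ℂ :=
    { toFun := c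
      map_one' := by
        have h1 := hc 1
        rw [map_one, AlgEquiv.one_apply, div_self hu0] at h1
        exact Pl.Rs_unique h1 (Pl.Rs_one P)
      map_mul' := by
        intro g h
        have h1 := Pl.Rs_mul (hc g) (Pl.fix_Rs (hP g) (hc h))
        have h2 : b g u / u * b g (b h u / u) = b (g * h) u / u := by
          rw [map_div₀, map_mul, AlgEquiv.mul_apply]
          have := hσu g
          field_simp
        rw [h2] at h1
        exact Pl.Rs_unique (hc (g * h)) h1 }
  have hχ : Function.Injective χ := by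
    rw [injective_iff_map_eq_one]
    intro g hg
    have h1 : Pl.Rs P (b g u / u) 1 := by
      have h2 := hc g
      have h3 : c g = 1 := hg
      rwa [h3] at h2
    have h4 : b g = 1 := by
      apply Cyc_key (hP g) (orderOf g) (orderOf_pos g).ne' _ u hu0 hu h1
      rw [← map_pow, pow_orderOf_eq_one, map_one]
    exact hb (by rw [h4, map_one])
  exact isCyclic_of_injective_ringHom χ hχ

end Pool.Agent.Sextic.AD
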