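import Pool.Agent.Work.MP_8e3fb2_ag.AD.Stmts

set_option autoImplicit false

/-!
# Item DC: the action of a subgroup on the cosets of another one
-/

namespace Pool.Agent.Sextic.AD

noncomputable section

/-- the order of the stabiliser of a coset -/
theorem DC_stab (H : Type) [Group H] (G T : Subgroup H) (h : H) :
    Nat.card (MulAction.stabilizer T (h : H ⧸ G)) =
      Nat.card ((T.map (MulAut.conj h⁻¹).toMonoidHom ⊓ G : Subgroup H)) := by
  have key : ∀ t : T, t ∈ MulAction.stabilizer T (h : H ⧸ G) ↔ h⁻¹ * (t : H) * h ∈ G := by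
    intro t
    rw [MulAction.mem_stabilizer_iff]
    have e : t • (h : H ⧸ G) = (((t : H) * h : H) : H ⧸ G) := rfl
    rw [e, eq_comm, QuotientGroup.eq, mul_assoc]
  refine Nat.card_congr ⟨fun s => ⟨h⁻¹ * ((s : T) : H) * h, ?_, (key s).1 s.2⟩,
    fun y => ⟨⟨h * (y : H) * h⁻¹, ?_⟩, ?_⟩, ?_, ?_⟩
  · refine ⟨((s : T) : H), (s : T).2, ?_⟩
    simp [MulAut.conj_apply]
  · obtain ⟨t, ht, hty⟩ := y.2.1
    have e : h * (y : H) * h⁻¹ = t := by
      rw [← hty]
      simp only [MulEquiv.coe_toMonoidHom, MulAut.conj_apply, inv_inv]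
      group
    rw [e]
    exact ht
  · rw [key]
    have e : h⁻¹ * (h * (y : H) * h⁻¹) * h = y := by group
    rw [e]
    exact y.2.2
  · intro s
    ext
    show h * (h⁻¹ * ((s : T) : H) * h) * h⁻¹ = ((s : T) : H)
    group
  · intro y
    ext
    show h⁻¹ * (h * (y : H) * h⁻¹) * h = (y : H)
    group

theorem prDC (h : StOrb) : StDC := by
  intro H _ _ G T N D hyp
  have h1 := h (H ⧸ G) T (N * D : ℤ).natAbs (fun _ => 1) (Set.toFinite _) (fun _ _ => rfl) (by
    intro x
    induction x using QuotientGroup.induction_on with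
    | _ g =>
    rw [DC_stab H G T g, ← Int.natCast_dvd_natCast, Int.dvd_natAbs]
    exact hyp g⁻¹)
  have h2 : ∑ᶠ _ : H ⧸ G, (1 : ℤ) = (G.index : ℤ) := by
    classical
    have := Fintype.ofFinite (H ⧸ G)
    rw [finsum_eq_sum_of_fintype, Finset.sum_const, Finset.card_univ, ← Nat.card_eq_fintype_card,
      nsmul_eq_mul, mul_one]
    rfl
  rw [h2] at h1
  rcases Int.natAbs_eq (N * D : ℤ) with h3 | h3
  · rw [← h3] at h1
    have e : (N : ℤ) * (G.index * D) = N * D * G.index := by ring
    rw [e]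
    exact h1
  · have e : (N : ℤ) * (G.index * D) = -(((N * D : ℤ).natAbs : ℤ) * G.index) := by
      calc (N : ℤ) * (G.index * D) = (N * D) * G.index := by ring
        _ = -(((N * D : ℤ).natAbs : ℤ) * G.index) := by
          conv_lhs => rw [h3]
          ring
    rw [e]
    exact (dvd_neg).2 h1

end

end Pool.Agent.Sextic.AD
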