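import Pool.Agent.Work.MP_8e3fb2_ag.AD.Stmts

set_option autoImplicit false

/-!
# Block AD, item DK (helper87): the degree of the equation is at most `k`
-/

namespace Pool.Agent.Sextic.AD

open IntermediateField

noncomputable section

section

variable {E : Type} [Field E] [Algebra ℂ E] (P : Pl E)

private lemma DK_one : P.1 1 = 0 := by
  have := P.2.const 1
  rwa [map_one] at this

private lemma DK_inv {a : E} (ha : a ≠ 0) : P.1 a⁻¹ = - P.1 a := by
  have h := P.2.mul a a⁻¹ ha (inv_ne_zero ha)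
  rw [mul_inv_cancel₀ ha, DK_one] at h
  omega

end

private lemma DK_alg {E : Type} [Field E] [Algebra ℂ E] {w : E} (hw : IsAlgebraic ℂ w) :
    ∃ c : ℂ, w = algebraMap ℂ E c := by
  have h1 : IsIntegral ℂ w := hw.isIntegral
  have h2 := IsAlgClosed.degree_eq_one_of_irreducible ℂ (minpoly.irreducible h1)
  obtain ⟨c, hc⟩ := minpoly.mem_range_of_degree_eq_one ℂ w h2
  exact ⟨c, hc.symm⟩

private lemma DK_inv_field {E : Type} [Field E] [Algebra ℂ E] (w : E) :
    (ℂ⟮w⁻¹⟯ : IntermediateField ℂ E) = ℂ⟮w⟯ := by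
  apply le_antisymm
  · rw [adjoin_simple_le_iff]
    exact inv_mem (mem_adjoin_simple_self ℂ w)
  · rw [adjoin_simple_le_iff]
    have := inv_mem (mem_adjoin_simple_self ℂ w⁻¹)
    rwa [inv_inv] at this

private lemma DK_main (h1 : StStp) (h2 : StRie) (h3 : StGen) (h5 : StDeg) (n : ℕ)
    (G : Subgroup (Equiv.Perm (Fin n))) (M : Type) [Field M] [Algebra ℂ M]
    (E : IntermediateField ℂ M) (d : Dat n G M E) (φ : MvPolynomial (Fin n) E)
    (m : Pl E → ℤ) (hφ : φ ≠ 0) (hdvd : ∀ p, MvPolynomial.aeval d.x p = 0 ↔ φ ∣ p)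
    (hfin : (Function.support m).Finite) (hle : ∀ P α, φ.coeff α ≠ 0 → m P ≤ P.1 (φ.coeff α))
    (heq : ∀ P, ∃ α, φ.coeff α ≠ 0 ∧ P.1 (φ.coeff α) = m P) (α₀ : Fin n →₀ ℕ)
    (hα₀ : φ.coeff α₀ = 1) : - ∑ᶠ P, m P ≤ (d.k : ℤ) := by
  have hm0 : ∀ P : Pl E, m P ≤ 0 := by
    intro P
    have := hle P α₀ (by rw [hα₀]; exact one_ne_zero)
    rwa [hα₀, DK_one] at this
  have hX : FiniteDimensional ℂ (cs φ) := by
    unfold cs
    apply FiniteDimensional.span_of_finite
    apply Set.Finite.subset ((φ.support.finite_toSet.image fun α => φ.coeff α).insert 0)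
    rintro _ ⟨α, rfl⟩
    by_cases hα : α ∈ φ.support
    · right
      exact ⟨α, hα, rfl⟩
    · left
      exact MvPolynomial.notMem_support_iff.1 hα
  have hmem : ∀ α, φ.coeff α ∈ cs φ := fun α => Submodule.subset_span ⟨α, rfl⟩
  have hX0 : cs φ ≠ ⊥ := by
    intro h
    have := hmem α₀
    rw [h, hα₀, Submodule.mem_bot] at this
    exact one_ne_zero this
  have hXle : cs φ ≤ RR (fun P => - m P) := by
    unfold cs
    rw [Submodule.span_le]
    rintro _ ⟨α, rfl⟩
    by_cases hα : φ.coeff α = 0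
    · left; exact hα
    · right
      intro P
      rw [neg_neg]
      exact hle P α hα
  have hXm : ∀ P : Pl E, ∀ w ∈ cs φ, w ≠ 0 → m P ≤ P.1 w := by
    intro P w hw hw0
    rcases hXle hw with h | h
    · exact absurd h hw0
    · have := h P
      rwa [neg_neg] at this
  obtain ⟨w, hwX, hw0, hwQ⟩ := h3 E (cs φ) m hX0 hXm (fun P => by
    obtain ⟨α, hα, hα2⟩ := heq P
    exact ⟨φ.coeff α, hmem α, hα, hα2⟩) hfin.toFinset
  have hD : ∀ P : Pl E, max (- P.1 w) 0 = - m P := by
    intro P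
    by_cases hP : P ∈ hfin.toFinset
    · rw [hwQ P hP]
      apply max_eq_left
      have := hm0 P
      omega
    · have hmP : m P = 0 := by
        rw [Set.Finite.mem_toFinset, Function.mem_support, not_not] at hP
        exact hP
      have h6 := hXm P w hwX hw0
      rw [hmP] at h6 ⊢
      rw [neg_zero]
      apply max_eq_right
      omega
  by_cases halg : IsAlgebraic ℂ w
  · obtain ⟨c, rfl⟩ := DK_alg halg
    have hm : ∀ P : Pl E, m P = 0 := by
      intro P
      have := hD P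
      rw [P.2.const, neg_zero, max_self] at this
      omega
    have : ∑ᶠ P, m P = 0 := by
      rw [finsum_congr hm, finsum_zero]
    rw [this]
    simp
  · have hT : Transcendental ℂ w := halg
    have hTi : Transcendental ℂ w⁻¹ := by
      intro h
      apply halg
      have := h.inv
      rwa [inv_inv] at this
    have h6 := (h5 E d.ff w⁻¹ hTi).2
    rw [DK_inv_field] at h6
    have h7 : ∑ᶠ P : Pl E, max (P.1 w⁻¹) 0 = - ∑ᶠ P, m P := by
      rw [← finsum_neg_distrib]
      apply finsum_congr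
      intro P
      rw [DK_inv P hw0, hD P]
    rw [← h7, h6]
    obtain ⟨r, hr⟩ := h2 E d.ff w hT
    set N := Module.finrank (ℂ⟮w⟯ : IntermediateField ℂ E) E with hN
    have hall : ∀ s : ℕ, N * s ≤ 1 + (s + r) * d.k := by
      intro s
      obtain ⟨X, hXf, hXR, hXd⟩ := hr s
      obtain ⟨hf, hd⟩ := h1 n G M E d φ (fun P => max (- P.1 w) 0) hφ hdvd
        (fun P α hα => by rw [hD P, neg_neg]; exact hle P α hα)
        (fun P => by
          obtain ⟨α, hα, hα2⟩ := heq P
          exact ⟨α, hα, by rw [hD P, neg_neg]; exact hα2⟩) (s + r)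
      exact (hXd.trans (Submodule.finrank_mono hXR)).trans hd
    by_contra hcon
    rw [not_le] at hcon
    have h8 : d.k + 1 ≤ N := by exact_mod_cast hcon
    have h9 := hall (2 + r * d.k)
    have h10 : (d.k + 1) * (2 + r * d.k) ≤ N * (2 + r * d.k) := Nat.mul_le_mul_right _ h8
    nlinarith

theorem prDK (h1 : StStp) (h2 : StRie) (h3 : StGen) (h4 : StSum0) (h5 : StDeg) : StDK := by
  intro n G M _ _ E d φ m hφ hdvd hfin hle heq
  obtain ⟨α₀, hα₀⟩ : ∃ α₀, φ.coeff α₀ ≠ 0 := by
    by_contra h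
    push Not at h
    apply hφ
    ext α
    rw [h α]
    simp
  set c := φ.coeff α₀ with hc
  have hci : c⁻¹ ≠ 0 := inv_ne_zero hα₀
  obtain ⟨hcf, hcs⟩ := h4 E d.ff c hα₀
  have hcoef : ∀ α, (MvPolynomial.C c⁻¹ * φ).coeff α = c⁻¹ * φ.coeff α := fun α =>
    MvPolynomial.coeff_C_mul α c⁻¹ φ
  have hval : ∀ (P : Pl E) α, φ.coeff α ≠ 0 → P.1 (c⁻¹ * φ.coeff α) = P.1 (φ.coeff α) - P.1 c := by
    intro P α hα
    rw [P.2.mul _ _ hci hα, DK_inv P hα₀]
    ring
  have hu : IsUnit (MvPolynomial.C c⁻¹ : MvPolynomial (Fin n) E) :=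
    (isUnit_iff_ne_zero.2 hci).map (MvPolynomial.C (σ := Fin n))
  have key := DK_main h1 h2 h3 h5 n G M E d (MvPolynomial.C c⁻¹ * φ) (fun P => m P - P.1 c)
    (mul_ne_zero hu.ne_zero hφ)
    (fun p => by rw [hdvd p, hu.mul_left_dvd])
    ((hfin.union hcf).subset (by
      intro P hP
      rw [Function.mem_support] at hP
      by_cases h : m P = 0
      · right
        intro h6
        apply hP
        rw [h, h6, sub_zero]
      · left
        exact h))
    (fun P α hα => by
      rw [hcoef] at hα ⊢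
      have hα' : φ.coeff α ≠ 0 := right_ne_zero_of_mul hα
      rw [hval P α hα']
      have := hle P α hα'
      omega)
    (fun P => by
      obtain ⟨α, hα, hα2⟩ := heq P
      refine ⟨α, ?_, ?_⟩
      · rw [hcoef]
        exact mul_ne_zero hci hα
      · rw [hcoef, hval P α hα, hα2])
    α₀ (by rw [hcoef]; exact inv_mul_cancel₀ hα₀)
  have hsum : ∑ᶠ P : Pl E, (m P - P.1 c) = ∑ᶠ P : Pl E, m P := by
    rw [finsum_sub_distrib hfin hcf, hcs, sub_zero]
  rw [hsum] at key
  exact key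

end

end Pool.Agent.Sextic.AD
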