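import Pool.Agent.Work.MP_8e3fb2_ag.AD.I_DedP

set_option autoImplicit false

/-!
# Block AD, item DedU: places which are nonnegative on a Dedekind domain
-/

namespace Pool.Agent.Sextic.AD

open IsDedekindDomain WithZero

noncomputable section

theorem DedU_one {E : Type} [Field E] [Algebra ℂ E] (P : Pl E) : P.1 1 = 0 := by
  have h := P.2.const 1
  rwa [map_one] at h

/-- A place as a homomorphism on the units. -/
def DedU_hom {E : Type} [Field E] [Algebra ℂ E] (P : Pl E) : Eˣ →* Multiplicative ℤ where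
  toFun u := Multiplicative.ofAdd (P.1 (u : E))
  map_one' := by
    show Multiplicative.ofAdd (P.1 ((1 : Eˣ) : E)) = 1
    rw [Units.val_one, DedU_one]
    rfl
  map_mul' := by
    intro u w
    show Multiplicative.ofAdd (P.1 ((u * w : Eˣ) : E)) = _
    rw [Units.val_mul, P.2.mul _ _ u.ne_zero w.ne_zero]
    rfl

theorem DedU_zpow {E : Type} [Field E] [Algebra ℂ E] (P : Pl E) (f : E) (hf : f ≠ 0) (m : ℤ) :
    P.1 (f ^ m) = m * P.1 f := by
  have h := map_zpow (DedU_hom P) (Units.mk0 f hf) m
  have h2 : P.1 (((Units.mk0 f hf) ^ m : Eˣ) : E) = m • P.1 ((Units.mk0 f hf : Eˣ) : E) :=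
    congrArg Multiplicative.toAdd h
  rw [Units.val_zpow_eq_zpow_val, Units.val_mk0, smul_eq_mul] at h2
  exact h2

/-- The center of a place. -/
def DedU_ideal {O E : Type} [CommRing O] [IsDedekindDomain O] [Field E] [Algebra ℂ O]
    [Algebra O E] [Algebra ℂ E] [IsScalarTower ℂ O E] [IsFractionRing O E] (P : Pl E)
    (hP : ∀ y : O, 0 ≤ P.1 (algebraMap O E y)) : Ideal O where
  carrier := {y | y = 0 ∨ 0 < P.1 (algebraMap O E y)}
  zero_mem' := Or.inl rfl
  add_mem' := by
    intro a b ha hb
    by_cases hab : a + b = 0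
    · exact Or.inl hab
    by_cases ha0 : a = 0
    · subst ha0
      rw [zero_add]
      exact hb
    by_cases hb0 : b = 0
    · subst hb0
      rw [add_zero]
      exact ha
    have hinj : Function.Injective (algebraMap O E) := IsFractionRing.injective O E
    have h0 : ∀ y : O, y ≠ 0 → algebraMap O E y ≠ 0 := fun y hy h =>
      hy (hinj (h.trans (map_zero _).symm))
    right
    rw [map_add]
    have h1 := ha.resolve_left ha0
    have h2 := hb.resolve_left hb0
    have h3 := P.2.add _ _ (h0 a ha0) (h0 b hb0) (by rw [← map_add]; exact h0 _ hab)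
    exact lt_of_lt_of_le (lt_min h1 h2) h3
  smul_mem' := by
    intro c a ha
    have hinj : Function.Injective (algebraMap O E) := IsFractionRing.injective O E
    have h0 : ∀ y : O, y ≠ 0 → algebraMap O E y ≠ 0 := fun y hy h =>
      hy (hinj (h.trans (map_zero _).symm))
    rcases ha with rfl | ha
    · exact Or.inl (smul_zero c)
    by_cases hc : c = 0
    · left
      rw [hc, zero_smul]
    by_cases ha0 : a = 0
    · left
      rw [ha0, smul_zero]
    right
    rw [smul_eq_mul, map_mul, P.2.mul _ _ (h0 c hc) (h0 a ha0)]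
    have := hP c
    omega

theorem prDedU : StDedU := by
  intro O E _ _ _ _ _ _ _ _ P hP
  have hinj : Function.Injective (algebraMap O E) := IsFractionRing.injective O E
  have h0 : ∀ y : O, y ≠ 0 → algebraMap O E y ≠ 0 := fun y hy h =>
    hy (hinj (h.trans (map_zero _).symm))
  have hmem : ∀ y : O, y ∈ DedU_ideal P hP ↔ y = 0 ∨ 0 < P.1 (algebraMap O E y) :=
    fun y => Iff.rfl
  have hprime : (DedU_ideal P hP).IsPrime := by
    refine ⟨?_, ?_⟩
    · rw [Ne, Ideal.eq_top_iff_one, hmem]
      rintro (h | h)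
      · exact one_ne_zero h
      · rw [map_one, DedU_one] at h
        exact lt_irrefl _ h
    · intro a b hab
      rw [hmem] at hab
      rw [hmem, hmem]
      by_cases ha : a = 0
      · exact Or.inl (Or.inl ha)
      by_cases hb : b = 0
      · exact Or.inr (Or.inl hb)
      have h1 := hab.resolve_left (mul_ne_zero ha hb)
      rw [map_mul, P.2.mul _ _ (h0 a ha) (h0 b hb)] at h1
      by_contra hcon
      push Not at hcon
      obtain ⟨⟨_, h2⟩, _, h3⟩ := hcon
      omega
  obtain ⟨u, hu0, hu1⟩ := P.2.unif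
  have hdiv : ∀ f g : E, f ≠ 0 → g ≠ 0 → P.1 (f / g) + P.1 g = P.1 f := by
    intro f g hf hg
    rw [← P.2.mul _ _ (div_ne_zero hf hg) hg, div_mul_cancel₀ f hg]
  have hbot : DedU_ideal P hP ≠ ⊥ := by
    obtain ⟨a, s, hs, rfl⟩ := IsFractionRing.div_surjective (A := O) u
    have hs0 : s ≠ 0 := nonZeroDivisors.ne_zero hs
    have ha0 : a ≠ 0 := by
      rintro rfl
      rw [map_zero, zero_div] at hu0
      exact hu0 rfl
    have h1 := hdiv _ _ (h0 a ha0) (h0 s hs0)
    rw [hu1] at h1
    have h2 := hP s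
    intro hb
    have h3 : a ∈ DedU_ideal P hP := (hmem a).2 (Or.inr (by omega))
    rw [hb, Ideal.mem_bot] at h3
    exact ha0 h3
  let v : HeightOneSpectrum O := ⟨DedU_ideal P hP, hprime, hbot⟩
  -- elements of valuation one have order zero
  have hone : ∀ f : E, v.valuation E f = 1 → P.1 f = 0 := by
    intro f hf
    obtain ⟨n, d, hnd⟩ := v.exists_primeCompl_mul_eq_of_integer f hf.le
    have hd : (d : O) ∉ DedU_ideal P hP := d.2
    have hn : n ∉ DedU_ideal P hP := by
      have h1 : v.valuation E (algebraMap O E n) = 1 := by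
        rw [← hnd, map_mul, hf, one_mul]
        exact v.valuation_eq_one_iff_notMem.2 hd
      exact v.valuation_eq_one_iff_notMem.1 h1
    rw [hmem, not_or, not_lt] at hd hn
    have hd1 : P.1 (algebraMap O E d) = 0 := le_antisymm hd.2 (hP _)
    have hn1 : P.1 (algebraMap O E n) = 0 := le_antisymm hn.2 (hP _)
    have hf0 : f ≠ 0 := by
      rintro rfl
      rw [map_zero] at hf
      exact zero_ne_one hf
    have h2 := P.2.mul f (algebraMap O E d) hf0 (h0 _ hd.1)
    rw [hnd, hn1, hd1] at h2
    omega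
  obtain ⟨π, hπ⟩ := v.valuation_exists_uniformizer' E
  have hπ0 : algebraMap O E π ≠ 0 := by
    intro h
    have hπ' : v.valuation E (algebraMap O E π) = exp (-1) := hπ
    rw [h, map_zero] at hπ'
    exact exp_ne_zero hπ'.symm
  have hval : ∀ f : E, f ≠ 0 → P.1 f = DedP_val E v f * P.1 (algebraMap O E π) := by
    intro f hf
    have hz : algebraMap O E π ^ (DedP_val E v f) ≠ 0 := zpow_ne_zero _ hπ0
    have h1 : v.valuation E (f / algebraMap O E π ^ (DedP_val E v f)) = 1 := by
      have hπ' : v.valuation E (algebraMap O E π) = exp (-1) := hπ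
      rw [map_div₀, map_zpow₀, hπ', ← exp_zsmul]
      unfold DedP_val
      rw [smul_eq_mul, neg_mul_neg, mul_one, exp_log (DedP_ne v hf)]
      exact div_self (DedP_ne v hf)
    have h2 := hone _ h1
    have h3 := hdiv f _ hf hz
    rw [h2, DedU_zpow P _ hπ0] at h3
    omega
  have hπ1 : P.1 (algebraMap O E π) = 1 := by
    have h1 := hval u hu0
    rw [hu1] at h1
    exact Int.eq_one_of_mul_eq_one_left (hP π) h1.symm
  refine ⟨DedU_ideal P hP, hprime, hbot, fun y hy => ?_⟩
  rw [hval _ (h0 y hy), hπ1, mul_one]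
  exact DedP_cnt v y hy

end

end Pool.Agent.Sextic.AD
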