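import Pool.Agent.Work.MP_8e3fb2_ag.AD.Stmts

set_option autoImplicit false

/-!
# Block AD, item Deg: the number of zeros of a function is the degree
-/

namespace Pool.Agent.Sextic.AD

open IntermediateField UniqueFactorizationMonoid

noncomputable section

section

variable {O : Type} [CommRing O] [IsDedekindDomain O]

theorem Deg_span_ne {y : O} (hy : y ≠ 0) : (Ideal.span {y} : Ideal O) ≠ 0 := by
  rw [Ne, Ideal.zero_eq_bot, Ideal.span_singleton_eq_bot]
  exact hy

theorem Deg_mem_iff (p : Ideal O) (y : O) (hy : y ≠ 0) :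
    p ∈ normalizedFactors (Ideal.span {y} : Ideal O) ↔ Prime p ∧ y ∈ p := by
  rw [mem_normalizedFactors_iff (Deg_span_ne hy), Ideal.dvd_span_singleton]

theorem Deg_cnt_pos (p : Ideal O) (y : O) (hy : y ≠ 0) :
    0 < cnt p y ↔ Prime p ∧ y ∈ p := by
  classical
  unfold cnt
  rw [Multiset.count_pos, Deg_mem_iff p y hy]

theorem Deg_main {E : Type} [Field E] [Algebra ℂ O] [Algebra O E] [Algebra ℂ E]
    [IsScalarTower ℂ O E] [IsFractionRing O E] (h2 : StDedP) (h3 : StDedU)
    (hres : ∀ p : Ideal O, p.IsMaximal → ∀ y, ∃ c : ℂ, y - algebraMap ℂ O c ∈ p)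
    (f' : O) (hf0 : f' ≠ 0)
    (hnn : ∀ P : Pl E, 0 ≤ P.1 (algebraMap O E f') → ∀ y : O, 0 ≤ P.1 (algebraMap O E y)) :
    {P : Pl E | 0 < P.1 (algebraMap O E f')}.Finite ∧
      ∑ᶠ P : Pl E, max (P.1 (algebraMap O E f')) 0 =
        (Multiset.card (normalizedFactors (Ideal.span {f'} : Ideal O)) : ℤ) := by
  classical
  have hinj : Function.Injective (algebraMap O E) := IsFractionRing.injective O E
  have h0 : ∀ y : O, y ≠ 0 → algebraMap O E y ≠ 0 := fun y hy h =>
    hy (hinj (h.trans (map_zero _).symm))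
  set s := (normalizedFactors (Ideal.span {f'} : Ideal O)).toFinset with hs
  have hsp : ∀ p ∈ s, Prime p ∧ f' ∈ p := by
    intro p hp
    rw [hs, Multiset.mem_toFinset] at hp
    exact (Deg_mem_iff p f' hf0).1 hp
  have hex : ∀ p : {p // p ∈ s}, ∃ P : Pl E, ∀ y : O, y ≠ 0 →
      P.1 (algebraMap O E y) = cnt p.1 y := by
    intro p
    have hp := (hsp p.1 p.2).1
    exact h2 O E hres p.1 (Ideal.isPrime_of_prime hp) hp.ne_zero
  choose Ψ hΨ using hex
  -- a place is determined by its values on O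
  have hdet : ∀ P Q : Pl E, (∀ y : O, y ≠ 0 → P.1 (algebraMap O E y) = Q.1 (algebraMap O E y)) →
      P = Q := by
    intro P Q h
    apply Subtype.ext
    funext g
    by_cases hg : g = 0
    · rw [hg, P.2.zero, Q.2.zero]
    obtain ⟨a, b, hb, rfl⟩ := IsFractionRing.div_surjective (A := O) g
    have hb0 : b ≠ 0 := nonZeroDivisors.ne_zero hb
    have ha0 : a ≠ 0 := by
      rintro rfl
      rw [map_zero, zero_div] at hg
      exact hg rfl
    have e1 := P.2.mul _ _ hg (h0 b hb0)
    have e2 := Q.2.mul _ _ hg (h0 b hb0)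
    rw [div_mul_cancel₀ _ (h0 b hb0)] at e1 e2
    have e3 := h a ha0
    have e4 := h b hb0
    omega
  have hΨinj : Function.Injective Ψ := by
    intro p q hpq
    apply Subtype.ext
    have hc : ∀ y : O, y ≠ 0 → cnt p.1 y = cnt q.1 y := by
      intro y hy
      have e1 := hΨ p y hy
      have e2 := hΨ q y hy
      rw [hpq] at e1
      have := e1.symm.trans e2
      exact_mod_cast this
    ext y
    by_cases hy : y = 0
    · rw [hy]
      exact ⟨fun _ => Ideal.zero_mem _, fun _ => Ideal.zero_mem _⟩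
    · have a1 := Deg_cnt_pos p.1 y hy
      have a2 := Deg_cnt_pos q.1 y hy
      rw [hc y hy] at a1
      constructor
      · intro h
        exact (a2.1 (a1.2 ⟨(hsp p.1 p.2).1, h⟩)).2
      · intro h
        exact (a1.1 (a2.2 ⟨(hsp q.1 q.2).1, h⟩)).2
  have hpos : ∀ p : {p // p ∈ s}, 0 < (Ψ p).1 (algebraMap O E f') := by
    intro p
    rw [hΨ p f' hf0]
    have := (Deg_cnt_pos p.1 f' hf0).2 (hsp p.1 p.2)
    exact_mod_cast this
  have himg : ∀ P : Pl E, 0 < P.1 (algebraMap O E f') ↔ ∃ p, Ψ p = P := by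
    intro P
    constructor
    · intro hP
      obtain ⟨p, hp1, hp2, hp3⟩ := h3 O E P (hnn P hP.le)
      have hc : 0 < cnt p f' := by
        have := hp3 f' hf0
        rw [this] at hP
        exact_mod_cast hP
      have hmem : p ∈ s := by
        rw [hs, Multiset.mem_toFinset, Deg_mem_iff p f' hf0]
        exact (Deg_cnt_pos p f' hf0).1 hc
      refine ⟨⟨p, hmem⟩, hdet _ _ fun y hy => ?_⟩
      rw [hΨ ⟨p, hmem⟩ y hy, hp3 y hy]
    · rintro ⟨p, rfl⟩
      exact hpos p
  have hset : {P : Pl E | 0 < P.1 (algebraMap O E f')} = Set.range Ψ := by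
    ext P
    exact himg P
  refine ⟨by rw [hset]; exact Set.finite_range Ψ, ?_⟩
  rw [finsum_eq_sum_of_support_subset (s := Finset.univ.image Ψ)]
  · rw [Finset.sum_image (fun a _ b _ h => hΨinj h)]
    have e1 : ∀ p : {p // p ∈ s}, max ((Ψ p).1 (algebraMap O E f')) 0 =
        ((normalizedFactors (Ideal.span {f'} : Ideal O)).count p.1 : ℤ) := by
      intro p
      rw [max_eq_left (hpos p).le, hΨ p f' hf0]
      unfold cnt
      congr!
    rw [Finset.sum_congr rfl fun p _ => e1 p]
    rw [Finset.sum_coe_sort s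
      (fun p => ((normalizedFactors (Ideal.span {f'} : Ideal O)).count p : ℤ)),
      ← Multiset.toFinset_sum_count_eq, Nat.cast_sum]
  · intro P hP
    have hP' : 0 < P.1 (algebraMap O E f') := by
      by_contra hcon
      apply hP
      show max (P.1 (algebraMap O E f')) 0 = 0
      exact max_eq_right (not_lt.1 hcon)
    obtain ⟨p, hp⟩ := (himg P).1 hP'
    rw [Finset.coe_image, Finset.coe_univ, Set.image_univ]
    exact ⟨p, hp⟩

end

theorem prDeg (h1 : StDegA) (h2 : StDedP) (h3 : StDedU) : StDeg := by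
  intro E _ _ hE f hf
  obtain ⟨O, i1, i2, i3, i4, f', i5, i6, hres, hnn, hf', hcard⟩ := h1 E hE f hf
  have hf0 : f' ≠ 0 := by
    rintro rfl
    rw [map_zero] at hf'
    apply hf
    rw [← hf']
    exact isAlgebraic_zero
  have h := Deg_main (E := E) h2 h3 hres f' hf0 (by rw [hf']; exact hnn)
  rw [hf', hcard] at h
  exact h

end

end Pool.Agent.Sextic.AD
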