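import Pool.Agent.Work.MP_8e3fb2_ag.AD.Stmts

set_option autoImplicit false

/-!
# Block AD, item DegA (helper87): the integral closure of `ℂ[f]`
-/

namespace Pool.Agent.Sextic.AD

open IntermediateField

noncomputable section

/-- a place as a valuation subring -/
def DegA_V {E : Type} [Field E] [Algebra ℂ E] (P : Pl E) : ValuationSubring E where
  carrier := {y | 0 ≤ P.1 y}
  mul_mem' := by
    intro a b ha hb
    by_cases ha0 : a = 0
    · simp [ha0, P.2.zero]
    by_cases hb0 : b = 0
    · simp [hb0, P.2.zero]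
    show 0 ≤ P.1 (a * b)
    rw [P.2.mul a b ha0 hb0]
    exact add_nonneg ha hb
  one_mem' := by
    show 0 ≤ P.1 1
    have := P.2.const 1
    rw [map_one] at this
    rw [this]
  add_mem' := by
    intro a b ha hb
    show 0 ≤ P.1 (a + b)
    by_cases ha0 : a = 0
    · rw [ha0, zero_add]; exact hb
    by_cases hb0 : b = 0
    · rw [hb0, add_zero]; exact ha
    by_cases hab : a + b = 0
    · rw [hab, P.2.zero]
    · exact le_trans (le_min ha hb) (P.2.add a b ha0 hb0 hab)
  zero_mem' := by
    show 0 ≤ P.1 0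
    rw [P.2.zero]
  neg_mem' := by
    intro a ha
    show 0 ≤ P.1 (-a)
    by_cases ha0 : a = 0
    · rw [ha0, neg_zero, P.2.zero]
    have h1 : (-a : E) = algebraMap ℂ E (-1) * a := by
      rw [map_neg, map_one, neg_one_mul]
    have h2 : algebraMap ℂ E (-1) ≠ 0 := by
      rw [Ne, map_eq_zero]; norm_num
    rw [h1, P.2.mul _ _ h2 ha0, P.2.const, zero_add]
    exact ha
  mem_or_inv_mem' := by
    intro a
    by_cases ha0 : a = 0
    · left
      show 0 ≤ P.1 a
      rw [ha0, P.2.zero]
    have h1 := P.2.mul a a⁻¹ ha0 (inv_ne_zero ha0)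
    rw [mul_inv_cancel₀ ha0] at h1
    have h2 := P.2.const 1
    rw [map_one] at h2
    rw [h2] at h1
    by_cases h : 0 ≤ P.1 a
    · exact Or.inl h
    · right
      show 0 ≤ P.1 a⁻¹
      omega

lemma DegA_memV {E : Type} [Field E] [Algebra ℂ E] (P : Pl E) (y : E) :
    y ∈ DegA_V P ↔ 0 ≤ P.1 y := Iff.rfl

lemma DegA_nonneg {E : Type} [Field E] [Algebra ℂ E] (P : Pl E) (f : E) (hf : 0 ≤ P.1 f)
    (y : E) (hy : IsIntegral (Algebra.adjoin ℂ {f}) y) : 0 ≤ P.1 y := by
  have hR : ∀ r : Algebra.adjoin ℂ {f}, (r : E) ∈ DegA_V P := by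
    rintro ⟨r, hr⟩
    show r ∈ DegA_V P
    induction hr using Algebra.adjoin_induction with
    | mem x hx =>
      rw [Set.mem_singleton_iff] at hx
      rw [hx]
      exact hf
    | algebraMap c =>
      rw [DegA_memV, P.2.const]
    | add a b _ _ ha hb => exact (DegA_V P).add_mem _ _ ha hb
    | mul a b _ _ ha hb => exact (DegA_V P).mul_mem _ _ ha hb
  let inc : Algebra.adjoin ℂ {f} →+* DegA_V P :=
    { toFun := fun r => ⟨(r : E), hR r⟩
      map_one' := rfl
      map_mul' := fun _ _ => rfl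
      map_zero' := rfl
      map_add' := fun _ _ => rfl }
  obtain ⟨p, hp, hpe⟩ := hy
  have h1 : IsIntegral (DegA_V P) y := by
    refine ⟨p.map inc, hp.map inc, ?_⟩
    rw [Polynomial.eval₂_map]
    exact hpe
  obtain ⟨z, hz⟩ := (IsIntegrallyClosed.isIntegral_iff (R := DegA_V P) (K := E)).1 h1
  rw [← hz]
  exact z.2

open scoped IntermediateField.algebraAdjoinAdjoin in
theorem prDegA (h : StFF1) : StDegA := by
  intro E _ _ hFF f hf
  haveI hfin : FiniteDimensional (ℂ⟮f⟯ : IntermediateField ℂ E) E := h E hFF f hf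
  let e : Polynomial ℂ ≃ₐ[ℂ] Algebra.adjoin ℂ {f} := Polynomial.algEquivOfTranscendental ℂ f hf
  haveI hPID : IsPrincipalIdealRing (Algebra.adjoin ℂ {f}) :=
    IsPrincipalIdealRing.of_surjective (e : Polynomial ℂ →+* Algebra.adjoin ℂ {f}) e.surjective
  haveI : Algebra.IsSeparable (ℂ⟮f⟯ : IntermediateField ℂ E) E := inferInstance
  haveI hDed : IsDedekindDomain (integralClosure (Algebra.adjoin ℂ {f}) E) :=
    integralClosure.isDedekindDomain (Algebra.adjoin ℂ {f}) (ℂ⟮f⟯ : IntermediateField ℂ E) E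
  haveI hFr : IsFractionRing (integralClosure (Algebra.adjoin ℂ {f}) E) E :=
    integralClosure.isFractionRing_of_finite_extension (ℂ⟮f⟯ : IntermediateField ℂ E) E
  haveI hMF : Module.Finite (Algebra.adjoin ℂ {f}) (integralClosure (Algebra.adjoin ℂ {f}) E) :=
    IsIntegralClosure.finite (Algebra.adjoin ℂ {f}) (ℂ⟮f⟯ : IntermediateField ℂ E) E
      (integralClosure (Algebra.adjoin ℂ {f}) E)
  -- residue fields
  have hres : ∀ p : Ideal (integralClosure (Algebra.adjoin ℂ {f}) E), p.IsMaximal → ∀ y,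
      ∃ c : ℂ, y - algebraMap ℂ (integralClosure (Algebra.adjoin ℂ {f}) E) c ∈ p := by
    intro p hp y
    haveI : Algebra.FiniteType ℂ (Algebra.adjoin ℂ {f}) :=
      Algebra.FiniteType.adjoin_of_finite (Set.finite_singleton f)
    haveI : Algebra.FiniteType ℂ (integralClosure (Algebra.adjoin ℂ {f}) E) :=
      Algebra.FiniteType.trans (S := Algebra.adjoin ℂ {f}) inferInstance inferInstance
    letI := Ideal.Quotient.field p
    haveI : Algebra.FiniteType ℂ (integralClosure (Algebra.adjoin ℂ {f}) E ⧸ p) :=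
      Algebra.FiniteType.of_surjective (Ideal.Quotient.mkₐ ℂ p) (Ideal.Quotient.mkₐ_surjective ℂ p)
    haveI : Module.Finite ℂ (integralClosure (Algebra.adjoin ℂ {f}) E ⧸ p) :=
      finite_of_finite_type_of_isJacobsonRing ℂ _
    obtain ⟨c, hc⟩ := (IsAlgClosed.algebraMap_bijective_of_isIntegral (k := ℂ)
      (K := integralClosure (Algebra.adjoin ℂ {f}) E ⧸ p)).2 (Ideal.Quotient.mk p y)
    refine ⟨c, ?_⟩
    rw [← Ideal.Quotient.eq, ← hc]
    rfl
  -- the prime (f)
  let x0 : Algebra.adjoin ℂ {f} := ⟨f, Algebra.self_mem_adjoin_singleton ℂ f⟩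
  have hx0 : e Polynomial.X = x0 := Polynomial.algEquivOfTranscendental_apply_X (R := ℂ) f hf
  have hirr : Irreducible x0 := by
    rw [← hx0, MulEquiv.irreducible_iff]
    exact Polynomial.irreducible_X
  haveI hmax : (Ideal.span {x0}).IsMaximal := PrincipalIdealRing.isMaximal_of_irreducible hirr
  have hne : Ideal.span {x0} ≠ ⊥ := by
    rw [Ne, Ideal.span_singleton_eq_bot]
    exact hirr.ne_zero
  refine ⟨integralClosure (Algebra.adjoin ℂ {f}) E, inferInstance, hDed, inferInstance,
    inferInstance, algebraMap _ _ x0, inferInstance, hFr, hres, ?_, rfl, ?_⟩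
  · intro P hP y
    exact DegA_nonneg P f hP _ y.2
  · have hmap : (Ideal.span {x0}).map (algebraMap (Algebra.adjoin ℂ {f})
        (integralClosure (Algebra.adjoin ℂ {f}) E)) = Ideal.span {algebraMap _ _ x0} := by
      rw [Ideal.map_span, Set.image_singleton]
    have hsum := Ideal.sum_ramification_inertia (integralClosure (Algebra.adjoin ℂ {f}) E)
      (ℂ⟮f⟯ : IntermediateField ℂ E) E (p := Ideal.span {x0}) hne
    rw [← hsum, ← hmap]
    have hmne : (Ideal.span {x0}).map (algebraMap (Algebra.adjoin ℂ {f})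
        (integralClosure (Algebra.adjoin ℂ {f}) E)) ≠ ⊥ := Ideal.map_ne_bot_of_ne_bot hne
    unfold IsDedekindDomain.primesOverFinset
    rw [UniqueFactorizationMonoid.factors_eq_normalizedFactors, ← Multiset.toFinset_sum_count_eq]
    apply Finset.sum_congr rfl
    intro P hP
    rw [Multiset.mem_toFinset] at hP
    have hPprime : Prime P := UniqueFactorizationMonoid.prime_of_normalized_factor P hP
    haveI hPp : P.IsPrime := Ideal.isPrime_of_prime hPprime
    have hP0 : P ≠ ⊥ := hPprime.ne_zero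
    rw [Ideal.IsDedekindDomain.ramificationIdx'_eq_normalizedFactors_count hmne hPp hP0]
    haveI hlies : P.LiesOver (Ideal.span {x0}) :=
      ((Ideal.mem_primesOver_iff_mem_normalizedFactors _ hne).2 hP).2
    have h1 : Ideal.inertiaDeg' (Ideal.span {x0}) P = 1 := by
      rw [Ideal.inertiaDeg'_algebraMap]
      letI := Ideal.Quotient.field (Ideal.span {x0})
      haveI hPmax : P.IsMaximal := hPp.isMaximal hP0
      rw [finrank_eq_one_iff_of_nonzero' (1 : _ ⧸ P) one_ne_zero]
      intro w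
      obtain ⟨y, rfl⟩ := Ideal.Quotient.mk_surjective w
      obtain ⟨c, hc⟩ := hres P hPmax y
      refine ⟨Ideal.Quotient.mk _ (algebraMap ℂ _ c), ?_⟩
      rw [Algebra.smul_def, mul_one, Ideal.Quotient.algebraMap_mk_of_liesOver]
      rw [eq_comm, Ideal.Quotient.eq]
      exact hc
    rw [h1, mul_one]

end

end Pool.Agent.Sextic.AD
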