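import Pool.Agent.Work.MP_8e3fb2_ag.AD.Stmts

set_option autoImplicit false

/-!
# The accessory degree of the sextic, item Div (helper37)
-/

namespace Pool.Agent.Sextic.AD

open IntermediateField

noncomputable section

section

variable {E : Type} [Field E] [Algebra ℂ E]

theorem Div_one (P : Pl E) : P.1 1 = 0 := by
  have h := P.2.const 1
  rwa [map_one] at h

theorem Div_inv (P : Pl E) (f : E) (hf : f ≠ 0) : P.1 f⁻¹ = - P.1 f := by
  have h := P.2.mul f f⁻¹ hf (inv_ne_zero hf)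
  rw [mul_inv_cancel₀ hf, Div_one] at h
  linarith

variable {G : Type} [Group G] {b : G →* (E ≃ₐ[ℂ] E)}

theorem Div_e_one (S : LS E G b) : S.e 1 = 1 := by
  have h := S.e_mul 1 1
  rw [mul_one, map_one, AlgEquiv.one_apply] at h
  have h2 := S.e_ne 1
  exact (mul_right_cancel₀ h2 ((one_mul _).trans h)).symm

theorem Div_ord (S : LS E G b) (g : G) (P : Pl E) (w : E) (hw : w ≠ 0) :
    (b g • P).1 ((S.e g)⁻¹ * b g w) = - (b g • P).1 (S.e g) + P.1 w := by
  have h1 : b g w ≠ 0 := by simpa using hw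
  rw [(b g • P).2.mul _ _ (inv_ne_zero (S.e_ne g)) h1, Div_inv _ _ (S.e_ne g), smul_val]

theorem Div_back (S : LS E G b) (g : G) (w : E) :
    (S.e g)⁻¹ * b g ((S.e g⁻¹)⁻¹ * b g⁻¹ w) = w := by
  have h1 := S.e_mul g g⁻¹
  rw [mul_inv_cancel, Div_e_one] at h1
  have h2 : b g (b g⁻¹ w) = w := by
    rw [← AlgEquiv.mul_apply, ← map_mul, mul_inv_cancel, map_one, AlgEquiv.one_apply]
  rw [map_mul, h2, map_inv₀, ← mul_assoc, ← mul_inv, ← h1, inv_one, one_mul]

theorem Div_m (S : LS E G b) (g : G) (P : Pl E) :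
    S.m (b g • P) = - (b g • P).1 (S.e g) + S.m P := by
  apply le_antisymm
  · obtain ⟨w, hw, hw0, h⟩ := S.m_eq P
    have h1 : (S.e g)⁻¹ * b g w ≠ 0 :=
      mul_ne_zero (inv_ne_zero (S.e_ne g)) (by simpa using hw0)
    have h2 := S.m_le (b g • P) _ (S.e_W g w hw) h1
    rw [Div_ord S g P w hw0, h] at h2
    exact h2
  · obtain ⟨w, hw, hw0, h⟩ := S.m_eq (b g • P)
    have h1 := S.e_W g⁻¹ w hw
    have h0 : (S.e g⁻¹)⁻¹ * b g⁻¹ w ≠ 0 :=
      mul_ne_zero (inv_ne_zero (S.e_ne g⁻¹)) (by simpa using hw0)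
    have h2 := S.m_le P _ h1 h0
    have h3 := Div_ord S g P _ h0
    rw [Div_back, h] at h3
    linarith

end

theorem prDiv (h1 : StSum0) (h2 : StHol) : StDiv := by
  intro E _ _ G _ b S hFF
  have key : ∀ w ∈ S.W, w ≠ 0 →
      (∀ P, 0 ≤ S.D w P) ∧ (Function.support (S.D w)).Finite ∧ ∑ᶠ P, S.D w P = S.deg := by
    intro w hw hw0
    obtain ⟨a1, a2⟩ := h1 E hFF w hw0
    have hs : (Function.support fun P : Pl E => P.1 w).Finite := a1
    refine ⟨fun P => sub_nonneg.2 (S.m_le P w hw hw0), ?_, ?_⟩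
    · refine (hs.union S.m_fin).subset ?_
      intro P hP
      by_contra hcon
      rw [Set.mem_union, not_or, Function.notMem_support, Function.notMem_support] at hcon
      apply hP
      show P.1 w - S.m P = 0
      rw [hcon.1, hcon.2, sub_zero]
    · show ∑ᶠ P : Pl E, (P.1 w - S.m P) = - ∑ᶠ P : Pl E, S.m P
      rw [finsum_sub_distrib hs S.m_fin, a2, zero_sub]
  refine ⟨?_, fun w hw hw0 => ?_⟩
  · by_contra hdeg
    have hF := S.finW
    have hnt : Nontrivial S.W := Module.nontrivial_of_finrank_pos (R := ℂ) (by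
      have := S.two
      omega)
    obtain ⟨u, hu⟩ := exists_ne (0 : S.W)
    have hu0 : (u : E) ≠ 0 := fun h => hu (Subtype.ext h)
    have hzero : ∀ w ∈ S.W, w ≠ 0 → ∀ P : Pl E, P.1 w = S.m P := by
      intro w hw hw0 P
      obtain ⟨b1, b2, b3⟩ := key w hw hw0
      have h3 := single_le_finsum P b2 b1
      rw [b3] at h3
      have h4 := b1 P
      have h5 : S.D w P = 0 := by
        have : S.deg ≤ 0 := not_lt.1 hdeg
        linarith
      exact sub_eq_zero.1 h5
    have hle : Module.finrank ℂ S.W ≤ 1 := by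
      refine finrank_le_one u fun w => ?_
      by_cases hw : w = 0
      · exact ⟨0, by rw [hw, zero_smul]⟩
      have hw0 : (w : E) ≠ 0 := fun h => hw (Subtype.ext h)
      obtain ⟨c, hc⟩ := h2 E hFF ((w : E) * (u : E)⁻¹) fun P => by
        rw [P.2.mul _ _ hw0 (inv_ne_zero hu0), Div_inv P _ hu0, hzero w w.2 hw0 P,
          hzero u u.2 hu0 P]
        simp
      refine ⟨c, Subtype.ext ?_⟩
      show c • (u : E) = w
      rw [Algebra.smul_def, ← hc, mul_assoc, inv_mul_cancel₀ hu0, mul_one]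
    have := S.two
    omega
  · obtain ⟨b1, b2, b3⟩ := key w hw hw0
    refine ⟨b1, b2, b3, fun g P => ?_⟩
    show (b g • P).1 ((S.e g)⁻¹ * b g w) - S.m (b g • P) = P.1 w - S.m P
    rw [Div_ord S g P w hw0, Div_m S g P]
    ring

end

end Pool.Agent.Sextic.AD
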