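import Pool.Agent.Work.MP_8e3fb2_ag.AD.Stmts

set_option autoImplicit false

/-!
# Item E1: a finitely generated stable subfield of transcendence degree at most one
-/

namespace Pool.Agent.Sextic.AD

open IntermediateField

noncomputable section

/-- The fixed field of an automorphism. -/
private def E1_fix {M : Type} [Field M] [Algebra ℂ M] (s : M ≃ₐ[ℂ] M) : IntermediateField ℂ M where
  carrier := {y | s y = y}
  mul_mem' := by
    intro x y hx hy
    show s (x * y) = x * y
    rw [map_mul, show s x = x from hx, show s y = y from hy]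
  one_mem' := map_one s
  add_mem' := by
    intro x y hx hy
    show s (x + y) = x + y
    rw [map_add, show s x = x from hx, show s y = y from hy]
  zero_mem' := map_zero s
  algebraMap_mem' := fun c => s.commutes c
  inv_mem' := by
    intro x hx
    show s x⁻¹ = x⁻¹
    rw [map_inv₀, show s x = x from hx]

private theorem E1_mem_fix {M : Type} [Field M] [Algebra ℂ M] (s : M ≃ₐ[ℂ] M) (y : M) :
    y ∈ E1_fix s ↔ s y = y := Iff.rfl

/-- Images of algebraic elements under automorphisms which fix `F`. -/
private theorem E1_alg {M : Type} [Field M] [Algebra ℂ M] (F : IntermediateField ℂ M)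
    (s : M ≃ₐ[ℂ] M) (hs : ∀ y ∈ F, s y = y) (θ : M) (h : IsAlgebraic F θ) :
    IsAlgebraic F (s θ) := by
  obtain ⟨p, hp, hp2⟩ := h
  refine ⟨p, hp, ?_⟩
  have h1 := congrArg s hp2
  rw [map_zero, Polynomial.aeval_def] at h1
  have h2 := Polynomial.hom_eval₂ p (algebraMap F M) (s : M →+* M) θ
  rw [Polynomial.aeval_def]
  have h3 : ((s : M →+* M).comp (algebraMap F M)) = algebraMap F M := by
    ext y
    exact hs y.1 y.2
  rw [h3] at h2
  rw [← h1]
  exact h2.symm

theorem prE1 : StE1 := by
  intro M _ _ K F E₀ hFK hFE htr hK hrel A _ _ a ha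
  -- a finite spanning set
  obtain ⟨S, hSfin, hSalg, hSspan⟩ : ∃ S : Set M, S.Finite ∧ (∀ θ ∈ S, IsAlgebraic F θ) ∧
      ∀ y ∈ E₀, y ∈ Submodule.span F S := by
    rw [IntermediateField.relfinrank_eq_finrank_of_le hFE] at hrel
    have hfd : FiniteDimensional F (extendScalars hFE) :=
      FiniteDimensional.of_finrank_pos (Nat.pos_of_ne_zero hrel)
    obtain ⟨s, hs⟩ := hfd.fg_top
    refine ⟨(fun y : extendScalars hFE => (y : M)) '' (s : Set (extendScalars hFE)),
      s.finite_toSet.image _, ?_, ?_⟩
    · rintro _ ⟨y, _, rfl⟩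
      have h1 : IsAlgebraic F y := Algebra.IsAlgebraic.isAlgebraic y
      exact h1.algHom ((extendScalars hFE).val)
    · intro y hy
      have h1 : (⟨y, hy⟩ : extendScalars hFE) ∈ Submodule.span F (s : Set (extendScalars hFE)) := by
        rw [hs]
        exact Submodule.mem_top
      have h2 := Submodule.mem_map_of_mem (f := (extendScalars hFE).val.toLinearMap) h1
      rw [Submodule.map_span] at h2
      exact h2
  obtain ⟨S', hS'⟩ : ∃ S' : Set M, S' = ⋃ g : A, (a g) '' S := ⟨_, rfl⟩
  have hS'fin : S'.Finite := by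
    rw [hS']
    exact Set.finite_iUnion fun g => hSfin.image _
  have hS'alg : ∀ θ ∈ S', IsAlgebraic F θ := by
    intro θ hθ
    rw [hS', Set.mem_iUnion] at hθ
    obtain ⟨g, y, hy, rfl⟩ := hθ
    exact E1_alg F (a g) (fun z hz => ha g z (hFK hz)) y (hSalg y hy)
  refine ⟨adjoin ℂ S', fg_adjoin_of_finite hS'fin, ?_, ?_, ?_⟩
  · -- transcendence degree
    have h1 : Algebra.trdeg ℂ F + Algebra.trdeg F (algebraicClosure F M) =
        Algebra.trdeg ℂ (algebraicClosure F M) := _root_.trdeg_add_eq ℂ F
    have h2 : Algebra.trdeg F (algebraicClosure F M) = 0 := _root_.trdeg_eq_zero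
    rw [h2, add_zero] at h1
    have h3 : adjoin ℂ S' ≤ (algebraicClosure F M).restrictScalars ℂ := by
      rw [adjoin_le_iff]
      intro θ hθ
      exact (mem_algebraicClosure_iff).2 (hS'alg θ hθ)
    refine le_trans ?_ (h1 ▸ htr)
    exact _root_.trdeg_le_of_injective (inclusion h3) (inclusion_injective h3)
  · -- stability
    intro g y hy
    have h1 : (adjoin ℂ S').map ((a g : M ≃ₐ[ℂ] M) : M →ₐ[ℂ] M) ≤ adjoin ℂ S' := by
      rw [adjoin_map, adjoin_le_iff]
      rintro _ ⟨θ, hθ, rfl⟩
      rw [hS', Set.mem_iUnion] at hθ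
      obtain ⟨h, z, hz, rfl⟩ := hθ
      apply subset_adjoin
      rw [hS', Set.mem_iUnion]
      refine ⟨g * h, z, hz, ?_⟩
      rw [map_mul]
      rfl
    exact h1 ⟨y, hy, rfl⟩
  · intro g hg
    have hK' : K ≤ E1_fix (a g) := fun y hy => ha g y hy
    have hE' : E₀ ≤ E1_fix (a g) := by
      intro y hy
      rw [E1_mem_fix]
      refine Submodule.span_induction (p := fun z _ => a g z = z) ?_ ?_ ?_ ?_ (hSspan y hy)
      · intro θ hθ
        apply hg
        apply subset_adjoin
        rw [hS', Set.mem_iUnion]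
        refine ⟨1, θ, hθ, ?_⟩
        rw [map_one]
        rfl
      · exact map_zero _
      · intro u v _ _ hu hv
        rw [map_add, hu, hv]
      · intro c u _ hu
        rw [Algebra.smul_def, map_mul, hu]
        congr 1
        exact ha g c.1 (hFK c.2)
    have hT : (⊤ : IntermediateField ℂ M) ≤ E1_fix (a g) := by
      rw [← hK]
      exact sup_le hK' hE'
    ext y
    exact hT (IntermediateField.mem_top : y ∈ (⊤ : IntermediateField ℂ M))

end

end Pool.Agent.Sextic.AD
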