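import Pool.Agent.Work.MP_8e3fb2_ag.AD.Stmts

/-!
Item [8e3fb2 AD EInv]: the divisor of an eigenvector is invariant.
-/

set_option autoImplicit false

namespace Pool.Agent.Sextic.AD

theorem EInv_smul {E : Type} [Field E] [Algebra ℂ E] (P : Pl E) (c : ℂ) (w : E) (hc : c ≠ 0)
    (hw : w ≠ 0) : P.1 (c • w) = P.1 w := by
  have h1 : algebraMap ℂ E c ≠ 0 := by
    rw [Ne, map_eq_zero]
    exact hc
  rw [Algebra.smul_def, P.2.mul _ _ h1 hw, P.2.const c, zero_add]

theorem prEInv (h : StDiv) : StEInv := by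
  intro E _ _ G _ b S hE B χ w hw hEig g hg P
  have hw1 : w.1 ≠ 0 := fun h0 => hw (Subtype.ext h0)
  have e1 : S.rho g w = χ g • w := hEig g hg
  have e2 : (S.e g)⁻¹ * b g w.1 = χ g • w.1 := by
    have e3 := congrArg (fun u : S.W => (u : E)) e1
    exact e3
  have hb : b g w.1 ≠ 0 := by
    intro h0
    exact hw1 (by simpa using h0)
  have hχ : χ g ≠ 0 := by
    intro h0
    rw [h0, zero_smul] at e2
    exact (mul_ne_zero (inv_ne_zero (S.e_ne g)) hb) e2
  have h4 := ((h E G b S hE).2 w.1 w.2 hw1).2.2.2 g P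
  rw [e2] at h4
  rw [← h4]
  unfold LS.D
  rw [EInv_smul (b g • P) (χ g) w.1 hχ hw1]

end Pool.Agent.Sextic.AD
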