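import Pool.Agent.Work.MP_8e3fb2_ag.AD.Stmts

set_option autoImplicit false

namespace Pool.Agent.Sextic.AD

theorem prEig : StEig := by
  intro V i1 i2 i3 i4 G iG ρ B hcomm
  classical
  have hex : ∃ n : ℕ, ∃ W : Submodule ℂ V, W ≠ ⊥ ∧ (∀ g ∈ B, ∀ w ∈ W, ρ g w ∈ W) ∧
      Module.finrank ℂ W = n := by
    refine ⟨_, ⊤, ?_, ?_, rfl⟩
    · exact top_ne_bot
    · intro g _ w _
      exact Submodule.mem_top
  obtain ⟨W, hW0, hWs, hWn⟩ := Nat.find_spec hex
  have hmin : ∀ W' : Submodule ℂ V, W' ≠ ⊥ → (∀ g ∈ B, ∀ w ∈ W', ρ g w ∈ W') → W' ≤ W → W' = W := by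
    intro W' h1 h2 h3
    have h4 := Nat.find_min' hex ⟨W', h1, h2, rfl⟩
    rw [← hWn] at h4
    exact Submodule.eq_of_le_of_finrank_le h3 h4
  have hsc : ∀ g : G, ∃ μ : ℂ, g ∈ B → ∀ w ∈ W, ρ g w = μ • w := by
    intro g
    by_cases hg : g ∈ B
    · have hnt : Nontrivial W := Submodule.nontrivial_iff_ne_bot.2 hW0
      obtain ⟨μ, hμ⟩ := Module.End.exists_eigenvalue ((ρ g).restrict (hWs g hg) : Module.End ℂ W)
      obtain ⟨v, hv⟩ := hμ.exists_hasEigenvector
      refine ⟨μ, fun _ => ?_⟩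
      have hv1 : ρ g v.1 = μ • v.1 := by
        have := hv.apply_eq_smul
        have h5 := congrArg Subtype.val this
        exact h5
      have hv2 : v.1 ≠ 0 := fun h => hv.2 (Subtype.ext h)
      let W' : Submodule ℂ V := W ⊓ LinearMap.ker (ρ g - μ • LinearMap.id)
      have hmem : ∀ w, w ∈ W' ↔ w ∈ W ∧ ρ g w = μ • w := by
        intro w
        rw [Submodule.mem_inf, LinearMap.mem_ker]
        constructor
        · rintro ⟨h6, h7⟩
          refine ⟨h6, ?_⟩
          have h8 : ρ g w - μ • w = 0 := h7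
          exact sub_eq_zero.1 h8
        · rintro ⟨h6, h7⟩
          refine ⟨h6, ?_⟩
          show ρ g w - μ • w = 0
          rw [h7, sub_self]
      have hW' : W' = W := by
        apply hmin
        · intro h6
          have h7 : v.1 ∈ W' := (hmem _).2 ⟨v.2, hv1⟩
          rw [h6, Submodule.mem_bot] at h7
          exact hv2 h7
        · intro h hh w hw
          rw [hmem] at hw ⊢
          refine ⟨hWs h hh w hw.1, ?_⟩
          have h6 : ρ g (ρ h w) = ρ (g * h) w := by rw [map_mul]; rfl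
          have h7 : ρ h (ρ g w) = ρ (h * g) w := by rw [map_mul]; rfl
          rw [h6, hcomm g hg h hh, ← h7, hw.2, map_smul]
        · exact inf_le_left
      intro w hw
      rw [← hW'] at hw
      exact ((hmem w).1 hw).2
    · exact ⟨0, fun h => absurd h hg⟩
  choose χ hχ using hsc
  obtain ⟨v, hv, hv0⟩ := Submodule.exists_mem_ne_zero_of_ne_bot hW0
  exact ⟨v, χ, hv0, fun t ht => hχ t ht v hv⟩

end Pool.Agent.Sextic.AD
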