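import Pool.Agent.Work.MP_8e3fb2_ag.AD.Stmts

/-!
# Item FF1 of block AD (MP_8e3fb2_ag)

A function field of one variable is finite over the field generated by any transcendental element.
-/

set_option autoImplicit false

namespace Pool.Agent.Sextic.AD

open IntermediateField
open scoped algebraAdjoinAdjoin

private lemma FF1_trdeg (E : Type) [Field E] [Algebra ℂ E] (t : E)
    (h : FiniteDimensional (ℂ⟮t⟯ : IntermediateField ℂ E) E) : Algebra.trdeg ℂ E ≤ 1 := by
  haveI h1 : Algebra.IsAlgebraic (ℂ⟮t⟯ : IntermediateField ℂ E) E :=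
    Algebra.IsAlgebraic.of_finite _ _
  haveI h2 : Algebra.IsAlgebraic (Algebra.adjoin ℂ ({t} : Set E)) E :=
    (IsFractionRing.comap_isAlgebraic_iff (K := (ℂ⟮t⟯ : IntermediateField ℂ E))).mpr h1
  simpa using Algebra.IsAlgebraic.trdeg_le_cardinalMk ℂ ({t} : Set E)

theorem prFF1 : StFF1 := by
  intro E _ _ ⟨t, _, hfin⟩ f hf
  haveI := hfin
  have h3 := FF1_trdeg E t hfin
  have h4 : AlgebraicIndependent ℂ (fun _ : Unit => f) :=
    algebraicIndependent_unique_type_iff.mpr hf
  have h5 : IsTranscendenceBasis ℂ (fun _ : Unit => f) :=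
    h4.isTranscendenceBasis_of_trdeg_le_of_finite (by simpa using h3)
  haveI h6 : Algebra.IsAlgebraic (ℂ⟮f⟯ : IntermediateField ℂ E) E := by
    have := h5.isAlgebraic_field
    rwa [Set.range_const] at this
  haveI h9 : Algebra.EssFiniteType ℂ (ℂ⟮t⟯ : IntermediateField ℂ E) :=
    essFiniteType_iff.mpr (IntermediateField.fg_adjoin_of_finite (Set.finite_singleton t))
  haveI h7 : Algebra.EssFiniteType ℂ E := .comp ℂ (ℂ⟮t⟯ : IntermediateField ℂ E) E
  haveI h8 : Algebra.EssFiniteType (ℂ⟮f⟯ : IntermediateField ℂ E) E := .of_comp ℂ _ E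
  exact Algebra.finite_of_essFiniteType_of_isAlgebraic

end Pool.Agent.Sextic.AD
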