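import Pool.Agent.Work.MP_8e3fb2_ag.AD.Stmts

/-!
Item [8e3fb2 AD FG]: finitely generated fields of transcendence degree one.
-/

set_option autoImplicit false

namespace Pool.Agent.Sextic.AD

open IntermediateField

theorem FG_mem_bot {M : Type} [Field M] [Algebra ℂ M] (t : M) (ht : IsAlgebraic ℂ t) :
    t ∈ (⊥ : IntermediateField ℂ M) := by
  have h1 : Algebra.IsAlgebraic ℂ (ℂ⟮t⟯ : IntermediateField ℂ M) :=
    IntermediateField.isAlgebraic_adjoin_simple ht.isIntegral
  have h2 : (ℂ⟮t⟯ : IntermediateField ℂ M) = ⊥ :=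
    IntermediateField.eq_bot_of_isAlgClosed_of_isAlgebraic _
  rw [← h2]
  exact IntermediateField.mem_adjoin_simple_self ℂ t

theorem prFG : StFG := by
  intro M _ _ E hFG htr hne
  have hex : ∃ y ∈ E, y ∉ (⊥ : IntermediateField ℂ M) := by
    by_contra h
    push Not at h
    exact hne (le_antisymm (fun y hy => h y hy) bot_le)
  obtain ⟨y, hyE, hy⟩ := hex
  have ht : Transcendental ℂ (⟨y, hyE⟩ : E) := by
    intro hal
    apply hy
    have h1 : IsAlgebraic ℂ (algebraMap E M ⟨y, hyE⟩) := hal.algebraMap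
    exact FG_mem_bot y h1
  refine ⟨⟨y, hyE⟩, ht, ?_⟩
  have hind : AlgebraicIndependent ℂ (fun _ : Unit => (⟨y, hyE⟩ : E)) :=
    (algebraicIndependent_unique_type_iff).2 ht
  have hbas : IsTranscendenceBasis ℂ (fun _ : Unit => (⟨y, hyE⟩ : E)) :=
    hind.isTranscendenceBasis_of_trdeg_le_of_finite (by simpa using htr)
  have halg := hbas.isAlgebraic_field
  rw [Set.range_const] at halg
  haveI : Algebra.EssFiniteType ℂ E := IntermediateField.essFiniteType_iff.2 hFG
  haveI : Algebra.EssFiniteType (ℂ⟮(⟨y, hyE⟩ : E)⟯ : IntermediateField ℂ E) E :=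
    Algebra.EssFiniteType.of_comp ℂ _ E
  haveI := halg
  exact Algebra.finite_of_essFiniteType_of_isAlgebraic

end Pool.Agent.Sextic.AD
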