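import Pool.Agent.Work.MP_8e3fb2_ag.AD.PlAux

set_option autoImplicit false

/-!
# Item Five: eigenfunctions at a fixed place
-/

namespace Pool.Agent.Sextic.AD

open IntermediateField

theorem prFive : StFive := by
  intro E _ _ σ N P f c hN hP hf hc hc1 hdvd
  obtain ⟨k, hk⟩ := hdvd
  obtain ⟨u, hu0, hu⟩ := P.2.unif
  -- `f = w ^ N * y`
  obtain ⟨w, hw⟩ : ∃ w, w = u ^ k := ⟨_, rfl⟩
  have hw0 : w ≠ 0 := hw ▸ zpow_ne_zero k hu0
  have hPw : P.1 w = k := by rw [hw, Pl.zpow P hu0, hu, mul_one]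
  obtain ⟨y, hy⟩ : ∃ y, y = f / w ^ N := ⟨_, rfl⟩
  have hy0 : y ≠ 0 := hy ▸ div_ne_zero hf (pow_ne_zero N hw0)
  have hPy : P.1 y = 0 := by
    rw [hy, Pl.div P hf (pow_ne_zero N hw0), Pl.pow P hw0, hPw, hk, sub_self]
  have hfe : f = w ^ N * y := by
    rw [hy, mul_div_cancel₀]
    exact pow_ne_zero N hw0
  obtain ⟨η, _, hη, hηn⟩ := Pl.fix_pow hP hw0
  have h1 : η ^ N = 1 := by
    have h2 := hηn N
    rw [hN, AlgEquiv.one_apply, div_self hw0] at h2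
    exact Pl.Rs_unique h2 (Pl.Rs_one P)
  have h3 : Pl.Rs P (σ f / f) 1 := by
    have h4 := Pl.Rs_mul (Pl.Rs_pow hη N) (Pl.fix_unit hP hy0 hPy)
    rw [h1, mul_one] at h4
    have h5 : (σ w / w) ^ N * (σ y / y) = σ f / f := by
      rw [hfe, map_mul, map_pow, div_pow, div_mul_div_comm]
    rwa [h5] at h4
  have h6 : σ f / f = algebraMap ℂ E c := by
    rw [hc, Algebra.smul_def, mul_div_assoc, div_self hf, mul_one]
  rw [h6] at h3
  exact hc1 (Pl.Rs_unique (Pl.Rs_const P c) h3)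

end Pool.Agent.Sextic.AD
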