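import Pool.Agent.Work.MP_8e3fb2_ag.AD.Stmts

set_option autoImplicit false

/-!
# The accessory degree of the sextic: item Fix
-/

namespace Pool.Agent.Sextic.AD

private theorem Fix_mem {G : Type} [Group G] {V : Type} [AddCommGroup V] [Module ℂ V]
    (ρ : Representation ℂ G V) (T : Subgroup G) (χ : G → ℂ) (h : G)
    (hT : ∀ t ∈ T, h⁻¹ * t * h ∈ T ∧ χ (h⁻¹ * t * h) = χ t) (v : V) (hv : v ∈ Eig ρ T χ) :
    ρ h v ∈ Eig ρ T χ := by
  intro t ht
  obtain ⟨h1, h2⟩ := hT t ht
  have h3 : ρ (h⁻¹ * t * h) v = χ (h⁻¹ * t * h) • v := hv _ h1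
  have h4 : t * h = h * (h⁻¹ * t * h) := by group
  calc ρ t (ρ h v) = ρ (t * h) v := by rw [map_mul]; rfl
    _ = ρ (h * (h⁻¹ * t * h)) v := by rw [h4]
    _ = ρ h (ρ (h⁻¹ * t * h) v) := by rw [map_mul]; rfl
    _ = χ t • ρ h v := by rw [h3, h2, map_smul]

theorem prFix : StFix := by
  intro G _ V _ _ _ ρ T χ g n hg3 hng hg hn hrk v hv
  by_cases hv0 : v = 0
  · rw [hv0, map_zero]
  obtain ⟨u, hu⟩ := finrank_le_one_iff.1 hrk
  have hex : ∀ w ∈ Eig ρ T χ, ∃ c : ℂ, w = c • v := by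
    intro w hw
    obtain ⟨a, ha⟩ := hu ⟨v, hv⟩
    obtain ⟨b, hb⟩ := hu ⟨w, hw⟩
    have ha' : a • (u : V) = v := congrArg Subtype.val ha
    have hb' : b • (u : V) = w := congrArg Subtype.val hb
    have ha0 : a ≠ 0 := by
      intro h0
      rw [h0, zero_smul] at ha'
      exact hv0 ha'.symm
    refine ⟨b * a⁻¹, ?_⟩
    rw [← ha', smul_smul, inv_mul_cancel_right₀ ha0, hb']
  obtain ⟨l, hl⟩ := hex _ (Fix_mem ρ T χ g hg v hv)
  obtain ⟨m, hm⟩ := hex _ (Fix_mem ρ T χ n hn v hv)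
  have hm0 : m ≠ 0 := by
    intro h0
    rw [h0, zero_smul] at hm
    have h1 : ρ n⁻¹ (ρ n v) = v := by
      calc ρ n⁻¹ (ρ n v) = ρ (n⁻¹ * n) v := by rw [map_mul]; rfl
        _ = v := by rw [inv_mul_cancel, map_one]; rfl
    rw [hm, map_zero] at h1
    exact hv0 h1.symm
  have h3 : l ^ 3 = 1 := by
    have h1 : ρ (g ^ 3) v = (l ^ 3) • v := by
      calc ρ (g ^ 3) v = ρ g (ρ g (ρ g v)) := by
            rw [pow_succ, pow_succ, pow_one, map_mul, map_mul]; rfl
        _ = (l ^ 3) • v := by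
            rw [hl, map_smul, hl, map_smul, map_smul, hl, smul_smul, smul_smul]
            congr 1
            ring
    rw [hg3, map_one] at h1
    have h2 : (l ^ 3 - 1) • v = 0 := by
      rw [sub_smul, one_smul, ← h1]
      exact sub_self _
    rcases smul_eq_zero.1 h2 with h | h
    · exact sub_eq_zero.1 h
    · exact absurd h hv0
  have h2 : l ^ 2 = 1 := by
    have h1 : g * n * g = n := by
      have : n * g = g⁻¹ * n := by rw [← hng]; group
      rw [mul_assoc, this, mul_inv_cancel_left]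
    have h4 : ρ (g * n * g) v = (l ^ 2 * m) • v := by
      calc ρ (g * n * g) v = ρ g (ρ n (ρ g v)) := by
            rw [map_mul, map_mul]; rfl
        _ = (l ^ 2 * m) • v := by
            rw [hl, map_smul, hm, map_smul, map_smul, hl, smul_smul, smul_smul]
            congr 1
            ring
    rw [h1, hm] at h4
    have h5 : (l ^ 2 * m - m) • v = 0 := by
      rw [sub_smul, ← h4, sub_self]
    rcases smul_eq_zero.1 h5 with h | h
    · have h6 : l ^ 2 * m = 1 * m := by rw [one_mul]; exact sub_eq_zero.1 h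
      exact mul_right_cancel₀ hm0 h6
    · exact absurd h hv0
  have h1 : l = 1 := by
    calc l = l * l ^ 2 := by rw [h2, mul_one]
      _ = l ^ 3 := by ring
      _ = 1 := h3
  rw [hl, h1, one_smul]

end Pool.Agent.Sextic.AD
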