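import Pool.Agent.Work.MP_8e3fb2_ag.AD.PlAux

set_option autoImplicit false

/-!
# Item Free: finitely many places are not free
-/

namespace Pool.Agent.Sextic.AD

open IntermediateField

theorem prFree (h : StSum0) : StFree := by
  intro E _ _ G _ _ b hff hb
  have h1 : ∀ g : G, g ≠ 1 → {P : Pl E | b g • P = P}.Finite := by
    intro g hg
    obtain ⟨y, hy⟩ : ∃ y, b g y ≠ y := by
      by_contra hcon
      push Not at hcon
      apply hg
      apply hb
      rw [map_one]
      ext y
      exact hcon y
    have hy0 : y ≠ 0 := by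
      rintro rfl
      exact hy (map_zero _)
    have hw0 : b g y - y ≠ 0 := sub_ne_zero.2 hy
    apply ((h E hff y hy0).1.union (h E hff _ hw0).1).subset
    intro P hP
    have hP' : b g • P = P := hP
    by_cases hPy : P.1 y = 0
    · right
      obtain ⟨c, _, hc⟩ := Pl.Rs_exists P hy0 hPy
      have h2 : Pl.Mx P (b g y - y) := by
        have h3 := Pl.Mx_sub (Pl.fix_Rs hP' hc) hc
        have h4 : b g y - algebraMap ℂ E c - (y - algebraMap ℂ E c) = b g y - y := by ring
        rwa [h4] at h3
      rcases h2 with h2 | h2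
      · exact absurd h2 hw0
      · exact h2.ne'
    · left
      exact hPy
  apply (Set.finite_iUnion (fun g : G => (Set.finite_iUnion (fun hg : g ≠ 1 => h1 g hg)))).subset
  rintro P ⟨g, hg, hP⟩
  rw [Set.mem_iUnion]
  refine ⟨g, ?_⟩
  rw [Set.mem_iUnion]
  exact ⟨hg, hP⟩

end Pool.Agent.Sextic.AD
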