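import Pool.Agent.Work.MP_8e3fb2_ag.AD.Stmts

set_option autoImplicit false

/-!
# The accessory degree of the sextic: ITEM G6 (subgroups of index six)
-/

namespace Pool.Agent.Sextic.AD

/-- The cycle type of a permutation of order five. -/
private theorem G6_type (z : Equiv.Perm (Fin 6)) (hz : orderOf z = 5) : z.cycleType = {5} := by
  obtain ⟨n, hn⟩ := Equiv.Perm.cycleType_prime_order (σ := z) (by rw [hz]; norm_num)
  have h1 : z.cycleType.sum ≤ 6 := by
    rw [Equiv.Perm.sum_cycleType]
    exact (Finset.card_le_univ _).trans (by simp)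
  rw [hn, Multiset.sum_replicate, hz, smul_eq_mul] at h1
  have h2 : n = 0 := by omega
  rw [hn, h2, hz]
  rfl

/-- The centraliser of a permutation of order five has five elements. -/
private theorem G6_cent (z : Equiv.Perm (Fin 6)) (hz : orderOf z = 5) :
    Nat.card (Subgroup.centralizer {z}) = 5 := by
  rw [Equiv.Perm.nat_card_centralizer, G6_type z hz]
  simp [Multiset.toFinset_singleton]

private theorem G6_five (z : Equiv.Perm (Fin 6)) (hz : orderOf z = 5) :
    (Finset.univ.filter fun t : Equiv.Perm (Fin 6) => t * z * t⁻¹ = z).card = 5 := by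
  rw [← G6_cent z hz, ← Fintype.card_subtype, ← Nat.card_eq_fintype_card]
  refine Nat.card_congr (Equiv.subtypeEquivRight ?_)
  intro t
  rw [Subgroup.mem_centralizer_singleton_iff, mul_inv_eq_iff_eq_mul]

private theorem G6_four (z : Equiv.Perm (Fin 6)) (hz : orderOf z = 5) :
    (Finset.univ.filter fun t : Equiv.Perm (Fin 6) => t * z * t⁻¹ = z ^ 4).card ≤ 5 := by
  rcases (Finset.univ.filter fun t : Equiv.Perm (Fin 6) => t * z * t⁻¹ = z ^ 4).eq_empty_or_nonempty
    with he | ⟨d, hd⟩
  · rw [he]; simp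
  · rw [Finset.mem_filter] at hd
    rw [← G6_five z hz]
    refine Finset.card_le_card_of_injOn (fun t => d⁻¹ * t) ?_ ?_
    · intro t ht
      simp only [Finset.coe_filter, Finset.mem_univ, true_and, Set.mem_ofPred_eq] at ht ⊢
      have e : d⁻¹ * t * z * (d⁻¹ * t)⁻¹ = d⁻¹ * (t * z * t⁻¹) * d := by group
      rw [e, ht, ← hd.2]
      group
    · intro s _ t _ hst
      exact mul_left_cancel hst

theorem prG6 : StG6 := by
  intro G hG
  classical
  have hcardS : Nat.card (Equiv.Perm (Fin 6)) = 720 := by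
    rw [Nat.card_eq_fintype_card, Fintype.card_perm]
    rfl
  have hcard : Nat.card G = 120 := by
    have := G.card_mul_index
    rw [hG, hcardS] at this
    omega
  have : Fact (Nat.Prime 5) := ⟨by norm_num⟩
  obtain ⟨g, hg⟩ := exists_prime_orderOf_dvd_card' (G := G) 5 (by rw [hcard]; norm_num)
  have hz : orderOf (g : Equiv.Perm (Fin 6)) = 5 := by rw [Subgroup.orderOf_coe, hg]
  by_contra hno
  have h2 : ∀ t ∈ G, t * (g : Equiv.Perm (Fin 6)) * t⁻¹ ≠ (g : Equiv.Perm (Fin 6)) ^ 2 :=
    fun t ht h => hno ⟨g, g.2, t, ht, hz, h⟩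
  have hp5 : (g : Equiv.Perm (Fin 6)) ^ 5 = 1 := by rw [← hz]; exact pow_orderOf_eq_one _
  -- the Sylow subgroup
  have hcz : Nat.card (Subgroup.zpowers g) = 5 := by rw [Nat.card_zpowers, hg]
  have hfac : (120 : ℕ).factorization 5 = 1 := by
    have h1 : (120 : ℕ) = 5 ^ 1 * 24 := by norm_num
    rw [h1, Nat.factorization_mul (by norm_num) (by norm_num)]
    have h5 : (5 : ℕ).factorization 5 = 1 := Nat.Prime.factorization_self (by norm_num)
    simp [Nat.factorization_eq_zero_of_not_dvd (by norm_num : ¬ 5 ∣ 24), h5]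
  let P : Sylow 5 G := Sylow.ofCard (Subgroup.zpowers g) (by rw [hcz, hcard, hfac, pow_one])
  have hP : ∀ x : G, x ∈ P ↔ x ∈ Subgroup.zpowers g := fun x => Iff.rfl
  have hs1 := card_sylow_modEq_one 5 G
  rw [P.card_eq_index_normalizer] at hs1
  set N : Subgroup G := Subgroup.normalizer (P : Set G) with hN
  have hNi := N.card_mul_index
  rw [hcard] at hNi
  have hle : Subgroup.zpowers g ≤ N := by
    have := Subgroup.le_normalizer (H := (P : Subgroup G))
    exact this
  have hd5 : 5 ∣ Nat.card N := by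
    have := Subgroup.card_dvd_of_le hle
    rwa [hcz] at this
  -- the normaliser is small
  have hN10 : Nat.card N ≤ 10 := by
    have hsub : ∀ t : N, ((t : G) : Equiv.Perm (Fin 6)) ∈
        (Finset.univ.filter fun t : Equiv.Perm (Fin 6) => t * (g : Equiv.Perm (Fin 6)) * t⁻¹ = g) ∪
        (Finset.univ.filter fun t : Equiv.Perm (Fin 6) =>
          t * (g : Equiv.Perm (Fin 6)) * t⁻¹ = (g : Equiv.Perm (Fin 6)) ^ 4) := by
      rintro ⟨t, ht⟩
      have h3 : t * g * t⁻¹ ∈ Subgroup.zpowers g := by
        exact (Subgroup.mem_normalizer_iff.1 ht g).1 (Subgroup.mem_zpowers g)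
      rw [← mem_powers_iff_mem_zpowers, Submonoid.mem_powers_iff] at h3
      obtain ⟨n, hn⟩ := h3
      have h4 : (t : Equiv.Perm (Fin 6)) * g * (t : Equiv.Perm (Fin 6))⁻¹ =
          (g : Equiv.Perm (Fin 6)) ^ (n % 5) := by
        rw [← hz, pow_mod_orderOf]
        have := congrArg (Subtype.val) hn
        simpa using this.symm
      have h5 : n % 5 < 5 := Nat.mod_lt _ (by norm_num)
      rw [Finset.mem_union, Finset.mem_filter, Finset.mem_filter]
      generalize n % 5 = r at h4 h5
      have tm := t.2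
      generalize (t : Equiv.Perm (Fin 6)) = u at h4 tm ⊢
      generalize (g : Equiv.Perm (Fin 6)) = z at h4 h2 hp5 hz ⊢
      interval_cases r
      · exfalso
        rw [pow_zero, mul_inv_eq_iff_eq_mul, one_mul] at h4
        have : z = 1 := by
          have := h4
          exact mul_left_cancel (a := u) (by rw [this, mul_one])
        rw [this, orderOf_one] at hz
        omega
      · left
        rw [pow_one] at h4
        exact ⟨Finset.mem_univ _, h4⟩
      · exact absurd h4 (h2 u tm)
      · exfalso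
        -- the cube of `u` maps `z` to `z ^ 27`
        have e1 : ∀ m : ℕ, u * z ^ m * u⁻¹ = z ^ (3 * m) := by
          intro m
          rw [← conj_pow, h4, ← pow_mul]
        have e2 : u ^ 3 * z * (u ^ 3)⁻¹ = z ^ 27 := by
          have : u ^ 3 * z * (u ^ 3)⁻¹ = u * (u * (u * z * u⁻¹) * u⁻¹) * u⁻¹ := by
            rw [pow_succ, pow_two]
            simp only [mul_assoc, mul_inv_rev]
          rw [this, h4, e1, e1]
        have e3 : z ^ 27 = z ^ 2 := by
          have : z ^ 27 = (z ^ 5) ^ 5 * z ^ 2 := by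
            rw [← pow_mul, ← pow_add]
          rw [this, hp5, one_pow, one_mul]
        exact h2 (u ^ 3) (G.pow_mem tm 3) (e2.trans e3)
      · right
        exact ⟨Finset.mem_univ _, h4⟩
    have hinj : Function.Injective (fun t : N => (⟨((t : G) : Equiv.Perm (Fin 6)), hsub t⟩ :
        {x // x ∈ (Finset.univ.filter fun t : Equiv.Perm (Fin 6) =>
            t * (g : Equiv.Perm (Fin 6)) * t⁻¹ = g) ∪
          (Finset.univ.filter fun t : Equiv.Perm (Fin 6) =>
            t * (g : Equiv.Perm (Fin 6)) * t⁻¹ = (g : Equiv.Perm (Fin 6)) ^ 4)})) := by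
      intro s t hst
      rw [Subtype.mk.injEq] at hst
      exact Subtype.ext (Subtype.ext hst)
    have h6 := Nat.card_le_card_of_injective _ hinj
    rw [Nat.card_eq_fintype_card, Nat.card_eq_fintype_card, Fintype.card_coe] at h6
    rw [Nat.card_eq_fintype_card]
    have h7 := Finset.card_union_le
      (Finset.univ.filter fun t : Equiv.Perm (Fin 6) => t * (g : Equiv.Perm (Fin 6)) * t⁻¹ = g)
      (Finset.univ.filter fun t : Equiv.Perm (Fin 6) =>
          t * (g : Equiv.Perm (Fin 6)) * t⁻¹ = (g : Equiv.Perm (Fin 6)) ^ 4)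
    have h8 := G6_five (g : Equiv.Perm (Fin 6)) hz
    have h9 := G6_four (g : Equiv.Perm (Fin 6)) hz
    omega
  obtain ⟨m, hm⟩ := hd5
  have hm2 : m ≤ 2 := by omega
  have hs2 : N.index % 5 = 1 := hs1
  rw [hm] at hNi
  interval_cases m
  · omega
  · omega
  · omega

end Pool.Agent.Sextic.AD
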