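import Pool.Agent.Work.MP_8e3fb2_ag.AD.Stmts

set_option autoImplicit false

namespace Pool.Agent.Sextic.AD

/-- The least common multiple of integers at least two with sum at most six is at most six. -/
theorem Ord_lcm (m : Multiset ℕ) (h2 : ∀ a ∈ m, 2 ≤ a) (hs : m.sum ≤ 6) : m.lcm ≤ 6 := by
  have hc : m.card * 2 ≤ m.sum := by
    have := Multiset.card_nsmul_le_sum h2
    simpa using this
  have hc3 : m.card ≤ 3 := by omega
  interval_cases hm : m.card
  · rw [Multiset.card_eq_zero] at hm
    subst hm
    simp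
  · obtain ⟨a, rfl⟩ := Multiset.card_eq_one.1 hm
    simp at hs ⊢
    exact hs
  · obtain ⟨a, b, rfl⟩ := Multiset.card_eq_two.1 hm
    have ha : 2 ≤ a := h2 a (by simp)
    have hb : 2 ≤ b := h2 b (by simp)
    simp at hs
    have ha' : a ≤ 4 := by omega
    have hb' : b ≤ 4 := by omega
    clear hc hc3 hm h2
    interval_cases a <;> interval_cases b <;> first | (exfalso; omega) | decide
  · obtain ⟨a, b, c, rfl⟩ := Multiset.card_eq_three.1 hm
    have ha : 2 ≤ a := h2 a (by simp)
    have hb : 2 ≤ b := h2 b (by simp)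
    have hc : 2 ≤ c := h2 c (by simp)
    simp at hs
    have ha' : a = 2 := by omega
    have hb' : b = 2 := by omega
    have hc' : c = 2 := by omega
    subst ha' hb' hc'
    decide

/-- ITEM Ord. -/
theorem prOrd : StOrd := by
  intro g
  rw [← Equiv.Perm.lcm_cycleType]
  refine Ord_lcm _ (fun a ha => Equiv.Perm.two_le_of_mem_cycleType ha) ?_
  rw [Equiv.Perm.sum_cycleType]
  exact (Finset.card_le_univ _).trans (by simp)

end Pool.Agent.Sextic.AD
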