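import Pool.Agent.Work.MP_8e3fb2_ag.AD.Stmts
import Pool.Agent.Work.MP_8e3fb2_ag.AD.I_Ord

set_option autoImplicit false

/-!
# Block AD, item G60: subgroups of order four of a group of order sixty in the symmetric group
-/

namespace Pool.Agent.Sextic.AD

theorem G60_fac1 : (15 : ℕ).factorization 3 = 1 := by
  rw [show (15 : ℕ) = 3 * 5 by norm_num, Nat.factorization_mul_apply_of_coprime (by decide),
    Nat.prime_three.factorization_self, Nat.factorization_eq_zero_of_not_dvd (by decide)]

theorem G60_fac2 : (15 : ℕ).factorization 5 = 1 := by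
  rw [show (15 : ℕ) = 3 * 5 by norm_num, Nat.factorization_mul_apply_of_coprime (by decide),
    Nat.prime_five.factorization_self, Nat.factorization_eq_zero_of_not_dvd (by decide)]

theorem G60_fac3 : (60 : ℕ).factorization 2 = 2 := by
  rw [show (60 : ℕ) = 2 ^ 2 * 15 by norm_num, Nat.factorization_mul_apply_of_coprime (by decide),
    Nat.factorization_pow, Finsupp.coe_smul, Pi.smul_apply, smul_eq_mul,
    Nat.prime_two.factorization_self, Nat.factorization_eq_zero_of_not_dvd (by decide)]

theorem G60_normal {K : Type} [Group K] [Finite K] (p m : ℕ) [Fact p.Prime] (P : Sylow p K)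
    (hcard : Nat.card P = p) (hK : Nat.card K = p * m)
    (h : ∀ n, n ∣ m → n % p = 1 % p → n = 1) : (P : Subgroup K).Normal := by
  have h1 := card_sylow_modEq_one p K
  have h2 := P.card_dvd_index
  have h3 : P.index = m := by
    have h4 := P.card_mul_index
    rw [hK] at h4
    have h5 : Nat.card (P : Subgroup K) = p := hcard
    rw [h5] at h4
    exact Nat.eq_of_mul_eq_mul_left (Nat.Prime.pos Fact.out) h4
  rw [h3] at h2
  have h6 := h _ h2 h1
  have h7 : Subsingleton (Sylow p K) := (Nat.card_eq_one_iff_unique.1 h6).1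
  exact Sylow.normal_of_subsingleton P

theorem G60_fifteen {K : Type} [Group K] [Finite K] (hK : Nat.card K = 15) :
    ∃ g : K, orderOf g = 15 := by
  have f3 : Fact (Nat.Prime 3) := ⟨Nat.prime_three⟩
  have f5 : Fact (Nat.Prime 5) := ⟨Nat.prime_five⟩
  obtain ⟨P3⟩ : Nonempty (Sylow 3 K) := inferInstance
  obtain ⟨P5⟩ : Nonempty (Sylow 5 K) := inferInstance
  have c3 : Nat.card P3 = 3 := by
    rw [P3.card_eq_multiplicity, hK, G60_fac1, pow_one]
  have c5 : Nat.card P5 = 5 := by
    rw [P5.card_eq_multiplicity, hK, G60_fac2, pow_one]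
  have n3 : (P3 : Subgroup K).Normal := by
    refine G60_normal 3 5 P3 c3 hK ?_
    intro n hn h
    have : n ≤ 5 := Nat.le_of_dvd (by norm_num) hn
    interval_cases n <;> revert hn h <;> decide
  have n5 : (P5 : Subgroup K).Normal := by
    refine G60_normal 5 3 P5 c5 hK ?_
    intro n hn h
    have : n ≤ 3 := Nat.le_of_dvd (by norm_num) hn
    interval_cases n <;> revert hn h <;> decide
  obtain ⟨x, hx⟩ := exists_prime_orderOf_dvd_card' (G := P3) 3 (by rw [c3])
  obtain ⟨y, hy⟩ := exists_prime_orderOf_dvd_card' (G := P5) 5 (by rw [c5])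
  have hdis : Disjoint (P3 : Subgroup K) (P5 : Subgroup K) := by
    refine Subgroup.disjoint_of_coprime_natCard ?_
    show Nat.Coprime (Nat.card P3) (Nat.card P5)
    rw [c3, c5]
    decide
  have hcomm : Commute (x : K) (y : K) :=
    Subgroup.commute_of_normal_of_disjoint _ _ n3 n5 hdis _ _ x.2 y.2
  have hx' : orderOf (x : K) = 3 := by
    rw [Subgroup.orderOf_coe, hx]
  have hy' : orderOf (y : K) = 5 := by
    rw [Subgroup.orderOf_coe, hy]
  refine ⟨(x : K) * (y : K), ?_⟩
  rw [hcomm.orderOf_mul_eq_mul_orderOf_of_coprime (by rw [hx', hy']; decide), hx', hy']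

theorem G60_ord (g : Equiv.Perm (Fin 6)) : orderOf g ≠ 15 := by
  intro h
  have := prOrd g
  omega

theorem prG60 : StG60 := by
  intro G hG P hP hcyc
  have f2 : Fact (Nat.Prime 2) := ⟨Nat.prime_two⟩
  have hc : Nat.card P = 2 ^ (Nat.card G).factorization 2 := by
    rw [hP, hG, G60_fac3]
    norm_num
  let S : Sylow 2 G := Sylow.ofCard P hc
  have hS : (S : Subgroup G) = P := rfl
  have hcycS : IsCyclic S := hcyc
  have hmin : (Nat.card G).minFac = 2 := by
    rw [hG]
    norm_num
  have hcomp := IsCyclic.isComplement' hmin hcycS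
  have hmul := hcomp.card_mul
  have hS4 : Nat.card (S : Subgroup G) = 4 := hP
  rw [hS4, hG] at hmul
  have hK : Nat.card (MonoidHom.transferSylow S (hcycS.normalizer_le_centralizer hmin)).ker = 15 := by
    omega
  obtain ⟨g, hg⟩ := G60_fifteen hK
  have h1 : orderOf (((g : G) : Equiv.Perm (Fin 6))) = 15 := by
    rw [Subgroup.orderOf_coe, Subgroup.orderOf_coe, hg]
  exact G60_ord _ h1

end Pool.Agent.Sextic.AD
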