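import Pool.Agent.Work.MP_8e3fb2_ag.AD.Stmts

set_option autoImplicit false

/-!
# Item Gal: the Galois group of `K(ξ) / K`
-/

namespace Pool.Agent.Sextic.AD

open IntermediateField

noncomputable section

/-- The abstract statement: a field `Ω`, algebraically closed and algebraic over `K`. -/
private theorem Gal_aux {Ω : Type} [Field Ω] [Algebra ℂ Ω] [IsAlgClosed Ω]
    (K : IntermediateField ℂ Ω) [Algebra.IsAlgebraic K Ω] (p : Polynomial K) (hp : p ≠ 0)
    (ξ : Fin 6 → Ω) (hξ : Function.Injective ξ)
    (hr : ∀ y : Ω, Polynomial.aeval y p = 0 ↔ ∃ i, y = ξ i)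
    (N : IntermediateField K Ω) (hN : N = IntermediateField.adjoin K (Set.range ξ)) :
    ∃ (x : Fin 6 → N) (G : Subgroup (Equiv.Perm (Fin 6))) (a : G →* (N ≃ₐ[ℂ] N)),
      (∀ i, (x i : Ω) = ξ i) ∧ Function.Injective a ∧
      (∀ (g : G) (i : Fin 6), a g (x i) = x (g.1 i)) ∧
      (∀ (g : G) (y : N), (y : Ω) ∈ K → a g y = y) ∧
      (∀ y : N, (∀ g : G, a g y = y) → (y : Ω) ∈ K) ∧
      Nat.card G = Module.finrank K N ∧ Module.finrank K N ≠ 0 := by
  classical
  have : CharZero K := charZero_of_injective_algebraMap (algebraMap ℂ K).injective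
  have hrs : Set.range ξ = p.rootSet Ω := by
    ext y
    rw [Polynomial.mem_rootSet]
    constructor
    · rintro ⟨i, rfl⟩
      exact ⟨hp, (hr _).2 ⟨i, rfl⟩⟩
    · rintro ⟨_, h⟩
      obtain ⟨i, hi⟩ := (hr y).1 h
      exact ⟨i, hi.symm⟩
  have hsf : p.IsSplittingField K N := by
    rw [hN, hrs]
    exact IntermediateField.adjoin_rootSet_isSplittingField (IsAlgClosed.splits _)
  have : FiniteDimensional K N := Polynomial.IsSplittingField.finiteDimensional N p
  have : Normal K N := Normal.of_isSplittingField p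
  have : IsGalois K N := { }
  have hmem : ∀ i, ξ i ∈ N := by
    intro i
    rw [hN]
    exact IntermediateField.subset_adjoin _ _ ⟨i, rfl⟩
  set x : Fin 6 → N := fun i => ⟨ξ i, hmem i⟩ with hx
  have hxinj : Function.Injective x := by
    intro i j h
    exact hξ (congrArg Subtype.val h)
  have hex : ∀ (σ : N ≃ₐ[K] N) (i : Fin 6), ∃ j, σ (x i) = x j := by
    intro σ i
    have h1 : Polynomial.aeval (x i) p = 0 := by
      have h2 : Polynomial.aeval ((x i : N) : Ω) p = 0 := (hr _).2 ⟨i, rfl⟩
      have h3 : ((Polynomial.aeval (x i) p : N) : Ω) = 0 := by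
        rw [← h2]
        exact (Polynomial.aeval_algebraMap_apply Ω (x i) p).symm
      exact Subtype.ext h3
    have h4 : Polynomial.aeval (σ (x i)) p = 0 := by
      have := congrArg σ h1
      rwa [map_zero, ← AlgEquiv.coe_toAlgHom, ← Polynomial.aeval_algHom_apply,
        AlgEquiv.coe_toAlgHom] at this
    have h5 : Polynomial.aeval ((σ (x i) : N) : Ω) p = 0 := by
      have h6 := congrArg (algebraMap N Ω) h4
      rw [map_zero, ← Polynomial.aeval_algebraMap_apply] at h6
      exact h6
    obtain ⟨j, hj⟩ := (hr _).1 h5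
    exact ⟨j, Subtype.ext hj⟩
  choose f hf using hex
  let F : (N ≃ₐ[K] N) →* Function.End (Fin 6) :=
    { toFun := fun σ => f σ
      map_one' := by
        funext i
        apply hxinj
        rw [← hf]; rfl
      map_mul' := by
        intro σ τ
        funext i
        apply hxinj
        rw [← hf, AlgEquiv.mul_apply, hf, hf]; rfl }
  let ψ : (N ≃ₐ[K] N) →* Equiv.Perm (Fin 6) := F.toHomPerm
  have hψ : ∀ σ i, σ (x i) = x (ψ σ i) := fun σ i => hf σ i
  have hψinj : Function.Injective ψ := by
    intro σ τ h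
    have h1 : (σ : N →ₐ[K] N) = (τ : N →ₐ[K] N) := by
      apply IntermediateField.algHom_ext_of_eq_adjoin _ hN
      rintro y ⟨i, rfl⟩
      show σ (x i) = τ (x i)
      rw [hψ, hψ, h]
    ext y
    exact congrArg Subtype.val (DFunLike.congr_fun h1 y)
  let e : (N ≃ₐ[K] N) ≃* ψ.range := MonoidHom.ofInjective hψinj
  let a : ψ.range →* (N ≃ₐ[ℂ] N) := (AlgEquiv.restrictScalarsHom ℂ).comp e.symm.toMonoidHom
  have ha : ∀ (σ : N ≃ₐ[K] N) (y : N), a (e σ) y = σ y := by
    intro σ y
    show (AlgEquiv.restrictScalars ℂ (e.symm (e σ))) y = σ y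
    rw [MulEquiv.symm_apply_apply]; rfl
  have hesurj : ∀ g : ψ.range, ∃ σ, g = e σ := fun g => ⟨e.symm g, (e.apply_symm_apply g).symm⟩
  refine ⟨x, ψ.range, a, fun i => rfl, ?_, ?_, ?_, ?_, ?_, ?_⟩
  · exact (AlgEquiv.restrictScalarsHom_injective ℂ).comp e.symm.injective
  · intro g i
    obtain ⟨σ, rfl⟩ := hesurj g
    rw [ha, hψ]; rfl
  · intro g y hy
    obtain ⟨σ, rfl⟩ := hesurj g
    rw [ha]
    exact σ.commutes ⟨y, hy⟩
  · intro y hy
    have h1 : y ∈ (⊥ : IntermediateField K N) := by
      rw [IsGalois.mem_bot_iff_fixed]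
      intro σ
      rw [← ha σ y]
      exact hy _
    obtain ⟨z, hz⟩ := IntermediateField.mem_bot.1 h1
    rw [← hz]
    exact z.2
  · rw [← IsGalois.card_aut_eq_finrank K N]
    exact (Nat.card_congr e.toEquiv).symm
  · exact Module.finrank_pos.ne'

theorem prGal : StGal := by
  classical
  intro ξ hξ K M hK hK0 hM
  obtain ⟨hind, hroot, hspl, h720, -⟩ := hξ
  -- `K` as an extension of `K0 6`
  let _ : Algebra (K0 6) K :=
    ((algebraMap (K0 6) (Om 6)).codRestrict K.toSubring (fun a => hK (by
      show algebraMap (K0 6) (Om 6) a ∈ (⊥ : IntermediateField (K0 6) (Om 6))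
      exact IntermediateField.algebraMap_mem _ a))).toAlgebra
  have : IsScalarTower (K0 6) K (Om 6) := IsScalarTower.of_algebraMap_eq (fun a => rfl)
  have : Algebra.IsAlgebraic K (Om 6) := Algebra.IsAlgebraic.tower_top (K := K0 6) K
  have hξinj : Function.Injective ξ := hind.injective
  set p : Polynomial K := (gen 6).map (algebraMap (K0 6) K) with hp
  have hr : ∀ y : Om 6, Polynomial.aeval y p = 0 ↔ ∃ i, y = ξ i := by
    intro y
    rw [hp, Polynomial.aeval_map_algebraMap]
    exact hroot y
  have : CharZero (Om 6) := charZero_of_injective_algebraMap (algebraMap ℂ (Om 6)).injective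
  have hp0 : p ≠ 0 := by
    intro h
    have h1 : (Set.univ : Set (Om 6)) ⊆ Set.range ξ := by
      intro y _
      obtain ⟨i, hi⟩ := (hr y).1 (by rw [h, map_zero])
      exact ⟨i, hi.symm⟩
    exact Set.infinite_univ ((Set.finite_range ξ).subset h1)
  have hMN : M = (IntermediateField.adjoin K (Set.range ξ)).restrictScalars ℂ := by
    rw [IntermediateField.restrictScalars_adjoin_eq_sup, hM, hspl]
  subst hMN
  set N : IntermediateField K (Om 6) := IntermediateField.adjoin K (Set.range ξ) with hN
  obtain ⟨x, G, a, h1, h2, h3, h4, h5, h6, h7⟩ := Gal_aux K p hp0 ξ hξinj hr N hN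
  have hKN : K ≤ N.restrictScalars ℂ := by
    rw [hM]; exact le_sup_left
  have hsN : spl 6 ≤ N.restrictScalars ℂ := by
    rw [hM]; exact le_sup_right
  have hbs : base 6 ≤ spl 6 := le_sup_left
  have hrel : relfinrank K (N.restrictScalars ℂ) = Module.finrank K N := by
    rw [relfinrank_eq_finrank_of_le hKN]
    have : extendScalars hKN = N := by
      ext y
      rfl
    rw [this]
  set x' : Fin 6 → (N.restrictScalars ℂ : IntermediateField ℂ (Om 6)) := x with hx'
  have hadj : (IntermediateField.adjoin ℂ (Set.range x')).map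
      (N.restrictScalars ℂ : IntermediateField ℂ (Om 6)).val = spl 6 := by
    rw [IntermediateField.adjoin_map, hspl, ← Set.range_comp]
    congr 2
    funext i
    exact h1 i
  have hrel2 : relfinrank (spl 6) (N.restrictScalars ℂ) =
      Module.finrank (IntermediateField.adjoin ℂ (Set.range x'))
        (N.restrictScalars ℂ : IntermediateField ℂ (Om 6)) := by
    rw [← relfinrank_top_right, ← relfinrank_map_map _ _
      (N.restrictScalars ℂ : IntermediateField ℂ (Om 6)).val, hadj]
    congr 1
    rw [← AlgHom.fieldRange_eq_map, IntermediateField.fieldRange_val]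
  have e1 := relfinrank_mul_relfinrank hK hKN
  have e2 := relfinrank_mul_relfinrank hbs hsN
  rw [h720, hrel2] at e2
  rw [hrel] at e1
  have hG0 : Nat.card G ≠ 0 := by rw [h6]; exact h7
  have e3 : Nat.card G * G.index = 720 := by
    rw [Subgroup.card_mul_index, Nat.card_eq_fintype_card, Fintype.card_perm, Fintype.card_fin]
    rfl
  have hk : Module.finrank (IntermediateField.adjoin ℂ (Set.range x'))
        (N.restrictScalars ℂ : IntermediateField ℂ (Om 6)) ≠ 0 := by
    intro h
    rw [h, mul_zero, ← e1] at e2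
    rcases Nat.mul_eq_zero.1 e2.symm with h | h
    · exact hK0 h
    · exact h7 h
  refine ⟨x', G, a, h1, ?_, ?_, h2, h3, h4, h5, ?_⟩
  · have : AlgebraicIndependent ℂ ((N.restrictScalars ℂ : IntermediateField ℂ (Om 6)).val ∘ x') := by
      have h : ((N.restrictScalars ℂ : IntermediateField ℂ (Om 6)).val ∘ x') = ξ := by
        funext i; exact h1 i
      rw [h]; exact hind
    exact AlgebraicIndependent.of_comp _ this
  · exact Module.finite_of_finrank_pos (Nat.pos_of_ne_zero hk)
  · apply Nat.eq_of_mul_eq_mul_left (Nat.pos_of_ne_zero hG0)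
    calc Nat.card G * (G.index * _) = Nat.card G * G.index * _ := (mul_assoc _ _ _).symm
      _ = 720 * _ := by rw [e3]
      _ = relfinrank (base 6) (N.restrictScalars ℂ) := e2
      _ = relfinrank (base 6) K * Module.finrank K N := e1.symm
      _ = Nat.card G * relfinrank (base 6) K := by rw [h6, mul_comm]

end

end Pool.Agent.Sextic.AD
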