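import Pool.Agent.Work.MP_8e3fb2_ag.AD.Stmts

/-!
# The accessory degree of the sextic: item Gau (Gauss lemma)
-/

set_option autoImplicit false

namespace Pool.Agent.Sextic.AD

/-- the elements of order at least `c` -/
private def Gau_ge {E : Type} [Field E] [Algebra ℂ E] (P : Pl E) (c : ℤ) : AddSubgroup E where
  carrier := {f | f = 0 ∨ c ≤ P.1 f}
  zero_mem' := Or.inl rfl
  add_mem' := by
    intro f g hf hg
    by_cases hf0 : f = 0
    · subst hf0
      rw [zero_add]
      exact hg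
    by_cases hg0 : g = 0
    · subst hg0
      rw [add_zero]
      exact hf
    by_cases h : f + g = 0
    · exact Or.inl h
    have hf' : c ≤ P.1 f := hf.resolve_left hf0
    have hg' : c ≤ P.1 g := hg.resolve_left hg0
    exact Or.inr (le_trans (le_min hf' hg') (P.2.add f g hf0 hg0 h))
  neg_mem' := by
    intro f hf
    by_cases hf0 : f = 0
    · exact Or.inl (by rw [hf0, neg_zero])
    have hf' : c ≤ P.1 f := hf.resolve_left hf0
    have h1 : P.1 (-1 : E) = 0 := by
      have h2 := P.2.const (-1)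
      rw [map_neg, map_one] at h2
      exact h2
    have h3 : P.1 (-f) = P.1 f := by
      have h4 := P.2.mul (-1) f (neg_ne_zero.2 one_ne_zero) hf0
      rw [neg_one_mul, h1, zero_add] at h4
      exact h4
    exact Or.inr (by rw [h3]; exact hf')

private theorem Gau_mem {E : Type} [Field E] [Algebra ℂ E] (P : Pl E) (c : ℤ) (f : E) :
    f ∈ Gau_ge P c ↔ f = 0 ∨ c ≤ P.1 f := Iff.rfl

theorem prGau : StGau := by
  classical
  intro E _ _ P n φ ψ a b hex hφ hprod γ hγ
  obtain ⟨α1, hα1, hα1'⟩ := hex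
  by_contra hcon
  have hγ' : γ ∈ ψ.support := MvPolynomial.mem_support_iff.2 hγ
  obtain ⟨β1, hβ1, hmin⟩ := Finset.exists_min_image ψ.support (fun β => P.1 (ψ.coeff β)) ⟨γ, hγ'⟩
  obtain ⟨δ, hδ⟩ : ∃ δ, δ = P.1 (ψ.coeff β1) := ⟨_, rfl⟩
  have hmin' : ∀ β, ψ.coeff β ≠ 0 → δ ≤ P.1 (ψ.coeff β) := by
    intro β hβ
    rw [hδ]
    exact hmin β (MvPolynomial.mem_support_iff.2 hβ)
  have hδb : δ < b := lt_of_le_of_lt (hmin' γ hγ) (not_le.1 hcon)
  -- a monomial order
  let m : MonomialOrder (Fin n) := MonomialOrder.lex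
  obtain ⟨α0, hα0, hα0m⟩ := Finset.exists_max_image
    (φ.support.filter fun α => P.1 (φ.coeff α) = a) (fun α => m.toSyn α)
    ⟨α1, Finset.mem_filter.2 ⟨MvPolynomial.mem_support_iff.2 hα1, hα1'⟩⟩
  obtain ⟨β0, hβ0, hβ0m⟩ := Finset.exists_max_image
    (ψ.support.filter fun β => P.1 (ψ.coeff β) = δ) (fun β => m.toSyn β)
    ⟨β1, Finset.mem_filter.2 ⟨hβ1, hδ.symm⟩⟩
  rw [Finset.mem_filter, MvPolynomial.mem_support_iff] at hα0 hβ0
  -- the other terms
  have hrest : ∀ x ∈ (Finset.HasAntidiagonal.antidiagonal (α0 + β0)).erase (α0, β0),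
      φ.coeff x.1 * ψ.coeff x.2 ∈ Gau_ge P (a + δ + 1) := by
    rintro ⟨x, y⟩ hxy
    rw [Finset.mem_erase, Finset.HasAntidiagonal.mem_antidiagonal] at hxy
    obtain ⟨hne, hsum⟩ := hxy
    rw [Gau_mem]
    by_cases hx : φ.coeff x = 0
    · left
      show φ.coeff x * ψ.coeff y = 0
      rw [hx, zero_mul]
    by_cases hy : ψ.coeff y = 0
    · left
      show φ.coeff x * ψ.coeff y = 0
      rw [hy, mul_zero]
    right
    show a + δ + 1 ≤ P.1 (φ.coeff x * ψ.coeff y)
    rw [P.2.mul _ _ hx hy]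
    have h1 := hφ x hx
    have h2 := hmin' y hy
    by_contra h3
    have h4 : P.1 (φ.coeff x) = a := by omega
    have h5 : P.1 (ψ.coeff y) = δ := by omega
    have h6 : m.toSyn x ≤ m.toSyn α0 :=
      hα0m x (Finset.mem_filter.2 ⟨MvPolynomial.mem_support_iff.2 hx, h4⟩)
    have h7 : m.toSyn y ≤ m.toSyn β0 :=
      hβ0m y (Finset.mem_filter.2 ⟨MvPolynomial.mem_support_iff.2 hy, h5⟩)
    have h8 : m.toSyn x + m.toSyn y = m.toSyn α0 + m.toSyn β0 := by
      rw [← map_add, ← map_add, hsum]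
    have h9 : m.toSyn x = m.toSyn α0 := by
      rcases lt_or_eq_of_le h6 with h | h
      · exact absurd h8 (add_lt_add_of_lt_of_le h h7).ne
      · exact h
    have h10 : x = α0 := m.toSyn.injective h9
    have h11 : y = β0 := by
      rw [h10] at hsum
      exact add_left_cancel hsum
    exact hne (by rw [h10, h11])
  have hsum := MvPolynomial.coeff_mul φ ψ (α0 + β0)
  rw [← Finset.add_sum_erase _ _ (Finset.HasAntidiagonal.mem_antidiagonal.2 (rfl : α0 + β0 = α0 + β0) :
    (α0, β0) ∈ Finset.HasAntidiagonal.antidiagonal (α0 + β0))] at hsum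
  have hR := AddSubgroup.sum_mem (Gau_ge P (a + δ + 1)) hrest
  have hT : (φ * ψ).coeff (α0 + β0) ∈ Gau_ge P (a + δ + 1) := by
    rw [Gau_mem]
    by_cases h : (φ * ψ).coeff (α0 + β0) = 0
    · exact Or.inl h
    · right
      have := hprod _ h
      omega
  have hmain : φ.coeff α0 * ψ.coeff β0 ∈ Gau_ge P (a + δ + 1) := by
    have h1 := AddSubgroup.sub_mem _ hT hR
    rw [hsum, add_sub_cancel_right] at h1
    exact h1
  rw [Gau_mem] at hmain
  rcases hmain with h | h
  · exact (mul_ne_zero hα0.1 hβ0.1) h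
  · rw [P.2.mul _ _ hα0.1 hβ0.1, hα0.2, hβ0.2] at h
    omega

end Pool.Agent.Sextic.AD
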