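import Pool.Agent.Work.MP_8e3fb2_ag.AD.Stmts

/-!
# Item Gen of block AD (MP_8e3fb2_ag)

A general element of a linear system has the least order at finitely many given places.
-/

set_option autoImplicit false

namespace Pool.Agent.Sextic.AD

/-- The elements of `X` of order larger than `k` at `P`. -/
private def Gen_sub {E : Type} [Field E] [Algebra ℂ E] (X : Submodule ℂ E) (P : Pl E) (k : ℤ) :
    Submodule ℂ X where
  carrier := {w | w.1 = 0 ∨ k < P.1 w.1}
  zero_mem' := Or.inl rfl
  add_mem' := by
    rintro ⟨a, haX⟩ ⟨b, hbX⟩ ha hb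
    simp only [Set.mem_setOf_eq] at ha hb
    show a + b = 0 ∨ k < P.1 (a + b)
    rcases ha with rfl | ha
    · rcases hb with rfl | hb
      · left; simp
      · right; simpa using hb
    rcases hb with rfl | hb
    · right; simpa using ha
    by_cases h : a + b = 0
    · exact Or.inl h
    by_cases ha0 : a = 0
    · subst ha0; exact Or.inr (by simpa using hb)
    by_cases hb0 : b = 0
    · subst hb0; exact Or.inr (by simpa using ha)
    exact Or.inr (lt_of_lt_of_le (lt_min ha hb) (P.2.add a b ha0 hb0 h))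
  smul_mem' := by
    rintro c ⟨a, haX⟩ ha
    simp only [Set.mem_setOf_eq] at ha
    show c • a = 0 ∨ k < P.1 (c • a)
    rcases ha with rfl | ha
    · left; simp
    by_cases hc : c = 0
    · left; simp [hc]
    by_cases ha0 : a = 0
    · left; simp [ha0]
    right
    have h1 : algebraMap ℂ E c ≠ 0 := by
      rw [Ne, map_eq_zero]; exact hc
    rw [Algebra.smul_def, P.2.mul _ _ h1 ha0, P.2.const c, zero_add]
    exact ha

theorem prGen : StGen := by
  classical
  intro E _ _ X _ m hX hle heq Q
  have h0 : (⊤ : Submodule ℂ X) ∉ insert ⊥ (Q.image fun P => Gen_sub X P (m P)) := by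
    intro h
    rw [Finset.mem_insert, Finset.mem_image] at h
    rcases h with h | ⟨P, _, h⟩
    · apply hX
      rw [Submodule.eq_bot_iff]
      intro x hx
      have h2 : (⟨x, hx⟩ : X) ∈ (⊤ : Submodule ℂ X) := Submodule.mem_top
      rw [h, Submodule.mem_bot] at h2
      exact congrArg Subtype.val h2
    · obtain ⟨w, hw, hw0, hw1⟩ := heq P
      have h2 : (⟨w, hw⟩ : X) ∈ (⊤ : Submodule ℂ X) := Submodule.mem_top
      rw [← h] at h2
      rcases h2 with h2 | h2
      · exact hw0 h2
      · exact absurd hw1 (ne_of_gt h2)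
  have h1 := Subspace.biUnion_ne_univ_of_top_notMem h0
  rw [Set.ne_univ_iff_exists_notMem] at h1
  obtain ⟨w, hw⟩ := h1
  simp only [Finset.mem_insert, Finset.mem_image, Set.mem_iUnion, SetLike.mem_coe, exists_prop,
    not_exists, not_and] at hw
  have hw0 : w.1 ≠ 0 := by
    intro h
    apply hw ⊥ (Or.inl rfl)
    rw [Submodule.mem_bot]
    exact Subtype.ext h
  refine ⟨w.1, w.2, hw0, fun P hP => ?_⟩
  refine le_antisymm ?_ (hle P w.1 w.2 hw0)
  by_contra hlt
  rw [not_le] at hlt
  exact hw _ (Or.inr ⟨P, hP, rfl⟩) (Or.inr hlt)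

end Pool.Agent.Sextic.AD
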