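import Pool.Agent.Work.MP_8e3fb2_ag.AD.Stmts

set_option autoImplicit false

/-!
# Item Hol: a function without poles is constant
-/

namespace Pool.Agent.Sextic.AD

open IntermediateField

noncomputable section

/-- an algebraic element is a constant -/
theorem Hol_alg {E : Type} [Field E] [Algebra ℂ E] (f : E) (hf : IsAlgebraic ℂ f) :
    ∃ c : ℂ, f = algebraMap ℂ E c := by
  have h1 : (minpoly ℂ f).degree = 1 :=
    IsAlgClosed.degree_eq_one_of_irreducible ℂ (minpoly.irreducible hf.isIntegral)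
  obtain ⟨c, hc⟩ := minpoly.mem_range_of_degree_eq_one ℂ f h1
  exact ⟨c, hc.symm⟩

/-- a transcendental element has a zero -/
theorem Hol_zero (h1 : StFF1) (h2 : StDeg) {E : Type} [Field E] [Algebra ℂ E] (hE : FF E) (g : E)
    (hg : Transcendental ℂ g) : ∃ P : Pl E, 0 < P.1 g := by
  haveI := h1 E hE g hg
  obtain ⟨-, h3⟩ := h2 E hE g hg
  by_contra hcon
  push Not at hcon
  have h4 : ∑ᶠ P : Pl E, max (P.1 g) 0 = 0 := by
    rw [finsum_congr (fun P => max_eq_right (hcon P)), finsum_zero]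
  have h5 : 0 < Module.finrank (ℂ⟮g⟯ : IntermediateField ℂ E) E := Module.finrank_pos
  rw [h4] at h3
  omega

/-- **Hol** -/
theorem prHol (h1 : StFF1) (h2 : StDeg) : StHol := by
  intro E _ _ hE f hf
  by_cases ha : IsAlgebraic ℂ f
  · exact Hol_alg f ha
  exfalso
  have hf0 : f ≠ 0 := by
    rintro rfl
    exact ha isAlgebraic_zero
  have hg : Transcendental ℂ f⁻¹ := by
    intro h
    exact ha (by simpa using h.inv)
  obtain ⟨P, hP⟩ := Hol_zero h1 h2 hE f⁻¹ hg
  have h3 := P.2.mul f f⁻¹ hf0 (inv_ne_zero hf0)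
  have h4 := P.2.const 1
  rw [map_one] at h4
  rw [mul_inv_cancel₀ hf0, h4] at h3
  have := hf P
  omega

end

end Pool.Agent.Sextic.AD
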