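import Pool.Agent.Work.MP_8e3fb2_ag.AD.Stmts

set_option autoImplicit false

/-!
# The accessory degree of the sextic: item Idx (no subgroups of index 3 and 4)
-/

namespace Pool.Agent.Sextic.AD

open Equiv

/-- the normal core has index dividing the factorial -/
theorem Idx_core {G : Type} [Group G] (H : Subgroup G) [H.FiniteIndex] :
    H.normalCore.index ∣ Nat.factorial H.index := by
  rw [Subgroup.normalCore_eq_ker, Subgroup.index_ker, Subgroup.index_eq_card, ← Nat.card_perm]
  exact Subgroup.card_subgroup_dvd_card (MulAction.toPermHom G (G ⧸ H)).range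

/-- an element of order five is in a normal subgroup whose index divides 24 -/
theorem Idx_five {G : Type} [Group G] [Finite G] (N : Subgroup G) [N.Normal] (hN : N.index ∣ 24)
    (g : G) (hg : g ^ 5 = 1) : g ∈ N := by
  have h1 : g ^ N.index ∈ N := N.pow_index_mem g
  obtain ⟨k, hk⟩ := hN
  have h2 : g ^ 24 ∈ N := by
    rw [hk, pow_mul]
    exact N.pow_mem h1 k
  have h3 : g ^ 24 = g⁻¹ := by
    apply eq_inv_of_mul_eq_one_left
    rw [← pow_succ, show 24 + 1 = 5 * 5 by norm_num, pow_mul, hg, one_pow]
  rw [h3] at h2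
  exact N.inv_mem_iff.1 h2

/-- two five cycles -/
def Idx_c : Perm (Fin 6) := swap 0 1 * swap 1 2 * swap 2 3 * swap 3 4

/-- the second one -/
def Idx_d : Perm (Fin 6) := swap 0 1 * swap 1 2 * swap 2 3 * swap 3 5

theorem Idx_c5 : Idx_c ^ 5 = 1 := by decide

theorem Idx_d5 : Idx_d ^ 5 = 1 := by decide

theorem Idx_cd : Idx_c⁻¹ * Idx_d = swap 3 4 * swap 3 5 := by decide

/-- a normal subgroup of index dividing 24 contains the alternating group -/
theorem Idx_alt (N : Subgroup (Perm (Fin 6))) [N.Normal] (hN : N.index ∣ 24) :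
    alternatingGroup (Fin 6) ≤ N := by
  rw [← Equiv.Perm.closure_three_cycles_eq_alternating, Subgroup.closure_le]
  intro g hg
  have h1 : Perm.IsThreeCycle (swap 3 4 * swap 3 5 : Perm (Fin 6)) :=
    Perm.isThreeCycle_swap_mul_swap_same (by decide) (by decide) (by decide)
  have h2 : (swap 3 4 * swap 3 5 : Perm (Fin 6)) ∈ N := by
    rw [← Idx_cd]
    exact N.mul_mem (N.inv_mem (Idx_five N hN _ Idx_c5)) (Idx_five N hN _ Idx_d5)
  have hg' : Perm.IsThreeCycle g := hg
  have h3 : IsConj (swap 3 4 * swap 3 5 : Perm (Fin 6)) g := by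
    rw [Perm.isConj_iff_cycleType_eq, h1.cycleType, hg'.cycleType]
  obtain ⟨c, hc⟩ := isConj_iff.1 h3
  rw [← hc]
  exact (inferInstance : N.Normal).conj_mem _ h2 c

theorem prIdx : StIdx := by
  intro G
  have key : ∀ k, G.index = k → Nat.factorial k ∣ 24 → k ∣ 2 := by
    intro k hk hd
    have h1 : G.normalCore.index ∣ 24 := by
      refine dvd_trans (Idx_core G) ?_
      rw [hk]
      exact hd
    have h2 := (Idx_alt G.normalCore h1).trans G.normalCore_le
    have h3 := Subgroup.index_dvd_of_le h2
    have : Nontrivial (Fin 6) := Fin.nontrivial_iff_two_le.2 (by norm_num)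
    rw [alternatingGroup.index_eq_two, hk] at h3
    exact h3
  constructor
  · intro h
    have := key 3 h (by decide)
    omega
  · intro h
    have := key 4 h (by decide)
    omega

end Pool.Agent.Sextic.AD
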