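import Pool.Agent.Work.MP_8e3fb2_ag.AD.Stmts

set_option autoImplicit false

namespace Pool.Agent.Sextic.AD

open IntermediateField

open scoped IntermediateField.algebraAdjoinAdjoin in
private lemma IndA_alg {F K : Type} [Field F] [Field K] [Algebra F K] (S : Set K)
    (h : Algebra.IsAlgebraic (IntermediateField.adjoin F S) K) :
    Algebra.IsAlgebraic (Algebra.adjoin F S) K :=
  (IsFractionRing.comap_isAlgebraic_iff (A := Algebra.adjoin F S)
    (K := IntermediateField.adjoin F S) (C := K)).2 h

private lemma IndA_gen {R S M : Type} [CommRing R] [CommRing S] [Field M] [Algebra R M]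
    [Algebra S M] (φ : R →+* S) (hφ : Function.Injective φ)
    (hc : ∀ r, algebraMap S M (φ r) = algebraMap R M r) (h : Algebra.IsAlgebraic R M) :
    Algebra.IsAlgebraic S M := by
  constructor
  intro y
  obtain ⟨p, hp, hy⟩ := h.isAlgebraic y
  refine ⟨p.map φ, ?_, ?_⟩
  · intro h0
    exact hp (Polynomial.map_injective φ hφ (by rw [h0, Polynomial.map_zero]))
  · rw [Polynomial.aeval_def, Polynomial.eval₂_map]
    have hcomp : (algebraMap S M).comp φ = algebraMap R M := RingHom.ext hc
    rw [hcomp, ← Polynomial.aeval_def, hy]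

private lemma IndA_ext {k F M : Type} [Field k] [Field F] [Field M] [Algebra k F] [Algebra k M]
    [Algebra F M] [IsScalarTower k F M] (S : Set M)
    (h : Algebra.IsAlgebraic (Algebra.adjoin k S) M) :
    Algebra.IsAlgebraic (Algebra.adjoin F S) M := by
  have hle : Algebra.adjoin k S ≤ (Algebra.adjoin F S).restrictScalars k :=
    Algebra.adjoin_le (fun y hy => Algebra.subset_adjoin hy)
  exact IndA_gen (Subalgebra.inclusion hle).toRingHom (Subalgebra.inclusion_injective hle)
    (fun _ => rfl) h

private lemma IndA_M {n : ℕ} {M : Type} [Field M] [Algebra ℂ M] (x : Fin n → M)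
    (hi : AlgebraicIndependent ℂ x) (h : Algebra.IsAlgebraic (Algebra.adjoin ℂ (Set.range x)) M) :
    Algebra.trdeg ℂ M = n := by
  have htb : IsTranscendenceBasis ℂ x := (hi.isTranscendenceBasis_iff_isAlgebraic).2 h
  rw [← htb.cardinalMk_eq_trdeg, Cardinal.mk_fin]

private lemma IndA_E (E : Type) [Field E] [Algebra ℂ E] (hE : FF E) : Algebra.trdeg ℂ E = 1 := by
  obtain ⟨t, ht, hft⟩ := hE
  have hind : AlgebraicIndependent ℂ (fun _ : Unit => t) :=
    algebraicIndependent_unique_type_iff.2 ht
  have hr : Set.range (fun _ : Unit => t) = {t} := Set.range_const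
  have halgE : Algebra.IsAlgebraic (Algebra.adjoin ℂ (Set.range (fun _ : Unit => t))) E := by
    rw [hr]
    exact IndA_alg _ (Algebra.IsAlgebraic.of_finite _ _)
  have htbE : IsTranscendenceBasis ℂ (fun _ : Unit => t) :=
    (hind.isTranscendenceBasis_iff_isAlgebraic).2 halgE
  rw [← htbE.cardinalMk_eq_trdeg]
  simp

private lemma IndA_card {a b : Cardinal.{0}} {n : ℕ} (h1 : a = 1) (h2 : a + b = n) :
    ∃ m : ℕ, b = m ∧ 1 + m = n := by
  have h3 : b < Cardinal.aleph0 := by
    have h4 : b ≤ n := by rw [← h2]; exact self_le_add_left _ _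
    exact lt_of_le_of_lt h4 (Cardinal.natCast_lt_aleph0)
  obtain ⟨m, hm⟩ := Cardinal.lt_aleph0.1 h3
  refine ⟨m, hm, ?_⟩
  rw [h1, hm] at h2
  exact_mod_cast h2

private lemma IndA_main {F M : Type} [Field F] [Field M] [Algebra F M] {n m : ℕ} (x : Fin n → M)
    (hinj : Function.Injective x) (hmn : 1 + m = n) (hm : Algebra.trdeg F M = m)
    (h : Algebra.IsAlgebraic (Algebra.adjoin F (Set.range x)) M) :
    ¬ AlgebraicIndependent F x ∧
      ∃ i₀ : Fin n, AlgebraicIndependent F (fun i : {i // i ≠ i₀} => x i) := by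
  classical
  constructor
  · intro hi
    have h1 := hi.cardinalMk_le_trdeg
    rw [Cardinal.mk_fin, hm] at h1
    have : n ≤ m := by exact_mod_cast h1
    omega
  · obtain ⟨u, hu, hub⟩ := exists_isTranscendenceBasis_subset (R := F) (Set.range x)
    have hcu : Cardinal.mk u = m := by rw [hub.cardinalMk_eq_trdeg, hm]
    set I : Set (Fin n) := {i | x i ∈ u} with hI
    have huI : u = x '' I := by
      ext y
      constructor
      · intro hy
        obtain ⟨i, rfl⟩ := hu hy
        exact ⟨i, hy, rfl⟩
      · rintro ⟨i, hi, rfl⟩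
        exact hi
    have hcI : I.ncard = m := by
      have h1 : u.ncard = m := by
        rw [← Nat.card_coe_set_eq, Nat.card, hcu, Cardinal.toNat_natCast]
      rw [huI, Set.ncard_image_of_injective _ hinj] at h1
      exact h1
    have hcc : Iᶜ.ncard = 1 := by
      have h1 := Set.ncard_add_ncard_compl I
      rw [hcI, Nat.card_eq_fintype_card, Fintype.card_fin] at h1
      omega
    obtain ⟨i₀, hi₀⟩ := Set.ncard_eq_one.1 hcc
    have hmem : ∀ i : {i // i ≠ i₀}, x i ∈ u := by
      intro i
      by_contra hcon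
      have : (i : Fin n) ∈ Iᶜ := hcon
      rw [hi₀] at this
      exact i.2 this
    have h2 := hub.1.comp (fun i : {i // i ≠ i₀} => (⟨x i, hmem i⟩ : u)) (by
      intro a b hab
      have := congrArg Subtype.val hab
      exact Subtype.ext (hinj this))
    exact ⟨i₀, h2⟩

theorem prIndA : StIndA := by
  intro n G M _ _ E d
  have hfin : FiniteDimensional (IntermediateField.adjoin ℂ (Set.range d.x)) M := d.fin
  have halg : Algebra.IsAlgebraic (Algebra.adjoin ℂ (Set.range d.x)) M :=
    IndA_alg _ (Algebra.IsAlgebraic.of_finite _ _)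
  have hM : Algebra.trdeg ℂ M = n := IndA_M d.x d.ind halg
  have hE : Algebra.trdeg ℂ E = 1 := IndA_E E d.ff
  have hadd : Algebra.trdeg ℂ E + Algebra.trdeg E M = n := by
    rw [← hM]
    exact trdeg_add_eq ℂ E
  obtain ⟨m, hm, hmn⟩ := IndA_card hE hadd
  exact IndA_main d.x d.ind.injective hmn hm (IndA_ext (k := ℂ) (F := E) _ halg)

end Pool.Agent.Sextic.AD
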