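import Pool.Agent.Work.MP_8e3fb2_ag.AD.Stmts

set_option autoImplicit false

/-!
# Item Inf: a function field of one variable has infinitely many places
-/

namespace Pool.Agent.Sextic.AD

open IntermediateField

noncomputable section

variable {E : Type} [Field E] [Algebra ℂ E]

private theorem Inf_neg (P : Pl E) (f : E) (hf : f ≠ 0) : P.1 (-f) = P.1 f := by
  have h1 : (algebraMap ℂ E (-1)) ≠ 0 := by simp
  have h2 : -f = algebraMap ℂ E (-1) * f := by simp
  rw [h2, P.2.mul _ _ h1 hf, P.2.const, zero_add]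

private theorem Inf_trans (t : E) (ht : Transcendental ℂ t) (c : ℂ) :
    Transcendental ℂ (t - algebraMap ℂ E c) := by
  intro h
  apply ht
  have h1 : IsAlgebraic ℂ (algebraMap ℂ E c) := isAlgebraic_algebraMap c
  have h2 := h.add h1
  rwa [sub_add_cancel] at h2

private theorem Inf_exists (h1 : StFF1) (h2 : StDeg) (hE : FF E) (f : E)
    (hf : Transcendental ℂ f) : ∃ P : Pl E, 0 < P.1 f := by
  by_contra hcon
  push Not at hcon
  have hfin := h1 E hE f hf
  have hpos : 0 < Module.finrank (ℂ⟮f⟯ : IntermediateField ℂ E) E := Module.finrank_pos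
  have hsum := (h2 E hE f hf).2
  have h0 : (fun P : Pl E => max (P.1 f) 0) = fun _ => 0 := by
    funext P
    exact max_eq_right (hcon P)
  rw [h0, finsum_zero] at hsum
  omega

theorem prInf (h1 : StFF1) (h2 : StDeg) : StInf := by
  intro E _ _ hE
  obtain ⟨t, ht, -⟩ := id hE
  have hex : ∀ c : ℂ, ∃ P : Pl E, 0 < P.1 (t - algebraMap ℂ E c) := fun c =>
    Inf_exists h1 h2 hE _ (Inf_trans t ht c)
  choose P hP using hex
  refine Infinite.of_injective P ?_
  intro c c' hcc
  by_contra hne
  have hc := hP c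
  have hc' := hP c'
  rw [← hcc] at hc'
  have hnz : ∀ c : ℂ, t - algebraMap ℂ E c ≠ 0 := by
    intro c h0
    apply Inf_trans t ht c
    rw [h0]
    exact isAlgebraic_zero
  have hd : (t - algebraMap ℂ E c) + -(t - algebraMap ℂ E c') = algebraMap ℂ E (c' - c) := by
    rw [map_sub]; ring
  have hd0 : (t - algebraMap ℂ E c) + -(t - algebraMap ℂ E c') ≠ 0 := by
    rw [hd, Ne, map_eq_zero, sub_eq_zero]
    exact fun h => hne h.symm
  have hadd := (P c).2.add _ _ (hnz c) (neg_ne_zero.mpr (hnz c')) hd0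
  rw [hd, (P c).2.const, Inf_neg (P c) _ (hnz c')] at hadd
  have := lt_min hc hc'
  omega

end

end Pool.Agent.Sextic.AD
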