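import Pool.Agent.Work.MP_8e3fb2_ag.AD.Stmts

set_option autoImplicit false

/-!
# Block AD, item IsoV: essential dimension one from an equivariant point of a conic
-/

namespace Pool.Agent.Sextic.AD

open IntermediateField

noncomputable section

/-- A commutative simple finite group has prime order. -/
theorem IsoV_comm {A : Type} [Group A] [Finite A] [hs : IsSimpleGroup A]
    (hc : ∀ g h : A, g * h = h * g) : (Nat.card A).Prime := by
  letI i1 : CommGroup A := { (inferInstance : Group A) with mul_comm := hc }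
  exact IsSimpleGroup.prime_card

/-- No scalar action. -/
theorem IsoV_lin {M : Type} [Field M] [Algebra ℂ M] (A : Type) [Group A] [Finite A]
    (ρ : A →* Matrix (Fin 3) (Fin 3) ℂ) (v : Fin 3 → M) (hsimple : IsSimpleGroup A)
    (hcard : Nat.card A = 60) (hρ : ∑ᶠ g, ρ g = 0) (hv : v ≠ 0) (lam : A → M)
    (h : ∀ (g : A) (i : Fin 3), ∑ l, algebraMap ℂ M (ρ g⁻¹ i l) * v l = lam g * v i) : False := by
  classical
  have hv' : ∃ i, v i ≠ 0 := by
    by_contra hcon
    push Not at hcon
    exact hv (funext hcon)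
  obtain ⟨i₀, hi₀⟩ := hv'
  let R : A →* Matrix (Fin 3) (Fin 3) M :=
    ((RingHom.mapMatrix (algebraMap ℂ M)).toMonoidHom).comp ρ
  have hR : ∀ g i l, R g i l = algebraMap ℂ M (ρ g i l) := fun g i l => rfl
  have hRv : ∀ g, (R g).mulVec v = lam g⁻¹ • v := by
    intro g
    funext i
    have h1 := h g⁻¹ i
    rw [inv_inv] at h1
    rw [Pi.smul_apply, smul_eq_mul, ← h1]
    rfl
  have hmul : ∀ g h, lam (g * h)⁻¹ = lam g⁻¹ * lam h⁻¹ := by
    intro g h
    have h1 := hRv (g * h)
    rw [map_mul, ← Matrix.mulVec_mulVec, hRv h, Matrix.mulVec_smul, hRv g, smul_smul] at h1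
    have h2 := congrFun h1 i₀
    rw [Pi.smul_apply, Pi.smul_apply, smul_eq_mul, smul_eq_mul] at h2
    rw [← mul_right_cancel₀ hi₀ h2, mul_comm]
  have hone : lam (1 : A)⁻¹ = 1 := by
    have h1 := hRv 1
    rw [map_one, Matrix.one_mulVec] at h1
    have h2 := congrFun h1 i₀
    rw [Pi.smul_apply, smul_eq_mul] at h2
    exact (mul_right_cancel₀ hi₀ ((one_mul _).trans h2)).symm
  let μ : A →* M := { toFun := fun g => lam g⁻¹, map_one' := hone, map_mul' := hmul }
  have hμ : ∀ g, μ g = lam g⁻¹ := fun g => rfl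
  rcases hsimple.eq_bot_or_eq_top_of_normal μ.ker inferInstance with hk | hk
  · have hinj : Function.Injective μ := (MonoidHom.ker_eq_bot_iff μ).1 hk
    have hcomm : ∀ g h : A, g * h = h * g := by
      intro g h
      apply hinj
      rw [map_mul, map_mul, mul_comm]
    have := IsoV_comm hcomm
    rw [hcard] at this
    exact absurd this (by norm_num)
  · have hfix : ∀ g, (R g).mulVec v = v := by
      intro g
      have h1 : g ∈ μ.ker := by rw [hk]; exact Subgroup.mem_top g
      rw [MonoidHom.mem_ker, hμ] at h1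
      rw [hRv g, h1, one_smul]
    have hfin : Fintype A := Fintype.ofFinite A
    have hsum : ∑ g, R g = 0 := by
      have h1 : ∑ g, ρ g = 0 := by rw [← finsum_eq_sum_of_fintype]; exact hρ
      have h2 : ∑ g, R g = (algebraMap ℂ M).mapMatrix (∑ g, ρ g) := by
        rw [map_sum]
        rfl
      rw [h2, h1, map_zero]
    have h3 : (∑ g, R g).mulVec v = ∑ g : A, v := by
      rw [Matrix.sum_mulVec]
      exact Finset.sum_congr rfl fun g _ => hfix g
    rw [hsum, Matrix.zero_mulVec, Finset.sum_const, Finset.card_univ,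
      ← Nat.card_eq_fintype_card, hcard] at h3
    have h4 := congrFun h3 i₀
    rw [Pi.zero_apply, Pi.smul_apply, nsmul_eq_mul] at h4
    have hchar : CharZero M := charZero_of_injective_algebraMap (algebraMap ℂ M).injective
    rcases mul_eq_zero.1 h4.symm with h5 | h5
    · exact absurd h5 (by exact_mod_cast (by norm_num : (60 : ℕ) ≠ 0))
    · exact hi₀ h5

theorem prIsoV (h1 : StCon) (h2 : StArt) : StIsoV := by
  intro Ω _ _ K M hKM A _ _ a ρ Q v hsimple hcard hQt hQ hρ hfix hfixed hv hav hquad
  classical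
  have hv' : ∃ i, v i ≠ 0 := by
    by_contra hcon
    push Not at hcon
    exact hv (funext hcon)
  obtain ⟨i₀, hi₀⟩ := hv'
  set E' : IntermediateField ℂ M :=
    IntermediateField.adjoin ℂ {y : M | ∃ i j, y = v i / v j} with hE'
  have hgen : ∀ i j, v i / v j ∈ E' := fun i j =>
    IntermediateField.subset_adjoin _ _ ⟨i, j, rfl⟩
  have hn : ∀ g i, ∃ n ∈ E', a g (v i) = v i₀ * n := by
    intro g i
    refine ⟨∑ l, algebraMap ℂ M (ρ g⁻¹ i l) * (v l / v i₀),
      sum_mem fun l _ => mul_mem (IntermediateField.algebraMap_mem E' _) (hgen l i₀), ?_⟩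
    rw [hav, Finset.mul_sum]
    refine Finset.sum_congr rfl fun l _ => ?_
    field_simp
  have hstab : ∀ g, ∀ y ∈ E', a g y ∈ E' := by
    intro g y hy
    have hle : E' ≤ E'.comap ((a g : M ≃ₐ[ℂ] M) : M →ₐ[ℂ] M) := by
      rw [hE', IntermediateField.adjoin_le_iff]
      rintro y ⟨i, j, rfl⟩
      show a g (v i / v j) ∈ E'
      obtain ⟨n, hn1, hn2⟩ := hn g i
      obtain ⟨n', hn1', hn2'⟩ := hn g j
      rw [map_div₀, hn2, hn2', mul_div_mul_left _ _ hi₀]
      exact div_mem hn1 hn1'
    exact hle hy
  let H : Subgroup A :=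
    { carrier := {g | ∀ y ∈ E', a g y = y}
      one_mem' := by
        intro y _
        rw [map_one]
        rfl
      mul_mem' := by
        intro g h hg hh y hy
        rw [map_mul, AlgEquiv.mul_apply, hh y hy, hg y hy]
      inv_mem' := by
        intro g hg y hy
        have h3 := hg y hy
        have h4 : a g⁻¹ (a g y) = y := by
          rw [← AlgEquiv.mul_apply, ← map_mul, inv_mul_cancel, map_one]
          rfl
        rw [h3] at h4
        exact h4 }
  have hHn : H.Normal := by
    refine ⟨fun h hh g => ?_⟩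
    intro y hy
    rw [map_mul, map_mul, AlgEquiv.mul_apply, AlgEquiv.mul_apply,
      hh (a g⁻¹ y) (hstab g⁻¹ y hy), ← AlgEquiv.mul_apply, ← map_mul, mul_inv_cancel, map_one]
    rfl
  rcases hsimple.eq_bot_or_eq_top_of_normal H hHn with hH | hH
  · -- faithful action
    have hmem : ∀ y : M, (y : Ω) ∈ E'.map M.val ↔ y ∈ E' := by
      intro y
      constructor
      · rintro ⟨z, hz, hzy⟩
        have : z = y := Subtype.ext hzy
        rwa [← this]
      · intro hy
        exact ⟨y, hy, rfl⟩
    have hEM : E'.map M.val ≤ M := by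
      rintro x ⟨z, _, rfl⟩
      exact z.2
    refine h2 Ω K M (E'.map M.val) hKM hEM A a hfix hfixed ?_ ?_ ?_
    · intro g y hy
      rw [hmem] at hy ⊢
      exact hstab g y hy
    · intro g hg
      have : g ∈ H := fun y hy => hg y ((hmem y).2 hy)
      rw [hH, Subgroup.mem_bot] at this
      exact this
    · have h3 := (IntermediateField.equivMap E' M.val).trdeg_eq
      rw [← h3]
      exact h1 M Q v hQt hQ hv hquad
  · exfalso
    have hall : ∀ g, ∀ y ∈ E', a g y = y := by
      intro g
      have : g ∈ H := by rw [hH]; exact Subgroup.mem_top g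
      exact this
    refine IsoV_lin A ρ v hsimple hcard hρ hv (fun g => a g (v i₀) / v i₀) ?_
    intro g i
    rw [← hav]
    have h3 := hall g _ (hgen i i₀)
    rw [map_div₀] at h3
    have h4 : a g (v i₀) ≠ 0 := by
      rw [Ne, EmbeddingLike.map_eq_zero_iff]
      exact hi₀
    rw [div_eq_div_iff h4 hi₀] at h3
    field_simp
    rw [h3]
    ring

end

end Pool.Agent.Sextic.AD
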