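import Pool.Agent.Work.MP_8e3fb2_ag.AD.Stmts

set_option autoImplicit false

/-!
# Block AD, item Ker: the relations of an almost independent family are principal
-/

namespace Pool.Agent.Sextic.AD

noncomputable section

open Polynomial in
theorem Ker_gauss {A M : Type} [CommRing A] [IsDomain A] [UniqueFactorizationMonoid A]
    [Field M] [Algebra A M] (hinj : Function.Injective (algebraMap A M)) (y : M)
    (hy : IsAlgebraic A y) :
    ∃ φ : A[X], φ ≠ 0 ∧ ∀ q : A[X], aeval y q = 0 ↔ φ ∣ q := by
  classical
  obtain ⟨_⟩ : Nonempty (NormalizedGCDMonoid A) := inferInstance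
  haveI : FaithfulSMul A M := (faithfulSMul_iff_algebraMap_injective A M).2 hinj
  letI : Algebra (FractionRing A) M := FractionRing.liftAlgebra A M
  haveI : IsScalarTower A (FractionRing A) M := FractionRing.isScalarTower_liftAlgebra A M
  have hyK : IsAlgebraic (FractionRing A) y := by
    obtain ⟨p, hp, hp2⟩ := hy
    refine ⟨p.map (algebraMap A (FractionRing A)), ?_, ?_⟩
    · rwa [Ne, Polynomial.map_eq_zero_iff (IsFractionRing.injective A (FractionRing A))]
    · rw [Polynomial.aeval_map_algebraMap]
      exact hp2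
  have hm0 : minpoly (FractionRing A) y ≠ 0 := minpoly.ne_zero hyK.isIntegral
  obtain ⟨b, hb, hbm⟩ := IsLocalization.integerNormalization_spec (nonZeroDivisors A)
    (minpoly (FractionRing A) y)
  set m' := IsLocalization.integerNormalization (nonZeroDivisors A) (minpoly (FractionRing A) y)
  have hb0 : algebraMap A (FractionRing A) b ≠ 0 := by
    rw [Ne, IsFractionRing.to_map_eq_zero_iff]
    exact nonZeroDivisors.ne_zero hb
  have hbm' : m'.map (algebraMap A (FractionRing A)) =
      C (algebraMap A (FractionRing A) b) * minpoly (FractionRing A) y := by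
    rw [hbm, ← Polynomial.smul_eq_C_mul, algebraMap_smul]
  have hm'0 : m' ≠ 0 := by
    intro h
    rw [h, Polynomial.map_zero] at hbm'
    exact mul_ne_zero (C_ne_zero.2 hb0) hm0 hbm'.symm
  have hc0 : m'.content ≠ 0 := by
    rw [Ne, content_eq_zero_iff]
    exact hm'0
  have hφ := m'.isPrimitive_primPart
  have hφm : m'.map (algebraMap A (FractionRing A)) =
      C (algebraMap A (FractionRing A) m'.content) *
        m'.primPart.map (algebraMap A (FractionRing A)) := by
    conv_lhs => rw [m'.eq_C_content_mul_primPart]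
    rw [Polynomial.map_mul, map_C]
  have hc0' : algebraMap A (FractionRing A) m'.content ≠ 0 := by
    rw [Ne, IsFractionRing.to_map_eq_zero_iff]
    exact hc0
  have hu1 : IsUnit (C (algebraMap A (FractionRing A) m'.content)) :=
    isUnit_C.2 (isUnit_iff_ne_zero.2 hc0')
  have hu2 : IsUnit (C (algebraMap A (FractionRing A) b)) :=
    isUnit_C.2 (isUnit_iff_ne_zero.2 hb0)
  have hd1 : minpoly (FractionRing A) y ∣ m'.primPart.map (algebraMap A (FractionRing A)) := by
    have h1 : minpoly (FractionRing A) y ∣ C (algebraMap A (FractionRing A) m'.content) *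
        m'.primPart.map (algebraMap A (FractionRing A)) := by
      rw [← hφm, hbm']
      exact dvd_mul_left _ _
    exact (hu1.dvd_mul_left).1 h1
  have hd2 : m'.primPart.map (algebraMap A (FractionRing A)) ∣ minpoly (FractionRing A) y := by
    have h1 : m'.primPart.map (algebraMap A (FractionRing A)) ∣
        C (algebraMap A (FractionRing A) b) * minpoly (FractionRing A) y := by
      rw [← hbm', hφm]
      exact dvd_mul_left _ _
    exact (hu2.dvd_mul_left).1 h1
  refine ⟨m'.primPart, hφ.ne_zero, fun q => ?_⟩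
  rw [hφ.dvd_iff_fraction_map_dvd_fraction_map (FractionRing A)]
  have he : aeval y q = aeval y (q.map (algebraMap A (FractionRing A))) := by
    rw [Polynomial.aeval_map_algebraMap]
  rw [he]
  constructor
  · intro h
    exact hd2.trans (minpoly.dvd _ _ h)
  · intro h
    obtain ⟨w, hw⟩ := hd1.trans h
    rw [hw, map_mul, minpoly.aeval, zero_mul]

open MvPolynomial in
theorem prKer : StKer := by
  classical
  intro F M _ _ _ n x i₀ hdep hind
  letI : Algebra (MvPolynomial {i : Fin n // i ≠ i₀} F) M :=
    (aeval (fun i : {i : Fin n // i ≠ i₀} => x i) :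
      MvPolynomial {i : Fin n // i ≠ i₀} F →ₐ[F] M).toRingHom.toAlgebra
  have halg : ∀ a : MvPolynomial {i : Fin n // i ≠ i₀} F,
      algebraMap (MvPolynomial {i : Fin n // i ≠ i₀} F) M a =
        aeval (fun i : {i : Fin n // i ≠ i₀} => x i) a := fun a => rfl
  haveI : IsScalarTower F (MvPolynomial {i : Fin n // i ≠ i₀} F) M := by
    refine IsScalarTower.of_algebraMap_eq fun c => ?_
    rw [halg, MvPolynomial.algebraMap_eq, aeval_C]
  have hinj : Function.Injective (algebraMap (MvPolynomial {i : Fin n // i ≠ i₀} F) M) := hind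
  let e : MvPolynomial (Fin n) F ≃ₐ[F] Polynomial (MvPolynomial {i : Fin n // i ≠ i₀} F) :=
    (renameEquiv F (Equiv.optionSubtypeNe i₀).symm).trans
      (optionEquivLeft F {i : Fin n // i ≠ i₀})
  have he0 : e (X i₀) = Polynomial.X := by
    show optionEquivLeft F {i : Fin n // i ≠ i₀}
      (rename (Equiv.optionSubtypeNe i₀).symm (X i₀)) = _
    rw [rename_X, Equiv.optionSubtypeNe_symm_self, optionEquivLeft_X_none]
  have he1 : ∀ i (hi : i ≠ i₀), e (X i) = Polynomial.C (X ⟨i, hi⟩) := by
    intro i hi
    show optionEquivLeft F {i : Fin n // i ≠ i₀}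
      (rename (Equiv.optionSubtypeNe i₀).symm (X i)) = _
    rw [rename_X, Equiv.optionSubtypeNe_symm_of_ne hi, optionEquivLeft_X_some]
  have hcomp : ∀ p : MvPolynomial (Fin n) F,
      Polynomial.aeval (x i₀) (e p) = aeval x p := by
    have h : (((Polynomial.aeval (x i₀) :
        Polynomial (MvPolynomial {i : Fin n // i ≠ i₀} F) →ₐ[MvPolynomial {i : Fin n // i ≠ i₀} F]
          M).restrictScalars F).comp (e : MvPolynomial (Fin n) F →ₐ[F]
            Polynomial (MvPolynomial {i : Fin n // i ≠ i₀} F))) = aeval x := by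
      apply MvPolynomial.algHom_ext
      intro i
      show Polynomial.aeval (x i₀) (e (X i)) = aeval x (X i)
      rw [aeval_X]
      by_cases hi : i = i₀
      · rw [hi, he0, Polynomial.aeval_X]
      · rw [he1 i hi, Polynomial.aeval_C, halg, aeval_X]
    intro p
    exact congrArg (fun f : MvPolynomial (Fin n) F →ₐ[F] M => f p) h
  have hy : IsAlgebraic (MvPolynomial {i : Fin n // i ≠ i₀} F) (x i₀) := by
    rw [algebraicIndependent_iff] at hdep
    push Not at hdep
    obtain ⟨p, hp, hp0⟩ := hdep
    refine ⟨e p, ?_, ?_⟩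
    · rw [Ne, EmbeddingLike.map_eq_zero_iff]
      exact hp0
    · rw [hcomp, hp]
  obtain ⟨φ, hφ0, hφ⟩ := Ker_gauss hinj (x i₀) hy
  refine ⟨e.symm φ, ?_, fun p => ?_⟩
  · rw [Ne, EmbeddingLike.map_eq_zero_iff]
    exact hφ0
  · rw [← hcomp, hφ]
    constructor
    · intro h
      have := map_dvd e.symm h
      rwa [AlgEquiv.symm_apply_apply] at this
    · intro h
      have := map_dvd e h
      rwa [AlgEquiv.apply_symm_apply] at this

end

end Pool.Agent.Sextic.AD
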