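import Pool.Agent.Work.MP_8e3fb2_ag.AD.Stmts

set_option autoImplicit false

/-!
# Item Low: the lower bound
-/

namespace Pool.Agent.Sextic.AD

open IntermediateField

noncomputable section

theorem prLow (h1 : StSpl) (h2 : StGal) (h3 : StE1) (h4 : StFG) (h5 : StML) (h6 : StCase) :
    StLow := by
  intro K hK hK0 hed
  obtain ⟨ξ, hξ⟩ := h1
  obtain ⟨M, hM⟩ : ∃ M, M = K ⊔ spl 6 := ⟨_, rfl⟩
  rw [← hM] at hed
  obtain ⟨x, G, a, hx, hind, hfin, hainj, hax, haK, hfix, hdeg⟩ := h2 ξ hξ K M hK hK0 hM
  obtain ⟨F, E₀, hFK, hFE, htr, hsup, hne, -⟩ := hed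
  have hKM : K ≤ M := hM ▸ le_sup_left
  have hEM : E₀ ≤ M := hsup ▸ le_sup_right
  have hFM : F ≤ M := hFK.trans hKM
  have hcm : ∀ L : IntermediateField ℂ (Om 6), L ≤ M → (L.comap M.val).map M.val = L := by
    intro L hL
    rw [IntermediateField.map_comap_eq, IntermediateField.fieldRange_val]
    exact inf_eq_left.2 hL
  have htop : K.comap M.val ⊔ E₀.comap M.val = ⊤ := by
    apply IntermediateField.map_injective M.val
    rw [IntermediateField.map_sup, hcm K hKM, hcm E₀ hEM, hsup, ← AlgHom.fieldRange_eq_map,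
      IntermediateField.fieldRange_val]
  have htr' : Algebra.trdeg ℂ (F.comap M.val) ≤ 1 := by
    have e := ((F.comap M.val).equivMap M.val).trdeg_eq
    rw [e, hcm F hFM]
    exact htr
  have hne' : relfinrank (F.comap M.val) (E₀.comap M.val) ≠ 0 := by
    rw [relfinrank_comap_comap_eq_relfinrank_of_le _ _ _ (by
      rw [IntermediateField.fieldRange_val]; exact hEM)]
    exact hne
  obtain ⟨E, hfg, htrE, hst, hfaith⟩ := h3 M (K.comap M.val) (F.comap M.val) (E₀.comap M.val)
    (fun y hy => hFK hy) (fun y hy => hFE hy) htr' htop hne' G a (fun g y hy => haK g y hy)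
  by_cases hE : E = ⊥
  · have hG : G = ⊥ := by
      rw [Subgroup.eq_bot_iff_forall]
      intro g hg
      have h7 : a ⟨g, hg⟩ = 1 := by
        apply hfaith
        intro y hy
        rw [hE] at hy
        obtain ⟨c, rfl⟩ := IntermediateField.mem_bot.1 hy
        exact AlgEquiv.commutes _ _
      have h8 : (⟨g, hg⟩ : G) = 1 := hainj (by rw [h7, map_one])
      exact congrArg Subtype.val h8
    rw [← hdeg]
    rw [← hdeg] at hK0
    have h9 : G.index = 720 := by
      rw [hG, Subgroup.index_bot, Nat.card_eq_fintype_card, Fintype.card_perm, Fintype.card_fin]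
      rfl
    rw [h9] at hK0 ⊢
    have h10 := Nat.pos_of_ne_zero (right_ne_zero_of_mul hK0)
    omega
  · let d : Dat 6 G M E :=
      { x := x
        ind := hind
        fin := hfin
        a := a
        ax := hax
        st := hst
        ff := h4 M E hfg htrE hE }
    have hb : Function.Injective d.b := by
      rw [injective_iff_map_eq_one]
      intro g hg
      apply hainj
      rw [map_one]
      apply hfaith
      intro y hy
      have h11 : ((d.b g ⟨y, hy⟩ : E) : M) = y := by rw [hg]; rfl
      exact h11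
    obtain ⟨S, hS⟩ := h5 6 G M E d
    have h12 := h6 E G d.b S d.ff hb
    have h13 : (G.index : ℤ) * S.deg ≤ G.index * (d.k : ℤ) :=
      mul_le_mul_of_nonneg_left hS (Int.natCast_nonneg _)
    have h14 : ((G.index * d.k : ℕ) : ℤ) = (relfinrank (base 6) K : ℤ) := by
      rw [← hdeg]; rfl
    push_cast at h14
    have h15 : (24 : ℤ) ≤ (relfinrank (base 6) K : ℤ) := by
      rw [← h14]; exact h12.trans h13
    exact_mod_cast h15

end

end Pool.Agent.Sextic.AD
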