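import Pool.Agent.Work.MP_8e3fb2_ag.AD.Stmts

/-!
# Item ML: the main lemma
-/

set_option autoImplicit false

namespace Pool.Agent.Sextic.AD

open IntermediateField

noncomputable section

/-- the map `w ↦ (e g)⁻¹ * g w` as a linear map -/
def ML_L {E : Type} [Field E] [Algebra ℂ E] (c : E) (σ : E ≃ₐ[ℂ] E) : E →ₗ[ℂ] E where
  toFun w := c * σ w
  map_add' := by
    intro u v
    rw [map_add, mul_add]
  map_smul' := by
    intro r u
    rw [map_smul, mul_smul_comm]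
    rfl

theorem ML_min {E : Type} [Field E] [Algebra ℂ E] {n : ℕ} (φ : MvPolynomial (Fin n) E)
    (m : Pl E → ℤ) (hle : ∀ P : Pl E, ∀ w ∈ cs φ, w ≠ 0 → m P ≤ P.1 w)
    (heq : ∀ P : Pl E, ∃ w ∈ cs φ, w ≠ 0 ∧ P.1 w = m P) (P : Pl E) :
    ∃ α, φ.coeff α ≠ 0 ∧ P.1 (φ.coeff α) = m P := by
  classical
  by_contra hcon
  push Not at hcon
  obtain ⟨w, hw, hw0, hwm⟩ := heq P
  have hsub : cs φ ≤ RR (fun Q : Pl E => if Q = P then -(m P + 1) else -m Q) := by
    unfold cs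
    rw [Submodule.span_le]
    rintro _ ⟨α, rfl⟩
    by_cases h0 : φ.coeff α = 0
    · left
      exact h0
    · right
      intro Q
      have hmem : φ.coeff α ∈ cs φ := Submodule.subset_span ⟨α, rfl⟩
      have h1 := hle Q _ hmem h0
      by_cases hQ : Q = P
      · subst hQ
        show -(if Q = Q then -(m Q + 1) else -m Q) ≤ Q.1 (φ.coeff α)
        rw [if_pos rfl, neg_neg]
        have h2 := hcon α h0
        omega
      · show -(if Q = P then -(m P + 1) else -m Q) ≤ Q.1 (φ.coeff α)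
        rw [if_neg hQ, neg_neg]
        exact h1
  rcases hsub hw with h | h
  · exact hw0 h
  · have h1 : -(if P = P then -(m P + 1) else -m P) ≤ P.1 w := h P
    rw [if_pos rfl, neg_neg, hwm] at h1
    omega

theorem prML (h1 : StIndA) (h2 : StKer) (h3 : StCoc) (h4 : StTwo) (h5 : StMin) (h6 : StDK) :
    StML := by
  intro n G M _ _ E d
  obtain ⟨hna, i₀, hi⟩ := h1 n G M E d
  obtain ⟨φ, hφ0, hφ⟩ := h2 E M n d.x i₀ hna hi
  obtain ⟨e, he0, hem, hec⟩ := h3 n G M E d φ hφ0 hφ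
  obtain ⟨hfin, htwo⟩ := h4 n G M E d φ hφ0 hφ
  haveI := hfin
  have hne : cs φ ≠ ⊥ := by
    intro h
    rw [h, finrank_bot] at htwo
    omega
  obtain ⟨m, hmfin, hmle, hmeq⟩ := h5 E d.ff (cs φ) hne
  have heW : ∀ g, ∀ w ∈ cs φ, (e g)⁻¹ * d.b g w ∈ cs φ := by
    intro g w hw
    have h7 : (cs φ).map (ML_L (e g)⁻¹ (d.b g)) ≤ cs φ := by
      conv_lhs => unfold cs
      rw [Submodule.map_span_le]
      rintro _ ⟨α, rfl⟩
      show (e g)⁻¹ * d.b g (φ.coeff α) ∈ cs φ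
      rw [hec g α, inv_mul_cancel_left₀ (he0 g)]
      exact Submodule.subset_span ⟨_, rfl⟩
    exact h7 (Submodule.mem_map_of_mem hw)
  exact ⟨⟨cs φ, hfin, htwo, e, he0, hem, heW, m, hmfin, hmle, hmeq⟩,
    h6 n G M E d φ m hφ0 hφ hmfin
      (fun P α h0 => hmle P _ (Submodule.subset_span ⟨α, rfl⟩) h0)
      (ML_min φ m hmle hmeq)⟩

end

end Pool.Agent.Sextic.AD
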