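import Pool.Agent.Work.MP_8e3fb2_ag.AD.Stmts

set_option autoImplicit false

/-!
# The accessory degree of the sextic, item Min: the minimum of the orders on a space of functions
-/

namespace Pool.Agent.Sextic.AD

theorem prMin (h : StSum0) : StMin := by
  intro E _ _ hE X _ hX
  have hpos : 0 < Module.finrank ℂ X := by
    rw [Module.finrank_pos_iff]
    exact (Submodule.nontrivial_iff_ne_bot).mpr hX
  have b : Module.Basis (Fin (Module.finrank ℂ X)) ℂ X := Module.finBasis ℂ X
  have hne : (Finset.univ : Finset (Fin (Module.finrank ℂ X))).Nonempty :=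
    ⟨⟨0, hpos⟩, Finset.mem_univ _⟩
  have hb : ∀ j, ((b j : X) : E) ≠ 0 := by
    intro j hj
    exact b.ne_zero j (Subtype.ext hj)
  have hatt : ∀ P : Pl E, ∃ j, Finset.univ.inf' hne (fun j => P.1 ((b j : X) : E)) =
      P.1 ((b j : X) : E) := by
    intro P
    obtain ⟨j, -, hj⟩ := Finset.exists_mem_eq_inf' hne (fun j => P.1 ((b j : X) : E))
    exact ⟨j, hj⟩
  refine ⟨fun P => Finset.univ.inf' hne (fun j => P.1 ((b j : X) : E)), ?_, ?_, ?_⟩
  · refine Set.Finite.subset (Set.finite_iUnion (fun j => (h E hE _ (hb j)).1)) ?_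
    intro P hP
    obtain ⟨j, hj⟩ := hatt P
    rw [Set.mem_iUnion]
    refine ⟨j, ?_⟩
    intro h0
    apply hP
    change Finset.univ.inf' hne (fun j => P.1 ((b j : X) : E)) = 0
    rw [hj, h0]
  · intro P w hw hw0
    have hmem : w ∈ RR (fun P : Pl E => - Finset.univ.inf' hne (fun j => P.1 ((b j : X) : E))) := by
      have h1 : w = ∑ j, b.repr ⟨w, hw⟩ j • ((b j : X) : E) := by
        have h2 : ((∑ j, b.repr ⟨w, hw⟩ j • b j : X) : E) = w :=
          congrArg (Subtype.val) (b.sum_repr ⟨w, hw⟩)
        rw [Submodule.coe_sum] at h2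
        exact h2.symm
      rw [h1]
      refine Submodule.sum_mem _ (fun j _ => Submodule.smul_mem _ _ ?_)
      right
      intro P
      rw [neg_neg]
      exact Finset.inf'_le _ (Finset.mem_univ j)
    rcases hmem with hmem | hmem
    · exact absurd hmem hw0
    · have h3 := hmem P
      rwa [neg_neg] at h3
  · intro P
    obtain ⟨j, hj⟩ := hatt P
    exact ⟨_, (b j).2, hb j, hj.symm⟩

end Pool.Agent.Sextic.AD
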