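import Pool.Agent.Work.MP_8e3fb2_ag.AD.Stmts

set_option autoImplicit false

namespace Pool.Agent.Sextic.AD

/-- elements of `T7` -/
def Nrm_L7 : List (Equiv.Perm (Fin 6)) :=
  [1, Equiv.swap 0 1 * Equiv.swap 2 3, Equiv.swap 0 2 * Equiv.swap 1 3,
   Equiv.swap 0 3 * Equiv.swap 1 2, Equiv.swap 4 5, Equiv.swap 0 1 * Equiv.swap 2 3 * Equiv.swap 4 5,
   Equiv.swap 0 2 * Equiv.swap 1 3 * Equiv.swap 4 5, Equiv.swap 0 3 * Equiv.swap 1 2 * Equiv.swap 4 5]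

/-- elements of `H6` -/
def Nrm_L6 : List (Equiv.Perm (Fin 6)) :=
  [1, k1, k1 * k1, k2, k1 * k2, k1 * k1 * k2, k2 * k2, k1 * (k2 * k2), k1 * k1 * (k2 * k2)]

/-- elements of `T6` -/
def Nrm_L8 : List (Equiv.Perm (Fin 6)) :=
  [1, Equiv.swap 0 1, Equiv.swap 2 3, Equiv.swap 0 1 * Equiv.swap 2 3, Equiv.swap 4 5,
   Equiv.swap 0 1 * Equiv.swap 4 5, Equiv.swap 2 3 * Equiv.swap 4 5,
   Equiv.swap 0 1 * Equiv.swap 2 3 * Equiv.swap 4 5]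

theorem Nrm_m7 : ∀ g : Equiv.Perm (Fin 6), g ∈ T7 → g ∈ Nrm_L7 := by decide +kernel

theorem Nrm_m6 : ∀ g : Equiv.Perm (Fin 6), g ∈ H6 → g ∈ Nrm_L6 := by decide +kernel

theorem Nrm_m8 : ∀ g : Equiv.Perm (Fin 6), g ∈ T6 → g ∈ Nrm_L8 := by decide +kernel

theorem Nrm_s7 : ∀ g ∈ Nrm_L7, g * g = 1 := by decide +kernel

theorem Nrm_s6 : ∀ g ∈ Nrm_L6, g * g * g = 1 := by decide +kernel

theorem Nrm_s8 : ∀ g ∈ Nrm_L8, g * g = 1 := by decide +kernel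

theorem Nrm_c7 : ∀ g ∈ Nrm_L7, ∀ h ∈ Nrm_L7, g * h = h * g := by decide +kernel

theorem Nrm_c6 : ∀ g ∈ Nrm_L6, ∀ h ∈ Nrm_L6, g * h = h * g := by decide +kernel

theorem Nrm_c8 : ∀ g ∈ Nrm_L8, ∀ h ∈ Nrm_L8, g * h = h * g := by decide +kernel

theorem Nrm_e7 : ∀ n : Equiv.Perm (Fin 6), n ∈ NT →
    ((Equiv.swap 0 1 * Equiv.swap 2 3) * n = n * (Equiv.swap 0 1 * Equiv.swap 2 3) ∨
      (Equiv.swap 0 1 * Equiv.swap 2 3) * n = n * (Equiv.swap 0 2 * Equiv.swap 1 3) ∨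
      (Equiv.swap 0 1 * Equiv.swap 2 3) * n =
        n * (Equiv.swap 0 1 * Equiv.swap 2 3 * (Equiv.swap 0 2 * Equiv.swap 1 3))) ∧
    ((Equiv.swap 0 2 * Equiv.swap 1 3) * n = n * (Equiv.swap 0 1 * Equiv.swap 2 3) ∨
      (Equiv.swap 0 2 * Equiv.swap 1 3) * n = n * (Equiv.swap 0 2 * Equiv.swap 1 3) ∨
      (Equiv.swap 0 2 * Equiv.swap 1 3) * n =
        n * (Equiv.swap 0 1 * Equiv.swap 2 3 * (Equiv.swap 0 2 * Equiv.swap 1 3))) ∧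
    Equiv.swap 4 5 * n = n * Equiv.swap 4 5 := by
  decide +kernel

theorem Nrm_e6 : ∀ n : Equiv.Perm (Fin 6), n ∈ NH →
    (k1 * n = n * k1 ∨ k1 * n = n * (k1 * k1) ∨ k1 * n = n * k2 ∨ k1 * n = n * (k2 * k2)) ∧
    (k2 * n = n * k1 ∨ k2 * n = n * (k1 * k1) ∨ k2 * n = n * k2 ∨ k2 * n = n * (k2 * k2)) := by
  decide +kernel

theorem Nrm_cj {G : Type} [Group G] {n t a s : G} (h1 : a * n = n * s) (h2 : t * s = s * t) :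
    n * t * n⁻¹ * a = a * (n * t * n⁻¹) := by
  have h3 : n⁻¹ * a = s * n⁻¹ := by
    rw [inv_mul_eq_iff_eq_mul, ← mul_assoc, ← h1, mul_inv_cancel_right]
  calc n * t * n⁻¹ * a = n * t * (n⁻¹ * a) := by rw [mul_assoc]
    _ = n * (t * s) * n⁻¹ := by rw [h3]; simp only [mul_assoc]
    _ = (n * s) * t * n⁻¹ := by rw [h2]; simp only [mul_assoc]
    _ = a * (n * t * n⁻¹) := by rw [← h1]; simp only [mul_assoc]

theorem Nrm_cm {G : Type} [Group G] {t a b : G} (h1 : t * a = a * t) (h2 : t * b = b * t) :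
    t * (a * b) = a * b * t := by
  rw [← mul_assoc, h1, mul_assoc, h2, mul_assoc]

theorem Nrm_n7 (n : Equiv.Perm (Fin 6)) (hn : n ∈ NT) (t : Equiv.Perm (Fin 6)) (ht : t ∈ T7) :
    n * t * n⁻¹ ∈ T7 := by
  obtain ⟨ta, tb, tc⟩ := ht
  obtain ⟨ha, hb, hc⟩ := Nrm_e7 n hn
  refine ⟨?_, ?_, Nrm_cj hc tc⟩
  · rcases ha with h | h | h
    · exact Nrm_cj h ta
    · exact Nrm_cj h tb
    · exact Nrm_cj h (Nrm_cm ta tb)
  · rcases hb with h | h | h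
    · exact Nrm_cj h ta
    · exact Nrm_cj h tb
    · exact Nrm_cj h (Nrm_cm ta tb)

theorem Nrm_n6 (n : Equiv.Perm (Fin 6)) (hn : n ∈ NH) (t : Equiv.Perm (Fin 6)) (ht : t ∈ H6) :
    n * t * n⁻¹ ∈ H6 := by
  obtain ⟨ta, tb⟩ := ht
  obtain ⟨ha, hb⟩ := Nrm_e6 n hn
  refine ⟨?_, ?_⟩
  · rcases ha with h | h | h | h
    · exact Nrm_cj h ta
    · exact Nrm_cj h (Nrm_cm ta ta)
    · exact Nrm_cj h tb
    · exact Nrm_cj h (Nrm_cm tb tb)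
  · rcases hb with h | h | h | h
    · exact Nrm_cj h ta
    · exact Nrm_cj h (Nrm_cm ta ta)
    · exact Nrm_cj h tb
    · exact Nrm_cj h (Nrm_cm tb tb)

theorem Nrm_n8 (n : Equiv.Perm (Fin 6)) (hn : n ∈ N6) (t : Equiv.Perm (Fin 6)) (ht : t ∈ T6) :
    n * t * n⁻¹ ∈ T6 := by
  intro i
  have h1 := ht (n⁻¹ i)
  have h2 := (hn (t (n⁻¹ i)) (n⁻¹ i)).1 h1
  rw [show n (n⁻¹ i) = i from Equiv.apply_symm_apply n i] at h2
  exact h2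

theorem prNrm : StNrm := by
  refine ⟨?_, ?_, ?_, ?_, ?_, ?_, ?_, ?_, ?_⟩
  · intro g hg
    rw [pow_two]
    exact Nrm_s8 g (Nrm_m8 g hg)
  · intro g hg
    rw [pow_two]
    exact Nrm_s7 g (Nrm_m7 g hg)
  · intro g hg
    rw [pow_succ, pow_two]
    exact Nrm_s6 g (Nrm_m6 g hg)
  · exact fun g hg h hh => Nrm_c8 g (Nrm_m8 g hg) h (Nrm_m8 h hh)
  · exact fun g hg h hh => Nrm_c7 g (Nrm_m7 g hg) h (Nrm_m7 h hh)
  · exact fun g hg h hh => Nrm_c6 g (Nrm_m6 g hg) h (Nrm_m6 h hh)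
  · exact Nrm_n8
  · exact Nrm_n7
  · exact Nrm_n6

end Pool.Agent.Sextic.AD
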