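import Pool.Agent.Work.MP_8e3fb2_ag.AD.Stmts

set_option autoImplicit false

/-!
# Item P3: two dimensional eigenspaces
-/

namespace Pool.Agent.Sextic.AD

open IntermediateField

noncomputable section

private theorem P3_smul {E : Type} [Field E] [Algebra ℂ E] (P : Pl E) (c : ℂ) (hc : c ≠ 0) (w : E)
    (hw : w ≠ 0) : P.1 (c • w) = P.1 w := by
  have h1 : algebraMap ℂ E c ≠ 0 := by rw [Ne, map_eq_zero]; exact hc
  rw [Algebra.smul_def, P.2.mul _ _ h1 hw, P.2.const c, zero_add]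

private theorem P3_comb {E : Type} [Field E] [Algebra ℂ E] (P : Pl E) (u v : E) (α β : ℂ)
    (hu : u ≠ 0) (hv : v ≠ 0) (hw : α • u + β • v ≠ 0) :
    min (P.1 u) (P.1 v) ≤ P.1 (α • u + β • v) := by
  by_cases hα : α = 0
  · subst hα
    have hβ : β ≠ 0 := by
      rintro rfl
      exact hw (by simp)
    rw [zero_smul, zero_add, P3_smul P β hβ v hv]
    exact min_le_right _ _
  by_cases hβ : β = 0
  · subst hβ
    rw [zero_smul, add_zero, P3_smul P α hα u hu]
    exact min_le_left _ _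
  have h := P.2.add (α • u) (β • v) (smul_ne_zero hα hu) (smul_ne_zero hβ hv) hw
  rwa [P3_smul P α hα u hu, P3_smul P β hβ v hv] at h

theorem prP3 (h1 : StBas) (h2 : StFd) (h3 : StDiv) (_h4 : StEInv) (h5 : StCyc) (h6 : StFF1) :
    StP3 := by
  classical
  intro E _ _ G _ _ b S hff hb T N χ hN hχ hR hlt hlt2
  have hfinW : FiniteDimensional ℂ S.W := S.finW
  have hfree : Module.Free ℂ (Eig S.rho T χ) := Module.Free.of_divisionRing ℂ (Eig S.rho T χ)
  have hfin : Module.Finite ℂ (Eig S.rho T χ) := FiniteDimensional.finiteDimensional_submodule _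
  let B : Module.Basis (Fin 2) ℂ (Eig S.rho T χ) := Module.finBasisOfFinrankEq ℂ _ hR
  obtain ⟨u, hu⟩ : ∃ u : S.W, u = (B 0).1 := ⟨_, rfl⟩
  obtain ⟨v, hv⟩ : ∃ v : S.W, v = (B 1).1 := ⟨_, rfl⟩
  have huR : u ∈ Eig S.rho T χ := hu ▸ (B 0).2
  have hvR : v ∈ Eig S.rho T χ := hv ▸ (B 1).2
  have hu0 : u ≠ 0 := by
    intro h
    exact B.ne_zero 0 (Subtype.ext (hu ▸ h))
  have hv0 : v ≠ 0 := by
    intro h
    exact B.ne_zero 1 (Subtype.ext (hv ▸ h))
  have hu1 : (u : E) ≠ 0 := fun h => hu0 (Subtype.ext h)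
  have hv1 : (v : E) ≠ 0 := fun h => hv0 (Subtype.ext h)
  have hspan : ∀ w ∈ Eig S.rho T χ, ∃ α β : ℂ, (w : E) = α • (u : E) + β • (v : E) := by
    intro w hw
    refine ⟨B.repr ⟨w, hw⟩ 0, B.repr ⟨w, hw⟩ 1, ?_⟩
    have h := B.sum_repr ⟨w, hw⟩
    rw [Fin.sum_univ_two] at h
    have h' := congrArg (fun z : Eig S.rho T χ => ((z : S.W) : E)) h
    simp only [Submodule.coe_add, Submodule.coe_smul] at h'
    rw [hu, hv]
    exact h'.symm
  have hindep : ∀ c : ℂ, (u : E) ≠ c • (v : E) := by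
    intro c h
    have h7 : B 0 = c • B 1 := by
      apply Subtype.ext
      apply Subtype.ext
      rw [← hu]
      show (u : E) = ((c • (B 1).1 : S.W) : E)
      rw [← hv, h]; rfl
    have h8 := congrArg (fun z => B.repr z 0) h7
    simp at h8
  obtain ⟨htr, hsum⟩ := h1 E G b S hff u.1 u.2 v.1 v.2 hv1 hindep
  have hDu := (h3 E G b S hff).2 u.1 u.2 hu1
  have hDv := (h3 E G b S hff).2 v.1 v.2 hv1
  set B₀ : Pl E → ℤ := fun P => min (S.D u.1 P) (S.D v.1 P) with hB₀
  have hB0 : ∀ P, 0 ≤ B₀ P := fun P => le_min (hDu.1 P) (hDv.1 P)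
  have hsupp : (Function.support B₀).Finite := by
    apply hDu.2.1.subset
    intro P hP
    rw [Function.mem_support] at hP ⊢
    intro h
    apply hP
    show min (S.D u.1 P) (S.D v.1 P) = 0
    rw [h]
    exact min_eq_left (hDv.1 P)
  -- `b t` on eigenvectors
  have hbt : ∀ t ∈ T, ∀ w : S.W, w ∈ Eig S.rho T χ → b t (w : E) = S.e t * (χ t • (w : E)) := by
    intro t ht w hw
    have h7 : S.rho t w = χ t • w := hw t ht
    have h8 := congrArg (fun z : S.W => (z : E)) h7
    simp only [LS.rho_val, Submodule.coe_smul] at h8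
    rw [← h8, mul_inv_cancel_left₀ (S.e_ne t)]
  have hfT : ∀ t ∈ T, b t ((u : E) / v) = (u : E) / v := by
    intro t ht
    have h7 := hbt t ht u huR
    have h8 := hbt t ht v hvR
    have h9 : b t (v : E) ≠ 0 := by
      rw [Ne, EmbeddingLike.map_eq_zero_iff]
      exact hv1
    have h10 : χ t ≠ 0 := by
      intro h
      rw [h, zero_smul, mul_zero] at h8
      exact h9 h8
    have h11 : algebraMap ℂ E (χ t) ≠ 0 := by rw [Ne, map_eq_zero]; exact h10
    rw [map_div₀, h7, h8, Algebra.smul_def, Algebra.smul_def, ← mul_assoc, ← mul_assoc,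
      mul_div_mul_left _ _ (mul_ne_zero (S.e_ne t) h11)]
  have hdvd := h2 E G b hb T _ hfT
  have hfd := h6 E hff _ htr
  have hpos : 0 < Module.finrank (ℂ⟮(u : E) / v⟯ : IntermediateField ℂ E) E := Module.finrank_pos
  obtain ⟨n, hn⟩ : ∃ n, n = Module.finrank (ℂ⟮(u : E) / v⟯ : IntermediateField ℂ E) E := ⟨_, rfl⟩
  rw [← hn] at hdvd hpos hsum
  have hsum' : ∑ᶠ P, B₀ P = S.deg - n := hsum
  have hle : (n : ℤ) ≤ S.deg := by
    have : 0 ≤ ∑ᶠ P, B₀ P := finsum_nonneg hB0
    linarith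
  have hnT : n = Nat.card T := by
    obtain ⟨k, hk⟩ := hdvd
    have hk1 : 0 < k := by
      rcases Nat.eq_zero_or_pos k with h | h
      · rw [h, mul_zero] at hk; omega
      · exact h
    have hk2 : k < 2 := by
      by_contra hge
      push Not at hge
      have h7 : Nat.card T * 2 ≤ n := by rw [hk]; exact Nat.mul_le_mul_left _ hge
      have h8 : ((Nat.card T * 2 : ℕ) : ℤ) ≤ (n : ℤ) := by exact_mod_cast h7
      push_cast at h8
      linarith
    have : k = 1 := by omega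
    rw [hk, this, mul_one]
  rw [hnT] at hsum'
  -- a place in the base divisor
  obtain ⟨P, hP⟩ : ∃ P, 1 ≤ B₀ P := by
    by_contra hcon
    push Not at hcon
    have h7 : ∀ P, B₀ P = 0 := fun P => le_antisymm (by have := hcon P; omega) (hB0 P)
    have h8 : ∑ᶠ P, B₀ P = 0 := by
      rw [finsum_congr h7, finsum_zero]
    rw [h8] at hsum'
    linarith
  -- `B₀` is the minimum over the eigenspace
  have hmin : ∀ w ∈ Eig S.rho T χ, (w : E) ≠ 0 → ∀ Q, B₀ Q ≤ S.D w Q := by
    intro w hw hw0 Q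
    obtain ⟨α, β, h7⟩ := hspan w hw
    have h8 := P3_comb Q u v α β hu1 hv1 (h7 ▸ hw0)
    rw [← h7] at h8
    show min (Q.1 u.1 - S.m Q) (Q.1 v.1 - S.m Q) ≤ Q.1 w - S.m Q
    rw [min_sub_sub_right]
    linarith
  -- stability under `N`
  have hNR : ∀ n ∈ N, ∀ w ∈ Eig S.rho T χ, S.rho n w ∈ Eig S.rho T χ := by
    intro n hn w hw t ht
    have h7 : n⁻¹ * t * n ∈ T := by
      have := hN n⁻¹ (N.inv_mem hn) t ht
      rwa [inv_inv] at this
    have h8 : χ (n⁻¹ * t * n) = χ t := by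
      have := hχ n⁻¹ (N.inv_mem hn) t ht
      rwa [inv_inv] at this
    have h9 : S.rho t (S.rho n w) = S.rho n (S.rho (n⁻¹ * t * n) w) := by
      rw [← Module.End.mul_apply, ← Module.End.mul_apply, ← map_mul, ← map_mul]
      congr 2
      group
    rw [h9, hw _ h7, map_smul, h8]
  have hkey : ∀ n ∈ N, ∀ Q, ∀ w ∈ Eig S.rho T χ, (w : E) ≠ 0 →
      B₀ Q ≤ S.D w.1 (b n • Q) := by
    intro n hn Q w hw hw0
    obtain ⟨w', hw'⟩ : ∃ w', w' = S.rho n⁻¹ w := ⟨_, rfl⟩
    have hw'R : w' ∈ Eig S.rho T χ := hw' ▸ hNR n⁻¹ (N.inv_mem hn) w hw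
    have hww' : S.rho n w' = w := by
      rw [hw', ← Module.End.mul_apply, ← map_mul, mul_inv_cancel, map_one, Module.End.one_apply]
    have hw'0 : (w' : E) ≠ 0 := by
      intro h
      apply hw0
      have : w' = 0 := Subtype.ext h
      rw [← hww', this, map_zero]; rfl
    have h7 := ((h3 E G b S hff).2 w'.1 w'.2 hw'0).2.2.2 n Q
    rw [← LS.rho_val, hww'] at h7
    rw [h7]
    exact hmin w' hw'R hw'0 Q
  have hinv : ∀ n ∈ N, B₀ P ≤ B₀ (b n • P) := fun n hn =>
    le_min (hkey n hn P u huR hu1) (hkey n hn P v hvR hv1)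
  -- the orbit
  let act : MulAction N (Pl E) := MulAction.compHom (Pl E) (b.comp N.subtype)
  have hact : ∀ (n : N) (Q : Pl E), n • Q = b n.1 • Q := fun n Q => rfl
  have horb : ∀ Q ∈ MulAction.orbit N P, 1 ≤ B₀ Q := by
    rintro _ ⟨n, rfl⟩
    exact hP.trans (hinv n.1 n.2)
  have hcardorb : ((MulAction.orbit N P).ncard : ℤ) ≤ ∑ᶠ P, B₀ P := by
    rw [finsum_eq_sum B₀ hsupp]
    have hsub : (MulAction.orbit N P) ⊆ Function.support B₀ := by
      intro Q hQ
      have := horb Q hQ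
      rw [Function.mem_support]
      omega
    have hfo : (MulAction.orbit N P).Finite := hsupp.subset hsub
    calc ((MulAction.orbit N P).ncard : ℤ) = ∑ Q ∈ hfo.toFinset, (1 : ℤ) := by
          rw [Finset.sum_const, Set.ncard_eq_toFinset_card _ hfo]; simp
      _ ≤ ∑ Q ∈ hfo.toFinset, B₀ Q :=
          Finset.sum_le_sum (fun Q hQ => horb Q (hfo.mem_toFinset.1 hQ))
      _ ≤ ∑ Q ∈ hsupp.toFinset, B₀ Q :=
          Finset.sum_le_sum_of_subset_of_nonneg
            (fun Q hQ => hsupp.mem_toFinset.2 (hsub (hfo.mem_toFinset.1 hQ))) (fun Q _ _ => hB0 Q)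
  have hcyc : IsCyclic (MulAction.stabilizer N P) := by
    apply h5 E (MulAction.stabilizer N P)
      ((b.comp N.subtype).comp (MulAction.stabilizer N P).subtype)
      ((hb.comp N.subtype_injective).comp (Subgroup.subtype_injective _)) P
    intro h
    exact h.2
  obtain ⟨g, hg⟩ := hcyc.exists_generator
  have hgo : orderOf g = Nat.card (MulAction.stabilizer N P) :=
    orderOf_eq_card_of_forall_mem_zpowers hg
  have hidx : (MulAction.stabilizer N P).index = (MulAction.orbit N P).ncard :=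
    MulAction.index_stabilizer N P
  have hcardN : Nat.card (MulAction.stabilizer N P) * (MulAction.orbit N P).ncard = Nat.card N := by
    rw [← hidx]
    exact Subgroup.card_mul_index _
  refine ⟨g.1.1, g.1.2, ?_⟩
  have hgo' : orderOf g.1.1 = Nat.card (MulAction.stabilizer N P) := by
    rw [← hgo, Subgroup.orderOf_coe, Subgroup.orderOf_coe]
  rw [hgo', ← hcardN]
  push_cast
  apply mul_le_mul_of_nonneg_left _ (Int.natCast_nonneg _)
  rw [← hsum']
  exact hcardorb

end

end Pool.Agent.Sextic.AD
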