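import Pool.Agent.Work.MP_8e3fb2_ag.AD.Stmts

set_option autoImplicit false

/-!
# Item PJ: large eigenspaces give large degree
-/

namespace Pool.Agent.Sextic.AD

open IntermediateField

noncomputable section

private theorem PJ_places {E : Type} [Field E] [Algebra ℂ E] {G : Type} [Group G] [Finite G]
    (b : G →* (E ≃ₐ[ℂ] E)) (hinf : Infinite (Pl E))
    (hfin : {P : Pl E | ∃ g : G, g ≠ 1 ∧ b g • P = P}.Finite) (j : ℕ) :
    ∃ Fs : Finset (Pl E), Fs.card = j ∧ (∀ P ∈ Fs, ∀ g : G, b g • P = P → g = 1) ∧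
      ∀ P ∈ Fs, ∀ P' ∈ Fs, ∀ g : G, b g • P = P' → P = P' := by
  classical
  induction j with
  | zero => exact ⟨∅, rfl, by simp, by simp⟩
  | succ j ih =>
    obtain ⟨Fs, hcard, hfree, horb⟩ := ih
    have hfin2 : ({P : Pl E | ∃ g : G, g ≠ 1 ∧ b g • P = P} ∪
        (⋃ P ∈ Fs, Set.range (fun g : G => b g • P))).Finite := by
      apply hfin.union
      apply Set.Finite.biUnion Fs.finite_toSet
      intro P _
      exact Set.finite_range _
    obtain ⟨P₀, hP₀⟩ := hfin2.exists_notMem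
    rw [Set.mem_union, not_or] at hP₀
    obtain ⟨hP1, hP2⟩ := hP₀
    have hP2' : ∀ P ∈ Fs, ∀ g : G, b g • P ≠ P₀ := by
      intro P hP g h
      apply hP2
      rw [Set.mem_iUnion₂]
      exact ⟨P, hP, g, h⟩
    have hnot : P₀ ∉ Fs := by
      intro h
      apply hP2' P₀ h 1
      rw [map_one, one_smul]
    refine ⟨insert P₀ Fs, by rw [Finset.card_insert_of_notMem hnot, hcard], ?_, ?_⟩
    · intro P hP g hg
      rcases Finset.mem_insert.1 hP with rfl | hP
      · by_contra hne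
        exact hP1 ⟨g, hne, hg⟩
      · exact hfree P hP g hg
    · intro P hP P' hP' g hg
      rcases Finset.mem_insert.1 hP with hPe | hPF
      · rcases Finset.mem_insert.1 hP' with hPe' | hPF'
        · rw [hPe, hPe']
        · exfalso
          apply hP2' P' hPF' g⁻¹
          rw [← hg, ← mul_smul, ← map_mul, inv_mul_cancel, map_one, one_smul, hPe]
      · rcases Finset.mem_insert.1 hP' with hPe' | hPF'
        · exact absurd (hg.trans hPe') (hP2' P hPF g)
        · exact horb P hPF P' hPF' g hg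

theorem prPJ (h1 : StInf) (h2 : StFree) (h3 : StVan) (h4 : StDiv) (h5 : StEInv) : StPJ := by
  classical
  intro E _ _ G _ _ b S hff hb T χ j hj
  have hfinW : FiniteDimensional ℂ S.W := S.finW
  obtain ⟨Fs, hcard, hfree, horb⟩ := PJ_places b (h1 E hff) (h2 E G b hff hb) j
  -- the image of the eigenspace in `E`
  obtain ⟨X, hX⟩ : ∃ X : Submodule ℂ E, X = (Eig S.rho T χ).map S.W.subtype := ⟨_, rfl⟩
  have hfinE : Module.Finite ℂ (Eig S.rho T χ) := FiniteDimensional.finiteDimensional_submodule _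
  have hfinX : FiniteDimensional ℂ X := by
    rw [hX]
    exact Module.Finite.map _ _
  have hXr : Module.finrank ℂ X = Module.finrank ℂ (Eig S.rho T χ) := by
    rw [hX]
    exact (LinearEquiv.finrank_eq
      (Submodule.equivMapOfInjective S.W.subtype S.W.subtype_injective (Eig S.rho T χ))).symm
  have hXW : ∀ w ∈ X, w ∈ S.W := by
    intro w hw
    rw [hX] at hw
    obtain ⟨w', _, rfl⟩ := hw
    exact w'.2
  obtain ⟨w, hwX, hw0, hwQ⟩ := h3 E X S.m (fun P w hw hw0 => S.m_le P w (hXW w hw) hw0) Fs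
    (by rw [hcard, hXr]; exact hj)
  rw [hX] at hwX
  obtain ⟨w', hw'R, rfl⟩ := hwX
  have hw'0 : w' ≠ 0 := by
    rintro rfl
    exact hw0 rfl
  have hD := (h4 E G b S hff).2 (w' : E) w'.2 hw0
  have hinv := h5 E G b S hff T χ w' hw'0 hw'R
  cases nonempty_fintype T
  let f : Pl E × T → Pl E := fun x => b x.2.1 • x.1
  have hinj : Set.InjOn f ((Fs ×ˢ (Finset.univ : Finset T) : Finset (Pl E × T)) : Set (Pl E × T)) := by
    rintro ⟨P, t⟩ hP ⟨P', t'⟩ hP' h
    have hP1 : P ∈ Fs := (Finset.mem_product.1 hP).1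
    have hP2 : P' ∈ Fs := (Finset.mem_product.1 hP').1
    have h6 : b t.1 • P = b t'.1 • P' := h
    have h7 : b (t'.1⁻¹ * t.1) • P = P' := by
      rw [map_mul, mul_smul, h6, ← mul_smul, ← map_mul, inv_mul_cancel, map_one, one_smul]
    have h8 : P = P' := horb P hP1 P' hP2 _ h7
    subst h8
    have h9 := hfree P hP1 _ h7
    have h10 : t.1 = t'.1 := (inv_mul_eq_one.1 h9).symm
    rw [Subtype.ext h10]
  let Z : Finset (Pl E) := (Fs ×ˢ (Finset.univ : Finset T)).image f
  have hZcard : Z.card = j * Nat.card T := by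
    rw [Finset.card_image_of_injOn hinj, Finset.card_product, hcard, Finset.card_univ,
      Nat.card_eq_fintype_card]
  have hZ1 : ∀ Q ∈ Z, 1 ≤ S.D (w' : E) Q := by
    intro Q hQ
    obtain ⟨⟨P, t⟩, hPt, rfl⟩ := Finset.mem_image.1 hQ
    have hP1 : P ∈ Fs := (Finset.mem_product.1 hPt).1
    show 1 ≤ S.D (w' : E) (b t.1 • P)
    rw [hinv t.1 t.2 P]
    have h6 := hwQ P hP1
    show 1 ≤ P.1 (w' : E) - S.m P
    have h7 : S.m P < P.1 (w' : E) := h6
    omega
  have hsub : Z ⊆ hD.2.1.toFinset := by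
    intro Q hQ
    rw [Set.Finite.mem_toFinset, Function.mem_support]
    have := hZ1 Q hQ
    intro h
    omega
  have h6 : (Z.card : ℤ) ≤ S.deg := by
    have hDsum : ∑ᶠ P, S.D (w' : E) P = S.deg := hD.2.2.1
    rw [← hDsum, finsum_eq_sum _ hD.2.1]
    calc (Z.card : ℤ) = ∑ Q ∈ Z, (1 : ℤ) := by simp
      _ ≤ ∑ Q ∈ Z, S.D (w' : E) Q := Finset.sum_le_sum hZ1
      _ ≤ ∑ Q ∈ hD.2.1.toFinset, S.D (w' : E) Q :=
        Finset.sum_le_sum_of_subset_of_nonneg hsub (fun Q _ _ => hD.1 Q)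
  rw [hZcard] at h6
  push_cast at h6
  exact h6

end

end Pool.Agent.Sextic.AD
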