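import Pool.Agent.Work.MP_8e3fb2_ag.AD.Stmts

set_option autoImplicit false

/-!
# The accessory degree of the sextic, item R6: representations of the symmetric group on six letters
-/

namespace Pool.Agent.Sextic.AD

open IntermediateField

noncomputable section

theorem R6_cardT6 : Nat.card T6 = 8 := by
  rw [Nat.card_eq_fintype_card]
  decide +kernel

theorem R6_cardT7 : Nat.card T7 = 8 := by
  rw [Nat.card_eq_fintype_card]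
  decide +kernel

theorem R6_cardH6 : Nat.card H6 = 9 := by
  rw [Nat.card_eq_fintype_card]
  decide +kernel

theorem R6_nT6 : ∀ t : Equiv.Perm (Fin 6), t ∈ T6 → k3⁻¹ * t * k3 ∈ T6 ∧
    (Equiv.swap 0 2 * Equiv.swap 1 3)⁻¹ * t * (Equiv.swap 0 2 * Equiv.swap 1 3) ∈ T6 := by
  decide +kernel

theorem R6_nT7 : ∀ t : Equiv.Perm (Fin 6), t ∈ T7 → k1⁻¹ * t * k1 ∈ T7 ∧
    (Equiv.swap 0 1)⁻¹ * t * (Equiv.swap 0 1) ∈ T7 := by
  decide +kernel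

theorem R6_sg_mul (s t : Equiv.Perm (Fin 6)) : sg (s * t) = sg s * sg t := by
  unfold sg
  rw [Equiv.Perm.sign_mul]
  push_cast
  rfl

theorem R6_sg_sq (t : Equiv.Perm (Fin 6)) : sg t * sg t = 1 := by
  unfold sg
  rcases Int.units_eq_one_or (Equiv.Perm.sign t) with h | h <;> rw [h] <;> norm_num

theorem R6_sg_conj (g t : Equiv.Perm (Fin 6)) : sg (g⁻¹ * t * g) = sg t := by
  unfold sg
  congr 1
  have : Equiv.Perm.sign (g⁻¹ * t * g) = Equiv.Perm.sign t := by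
    rw [Equiv.Perm.sign_mul, Equiv.Perm.sign_mul, Equiv.Perm.sign_inv, mul_comm, ← mul_assoc,
      Int.units_mul_self, one_mul]
  rw [this]

theorem R6_chi (s t : Equiv.Perm (Fin 6)) (hs : s ∈ T6) (ht : t ∈ T6) :
    (if (s * t) 0 = 0 then (1 : ℂ) else -1) =
      (if s 0 = 0 then 1 else -1) * (if t 0 = 0 then 1 else -1) := by
  have key : ∀ u : Equiv.Perm (Fin 6), u ∈ T6 → (u 0 = 0 ∧ u 1 = 1) ∨ (u 0 = 1 ∧ u 1 = 0) := by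
    decide +kernel
  rw [Equiv.Perm.mul_apply]
  rcases key s hs with ⟨h1, h2⟩ | ⟨h1, h2⟩ <;> rcases key t ht with ⟨h3, h4⟩ | ⟨h3, h4⟩ <;>
    simp [h1, h2, h3]

/-- the arithmetic -/
theorem R6_arith (d t0 t3 s0 s3 h0 m : ℕ) (A B C U W Y Z : ℂ)
    (e1 : (t0 : ℂ) * 8 = d + 3 * A + 3 * B + C) (e2 : (t3 : ℂ) * 8 = d - 3 * A + 3 * B - C)
    (e3 : (m : ℂ) * 8 = d + A - B - C) (e4 : 4 * W + 4 * Z = d + 3 * A + 3 * B + C)
    (e5 : 4 * W - 4 * Z = d - 3 * A + 3 * B - C) (e6 : (s0 : ℂ) * 8 = d + A + 3 * B + 3 * C)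
    (e7 : (s3 : ℂ) * 8 = d - A + 3 * B - 3 * C) (e8 : 4 * U + 4 * Y = d + A + 3 * B + 3 * C)
    (e9 : 4 * U - 4 * Y = d - A + 3 * B - 3 * C) (e10 : (h0 : ℂ) * 9 = d + 4 * U + 4 * W)
    (b1 : t0 ≤ 1) (b2 : t3 ≤ 1) (b3 : s0 ≤ 1) (b4 : s3 ≤ 1) (b5 : h0 ≤ 1) : d ≤ 1 := by
  have f1 : (9 * h0 : ℂ) = d + 8 * (t0 + t3) := by
    linear_combination e10 + (1 / 2) * e4 + (1 / 2) * e5 + (1 / 2) * e8 + (1 / 2) * e9
      - e1 - e2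
  have f2 : (t0 + t3 : ℂ) = s0 + s3 := by
    linear_combination (1 / 8) * e1 + (1 / 8) * e2 - (1 / 8) * e6 - (1 / 8) * e7
  have f3 : (12 * m + 5 * t3 + 3 * s0 : ℂ) = 2 * d + t0 + 3 * s3 := by
    linear_combination (3 / 2) * e3 + (5 / 8) * e2 + (3 / 8) * e6 - (1 / 8) * e1 - (3 / 8) * e7
  have g1 : 9 * h0 = d + 8 * (t0 + t3) := by exact_mod_cast f1
  have g2 : t0 + t3 = s0 + s3 := by exact_mod_cast f2
  have g3 : 12 * m + 5 * t3 + 3 * s0 = 2 * d + t0 + 3 * s3 := by exact_mod_cast f3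
  clear e1 e2 e3 e4 e5 e6 e7 e8 e9 e10 f1 f2 f3
  interval_cases h0 <;> interval_cases t0 <;> interval_cases t3 <;> omega

theorem prR6 (h1 : StTr) (h2 : StFix) (h3 : StCS) : StR6 := by
  intro V _ _ _ ρ b1 b2 b3 b4 b5
  set X : Equiv.Perm (Fin 6) → ℂ := fun g => LinearMap.trace ℂ V (ρ g) with hX
  have hconj : ∀ g ∈ alternatingGroup (Fin 6), ∀ h, X (g * h * g⁻¹) = X h := by
    intro g _ h
    exact Representation.char_conj ρ h g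
  obtain ⟨c1, c2, c3, c4, c5, c6, c7, c8, c9, c10, -⟩ :=
    h3 X hconj _ _ _ _ _ _ _ _ rfl rfl rfl rfl rfl rfl rfl rfl
  have hd : X 1 = (Module.finrank ℂ V : ℂ) := by
    rw [hX]
    show LinearMap.trace ℂ V (ρ 1) = _
    rw [map_one, LinearMap.trace_one]
  rw [hd] at c1 c2 c3 c6 c7 c10
  have hone : ∀ (T : Subgroup (Equiv.Perm (Fin 6))) (s : Equiv.Perm (Fin 6)), s ∈ T →
      ∀ t ∈ T, (1 : ℂ) = 1 * 1 := fun _ _ _ _ _ => (one_mul 1).symm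
  have k1c := h1 _ V ρ T6 (fun _ => 1) (hone T6) (fun _ _ => one_mul 1)
  have k2c := h1 _ V ρ T6 sg (fun s _ t _ => R6_sg_mul s t) (fun t _ => R6_sg_sq t)
  have k3c := h1 _ V ρ T6 (fun t => if t 0 = 0 then 1 else -1)
    (fun s hs t ht => R6_chi s t hs ht) (fun t _ => by split_ifs <;> norm_num)
  have k4c := h1 _ V ρ T7 (fun _ => 1) (hone T7) (fun _ _ => one_mul 1)
  have k5c := h1 _ V ρ T7 sg (fun s _ t _ => R6_sg_mul s t) (fun t _ => R6_sg_sq t)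
  have k6c := h1 _ V ρ H6 (fun _ => 1) (hone H6) (fun _ _ => one_mul 1)
  have q3 : k3 ^ 3 = 1 := by decide +kernel
  have q3' : (Equiv.swap 0 2 * Equiv.swap 1 3) * k3 * (Equiv.swap 0 2 * Equiv.swap 1 3)⁻¹ =
    k3⁻¹ := by decide +kernel
  have q1 : k1 ^ 3 = 1 := by decide +kernel
  have q1' : (Equiv.swap 0 1) * k1 * (Equiv.swap 0 1)⁻¹ = k1⁻¹ := by decide +kernel
  have m1 := k1c.2 k3 (h2 _ V ρ T6 (fun _ => 1) k3 (Equiv.swap 0 2 * Equiv.swap 1 3) q3 q3'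
    (fun t ht => ⟨(R6_nT6 t ht).1, rfl⟩) (fun t ht => ⟨(R6_nT6 t ht).2, rfl⟩) b1)
  have m2 := k2c.2 k3 (h2 _ V ρ T6 sg k3 (Equiv.swap 0 2 * Equiv.swap 1 3) q3 q3'
    (fun t ht => ⟨(R6_nT6 t ht).1, R6_sg_conj _ _⟩)
    (fun t ht => ⟨(R6_nT6 t ht).2, R6_sg_conj _ _⟩) b2)
  have m3 := k4c.2 k1 (h2 _ V ρ T7 (fun _ => 1) k1 (Equiv.swap 0 1) q1 q1'
    (fun t ht => ⟨(R6_nT7 t ht).1, rfl⟩) (fun t ht => ⟨(R6_nT7 t ht).2, rfl⟩) b3)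
  have m4 := k5c.2 k1 (h2 _ V ρ T7 sg k1 (Equiv.swap 0 1) q1 q1'
    (fun t ht => ⟨(R6_nT7 t ht).1, R6_sg_conj _ _⟩)
    (fun t ht => ⟨(R6_nT7 t ht).2, R6_sg_conj _ _⟩) b4)
  have n1 := k1c.1
  have n2 := k2c.1
  have n3 := k3c.1
  have n4 := k4c.1
  have n5 := k5c.1
  have n6 := k6c.1
  simp only [one_mul] at n1 n4 n6 m1 m3
  rw [R6_cardT6] at n1 n2 n3
  rw [R6_cardT7] at n4 n5
  rw [R6_cardH6] at n6
  have c1' : (∑ᶠ (t : Equiv.Perm (Fin 6)) (_ : t ∈ T6), LinearMap.trace ℂ V (ρ t)) = _ := c1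
  have c2' : (∑ᶠ (t : Equiv.Perm (Fin 6)) (_ : t ∈ T6), sg t * LinearMap.trace ℂ V (ρ t)) = _ :=
    c2
  have c3' : (∑ᶠ (t : Equiv.Perm (Fin 6)) (_ : t ∈ T6),
    (if t 0 = 0 then 1 else -1) * LinearMap.trace ℂ V (ρ t)) = _ := c3
  have c4' : (∑ᶠ (t : Equiv.Perm (Fin 6)) (_ : t ∈ T6), LinearMap.trace ℂ V (ρ (k3 * t))) = _ :=
    c4
  have c5' : (∑ᶠ (t : Equiv.Perm (Fin 6)) (_ : t ∈ T6),
    sg t * LinearMap.trace ℂ V (ρ (k3 * t))) = _ := c5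
  have c6' : (∑ᶠ (t : Equiv.Perm (Fin 6)) (_ : t ∈ T7), LinearMap.trace ℂ V (ρ t)) = _ := c6
  have c7' : (∑ᶠ (t : Equiv.Perm (Fin 6)) (_ : t ∈ T7), sg t * LinearMap.trace ℂ V (ρ t)) = _ :=
    c7
  have c8' : (∑ᶠ (t : Equiv.Perm (Fin 6)) (_ : t ∈ T7), LinearMap.trace ℂ V (ρ (k1 * t))) = _ :=
    c8
  have c9' : (∑ᶠ (t : Equiv.Perm (Fin 6)) (_ : t ∈ T7),
    sg t * LinearMap.trace ℂ V (ρ (k1 * t))) = _ := c9
  have c10' : (∑ᶠ (t : Equiv.Perm (Fin 6)) (_ : t ∈ H6), LinearMap.trace ℂ V (ρ t)) = _ := c10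
  rw [c4', c1'] at m1
  rw [c5', c2'] at m2
  rw [c8', c6'] at m3
  rw [c9', c7'] at m4
  rw [c1'] at n1
  rw [c2'] at n2
  rw [c3'] at n3
  rw [c6'] at n4
  rw [c7'] at n5
  rw [c10'] at n6
  exact R6_arith _ _ _ _ _ _ _ _ _ _ _ _ _ _ (by simpa using n1) (by simpa using n2)
    (by simpa using n3) m1 m2 (by simpa using n4) (by simpa using n5) m3 m4
    (by simpa using n6) b1 b2 b3 b4 b5

end

end Pool.Agent.Sextic.AD
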