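import Pool.Agent.Work.MP_8e3fb2_ag.AD.Stmts

set_option autoImplicit false

/-!
# The accessory degree of the sextic, item RA: representations of the alternating group
-/

namespace Pool.Agent.Sextic.AD

open IntermediateField

noncomputable section

set_option maxRecDepth 100000 in
private theorem RA_t7 : ∀ t : Equiv.Perm (Fin 6), t ∈ T7 → k1⁻¹ * t * k1 ∈ T7 := by
  decide +kernel

set_option maxRecDepth 100000 in
private theorem RA_t7n : ∀ t : Equiv.Perm (Fin 6), t ∈ T7 →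
    (Equiv.swap 0 1 * Equiv.swap 4 5)⁻¹ * t * (Equiv.swap 0 1 * Equiv.swap 4 5) ∈ T7 := by
  decide +kernel

set_option maxRecDepth 100000 in
private theorem RA_t6 : ∀ t : Equiv.Perm (Fin 6), t ∈ T6 → k3⁻¹ * t * k3 ∈ T6 := by
  decide +kernel

set_option maxRecDepth 100000 in
private theorem RA_t6n : ∀ t : Equiv.Perm (Fin 6), t ∈ T6 →
    (Equiv.swap 0 2 * Equiv.swap 1 3)⁻¹ * t * (Equiv.swap 0 2 * Equiv.swap 1 3) ∈ T6 := by
  decide +kernel

set_option maxRecDepth 100000 in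
private theorem RA_chi : ∀ s : Equiv.Perm (Fin 6), s ∈ T7 → ∀ t : Equiv.Perm (Fin 6), t ∈ T7 →
    (((s * t) 0 = 0 ∨ (s * t) 0 = 1) ↔ ((s 0 = 0 ∨ s 0 = 1) ↔ (t 0 = 0 ∨ t 0 = 1))) := by
  decide +kernel

private theorem RA_k3 : k3 ^ 3 = 1 := by decide

private theorem RA_k3n : (Equiv.swap 0 2 * Equiv.swap 1 3) * k3 *
    (Equiv.swap 0 2 * Equiv.swap 1 3)⁻¹ = k3⁻¹ := by decide

private theorem RA_k1 : k1 ^ 3 = 1 := by decide

private theorem RA_k1n : (Equiv.swap 0 1 * Equiv.swap 4 5) * k1 *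
    (Equiv.swap 0 1 * Equiv.swap 4 5)⁻¹ = k1⁻¹ := by decide

private theorem RA_k3A : k3 ∈ alternatingGroup (Fin 6) := by
  rw [Equiv.Perm.mem_alternatingGroup]
  decide

private theorem RA_k1A : k1 ∈ alternatingGroup (Fin 6) := by
  rw [Equiv.Perm.mem_alternatingGroup]
  decide

private theorem RA_k2A : k2 ∈ alternatingGroup (Fin 6) := by
  rw [Equiv.Perm.mem_alternatingGroup]
  decide

private theorem RA_nA : (Equiv.swap 0 2 * Equiv.swap 1 3 : Equiv.Perm (Fin 6)) ∈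
    alternatingGroup (Fin 6) := by
  rw [Equiv.Perm.mem_alternatingGroup]
  decide

private theorem RA_mA : (Equiv.swap 0 1 * Equiv.swap 4 5 : Equiv.Perm (Fin 6)) ∈
    alternatingGroup (Fin 6) := by
  rw [Equiv.Perm.mem_alternatingGroup]
  decide

private theorem RA_bA : (Equiv.swap 0 1 * Equiv.swap 2 3 : Equiv.Perm (Fin 6)) ∈
    alternatingGroup (Fin 6) := by
  rw [Equiv.Perm.mem_alternatingGroup]
  decide

/-- Sums over a subgroup of the alternating group. -/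
private theorem RA_conv (T S : Subgroup (Equiv.Perm (Fin 6)))
    (hS : ∀ t ∈ alternatingGroup (Fin 6), t ∈ T ↔ t ∈ S)
    (f : alternatingGroup (Fin 6) → ℂ) (X : Equiv.Perm (Fin 6) → ℂ)
    (hX : ∀ t : alternatingGroup (Fin 6), X t = f t)
    (hX0 : ∀ t, t ∉ alternatingGroup (Fin 6) → X t = 0) :
    ∑ᶠ (t : alternatingGroup (Fin 6)) (_ : t ∈ T.subgroupOf (alternatingGroup (Fin 6))), f t =
      ∑ᶠ (t) (_ : t ∈ S), X t := by
  have h1 : ∑ᶠ (t) (_ : t ∈ (S : Set (Equiv.Perm (Fin 6)))), X t =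
      ∑ᶠ (t) (_ : t ∈ ((S : Set (Equiv.Perm (Fin 6))) ∩
        (alternatingGroup (Fin 6) : Set (Equiv.Perm (Fin 6))))), X t := by
    refine finsum_mem_inter_support_eq' _ _ _ fun x hx => ?_
    constructor
    · intro h
      refine ⟨h, ?_⟩
      by_contra h2
      exact hx (hX0 x h2)
    · intro h
      exact h.1
  have h2 : ∑ᶠ (t) (_ : t ∈ (T.subgroupOf (alternatingGroup (Fin 6)) :
      Set (alternatingGroup (Fin 6)))), f t =
      ∑ᶠ (t) (_ : t ∈ ((S : Set (Equiv.Perm (Fin 6))) ∩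
        (alternatingGroup (Fin 6) : Set (Equiv.Perm (Fin 6))))), X t := by
    refine finsum_mem_eq_of_bijOn Subtype.val ⟨?_, ?_, ?_⟩ fun x _ => (hX x).symm
    · intro t ht
      exact ⟨(hS t t.2).1 ht, t.2⟩
    · exact Subtype.val_injective.injOn
    · rintro t ⟨ht, htA⟩
      exact ⟨⟨t, htA⟩, (hS t htA).2 ht, rfl⟩
  exact h2.trans h1.symm

private theorem RA_card (T : Subgroup (alternatingGroup (Fin 6))) :
    ∑ᶠ (t : alternatingGroup (Fin 6)) (_ : t ∈ T), (1 : ℂ) = Nat.card T := by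
  classical
  rw [finsum_eq_sum_of_fintype]
  have h1 : ∀ t : alternatingGroup (Fin 6), (∑ᶠ (_ : t ∈ T), (1 : ℂ)) = if t ∈ T then 1 else 0 :=
    fun t => finsum_eq_if
  rw [Finset.sum_congr rfl fun t _ => h1 t, Finset.sum_boole, Nat.card_eq_fintype_card,
    Fintype.card_subtype]

open Classical in
/-- The indicator of the alternating group. -/
private def RA_ind (g : Equiv.Perm (Fin 6)) : ℂ :=
  if g ∈ alternatingGroup (Fin 6) then 1 else 0

private theorem RA_ind_mem {g : Equiv.Perm (Fin 6)} (h : g ∈ alternatingGroup (Fin 6)) :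
    RA_ind g = 1 := if_pos h

private theorem RA_ind_not {g : Equiv.Perm (Fin 6)} (h : g ∉ alternatingGroup (Fin 6)) :
    RA_ind g = 0 := if_neg h

private theorem RA_conj (g : Equiv.Perm (Fin 6)) (h : Equiv.Perm (Fin 6)) :
    g * h * g⁻¹ ∈ alternatingGroup (Fin 6) ↔ h ∈ alternatingGroup (Fin 6) := by
  rw [Equiv.Perm.mem_alternatingGroup, Equiv.Perm.mem_alternatingGroup, map_mul, map_mul, map_inv,
    mul_comm (Equiv.Perm.sign g), mul_assoc, mul_inv_cancel, mul_one]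

private theorem RA_ind_conj (g : Equiv.Perm (Fin 6)) (h : Equiv.Perm (Fin 6)) :
    RA_ind (g * h * g⁻¹) = RA_ind h := by
  by_cases hh : h ∈ alternatingGroup (Fin 6)
  · rw [RA_ind_mem hh, RA_ind_mem ((RA_conj g h).2 hh)]
  · rw [RA_ind_not hh, RA_ind_not (fun h' => hh ((RA_conj g h).1 h'))]

private theorem RA_cards (h3 : StCS) :
    (Nat.card (T6.subgroupOf (alternatingGroup (Fin 6))) : ℂ) = 4 ∧
    (Nat.card (T7.subgroupOf (alternatingGroup (Fin 6))) : ℂ) = 4 ∧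
    (Nat.card (H6.subgroupOf (alternatingGroup (Fin 6))) : ℂ) = 9 := by
  obtain ⟨-, -, -, -, -, -, -, -, -, c1, c2, -, c3, -, -⟩ :=
    h3 RA_ind (fun g _ h => RA_ind_conj g h) _ _ _ _ _ _ _ _ rfl rfl rfl rfl rfl rfl rfl rfl
  rw [RA_ind_mem (one_mem _), RA_ind_mem RA_k1A, RA_ind_mem (mul_mem RA_k1A RA_k2A)] at c1
  rw [RA_ind_mem (one_mem _), RA_ind_mem RA_bA] at c2 c3
  refine ⟨?_, ?_, ?_⟩
  · rw [← RA_card, RA_conv T6 (T6 ⊓ alternatingGroup (Fin 6)) (fun t ht => ⟨fun h => ⟨h, ht⟩,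
      fun h => h.1⟩) _ RA_ind (fun t => RA_ind_mem t.2) (fun t ht => RA_ind_not ht), c2]
    norm_num
  · rw [← RA_card, RA_conv T7 (T7 ⊓ alternatingGroup (Fin 6)) (fun t ht => ⟨fun h => ⟨h, ht⟩,
      fun h => h.1⟩) _ RA_ind (fun t => RA_ind_mem t.2) (fun t ht => RA_ind_not ht), c3]
    norm_num
  · rw [← RA_card, RA_conv H6 H6 (fun t _ => Iff.rfl) _ RA_ind (fun t => RA_ind_mem t.2)
      (fun t ht => RA_ind_not ht), c1]
    norm_num

section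
variable {V : Type} [AddCommGroup V] [Module ℂ V]
  (ρ : Representation ℂ (alternatingGroup (Fin 6)) V)

open Classical in
/-- The character, extended by zero. -/
private def RA_X (g : Equiv.Perm (Fin 6)) : ℂ :=
  if h : g ∈ alternatingGroup (Fin 6) then LinearMap.trace ℂ V (ρ ⟨g, h⟩) else 0

private theorem RA_X_mem {g : Equiv.Perm (Fin 6)} (h : g ∈ alternatingGroup (Fin 6)) :
    RA_X ρ g = LinearMap.trace ℂ V (ρ ⟨g, h⟩) := dif_pos h

private theorem RA_X_not {g : Equiv.Perm (Fin 6)} (h : g ∉ alternatingGroup (Fin 6)) :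
    RA_X ρ g = 0 := dif_neg h

private theorem RA_X_conj (g : Equiv.Perm (Fin 6)) (hg : g ∈ alternatingGroup (Fin 6))
    (h : Equiv.Perm (Fin 6)) : RA_X ρ (g * h * g⁻¹) = RA_X ρ h := by
  by_cases hh : h ∈ alternatingGroup (Fin 6)
  · rw [RA_X_mem ρ hh, RA_X_mem ρ ((RA_conj g h).2 hh)]
    have h1 : (⟨g * h * g⁻¹, (RA_conj g h).2 hh⟩ : alternatingGroup (Fin 6)) =
        ⟨g, hg⟩ * ⟨h, hh⟩ * ⟨g, hg⟩⁻¹ := rfl
    rw [h1, map_mul, LinearMap.trace_mul_comm, ← map_mul, ← mul_assoc, inv_mul_cancel, one_mul]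
  · rw [RA_X_not ρ hh, RA_X_not ρ (fun h' => hh ((RA_conj g h).1 h'))]

end

end

theorem prRA (h1 : StTr) (h2 : StFix) (h3 : StCS) : StRA := by
  intro V _ _ _ ρ e6 e7 e7' eH
  obtain ⟨k6, k7, kH⟩ := RA_cards h3
  obtain ⟨-, -, -, -, -, -, -, -, -, c1, c2, c3, c4, c5, c6⟩ :=
    h3 (RA_X ρ) (fun g hg h => RA_X_conj ρ g hg h) _ _ _ _ _ _ _ _ rfl rfl rfl rfl rfl rfl rfl rfl
  have hd : RA_X ρ 1 = Module.finrank ℂ V := by
    rw [RA_X_mem ρ (one_mem _)]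
    have : (⟨1, one_mem _⟩ : alternatingGroup (Fin 6)) = 1 := rfl
    rw [this, map_one, LinearMap.trace_one]
  rw [hd] at c1 c2 c4 c6
  -- trivial characters
  have tr1 : ∀ (T : Subgroup (Equiv.Perm (Fin 6))),
      (∀ s ∈ T.subgroupOf (alternatingGroup (Fin 6)), ∀ t ∈ T.subgroupOf (alternatingGroup (Fin 6)),
        (fun _ : alternatingGroup (Fin 6) => (1 : ℂ)) (s * t) =
        (fun _ => (1 : ℂ)) s * (fun _ => (1 : ℂ)) t) := fun T s _ t _ => by norm_num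
  have tr2 : ∀ (T : Subgroup (Equiv.Perm (Fin 6))),
      (∀ t ∈ T.subgroupOf (alternatingGroup (Fin 6)),
        (fun _ : alternatingGroup (Fin 6) => (1 : ℂ)) t * (fun _ => (1 : ℂ)) t = 1) :=
    fun T t _ => by norm_num
  obtain ⟨a6, b6⟩ := h1 _ V ρ (T6.subgroupOf (alternatingGroup (Fin 6))) (fun _ => 1) (tr1 T6)
    (tr2 T6)
  obtain ⟨a7, b7⟩ := h1 _ V ρ (T7.subgroupOf (alternatingGroup (Fin 6))) (fun _ => 1) (tr1 T7)
    (tr2 T7)
  obtain ⟨aH, -⟩ := h1 _ V ρ (H6.subgroupOf (alternatingGroup (Fin 6))) (fun _ => 1) (tr1 H6)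
    (tr2 H6)
  have hX1 : ∀ t : alternatingGroup (Fin 6), RA_X ρ t = 1 * LinearMap.trace ℂ V (ρ t) := fun t => by
    rw [RA_X_mem ρ t.2, one_mul]
  have hX0 : ∀ t, t ∉ alternatingGroup (Fin 6) → RA_X ρ t = 0 := fun t ht => RA_X_not ρ ht
  have inf : ∀ T : Subgroup (Equiv.Perm (Fin 6)), ∀ t ∈ alternatingGroup (Fin 6),
      t ∈ T ↔ t ∈ T ⊓ alternatingGroup (Fin 6) :=
    fun T t ht => ⟨fun h => ⟨h, ht⟩, fun h => h.1⟩
  have s6 := RA_conv T6 (T6 ⊓ alternatingGroup (Fin 6)) (inf T6)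
    (fun t => 1 * LinearMap.trace ℂ V (ρ t)) (RA_X ρ) hX1 hX0
  have s7 := RA_conv T7 (T7 ⊓ alternatingGroup (Fin 6)) (inf T7)
    (fun t => 1 * LinearMap.trace ℂ V (ρ t)) (RA_X ρ) hX1 hX0
  have sH := RA_conv H6 H6 (fun t _ => Iff.rfl)
    (fun t => 1 * LinearMap.trace ℂ V (ρ t)) (RA_X ρ) hX1 hX0
  rw [c2] at s6
  rw [c4] at s7
  rw [c1] at sH
  rw [k6] at a6
  rw [k7] at a7
  rw [kH] at aH
  -- the shifted sums
  have sh : ∀ (g : Equiv.Perm (Fin 6)) (hg : g ∈ alternatingGroup (Fin 6))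
      (T : Subgroup (Equiv.Perm (Fin 6))),
      ∑ᶠ (t : alternatingGroup (Fin 6)) (_ : t ∈ T.subgroupOf (alternatingGroup (Fin 6))),
        1 * LinearMap.trace ℂ V (ρ (⟨g, hg⟩ * t)) =
      ∑ᶠ (t) (_ : t ∈ T ⊓ alternatingGroup (Fin 6)), RA_X ρ (g * t) := by
    intro g hg T
    refine RA_conv T (T ⊓ alternatingGroup (Fin 6)) (inf T) _ (fun t => RA_X ρ (g * t)) ?_ ?_
    · intro t
      rw [RA_X_mem ρ (mul_mem hg t.2), one_mul]
      rfl
    · intro t ht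
      refine RA_X_not ρ fun h => ht ?_
      have h5 := mul_mem (inv_mem hg) h
      rwa [inv_mul_cancel_left] at h5
  have f6 : ∀ v ∈ Eig ρ (T6.subgroupOf (alternatingGroup (Fin 6))) (fun _ => 1),
      ρ ⟨k3, RA_k3A⟩ v = v := by
    refine h2 _ V ρ _ _ ⟨k3, RA_k3A⟩ ⟨Equiv.swap 0 2 * Equiv.swap 1 3, RA_nA⟩ (Subtype.ext RA_k3)
      (Subtype.ext RA_k3n) (fun t ht => ⟨?_, rfl⟩) (fun t ht => ⟨?_, rfl⟩) e6
    · exact RA_t6 t.1 ht
    · exact RA_t6n t.1 ht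
  have f7 : ∀ v ∈ Eig ρ (T7.subgroupOf (alternatingGroup (Fin 6))) (fun _ => 1),
      ρ ⟨k1, RA_k1A⟩ v = v := by
    refine h2 _ V ρ _ _ ⟨k1, RA_k1A⟩ ⟨Equiv.swap 0 1 * Equiv.swap 4 5, RA_mA⟩ (Subtype.ext RA_k1)
      (Subtype.ext RA_k1n) (fun t ht => ⟨?_, rfl⟩) (fun t ht => ⟨?_, rfl⟩) e7
    · exact RA_t7 t.1 ht
    · exact RA_t7n t.1 ht
  have g6 := b6 ⟨k3, RA_k3A⟩ f6
  have g7 := b7 ⟨k1, RA_k1A⟩ f7
  rw [sh k3 RA_k3A T6, c3, s6] at g6
  rw [sh k1 RA_k1A T7, c5, s7] at g7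
  rw [s6] at a6
  rw [s7] at a7
  rw [sH] at aH
  -- the character b
  obtain ⟨χ, hχ⟩ : ∃ χ : alternatingGroup (Fin 6) → ℂ, χ = fun t =>
    if t.1 0 = 0 ∨ t.1 0 = 1 then 1 else -1 := ⟨_, rfl⟩
  obtain ⟨aχ, -⟩ := h1 _ V ρ (T7.subgroupOf (alternatingGroup (Fin 6))) χ
    (by
      intro s hs t ht
      have h5 := RA_chi s.1 hs t.1 ht
      rw [hχ]
      show (if (s.1 * t.1) 0 = 0 ∨ (s.1 * t.1) 0 = 1 then (1 : ℂ) else -1) =
        (if s.1 0 = 0 ∨ s.1 0 = 1 then 1 else -1) * (if t.1 0 = 0 ∨ t.1 0 = 1 then 1 else -1)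
      by_cases p1 : s.1 0 = 0 ∨ s.1 0 = 1
      · by_cases p2 : t.1 0 = 0 ∨ t.1 0 = 1
        · rw [if_pos p1, if_pos p2, if_pos (h5.2 ⟨fun _ => p2, fun _ => p1⟩)]
          norm_num
        · rw [if_pos p1, if_neg p2, if_neg (fun h => p2 ((h5.1 h).1 p1))]
          norm_num
      · by_cases p2 : t.1 0 = 0 ∨ t.1 0 = 1
        · rw [if_neg p1, if_pos p2, if_neg (fun h => p1 ((h5.1 h).2 p2))]
          norm_num
        · rw [if_neg p1, if_neg p2, if_pos (h5.2 ⟨fun h => absurd h p1, fun h => absurd h p2⟩)]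
          norm_num)
    (by
      intro t _
      rw [hχ]
      show (if t.1 0 = 0 ∨ t.1 0 = 1 then (1 : ℂ) else -1) *
        (if t.1 0 = 0 ∨ t.1 0 = 1 then (1 : ℂ) else -1) = 1
      split_ifs <;> norm_num)
  have sχ := RA_conv T7 (T7 ⊓ alternatingGroup (Fin 6)) (inf T7)
    (fun t => χ t * LinearMap.trace ℂ V (ρ t))
    (fun t => (if t 0 = 0 ∨ t 0 = 1 then 1 else -1) * RA_X ρ t)
    (by
      intro t
      show (if t.1 0 = 0 ∨ t.1 0 = 1 then (1 : ℂ) else -1) * RA_X ρ t.1 = _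
      rw [RA_X_mem ρ t.2, hχ])
    (by
      intro t ht
      show _ * RA_X ρ t = 0
      rw [RA_X_not ρ ht, mul_zero])
  rw [c6] at sχ
  rw [sχ, k7] at aχ
  have eχ := e7' χ
  -- arithmetic
  obtain ⟨M, hM⟩ : ∃ M : ℕ,
      M = Module.finrank ℂ (Eig ρ (T7.subgroupOf (alternatingGroup (Fin 6))) (fun _ => 1)) :=
    ⟨_, rfl⟩
  obtain ⟨b, hb⟩ : ∃ b : ℕ,
      b = Module.finrank ℂ (Eig ρ (T7.subgroupOf (alternatingGroup (Fin 6))) χ) := ⟨_, rfl⟩
  obtain ⟨m, hm⟩ : ∃ m : ℕ,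
      m = Module.finrank ℂ (Eig ρ (H6.subgroupOf (alternatingGroup (Fin 6))) (fun _ => 1)) :=
    ⟨_, rfl⟩
  rw [← hM] at a7 e7
  rw [← hb] at aχ eχ
  rw [← hm] at aH eH
  have q1 : (M : ℂ) + 3 * b = Module.finrank ℂ V := by
    linear_combination (1 / 4 : ℂ) * a7 + (3 / 4 : ℂ) * aχ
  have q2 : (9 : ℂ) * m = Module.finrank ℂ V + 8 * M := by
    linear_combination aH + g6 + g7 - 2 * a7
  have q1' : M + 3 * b = Module.finrank ℂ V := by exact_mod_cast q1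
  have q2' : 9 * m = Module.finrank ℂ V + 8 * M := by exact_mod_cast q2
  omega

end Pool.Agent.Sextic.AD
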