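import Pool.Agent.Work.MP_8e3fb2_ag.AD.Stmts

set_option autoImplicit false

/-!
# Block AD, item Rie (helper87): weak form of Riemann's inequality
-/

namespace Pool.Agent.Sextic.AD

open IntermediateField

noncomputable section

section

variable {E : Type} [Field E] [Algebra ℂ E] (P : Pl E)

private lemma Rie_add {c : ℤ} (hc : c ≤ 0) {a b : E} (ha : c ≤ P.1 a) (hb : c ≤ P.1 b) :
    c ≤ P.1 (a + b) := by
  by_cases ha0 : a = 0
  · rw [ha0, zero_add]; exact hb
  by_cases hb0 : b = 0
  · rw [hb0, add_zero]; exact ha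
  by_cases hab : a + b = 0
  · rw [hab, P.2.zero]; exact hc
  · exact le_trans (le_min ha hb) (P.2.add a b ha0 hb0 hab)

private lemma Rie_sum {c : ℤ} (hc : c ≤ 0) {ι : Type*} (s : Finset ι) (f : ι → E)
    (h : ∀ i ∈ s, c ≤ P.1 (f i)) : c ≤ P.1 (∑ i ∈ s, f i) := by
  classical
  induction s using Finset.induction_on with
  | empty => rw [Finset.sum_empty, P.2.zero]; exact hc
  | insert a s ha ih =>
    rw [Finset.sum_insert ha]
    exact Rie_add P hc (h a (Finset.mem_insert_self a s))
      (ih fun i hi => h i (Finset.mem_insert_of_mem hi))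

private lemma Rie_one : P.1 1 = 0 := by
  have := P.2.const 1
  rwa [map_one] at this

private lemma Rie_neg (a : E) : P.1 (-a) = P.1 a := by
  by_cases ha0 : a = 0
  · rw [ha0, neg_zero]
  have h1 : (-a : E) = algebraMap ℂ E (-1) * a := by
    rw [map_neg, map_one, neg_one_mul]
  have h2 : algebraMap ℂ E (-1) ≠ 0 := by
    rw [Ne, map_eq_zero]; norm_num
  rw [h1, P.2.mul _ _ h2 ha0, P.2.const, zero_add]

private lemma Rie_pow {y : E} (hy : y ≠ 0) (m : ℕ) : P.1 (y ^ m) = m * P.1 y := by
  induction m with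
  | zero => rw [pow_zero, Rie_one]; simp
  | succ m ih =>
    rw [pow_succ, P.2.mul _ _ (pow_ne_zero _ hy) hy, ih]
    push_cast
    ring

private lemma Rie_key {R : Type*} [CommRing R] [Algebra R E] {y : E} (hy : y ≠ 0)
    (p : Polynomial R) (hp : p.Monic) (hpe : Polynomial.eval₂ (algebraMap R E) y p = 0) {c : ℤ}
    (hc : c ≤ 0) (h : ∀ j, c ≤ P.1 (algebraMap R E (p.coeff j))) : c ≤ P.1 y := by
  by_contra hcon
  rw [not_le] at hcon
  rw [Polynomial.eval₂_eq_sum_range, Finset.sum_range_succ, hp.coeff_natDegree, map_one,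
    one_mul] at hpe
  set m := p.natDegree with hm
  have hym : y ^ m = -∑ j ∈ Finset.range m, algebraMap R E (p.coeff j) * y ^ j := by
    rw [add_comm] at hpe
    exact eq_neg_of_add_eq_zero_left hpe
  have hm1 : 1 ≤ m := by
    by_contra h0
    have h1 : m = 0 := by omega
    rw [h1] at hym
    simp at hym
  have hPy : P.1 y ≤ -1 := by omega
  have hm1' : (1 : ℤ) ≤ m := by exact_mod_cast hm1
  have hC : (m : ℤ) * P.1 y + 1 ≤ 0 := by nlinarith
  have hsum : (m : ℤ) * P.1 y + 1 ≤
      P.1 (∑ j ∈ Finset.range m, algebraMap R E (p.coeff j) * y ^ j) := by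
    apply Rie_sum P hC
    intro j hj
    rw [Finset.mem_range] at hj
    by_cases ha : algebraMap R E (p.coeff j) = 0
    · rw [ha, zero_mul, P.2.zero]; exact hC
    · rw [P.2.mul _ _ ha (pow_ne_zero _ hy), Rie_pow P hy]
      have h2 := h j
      have h3 : ((j : ℤ) + 1) ≤ m := by exact_mod_cast hj
      nlinarith
  have h4 := Rie_pow P hy m
  rw [hym, Rie_neg] at h4
  omega

private lemma Rie_coef (w : E) (r : ℕ) (q : Polynomial ℂ) (hq : q.natDegree ≤ r) :
    (r : ℤ) * min (P.1 w) 0 ≤ P.1 (Polynomial.aeval w q) := by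
  have hr0 : (r : ℤ) * min (P.1 w) 0 ≤ 0 :=
    mul_nonpos_of_nonneg_of_nonpos (by positivity) (min_le_right _ _)
  rw [Polynomial.aeval_eq_sum_range]
  apply Rie_sum P hr0
  intro i hi
  rw [Finset.mem_range] at hi
  rw [Algebra.smul_def]
  by_cases hc : algebraMap ℂ E (q.coeff i) = 0
  · rw [hc, zero_mul, P.2.zero]; exact hr0
  by_cases hw : w = 0
  · by_cases hi0 : i = 0
    · rw [hi0, pow_zero, mul_one, P.2.const]; exact hr0
    · have h9 : P.1 (algebraMap ℂ E (q.coeff i) * w ^ i) = 0 := by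
        rw [hw, zero_pow hi0, mul_zero, P.2.zero]
      rw [h9]
      exact hr0
  · rw [P.2.mul _ _ hc (pow_ne_zero _ hw), P.2.const, zero_add, Rie_pow P hw]
    have h1 : (i : ℤ) ≤ r := by exact_mod_cast (by omega : i ≤ r)
    have h2 : min (P.1 w) 0 ≤ P.1 w := min_le_left _ _
    have h3 : min (P.1 w) 0 ≤ 0 := min_le_right _ _
    have h4 : (0 : ℤ) ≤ i := by positivity
    nlinarith

end

open scoped IntermediateField.algebraAdjoinAdjoin in
theorem prRie (h : StFF1) : StRie := by
  classical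
  intro E _ _ hFF w hw
  have hfin : FiniteDimensional (ℂ⟮w⟯ : IntermediateField ℂ E) E := h E hFF w hw
  obtain ⟨ι, b, hb⟩ := FiniteDimensional.exists_is_basis_integral (Algebra.adjoin ℂ {w})
    (ℂ⟮w⟯ : IntermediateField ℂ E) E
  -- bounds for the degrees
  have hdeg : ∀ i : ι, ∃ r : ℕ, ∀ P : Pl E, (r : ℤ) * min (P.1 w) 0 ≤ P.1 (b i) := by
    intro i
    obtain ⟨p, hp, hpe⟩ := hb i
    have hcoef : ∀ j, ∃ q : Polynomial ℂ, Polynomial.aeval w q =
        algebraMap (Algebra.adjoin ℂ {w}) E (p.coeff j) := by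
      intro j
      exact Algebra.adjoin_mem_exists_aeval _ _ (p.coeff j).2
    choose q hq using hcoef
    refine ⟨(Finset.range (p.natDegree + 1)).sup fun j => (q j).natDegree, fun P => ?_⟩
    set r := (Finset.range (p.natDegree + 1)).sup fun j => (q j).natDegree with hr
    have hr0 : (r : ℤ) * min (P.1 w) 0 ≤ 0 :=
      mul_nonpos_of_nonneg_of_nonpos (by positivity) (min_le_right _ _)
    refine Rie_key P (b.ne_zero i) p hp hpe hr0 fun j => ?_
    by_cases hj : j ≤ p.natDegree
    · rw [← hq j]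
      apply Rie_coef
      exact Finset.le_sup (f := fun j => (q j).natDegree) (Finset.mem_range.2 (by omega))
    · rw [Polynomial.coeff_eq_zero_of_natDegree_lt (by omega), map_zero, P.2.zero]
      exact hr0
  choose r hr using hdeg
  refine ⟨Finset.univ.sup r, fun s => ?_⟩
  set R := Finset.univ.sup r with hR
  let v : Fin s × ι → E := fun x =>
    ((AdjoinSimple.gen ℂ w) ^ (x.1 : ℕ) : (ℂ⟮w⟯ : IntermediateField ℂ E)) • b x.2
  have hli : LinearIndependent ℂ v := by
    have h1 : LinearIndependent ℂ (fun j : Fin s =>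
        ((AdjoinSimple.gen ℂ w) ^ (j : ℕ) : (ℂ⟮w⟯ : IntermediateField ℂ E))) := by
      have h2 : Transcendental ℂ (AdjoinSimple.gen ℂ w) := by
        intro halg
        apply hw
        have := halg.algebraMap (A := E)
        simpa using this
      have h3 := (Polynomial.basisMonomials ℂ).linearIndependent.map'
        (Polynomial.aeval (AdjoinSimple.gen ℂ w)).toLinearMap
        (LinearMap.ker_eq_bot.2 (transcendental_iff_injective.1 h2))
      have h4 := h3.comp (fun j : Fin s => (j : ℕ)) Fin.val_injective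
      have h5 : (fun j : Fin s =>
          ((AdjoinSimple.gen ℂ w) ^ (j : ℕ) : (ℂ⟮w⟯ : IntermediateField ℂ E))) =
          ((⇑(Polynomial.aeval (AdjoinSimple.gen ℂ w)).toLinearMap ∘
            ⇑(Polynomial.basisMonomials ℂ)) ∘ fun j : Fin s => (j : ℕ)) := by
        funext j
        simp
      rw [h5]
      exact h4
    exact linearIndependent_smul h1 b.linearIndependent
  have hv : ∀ x, v x = w ^ (x.1 : ℕ) * b x.2 := by
    intro x
    simp only [v]
    rw [Algebra.smul_def, map_pow]
    rfl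
  have hw0 : w ≠ 0 := by
    rintro rfl
    exact hw isAlgebraic_zero
  refine ⟨Submodule.span ℂ (Set.range v), FiniteDimensional.span_of_finite ℂ (Set.finite_range v),
    ?_, ?_⟩
  · rw [Submodule.span_le]
    rintro _ ⟨x, rfl⟩
    right
    intro P
    rw [hv, P.2.mul _ _ (pow_ne_zero _ hw0) (b.ne_zero _), Rie_pow P hw0]
    have h1 := hr x.2 P
    have h2 : ((r x.2 : ℕ) : ℤ) ≤ R := by
      exact_mod_cast (Finset.le_sup (f := r) (Finset.mem_univ x.2))
    have h3 : ((x.1 : ℕ) : ℤ) ≤ s := by exact_mod_cast x.1.2.le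
    have h4 : max (-P.1 w) 0 = - min (P.1 w) 0 := by
      rw [← max_neg_neg, neg_zero]
    have h5 : min (P.1 w) 0 ≤ P.1 w := min_le_left _ _
    have h6 : min (P.1 w) 0 ≤ 0 := min_le_right _ _
    have h7 : (0 : ℤ) ≤ (x.1 : ℕ) := by positivity
    show -(((s + R : ℕ) : ℤ) * max (-P.1 w) 0) ≤ _
    rw [h4]
    push_cast
    nlinarith [mul_le_mul_of_nonpos_right h2 h6, mul_le_mul_of_nonpos_right h3 h6,
      mul_le_mul_of_nonneg_left h5 h7]
  · rw [finrank_span_eq_card hli, Fintype.card_prod, Fintype.card_fin,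
      Module.finrank_eq_card_basis b, mul_comm]

end

end Pool.Agent.Sextic.AD
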