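import Pool.Agent.Work.MP_8e3fb2_ag.AD.Stmts

set_option autoImplicit false

/-!
# Item Rk: the rank of the image and of the kernel of the evaluation
-/

namespace Pool.Agent.Sextic.AD

open IntermediateField

noncomputable section

/-- rank and nullity over a domain -/
theorem Rk_abs {A P M ι κ : Type} [CommRing A] [IsDomain A] [AddCommGroup P] [Module A P]
    [AddCommGroup M] [Module A M] (ev : P →ₗ[A] M) (e : ι → P) (f : κ → P)
    (he : LinearIndependent A e)
    (h : ∀ p ∈ Submodule.span A (Set.range e), ev p = 0 → p ∈ Submodule.span A (Set.range f)) :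
    Cardinal.mk ι ≤ Module.rank A M + Cardinal.mk κ := by
  have h1 : Module.rank A (Submodule.span A (Set.range e)) = Cardinal.mk ι := by
    rw [rank_span he, Cardinal.mk_range_eq e he.injective]
  have h2 := LinearMap.rank_range_add_rank_ker (ev.domRestrict (Submodule.span A (Set.range e)))
  rw [h1] at h2
  rw [← h2]
  refine add_le_add (Submodule.rank_le _) ?_
  have h3 : Module.rank A (LinearMap.ker (ev.domRestrict (Submodule.span A (Set.range e)))) =
      Module.rank A ((LinearMap.ker (ev.domRestrict (Submodule.span A (Set.range e)))).map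
        (Submodule.span A (Set.range e)).subtype) :=
    (Submodule.equivMapOfInjective _ (Submodule.injective_subtype _) _).rank_eq
  rw [h3]
  calc _ ≤ Module.rank A (Submodule.span A (Set.range f)) := by
        apply Submodule.rank_mono
        rintro _ ⟨⟨p, hp⟩, hp2, rfl⟩
        exact h p hp hp2
    _ ≤ Cardinal.mk (Set.range f) := rank_span_le _
    _ ≤ Cardinal.mk κ := Cardinal.mk_range_le

/-- the rank over the polynomials is the degree over the rational functions -/
theorem Rk_frac {M : Type} [Field M] [Algebra ℂ M] {n : ℕ} (x : Fin n → M)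
    (hx : AlgebraicIndependent ℂ x) :
    letI : Algebra (MvPolynomial (Fin n) ℂ) M := (MvPolynomial.aeval x).toRingHom.toAlgebra
    Module.rank (MvPolynomial (Fin n) ℂ) M =
      Module.rank (IntermediateField.adjoin ℂ (Set.range x)) M := by
  letI a1 : Algebra (MvPolynomial (Fin n) ℂ) M := (MvPolynomial.aeval x).toRingHom.toAlgebra
  letI a2 : Algebra (MvPolynomial (Fin n) ℂ) (IntermediateField.adjoin ℂ (Set.range x)) :=
    ((hx.aevalEquivField : _ →+* IntermediateField.adjoin ℂ (Set.range x)).comp
      (algebraMap (MvPolynomial (Fin n) ℂ) (FractionRing (MvPolynomial (Fin n) ℂ)))).toAlgebra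
  haveI : IsScalarTower (MvPolynomial (Fin n) ℂ) (IntermediateField.adjoin ℂ (Set.range x)) M := by
    apply IsScalarTower.of_algebraMap_eq
    intro p
    show MvPolynomial.aeval x p = ((hx.aevalEquivField (algebraMap _ _ p) : _) : M)
    rw [hx.aevalEquivField_algebraMap_apply_coe]
  haveI : IsLocalization (nonZeroDivisors (MvPolynomial (Fin n) ℂ))
      (IntermediateField.adjoin ℂ (Set.range x)) := by
    refine IsLocalization.isLocalization_of_algEquiv (S := FractionRing (MvPolynomial (Fin n) ℂ))
      _ (AlgEquiv.ofRingEquiv (f := (hx.aevalEquivField :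
        FractionRing (MvPolynomial (Fin n) ℂ) ≃+* IntermediateField.adjoin ℂ (Set.range x))) ?_)
    intro p
    rfl
  exact (IsLocalization.rank_eq (IntermediateField.adjoin ℂ (Set.range x))
    (nonZeroDivisors (MvPolynomial (Fin n) ℂ)) le_rfl).symm

attribute [local instance] MvPolynomial.algebraMvPolynomial

theorem Rk_smul {E : Type} [Field E] [Algebra ℂ E] {n : ℕ} (a : MvPolynomial (Fin n) ℂ)
    (p : MvPolynomial (Fin n) E) : a • p = MvPolynomial.map (algebraMap ℂ E) a * p := rfl

theorem Rk_coeff {E : Type} [Field E] [Algebra ℂ E] {n : ℕ} (a : MvPolynomial (Fin n) ℂ)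
    (c : E) (α : Fin n →₀ ℕ) :
    MvPolynomial.coeff α (a • (MvPolynomial.C c : MvPolynomial (Fin n) E)) = a.coeff α • c := by
  rw [Rk_smul, mul_comm, MvPolynomial.coeff_C_mul, MvPolynomial.coeff_map, Algebra.smul_def,
    mul_comm]

/-- constants which are independent over the complex numbers are independent over polynomials -/
theorem Rk_ind {E ι : Type} [Field E] [Algebra ℂ E] {n : ℕ} (e : ι → E)
    (he : LinearIndependent ℂ e) : LinearIndependent (MvPolynomial (Fin n) ℂ)
      (fun i => (MvPolynomial.C (e i) : MvPolynomial (Fin n) E)) := by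
  rw [linearIndependent_iff'] at he ⊢
  intro s g hg i hi
  ext α
  rw [MvPolynomial.coeff_zero]
  refine he s (fun i => (g i).coeff α) ?_ i hi
  have := congrArg (MvPolynomial.coeff α) hg
  rw [MvPolynomial.coeff_sum, MvPolynomial.coeff_zero] at this
  rw [← this]
  refine Finset.sum_congr rfl fun j _ => ?_
  rw [Rk_coeff]

/-- the coefficients of the elements of the span -/
theorem Rk_span {E ι : Type} [Field E] [Algebra ℂ E] {n : ℕ} (X : Submodule ℂ E) (e : ι → E)
    (he : ∀ i, e i ∈ X) (p : MvPolynomial (Fin n) E)
    (hp : p ∈ Submodule.span (MvPolynomial (Fin n) ℂ)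
      (Set.range fun i => (MvPolynomial.C (e i) : MvPolynomial (Fin n) E))) :
    ∀ α, p.coeff α ∈ X := by
  obtain ⟨c, rfl⟩ := Finsupp.mem_span_range_iff_exists_finsupp.1 hp
  intro α
  rw [Finsupp.sum, MvPolynomial.coeff_sum]
  refine Submodule.sum_mem _ fun i _ => ?_
  rw [Rk_coeff]
  exact X.smul_mem _ (he i)

/-- the multiples of `φ` -/
theorem Rk_mul {E κ : Type} [Field E] [Algebra ℂ E] {n : ℕ} (R : Submodule ℂ E) (f : κ → E)
    (hf : R = Submodule.span ℂ (Set.range f)) (φ ψ : MvPolynomial (Fin n) E)
    (hψ : ∀ α, ψ.coeff α ∈ R) :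
    φ * ψ ∈ Submodule.span (MvPolynomial (Fin n) ℂ)
      (Set.range fun i => φ * (MvPolynomial.C (f i) : MvPolynomial (Fin n) E)) := by
  have key : ∀ (α : Fin n →₀ ℕ) (r : E), r ∈ Submodule.span ℂ (Set.range f) →
      φ * MvPolynomial.monomial α r ∈ Submodule.span (MvPolynomial (Fin n) ℂ)
      (Set.range fun i => φ * (MvPolynomial.C (f i) : MvPolynomial (Fin n) E)) := by
    intro α r hr
    induction hr using Submodule.span_induction with
    | mem r hr =>
      obtain ⟨i, rfl⟩ := hr
      have e : φ * MvPolynomial.monomial α (f i) = (MvPolynomial.monomial α (1 : ℂ)) •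
          (φ * (MvPolynomial.C (f i) : MvPolynomial (Fin n) E)) := by
        rw [Rk_smul, MvPolynomial.map_monomial, map_one, ← mul_assoc, mul_comm _ φ, mul_assoc,
          mul_comm _ (MvPolynomial.C (f i)), MvPolynomial.C_mul_monomial, mul_one]
      rw [e]
      exact Submodule.smul_mem _ _ (Submodule.subset_span ⟨i, rfl⟩)
    | zero => rw [map_zero, mul_zero]; exact Submodule.zero_mem _
    | add r s _ _ h1 h2 => rw [map_add, mul_add]; exact Submodule.add_mem _ h1 h2
    | smul c r _ h1 =>
      have e : φ * MvPolynomial.monomial α (c • r) = (MvPolynomial.C c : MvPolynomial (Fin n) ℂ) •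
          (φ * MvPolynomial.monomial α r) := by
        rw [Rk_smul, MvPolynomial.map_C, ← mul_assoc, mul_comm _ φ, mul_assoc,
          MvPolynomial.C_mul_monomial, Algebra.smul_def]
      rw [e]
      exact Submodule.smul_mem _ _ h1
  rw [MvPolynomial.as_sum ψ, Finset.mul_sum]
  refine Submodule.sum_mem _ fun α _ => key α _ ?_
  rw [← hf]
  exact hψ α

theorem prRk : StRk := by
  intro E M _ _ _ _ _ _ n x hx hfin X R φ hφ hR h
  let a1 : Algebra (MvPolynomial (Fin n) ℂ) M := (MvPolynomial.aeval x).toRingHom.toAlgebra
  -- the evaluation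
  let ev : MvPolynomial (Fin n) E →ₗ[MvPolynomial (Fin n) ℂ] M :=
    { toFun := fun p => MvPolynomial.aeval x p
      map_add' := fun p q => map_add _ p q
      map_smul' := by
        intro a p
        rw [Rk_smul, map_mul, MvPolynomial.aeval_map_algebraMap]
        rfl }
  have key : ∀ (s : Finset X), (LinearIndependent ℂ fun i : s => (i : X)) →
      s.card ≤ Module.finrank (IntermediateField.adjoin ℂ (Set.range x)) M +
        Module.finrank ℂ R := by
    intro s hs
    have hs' : LinearIndependent ℂ (fun i : s => ((i : X) : E)) := by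
      have := hs.map' X.subtype (Submodule.ker_subtype X)
      exact this
    obtain b := Module.finBasis ℂ R
    have hb : R = Submodule.span ℂ (Set.range fun i => ((b i : R) : E)) := by
      have := congrArg (Submodule.map R.subtype) b.span_eq
      rw [Submodule.map_span, Submodule.map_subtype_top, ← Set.range_comp] at this
      exact this.symm
    have := Rk_abs ev (fun i : s => (MvPolynomial.C ((i : X) : E) : MvPolynomial (Fin n) E))
      (fun i => φ * MvPolynomial.C ((b i : R) : E)) (Rk_ind _ hs') (by
        intro p hp hp0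
        obtain ⟨ψ, hψ, rfl⟩ := h p (Rk_span X (fun i : s => ((i : X) : E)) (fun i => (i : X).2) p hp)
          hp0
        exact Rk_mul R _ hb φ ψ hψ)
    rw [Rk_frac x hx, ← Module.finrank_eq_rank] at this
    rw [Cardinal.mk_coe_finset, Cardinal.mk_fin] at this
    exact_mod_cast this
  have hr : Module.rank ℂ X ≤ ((Module.finrank (IntermediateField.adjoin ℂ (Set.range x)) M +
      Module.finrank ℂ R : ℕ) : Cardinal) := rank_le key
  refine ⟨?_, Module.finrank_le_of_rank_le hr⟩
  rw [FiniteDimensional, ← Module.rank_lt_aleph0_iff]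
  exact lt_of_le_of_lt hr (Cardinal.natCast_lt_aleph0)

end

end Pool.Agent.Sextic.AD
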