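import Pool.Agent.Work.MP_8e3fb2_ag.AD.Stmts

set_option autoImplicit false

/-!
# Item Sp: equivariant vectors (Speiser)
-/

namespace Pool.Agent.Sextic.AD

open IntermediateField

theorem prSp : StSp := by
  classical
  intro L _ _ A _ _ a ha r ρ
  cases nonempty_fintype A
  let avg : L × Fin r → (Fin r → L) := fun x i => ∑ g : A, a g x.1 * algebraMap ℂ L (ρ g i x.2)
  have hequiv : ∀ (x : L × Fin r) (g : A) (i : Fin r),
      a g (avg x i) = ∑ l, algebraMap ℂ L (ρ g⁻¹ i l) * avg x l := by
    intro x g i
    have h1 : ∀ h : A, ρ h = ρ g⁻¹ * ρ (g * h) := by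
      intro h
      rw [← map_mul, inv_mul_cancel_left]
    calc a g (avg x i) = ∑ h : A, a (g * h) x.1 * algebraMap ℂ L (ρ h i x.2) := by
          show a g (∑ h : A, a h x.1 * algebraMap ℂ L (ρ h i x.2)) = _
          rw [map_sum]
          refine Finset.sum_congr rfl (fun h _ => ?_)
          rw [map_mul, AlgEquiv.commutes, map_mul a, AlgEquiv.mul_apply]
      _ = ∑ h : A, ∑ l, algebraMap ℂ L (ρ g⁻¹ i l) *
            (a (g * h) x.1 * algebraMap ℂ L (ρ (g * h) l x.2)) := by
          refine Finset.sum_congr rfl (fun h _ => ?_)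
          rw [h1 h, Matrix.mul_apply, map_sum, Finset.mul_sum]
          refine Finset.sum_congr rfl (fun l _ => ?_)
          rw [map_mul (algebraMap ℂ L)]
          ring
      _ = ∑ l, ∑ h : A, algebraMap ℂ L (ρ g⁻¹ i l) *
            (a (g * h) x.1 * algebraMap ℂ L (ρ (g * h) l x.2)) := Finset.sum_comm
      _ = ∑ l, algebraMap ℂ L (ρ g⁻¹ i l) * avg x l := by
          refine Finset.sum_congr rfl (fun l _ => ?_)
          show _ = algebraMap ℂ L (ρ g⁻¹ i l) * ∑ h : A, a h x.1 * algebraMap ℂ L (ρ h l x.2)
          rw [Finset.mul_sum]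
          exact Equiv.sum_comp (Equiv.mulLeft g)
            (fun h => algebraMap ℂ L (ρ g⁻¹ i l) * (a h x.1 * algebraMap ℂ L (ρ h l x.2)))
  -- the averages span
  have hli : LinearIndependent L (fun g : A => fun c : L => a g c) := by
    have h1 := (linearIndependent_monoidHom L L).comp
      (fun g : A => ((a g : L ≃ₐ[ℂ] L) : L →* L)) (by
        intro g h hgh
        apply ha
        ext c
        exact DFunLike.congr_fun hgh c)
    exact h1
  have hspan : Submodule.span L (Set.range avg) = ⊤ := by
    by_contra hne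
    obtain ⟨f, hf0, hf⟩ := Submodule.exists_le_ker_of_lt_top _ (lt_top_iff_ne_top.2 hne)
    apply hf0
    apply LinearMap.pi_ext'
    intro k
    apply LinearMap.ext
    intro y
    -- the coefficients
    have h1 : ∀ c : L, ∑ g : A, (∑ i, algebraMap ℂ L (ρ g i k) * f (Pi.single i 1)) * a g c = 0 := by
      intro c
      have h2 : f (avg (c, k)) = 0 := hf (Submodule.subset_span ⟨(c, k), rfl⟩)
      have h3 : avg (c, k) = ∑ i, avg (c, k) i • (Pi.single i (1 : L) : Fin r → L) := by
        funext j
        rw [Finset.sum_apply]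
        simp [Pi.single_apply]
      rw [h3, map_sum] at h2
      rw [← h2]
      calc ∑ g : A, (∑ i, algebraMap ℂ L (ρ g i k) * f (Pi.single i 1)) * a g c
          = ∑ g : A, ∑ i, (a g c * algebraMap ℂ L (ρ g i k)) * f (Pi.single i 1) := by
            refine Finset.sum_congr rfl (fun g _ => ?_)
            rw [Finset.sum_mul]
            refine Finset.sum_congr rfl (fun i _ => ?_)
            ring
        _ = ∑ i, ∑ g : A, (a g c * algebraMap ℂ L (ρ g i k)) * f (Pi.single i 1) :=
            Finset.sum_comm
        _ = ∑ i, f (avg (c, k) i • (Pi.single i (1 : L) : Fin r → L)) := by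
            refine Finset.sum_congr rfl (fun i _ => ?_)
            rw [map_smul, smul_eq_mul, ← Finset.sum_mul]
    have h2 := (Fintype.linearIndependent_iff.1 hli)
      (fun g => ∑ i, algebraMap ℂ L (ρ g i k) * f (Pi.single i 1)) (by
        funext c
        rw [Finset.sum_apply]
        exact h1 c) 1
    simp only [map_one, Matrix.one_apply] at h2
    have h3 : f (Pi.single k 1) = 0 := by
      rw [← h2]
      simp
    rw [LinearMap.comp_apply, LinearMap.zero_comp, LinearMap.zero_apply]
    have h4 : (LinearMap.single L (fun _ : Fin r => L) k) y = y • (Pi.single k (1 : L) : Fin r → L) := by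
      funext j
      by_cases hj : j = k
      · subst hj; simp
      · simp [hj]
    rw [h4, map_smul, h3, smul_zero]
  let B := Module.Basis.ofSpan hspan.ge
  have hBmem : ∀ i, B i ∈ Set.range avg := by
    intro i
    have := Module.Basis.ofSpan_subset hspan.ge
    exact this ⟨i, rfl⟩
  have hfin := Module.Finite.finite_basis B
  have hcard := Module.finrank_eq_nat_card_basis B
  rw [Module.finrank_fin_fun] at hcard
  let e := Finite.equivFinOfCardEq hcard.symm
  refine ⟨fun j => B (e.symm j), B.linearIndependent.comp _ e.symm.injective, ?_⟩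
  intro j g i
  obtain ⟨x, hx⟩ := hBmem (e.symm j)
  have h1 := hequiv x g i
  rw [hx] at h1
  exact h1

end Pool.Agent.Sextic.AD
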