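import Pool.Agent.Work.MP_8e3fb2_ag.AD.Stmts

set_option autoImplicit false

/-!
# Item Spl: the splitting field of the general sextic
-/

namespace Pool.Agent.Sextic.AD

open IntermediateField

noncomputable section

theorem prSpl (h : StEmb) : StSpl := by
  classical
  obtain ⟨j, hroot, hbase, hperm⟩ := h 6
  set ξ : Fin 6 → Om 6 := fun i => j (xv 6 i) with hξdef
  -- algebraic independence
  have hind : AlgebraicIndependent ℂ ξ := by
    have h1 : AlgebraicIndependent ℂ (MvPolynomial.X : Fin 6 → MvPolynomial (Fin 6) ℂ) :=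
      MvPolynomial.algebraicIndependent_X (Fin 6) ℂ
    have h2 := h1.map' (f := IsScalarTower.toAlgHom ℂ (MvPolynomial (Fin 6) ℂ) (RF 6))
      (IsFractionRing.injective _ _)
    exact h2.map' (f := j) j.injective
  have hξinj : Function.Injective ξ := hind.injective
  -- the image of `j`
  have hjmem : ∀ c : RF 6, j c ∈ IntermediateField.adjoin ℂ (Set.range ξ) := by
    have hpol : ∀ q : MvPolynomial (Fin 6) ℂ, j (algebraMap _ (RF 6) q) ∈
        IntermediateField.adjoin ℂ (Set.range ξ) := by
      intro q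
      have h3 : j (algebraMap _ (RF 6) q) = MvPolynomial.aeval ξ q := by
        have h4 : j.comp (IsScalarTower.toAlgHom ℂ (MvPolynomial (Fin 6) ℂ) (RF 6)) =
            MvPolynomial.aeval ξ := by
          ext i
          simp [hξdef, xv]
        exact DFunLike.congr_fun h4 q
      rw [h3]
      exact IntermediateField.algebra_adjoin_le_adjoin ℂ _
        ((Algebra.adjoin_range_eq_range_aeval ℂ ξ).symm ▸ ⟨q, rfl⟩)
    intro c
    obtain ⟨p, q, rfl⟩ := IsLocalization.exists_mk'_eq
      (nonZeroDivisors (MvPolynomial (Fin 6) ℂ)) c |>.imp (fun p hp => hp)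
    rw [IsFractionRing.mk'_eq_div, map_div₀]
    exact div_mem (hpol p) (hpol _)
  have hset : {y : Om 6 | Polynomial.aeval y (gen 6) = 0} = Set.range ξ := by
    ext y
    constructor
    · intro hy
      obtain ⟨i, hi⟩ := (hroot y).1 hy
      exact ⟨i, hi.symm⟩
    · rintro ⟨i, rfl⟩
      exact (hroot _).2 ⟨i, rfl⟩
  have hspl : spl 6 = IntermediateField.adjoin ℂ (Set.range ξ) := by
    unfold spl
    rw [hset]
    apply sup_eq_right.2
    intro y hy
    obtain ⟨a, rfl⟩ := IntermediateField.mem_bot.1 hy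
    obtain ⟨c, hc⟩ := hbase a
    rw [← hc]
    exact hjmem c
  -- the Galois group
  set K := K0 6 with hKdef
  set p : Polynomial (K0 6) := gen 6 with hp
  have hr : ∀ y : Om 6, Polynomial.aeval y p = 0 ↔ ∃ i, y = ξ i := hroot
  have : CharZero (Om 6) := charZero_of_injective_algebraMap (algebraMap ℂ (Om 6)).injective
  have : CharZero (K0 6) := charZero_of_injective_algebraMap (algebraMap ℂ (K0 6)).injective
  have hp0 : p ≠ 0 := by
    intro h
    have h1 : (Set.univ : Set (Om 6)) ⊆ Set.range ξ := by
      intro y _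
      obtain ⟨i, hi⟩ := (hr y).1 (by rw [h, map_zero])
      exact ⟨i, hi.symm⟩
    exact Set.infinite_univ ((Set.finite_range ξ).subset h1)
  obtain ⟨N, hN⟩ : ∃ N, N = IntermediateField.adjoin (K0 6) (Set.range ξ) := ⟨_, rfl⟩
  have hrs : Set.range ξ = p.rootSet (Om 6) := by
    ext y
    rw [Polynomial.mem_rootSet]
    constructor
    · rintro ⟨i, rfl⟩
      exact ⟨hp0, (hr _).2 ⟨i, rfl⟩⟩
    · rintro ⟨_, h⟩
      obtain ⟨i, hi⟩ := (hr y).1 h
      exact ⟨i, hi.symm⟩
  have hsf : p.IsSplittingField (K0 6) N := by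
    rw [hN, hrs]
    exact IntermediateField.adjoin_rootSet_isSplittingField (IsAlgClosed.splits _)
  have : FiniteDimensional (K0 6) N := Polynomial.IsSplittingField.finiteDimensional N p
  have hnorm : Normal (K0 6) N := Normal.of_isSplittingField p
  have : IsGalois (K0 6) N := { }
  have hmem : ∀ i, ξ i ∈ N := by
    intro i
    rw [hN]
    exact IntermediateField.subset_adjoin _ _ ⟨i, rfl⟩
  set x : Fin 6 → N := fun i => ⟨ξ i, hmem i⟩ with hx
  have hxinj : Function.Injective x := by
    intro i j h
    exact hξinj (congrArg Subtype.val h)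
  have hex : ∀ (σ : N ≃ₐ[K0 6] N) (i : Fin 6), ∃ j, σ (x i) = x j := by
    intro σ i
    have h1 : Polynomial.aeval (x i) p = 0 := by
      have h2 : Polynomial.aeval ((x i : N) : Om 6) p = 0 := (hr _).2 ⟨i, rfl⟩
      have h3 : ((Polynomial.aeval (x i) p : N) : Om 6) = 0 := by
        rw [← h2]
        exact (Polynomial.aeval_algebraMap_apply (Om 6) (x i) p).symm
      exact Subtype.ext h3
    have h4 : Polynomial.aeval (σ (x i)) p = 0 := by
      have := congrArg σ h1
      rwa [map_zero, ← AlgEquiv.coe_toAlgHom, ← Polynomial.aeval_algHom_apply,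
        AlgEquiv.coe_toAlgHom] at this
    have h5 : Polynomial.aeval ((σ (x i) : N) : Om 6) p = 0 := by
      have h6 := congrArg (algebraMap N (Om 6)) h4
      rw [map_zero, ← Polynomial.aeval_algebraMap_apply] at h6
      exact h6
    obtain ⟨j, hj⟩ := (hr _).1 h5
    exact ⟨j, Subtype.ext hj⟩
  choose f hf using hex
  let F : (N ≃ₐ[K0 6] N) →* Function.End (Fin 6) :=
    { toFun := fun σ => f σ
      map_one' := by
        funext i
        apply hxinj
        rw [← hf]; rfl
      map_mul' := by
        intro σ τ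
        funext i
        apply hxinj
        rw [← hf, AlgEquiv.mul_apply, hf, hf]; rfl }
  let ψ : (N ≃ₐ[K0 6] N) →* Equiv.Perm (Fin 6) := F.toHomPerm
  have hψ : ∀ σ i, σ (x i) = x (ψ σ i) := fun σ i => hf σ i
  have hψinj : Function.Injective ψ := by
    intro σ τ h
    have h1 : (σ : N →ₐ[K0 6] N) = (τ : N →ₐ[K0 6] N) := by
      apply IntermediateField.algHom_ext_of_eq_adjoin _ hN
      rintro y ⟨i, rfl⟩
      show σ (x i) = τ (x i)
      rw [hψ, hψ, h]
    ext y
    exact congrArg Subtype.val (DFunLike.congr_fun h1 y)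
  have hσ : ∀ π : Equiv.Perm (Fin 6), ∃ σ : Om 6 ≃ₐ[K0 6] Om 6, ∀ i, σ (ξ i) = ξ (π i) := by
    intro π
    obtain ⟨φ, σ, h1, h2⟩ := hperm π
    refine ⟨σ, fun i => ?_⟩
    show σ (j (xv 6 i)) = j (xv 6 (π i))
    rw [h2, h1]
  have hψsurj : Function.Surjective ψ := by
    intro π
    obtain ⟨σ, hσ⟩ := hσ π
    refine ⟨σ.restrictNormal N, ?_⟩
    apply Equiv.ext
    intro i
    apply hxinj
    rw [← hψ]
    apply Subtype.ext
    have h7 := AlgEquiv.restrictNormal_commutes σ N (x i)
    exact h7.trans (hσ i)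
  have hcard : Module.finrank (K0 6) N = 720 := by
    rw [← IsGalois.card_aut_eq_finrank, Nat.card_congr (Equiv.ofBijective ψ ⟨hψinj, hψsurj⟩),
      Nat.card_eq_fintype_card, Fintype.card_perm, Fintype.card_fin]
    rfl
  have hrel : relfinrank (base 6) (spl 6) = 720 := by
    have h8 : spl 6 = N.restrictScalars ℂ := by
      apply le_antisymm
      · rw [hspl, IntermediateField.adjoin_le_iff]
        rintro _ ⟨i, rfl⟩
        exact hmem i
      · intro y hy
        have hy' : y ∈ N := hy
        rw [hN] at hy'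
        refine IntermediateField.adjoin_induction (K0 6)
          (p := fun y _ => y ∈ spl 6) ?_ ?_ ?_ ?_ ?_ hy'
        · rintro _ ⟨i, rfl⟩
          rw [hspl]
          exact IntermediateField.subset_adjoin _ _ ⟨i, rfl⟩
        · intro a
          have : (algebraMap (K0 6) (Om 6) a) ∈ base 6 :=
            IntermediateField.algebraMap_mem (⊥ : IntermediateField (K0 6) (Om 6)) a
          exact (le_sup_left : base 6 ≤ spl 6) this
        · intro a b _ _ ha hb
          exact add_mem ha hb
        · intro a _ ha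
          exact inv_mem ha
        · intro a b _ _ ha hb
          exact mul_mem ha hb
    rw [h8, ← hcard, ← IntermediateField.relfinrank_bot_left]
    rfl
  exact ⟨ξ, hind, hroot, hspl, hrel, hσ⟩

end

end Pool.Agent.Sextic.AD
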