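import Pool.Agent.Work.MP_8e3fb2_ag.AD.Stmts

set_option autoImplicit false

namespace Pool.Agent.Sextic.AD

open IntermediateField

theorem Sum0_one {E : Type} [Field E] [Algebra ℂ E] (P : Pl E) : P.1 1 = 0 := by
  have := P.2.const 1
  rwa [map_one] at this

theorem Sum0_inv {E : Type} [Field E] [Algebra ℂ E] (P : Pl E) (f : E) (hf : f ≠ 0) :
    P.1 f⁻¹ = - P.1 f := by
  have h1 := P.2.mul f f⁻¹ hf (inv_ne_zero hf)
  rw [mul_inv_cancel₀ hf, Sum0_one] at h1
  linarith

theorem Sum0_alg {E : Type} [Field E] [Algebra ℂ E] (f : E) (hf : IsAlgebraic ℂ f) :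
    ∃ c : ℂ, f = algebraMap ℂ E c := by
  have h1 : IsIntegral ℂ f := hf.isIntegral
  have h2 := minpoly.irreducible h1
  have h3 := IsAlgClosed.degree_eq_one_of_irreducible ℂ h2
  obtain ⟨c, hc⟩ := minpoly.mem_range_of_degree_eq_one ℂ f h3
  exact ⟨c, hc.symm⟩

theorem Sum0_fr {E : Type} [Field E] [Algebra ℂ E] (K K' : IntermediateField ℂ E) (h : K = K') :
    Module.finrank K E = Module.finrank K' E := by
  subst h
  rfl

theorem Sum0_adj {E : Type} [Field E] [Algebra ℂ E] (f : E) :
    (ℂ⟮f⁻¹⟯ : IntermediateField ℂ E) = ℂ⟮f⟯ := by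
  apply le_antisymm
  · rw [IntermediateField.adjoin_simple_le_iff]
    exact inv_mem (IntermediateField.mem_adjoin_simple_self ℂ f)
  · rw [IntermediateField.adjoin_simple_le_iff]
    have h := inv_mem (IntermediateField.mem_adjoin_simple_self ℂ f⁻¹)
    rwa [inv_inv] at h

theorem prSum0 (h : StDeg) : StSum0 := by
  intro E iE aE hFF f hf
  by_cases hal : IsAlgebraic ℂ f
  · obtain ⟨c, hc⟩ := Sum0_alg f hal
    have h0 : ∀ P : Pl E, P.1 f = 0 := by
      intro P
      rw [hc]
      exact P.2.const c
    refine ⟨?_, ?_⟩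
    · have : {P : Pl E | P.1 f ≠ 0} = ∅ := by
        ext P
        simp [h0 P]
      rw [this]
      exact Set.finite_empty
    · rw [finsum_congr h0]
      exact finsum_zero
  · have hT : Transcendental ℂ f := hal
    have hT' : Transcendental ℂ f⁻¹ := fun h' => hal (by simpa using h'.inv)
    obtain ⟨h1, h2⟩ := h E hFF f hT
    obtain ⟨h3, h4⟩ := h E hFF f⁻¹ hT'
    have h5 : (Module.finrank (ℂ⟮f⁻¹⟯ : IntermediateField ℂ E) E : ℤ) =
        (Module.finrank (ℂ⟮f⟯ : IntermediateField ℂ E) E : ℤ) := by
      exact_mod_cast Sum0_fr _ _ (Sum0_adj f)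
    rw [h5] at h4
    refine ⟨?_, ?_⟩
    · refine (h1.union h3).subset ?_
      intro P hP
      have hP' : P.1 f ≠ 0 := hP
      rcases lt_or_gt_of_ne hP' with h6 | h6
      · right
        show 0 < P.1 f⁻¹
        rw [Sum0_inv P f hf]
        linarith
      · left
        exact h6
    · have hs1 : (Function.support (fun P : Pl E => max (P.1 f) 0)).Finite := by
        refine h1.subset ?_
        intro P hP
        rw [Function.mem_support] at hP
        show 0 < P.1 f
        by_contra hc
        exact hP (max_eq_right (not_lt.1 hc))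
      have hs2 : (Function.support (fun P : Pl E => max (P.1 f⁻¹) 0)).Finite := by
        refine h3.subset ?_
        intro P hP
        rw [Function.mem_support] at hP
        show 0 < P.1 f⁻¹
        by_contra hc
        exact hP (max_eq_right (not_lt.1 hc))
      have h6 : ∀ P : Pl E, P.1 f = max (P.1 f) 0 - max (P.1 f⁻¹) 0 := by
        intro P
        rw [Sum0_inv P f hf]
        rcases le_total 0 (P.1 f) with h7 | h7
        · rw [max_eq_left h7, max_eq_right (by linarith)]
          ring
        · rw [max_eq_right h7, max_eq_left (by linarith)]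
          ring
      rw [finsum_congr h6, finsum_sub_distrib hs1 hs2, h2, h4, sub_self]

end Pool.Agent.Sextic.AD
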