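import Pool.Agent.Work.MP_8e3fb2_ag.AD.Stmts

set_option autoImplicit false

/-!
# The accessory degree of the sextic: dimension of an eigenspace by traces
-/

namespace Pool.Agent.Sextic.AD

open IntermediateField

noncomputable section

theorem Tr_fs {G : Type} [Group G] (T : Subgroup G) [Fintype T] (f : G → ℂ) :
    ∑ᶠ (t : G) (_ : t ∈ T), f t = ∑ t : T, f t := by
  rw [← finsum_eq_sum_of_fintype]
  exact (finsum_set_coe_eq_finsum_mem (f := f) (T : Set G)).symm

/-- item Tr -/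
theorem prTr : StTr := by
  intro G _ _ V _ _ _ ρ T χ hmul hsq
  letI : Fintype T := Fintype.ofFinite T
  obtain ⟨P, hP⟩ : ∃ P : V →ₗ[ℂ] V, P = ∑ t : T, χ t • ρ t := ⟨_, rfl⟩
  have hPv : ∀ v, P v = ∑ t : T, χ t • ρ t v := by
    intro v
    rw [hP, LinearMap.sum_apply]
    rfl
  have h1 : ∀ v, P v ∈ Eig ρ T χ := by
    intro v s hs
    rw [hPv, map_sum, Finset.smul_sum]
    rw [← Equiv.sum_comp (Equiv.mulLeft (⟨s, hs⟩ : T)) (fun t : T => χ s • χ t • ρ t v)]
    refine Finset.sum_congr rfl fun t _ => ?_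
    rw [map_smul, Equiv.coe_mulLeft, Subgroup.coe_mul, map_mul, hmul s hs t t.2, smul_smul,
      ← mul_assoc, hsq s hs, one_mul]
    rfl
  have hcard : (Finset.univ : Finset T).card = Nat.card T := by
    rw [Nat.card_eq_fintype_card]; rfl
  have h2 : ∀ v ∈ Eig ρ T χ, P v = (Nat.card T : ℂ) • v := by
    intro v hv
    rw [hPv]
    have h3 : ∀ t ∈ (Finset.univ : Finset T), χ t • ρ t v = v := by
      intro t _
      rw [hv t t.2, smul_smul, hsq t t.2, one_smul]
    rw [Finset.sum_congr rfl h3, Finset.sum_const, hcard, Nat.cast_smul_eq_nsmul]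
  have hT0 : (Nat.card T : ℂ) ≠ 0 := by
    have h3 : Nat.card T ≠ 0 := Nat.card_pos.ne'
    exact_mod_cast h3
  have hproj : LinearMap.IsProj (Eig ρ T χ) ((Nat.card T : ℂ)⁻¹ • P) :=
    ⟨fun v => (Eig ρ T χ).smul_mem _ (h1 v), fun v hv => by
      rw [LinearMap.smul_apply, h2 v hv, smul_smul, inv_mul_cancel₀ hT0, one_smul]⟩
  have h3 := hproj.trace
  rw [map_smul, smul_eq_mul] at h3
  have h4 : LinearMap.trace ℂ V P = ∑ t : T, χ t * LinearMap.trace ℂ V (ρ t) := by
    rw [hP, map_sum]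
    refine Finset.sum_congr rfl fun t _ => ?_
    rw [map_smul, smul_eq_mul]
  refine ⟨?_, ?_⟩
  · rw [Tr_fs T (fun t => χ t * LinearMap.trace ℂ V (ρ t)), ← h4, ← h3]
    field_simp
  · intro g hg
    rw [Tr_fs T (fun t => χ t * LinearMap.trace ℂ V (ρ t)),
      Tr_fs T (fun t => χ t * LinearMap.trace ℂ V (ρ (g * t))), ← h4]
    have h5 : ρ g * P = P := by
      ext v
      exact hg _ (h1 v)
    rw [← h5, hP, Finset.mul_sum, map_sum]
    refine Finset.sum_congr rfl fun t _ => ?_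
    rw [mul_smul_comm, map_smul, smul_eq_mul, map_mul]

end

end Pool.Agent.Sextic.AD
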