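import Pool.Agent.Work.MP_8e3fb2_ag.AD.Stmts

set_option autoImplicit false

/-!
# Item Tw: the index times the degree is divisible by twelve
-/

namespace Pool.Agent.Sextic.AD

open IntermediateField

noncomputable section

/-- the divisibility for one abelian subgroup `T` of exponent `p` -/
theorem Tw_one (h1 : StBD) (h2 : StDC) {E : Type} [Field E] [Algebra ℂ E]
    (G : Subgroup (Equiv.Perm (Fin 6))) (b : G →* (E ≃ₐ[ℂ] E)) (S : LS E G b) (hE : FF E)
    (hb : Function.Injective b) (p : ℕ) (T : Subgroup (Equiv.Perm (Fin 6)))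
    (hc : ∀ g ∈ T, ∀ h ∈ T, g * h = h * g) (hp : ∀ g ∈ T, g ^ p = 1) :
    (Nat.card T : ℤ) ∣ p * (G.index * S.deg) := by
  refine h2 (Equiv.Perm (Fin 6)) G T p S.deg fun h => ?_
  set K : Subgroup (Equiv.Perm (Fin 6)) := T.map (MulAut.conj h).toMonoidHom with hK
  have hKc : ∀ g ∈ K, ∀ g' ∈ K, g * g' = g' * g := by
    rintro _ ⟨s, hs, rfl⟩ _ ⟨t, ht, rfl⟩
    rw [← map_mul, hc s hs t ht, map_mul]
  have hKp : ∀ g ∈ K, g ^ p = 1 := by
    rintro _ ⟨s, hs, rfl⟩
    rw [← map_pow, hp s hs, map_one]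
  have hcard : Nat.card (K.subgroupOf G) = Nat.card (K ⊓ G : Subgroup (Equiv.Perm (Fin 6))) := by
    rw [← Subgroup.subgroupOf_map_subtype K G]
    exact Nat.card_congr
      (Subgroup.equivMapOfInjective (K.subgroupOf G) G.subtype G.subtype_injective).toEquiv
  rw [← hcard]
  refine h1 E G b S hE hb p (K.subgroupOf G) ?_ ?_
  · intro g hg g' hg'
    rw [Subgroup.mem_subgroupOf] at hg hg'
    exact Subtype.ext (hKc _ hg _ hg')
  · intro g hg
    rw [Subgroup.mem_subgroupOf] at hg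
    exact Subtype.ext (hKp _ hg)

/-- **Tw** -/
theorem prTw (h1 : StBD) (h2 : StDC) (h3 : StCard) (h4 : StNrm) : StTw := by
  intro E _ _ G b S hE hb
  obtain ⟨hT2, -, hH3, hTc, -, hHc, -⟩ := h4
  obtain ⟨hT, -, hH, -⟩ := h3
  have h8 := Tw_one h1 h2 G b S hE hb 2 T6 hTc hT2
  have h9 := Tw_one h1 h2 G b S hE hb 3 H6 hHc hH3
  rw [hT] at h8
  rw [hH] at h9
  push_cast at h8 h9
  generalize (G.index : ℤ) * S.deg = z at h8 h9 ⊢
  omega

end

end Pool.Agent.Sextic.AD
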