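import Pool.Agent.Work.MP_8e3fb2_ag.AD.Stmts

set_option autoImplicit false

/-!
# The coefficients of the relation span a space of dimension at least two
-/

namespace Pool.Agent.Sextic.AD

open IntermediateField

private theorem Two_fin {E : Type} [Field E] [Algebra ℂ E] {n : ℕ} (φ : MvPolynomial (Fin n) E) :
    FiniteDimensional ℂ (cs φ) := by
  have h : (Set.range fun α : Fin n →₀ ℕ => φ.coeff α).Finite := by
    refine ((φ.support.finite_toSet.image (fun α => φ.coeff α)).insert 0).subset ?_
    rintro _ ⟨α, rfl⟩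
    by_cases hα : φ.coeff α = 0
    · exact Or.inl hα
    · exact Or.inr ⟨α, by simpa using hα, rfl⟩
  exact FiniteDimensional.span_of_finite ℂ h

theorem prTwo : StTwo := by
  intro n G M _ _ E d φ hφ h
  have := Two_fin φ
  refine ⟨inferInstance, ?_⟩
  by_contra hlt
  have hle : Module.finrank ℂ (cs φ) ≤ 1 := by omega
  obtain ⟨v, hv⟩ := finrank_le_one_iff.mp hle
  have hmem : ∀ α, φ.coeff α ∈ cs φ := fun α => Submodule.subset_span ⟨α, rfl⟩
  choose a ha using fun α => hv ⟨φ.coeff α, hmem α⟩
  have ha' : ∀ α, a α • (v : E) = φ.coeff α := fun α => congrArg Subtype.val (ha α)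
  classical
  obtain ⟨F, hF⟩ : ∃ F : MvPolynomial (Fin n) ℂ, ∀ α, F.coeff α = if α ∈ φ.support then a α else 0 := by
    refine ⟨∑ β ∈ φ.support, MvPolynomial.monomial β (a β), fun α => ?_⟩
    rw [MvPolynomial.coeff_sum]
    simp only [MvPolynomial.coeff_monomial]
    rw [Finset.sum_ite_eq' φ.support α a]
  have hφF : φ = MvPolynomial.C (v : E) * MvPolynomial.map (algebraMap ℂ E) F := by
    ext α
    rw [MvPolynomial.coeff_C_mul, MvPolynomial.coeff_map, hF]
    split_ifs with hα
    · rw [← ha' α, Algebra.smul_def, mul_comm]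
    · rw [MvPolynomial.notMem_support_iff] at hα
      rw [hα, map_zero, mul_zero]
  have h0 : MvPolynomial.aeval d.x φ = 0 := (h φ).2 dvd_rfl
  have hv0 : (v : E) ≠ 0 := by
    intro hv0
    apply hφ
    rw [hφF, hv0, MvPolynomial.C_0, zero_mul]
  have h1 : MvPolynomial.aeval d.x F = 0 := by
    have h2 : MvPolynomial.aeval d.x φ =
        algebraMap E M (v : E) * MvPolynomial.aeval d.x F := by
      conv_lhs => rw [hφF]
      rw [map_mul, MvPolynomial.aeval_C, MvPolynomial.aeval_map_algebraMap]
    rw [h2] at h0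
    rcases mul_eq_zero.1 h0 with h3 | h3
    · exact absurd ((map_eq_zero _).1 h3) hv0
    · exact h3
  have hF0 : F = 0 := by
    have := (injective_iff_map_eq_zero _).1 d.ind F h1
    exact this
  apply hφ
  rw [hφF, hF0, map_zero, mul_zero]

end Pool.Agent.Sextic.AD
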