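import Pool.Agent.Work.MP_8e3fb2_ag.AD.Stmts

set_option autoImplicit false

/-!
# The accessory degree of the sextic, item Up: the upper bound
-/

namespace Pool.Agent.Sextic.AD

open IntermediateField

noncomputable section

/-- The bilinear form of `Q`. -/
def Up_q {L : Type} [Field L] [Algebra ℂ L] (Q : Matrix (Fin 3) (Fin 3) ℂ) (v w : Fin 3 → L) : L :=
  ∑ i, ∑ j, algebraMap ℂ L (Q i j) * (v i * w j)

theorem Up_q_eq {L : Type} [Field L] [Algebra ℂ L] (Q : Matrix (Fin 3) (Fin 3) ℂ)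
    (v w : Fin 3 → L) : Up_q Q v w = v ⬝ᵥ ((Q.map (algebraMap ℂ L)).mulVec w) := by
  rw [Up_q, dotProduct]
  refine Finset.sum_congr rfl fun i _ => ?_
  rw [Matrix.mulVec, dotProduct, Finset.mul_sum]
  refine Finset.sum_congr rfl fun j _ => ?_
  rw [Matrix.map_apply]
  ring

theorem Up_q_inv {L : Type} [Field L] [Algebra ℂ L] (Q R : Matrix (Fin 3) (Fin 3) ℂ)
    (hR : R.transpose * Q * R = Q) (v w : Fin 3 → L) :
    Up_q Q (fun i => ∑ l, algebraMap ℂ L (R i l) * v l)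
      (fun i => ∑ l, algebraMap ℂ L (R i l) * w l) = Up_q Q v w := by
  have h1 : ∀ u : Fin 3 → L, (fun i => ∑ l, algebraMap ℂ L (R i l) * u l) =
      (R.map (algebraMap ℂ L)).mulVec u := fun u => rfl
  rw [Up_q_eq, Up_q_eq, h1, h1]
  have h2 : (R.map (algebraMap ℂ L)).transpose * Q.map (algebraMap ℂ L) *
      R.map (algebraMap ℂ L) = Q.map (algebraMap ℂ L) := by
    rw [← Matrix.transpose_map, ← Matrix.map_mul, ← Matrix.map_mul, hR]
  rw [← Matrix.vecMul_transpose, ← Matrix.dotProduct_mulVec, Matrix.mulVec_mulVec,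
    Matrix.mulVec_mulVec, h2]

theorem Up_q_map {L : Type} [Field L] [Algebra ℂ L] (σ : L ≃ₐ[ℂ] L)
    (Q : Matrix (Fin 3) (Fin 3) ℂ) (v w : Fin 3 → L) :
    σ (Up_q Q v w) = Up_q Q (fun i => σ (v i)) (fun i => σ (w i)) := by
  simp only [Up_q, map_sum, map_mul, AlgEquiv.commutes]

theorem Up_q_add {L : Type} [Field L] [Algebra ℂ L] (Q : Matrix (Fin 3) (Fin 3) ℂ)
    (v w : Fin 3 → L) (t : L) : Up_q Q (fun i => v i + t * w i) (fun i => v i + t * w i) =
      Up_q Q w w * t ^ 2 + (Up_q Q v w + Up_q Q w v) * t + Up_q Q v v := by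
  simp only [Up_q, Fin.sum_univ_three]
  ring

theorem prUp (h1 : StUpA) (h2 : StSp) (h3 : StIco) (h4 : StIsoV) (h5 : StLow) : StUp := by
  obtain ⟨A, ρ, Q, hA60, hAs, hQt, hQ0, hρQ, hρ0⟩ := h3
  obtain ⟨K₁, a, hbK, hKs, hK12, haInj, haK, haFix, hT⟩ := h1 A hA60 hAs
  obtain ⟨v, hvli, hva⟩ := h2 (spl 6) A a haInj 3 ρ
  have hv : ∀ (j : Fin 3) (g : A), (fun i => a g (v j i)) =
      fun i => ∑ l, algebraMap ℂ (spl 6) (ρ g⁻¹ i l) * v j l := fun j g => funext (hva j g)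
  have hinv : ∀ (j j' : Fin 3), ((Up_q Q (v j) (v j') : spl 6) : Om 6) ∈ K₁ := by
    intro j j'
    apply haFix
    intro g
    rw [Up_q_map, hv, hv, Up_q_inv Q (ρ g⁻¹) (hρQ _)]
  have hv1 : v 1 ≠ 0 := hvli.ne_zero 1
  by_cases hγ : Up_q Q (v 1) (v 1) = 0
  · exfalso
    have h6 := h4 (Om 6) K₁ (spl 6) hKs A a ρ Q (v 1) hAs hA60 hQt hQ0 hρ0 haK haFix hv1
      (fun g i => hva 1 g i) hγ
    have h7 := h5 K₁ hbK (by rw [hK12]; norm_num) (by rwa [sup_eq_right.2 hKs])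
    rw [hK12] at h7
    norm_num at h7
  · have hγ' : ((Up_q Q (v 1) (v 1) : spl 6) : Om 6) ≠ 0 := by
      intro h
      exact hγ (Subtype.ext h)
    obtain ⟨t, ht⟩ := IsAlgClosed.exists_root
      (Polynomial.C ((Up_q Q (v 1) (v 1) : spl 6) : Om 6) * Polynomial.X ^ 2 +
        Polynomial.C ((Up_q Q (v 0) (v 1) + Up_q Q (v 1) (v 0) : spl 6) : Om 6) * Polynomial.X +
        Polynomial.C ((Up_q Q (v 0) (v 0) : spl 6) : Om 6)) (by
          rw [Polynomial.degree_quadratic hγ']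
          norm_num)
    have ht' : ((Up_q Q (v 1) (v 1) : spl 6) : Om 6) * t ^ 2 +
        ((Up_q Q (v 0) (v 1) + Up_q Q (v 1) (v 0) : spl 6) : Om 6) * t +
        ((Up_q Q (v 0) (v 0) : spl 6) : Om 6) = 0 := by
      simpa [Polynomial.IsRoot] using ht
    obtain ⟨K, hK⟩ : ∃ K, K = K₁ ⊔ ℂ⟮t⟯ := ⟨_, rfl⟩
    obtain ⟨M, hM⟩ : ∃ M, M = K ⊔ spl 6 := ⟨_, rfl⟩
    have hβ : ((Up_q Q (v 0) (v 1) + Up_q Q (v 1) (v 0) : spl 6) : Om 6) ∈ K₁ := by
      have h6 := K₁.add_mem (hinv 0 1) (hinv 1 0)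
      exact h6
    obtain ⟨hrel, a', ha'1, ha'2, ha'3⟩ := hT t _ _ _ (hinv 0 0) hβ (hinv 1 1) hγ' ht' K M hK hM
    have htK : t ∈ K := by
      rw [hK]
      exact (le_sup_right : ℂ⟮t⟯ ≤ K₁ ⊔ ℂ⟮t⟯) (mem_adjoin_simple_self ℂ t)
    have hKM : K ≤ M := by rw [hM]; exact le_sup_left
    have hsM : spl 6 ≤ M := by rw [hM]; exact le_sup_right
    let t' : M := ⟨t, hKM htK⟩
    let w : Fin 3 → Fin 3 → M := fun j i => ⟨(v j i : Om 6), hsM (v j i).2⟩
    have hw : ∀ (j : Fin 3) (g : A) (i : Fin 3),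
        a' g (w j i) = ∑ l, algebraMap ℂ M (ρ g⁻¹ i l) * w j l := by
      intro j g i
      apply Subtype.ext
      rw [ha'1 g (v j i) (w j i) rfl, hva]
      simp only [IntermediateField.coe_sum, IntermediateField.coe_mul]
      rfl
    have ht2 : ∀ g, a' g t' = t' := fun g => ha'2 g t' htK
    have hv' : (fun i => w 0 i + t' * w 1 i) ≠ 0 := by
      intro h6
      have h7 : ∀ i, (v 0 i : Om 6) + t * (v 1 i : Om 6) = 0 := by
        intro i
        have h8 := congrArg (fun z : M => (z : Om 6)) (congrFun h6 i)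
        exact h8
      obtain ⟨i₀, hi₀⟩ := Function.ne_iff.1 hv1
      have hi₁ : ((v 1 i₀ : spl 6) : Om 6) ≠ 0 := fun h => hi₀ (Subtype.ext h)
      have ht3 : t = -((v 0 i₀ : Om 6)) / (v 1 i₀ : Om 6) := by
        rw [eq_div_iff hi₁]
        linear_combination h7 i₀
      have ht4 : t ∈ spl 6 := by
        rw [ht3]
        exact (spl 6).div_mem ((spl 6).neg_mem (v 0 i₀).2) (v 1 i₀).2
      have h9 : ∀ i, v 0 i + (⟨t, ht4⟩ : spl 6) * v 1 i = 0 := fun i => Subtype.ext (h7 i)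
      have h10 := Fintype.linearIndependent_iff.1 hvli ![1, ⟨t, ht4⟩, 0] (by
        rw [Fin.sum_univ_three]
        funext i
        have h11 := h9 i
        simp only [Matrix.cons_val_zero, Matrix.cons_val_one, Matrix.cons_val_two, Matrix.head_cons,
          Matrix.tail_cons, one_smul, zero_smul, add_zero, Pi.add_apply, Pi.smul_apply,
          smul_eq_mul, Pi.zero_apply]
        exact h11) 0
      exact one_ne_zero h10
    have hiso : Up_q Q (fun i => w 0 i + t' * w 1 i) (fun i => w 0 i + t' * w 1 i) = 0 := by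
      rw [Up_q_add]
      apply Subtype.ext
      have h6 : ∀ j j', ((Up_q Q (w j) (w j') : M) : Om 6) = ((Up_q Q (v j) (v j') : spl 6) : Om 6) := by
        intro j j'
        simp only [Up_q, IntermediateField.coe_sum, IntermediateField.coe_mul]
        rfl
      have h7 : (((Up_q Q (w 1) (w 1) * t' ^ 2 + (Up_q Q (w 0) (w 1) + Up_q Q (w 1) (w 0)) * t' +
        Up_q Q (w 0) (w 0) : M)) : Om 6) = ((Up_q Q (w 1) (w 1) : M) : Om 6) * t ^ 2 +
        (((Up_q Q (w 0) (w 1) : M) : Om 6) + ((Up_q Q (w 1) (w 0) : M) : Om 6)) * t +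
        ((Up_q Q (w 0) (w 0) : M) : Om 6) := rfl
      have h8 : ((Up_q Q (v 0) (v 1) + Up_q Q (v 1) (v 0) : spl 6) : Om 6) =
        ((Up_q Q (v 0) (v 1) : spl 6) : Om 6) + ((Up_q Q (v 1) (v 0) : spl 6) : Om 6) := rfl
      rw [h7, h6, h6, h6, h6, ← h8, ht']
      rfl
    have hE := h4 (Om 6) K M hKM A a' ρ Q (fun i => w 0 i + t' * w 1 i) hAs hA60 hQt hQ0 hρ0 ha'2
      ha'3 hv' (by
        intro g i
        rw [map_add, map_mul, ht2, hw, hw, Finset.mul_sum, ← Finset.sum_add_distrib]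
        refine Finset.sum_congr rfl fun l _ => ?_
        ring) hiso
    have hbK2 : base 6 ≤ K := by
      rw [hK]
      exact hbK.trans le_sup_left
    rw [hM] at hE
    rcases hrel with h6 | h6
    · exfalso
      have h7 := h5 K hbK2 (by rw [h6]; norm_num) hE
      rw [h6] at h7
      norm_num at h7
    · exact ⟨K, hbK2, h6, hE⟩

end

end Pool.Agent.Sextic.AD
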