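import Pool.Agent.Work.MP_8e3fb2_ag.AD.Stmts

set_option autoImplicit false

/-!
# Item UpA: the Galois theory of the upper bound
-/

namespace Pool.Agent.Sextic.AD

open IntermediateField

noncomputable section

/-- Artin's theorem for a finite group of automorphisms. -/
private theorem UpA_artin {E : Type} [Field E] [Algebra ℂ E] (H : Subgroup (E ≃ₐ[ℂ] E))
    [Finite H] : Module.finrank (IntermediateField.fixedField H) E = Nat.card H := by
  cases nonempty_fintype H
  rw [Nat.card_eq_fintype_card]
  exact FixedPoints.finrank_eq_card H E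

/-- A homomorphism on the splitting field is determined by the roots. -/
private theorem UpA_ext {ξ : Fin 6 → Om 6} (hspl : spl 6 = IntermediateField.adjoin ℂ (Set.range ξ))
    (f g : spl 6 →ₐ[ℂ] Om 6) (h : ∀ (i : Fin 6) (y : spl 6), (y : Om 6) = ξ i → f y = g y) :
    f = g := by
  apply IntermediateField.algHom_ext_of_eq_adjoin _ hspl
  rintro y ⟨i, rfl⟩
  exact h i _ rfl

theorem prUpA (h1 : StSpl) (h2 : StGal) : StUpA := by
  classical
  intro A hA hAs
  obtain ⟨ξ, hξ⟩ := h1
  have hspl := hξ.2.2.1
  have h720 := hξ.2.2.2.1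
  have hbs : base 6 ≤ spl 6 := le_sup_left
  obtain ⟨x₀, G₀, a₀, hx₀, hind₀, hfin₀, hinj₀, hax₀, haK₀, hfix₀, hdeg₀⟩ :=
    h2 ξ hξ (base 6) (spl 6) le_rfl (by rw [relfinrank_self]; exact one_ne_zero)
      (sup_eq_right.2 hbs).symm
  rw [relfinrank_self] at hdeg₀
  have hG₀ : G₀ = ⊤ := Subgroup.index_eq_one.1 (Nat.eq_one_of_mul_eq_one_right hdeg₀)
  subst hG₀
  let b : Equiv.Perm (Fin 6) →* (spl 6 ≃ₐ[ℂ] spl 6) := a₀.comp Subgroup.topEquiv.symm.toMonoidHom
  have hbinj : Function.Injective b := hinj₀.comp Subgroup.topEquiv.symm.injective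
  have hbx : ∀ g i, b g (x₀ i) = x₀ (g i) := fun g i => hax₀ _ i
  have hbK : ∀ g (y : spl 6), (y : Om 6) ∈ base 6 → b g y = y := fun g y hy => haK₀ _ y hy
  -- the fixed field of a subgroup
  let Fx : Subgroup (Equiv.Perm (Fin 6)) → IntermediateField ℂ (Om 6) := fun H =>
    (IntermediateField.fixedField (H.map b)).map (spl 6).val
  have hFx_mem : ∀ (H : Subgroup (Equiv.Perm (Fin 6))) (y : spl 6),
      (y : Om 6) ∈ Fx H ↔ ∀ g ∈ H, b g y = y := by
    intro H y
    constructor
    · rintro ⟨z, hz, hzy⟩ g hg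
      have hzy' : z = y := Subtype.ext hzy
      subst hzy'
      exact (IntermediateField.mem_fixedField_iff _ _).1 hz (b g) ⟨g, hg, rfl⟩
    · intro h
      refine ⟨y, (IntermediateField.mem_fixedField_iff _ _).2 ?_, rfl⟩
      rintro _ ⟨g, hg, rfl⟩
      exact h g hg
  have hFx_le : ∀ H, Fx H ≤ spl 6 := by
    rintro H _ ⟨z, _, rfl⟩
    exact z.2
  have hFx_base : ∀ H, base 6 ≤ Fx H := by
    intro H y hy
    exact (hFx_mem H ⟨y, hbs hy⟩).2 (fun g _ => hbK g _ hy)
  have hFx_deg : ∀ H, relfinrank (Fx H) (spl 6) = Nat.card H := by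
    intro H
    have h3 : relfinrank (Fx H) (spl 6) =
        Module.finrank (IntermediateField.fixedField (H.map b)) (spl 6) := by
      rw [← relfinrank_top_right, ← relfinrank_map_map _ _ (spl 6).val,
        ← AlgHom.fieldRange_eq_map, IntermediateField.fieldRange_val]
    have : Finite (H.map b) := Finite.of_equiv H (H.equivMapOfInjective b hbinj).toEquiv
    rw [h3, UpA_artin]
    exact (Nat.card_congr (H.equivMapOfInjective b hbinj).toEquiv).symm
  have h12 : relfinrank (base 6) (Fx A) = 12 := by
    have h3 := relfinrank_mul_relfinrank (hFx_base A) (hFx_le A)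
    rw [hFx_deg, hA, h720] at h3
    omega
  refine ⟨Fx A, b.comp A.subtype, hFx_base A, hFx_le A, h12, hbinj.comp A.subtype_injective,
    ?_, ?_, ?_⟩
  · intro g y hy
    exact (hFx_mem A y).1 hy g.1 g.2
  · intro y hy
    exact (hFx_mem A y).2 (fun g hg => hy ⟨g, hg⟩)
  intro t α β γ hα hβ hγ hγ0 heq K M hK hM
  have hK₁K : Fx A ≤ K := hK ▸ le_sup_left
  have hbK' : base 6 ≤ K := (hFx_base A).trans hK₁K
  -- the degree of `K` over the fixed field
  have hdegK : relfinrank (Fx A) K = 1 ∨ relfinrank (Fx A) K = 2 := by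
    have h4 : K = (IntermediateField.adjoin (Fx A) {t}).restrictScalars ℂ := by
      rw [IntermediateField.restrictScalars_adjoin_eq_sup, hK]
    have h5 : relfinrank (Fx A) K = Module.finrank (Fx A) (IntermediateField.adjoin (Fx A) {t}) := by
      rw [relfinrank_eq_finrank_of_le hK₁K]
      have : extendScalars hK₁K = IntermediateField.adjoin (Fx A) {t} := by
        ext y
        show y ∈ K ↔ _
        rw [h4]; rfl
      rw [this]
    let α' : Fx A := ⟨α, hα⟩
    let β' : Fx A := ⟨β, hβ⟩
    let γ' : Fx A := ⟨γ, hγ⟩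
    have hγ' : γ' ≠ 0 := fun h => hγ0 (congrArg Subtype.val h)
    let q : Polynomial (Fx A) := Polynomial.C γ' * Polynomial.X ^ 2 + Polynomial.C β' * Polynomial.X +
      Polynomial.C α'
    have hq : Polynomial.aeval t q = 0 := by
      simp only [q, map_add, map_mul, map_pow, Polynomial.aeval_C, Polynomial.aeval_X]
      exact heq
    have hqd : q.natDegree = 2 := Polynomial.natDegree_quadratic hγ'
    have hq0 : q ≠ 0 := by
      intro h
      rw [h, Polynomial.natDegree_zero] at hqd
      omega
    have hint : IsIntegral (Fx A) t := IsAlgebraic.isIntegral ⟨q, hq0, hq⟩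
    have h6 : (minpoly (Fx A) t).natDegree ≤ 2 := by
      rw [← hqd]
      exact Polynomial.natDegree_le_of_dvd (minpoly.dvd _ _ hq) hq0
    have h7 : 0 < (minpoly (Fx A) t).natDegree := minpoly.natDegree_pos hint
    rw [h5, IntermediateField.adjoin.finrank hint]
    omega
  have hdegK' : relfinrank (base 6) K = 12 ∨ relfinrank (base 6) K = 24 := by
    rw [← relfinrank_mul_relfinrank (hFx_base A) hK₁K, h12]
    rcases hdegK with h | h <;> rw [h]
    · left; rfl
    · right; rfl
  refine ⟨hdegK', ?_⟩
  have hK0 : relfinrank (base 6) K ≠ 0 := by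
    rcases hdegK' with h | h <;> rw [h] <;> norm_num
  obtain ⟨x, G, a, hx, hind, hfin, hinj, hax, haK, hfix, hdeg⟩ := h2 ξ hξ K M hbK' hK0 hM
  have hKM : K ≤ M := hM ▸ le_sup_left
  have hsM : spl 6 ≤ M := hM ▸ le_sup_right
  -- compatibility
  have hcomp : ∀ (g : G) (y : spl 6) (z : M), (z : Om 6) = y →
      ((a g z : M) : Om 6) = (b g.1 y : spl 6) := by
    intro g y z hzy
    have hz : z = IntermediateField.inclusion hsM y := Subtype.ext hzy
    have h8 : (M.val.comp ((a g : M →ₐ[ℂ] M).comp (IntermediateField.inclusion hsM))) =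
        (spl 6).val.comp (b g.1 : spl 6 →ₐ[ℂ] spl 6) := by
      apply UpA_ext hspl
      intro i y hy
      have hy1 : IntermediateField.inclusion hsM y = x i := Subtype.ext (hy.trans (hx i).symm)
      have hy2 : y = x₀ i := Subtype.ext (hy.trans (hx₀ i).symm)
      show ((a g (IntermediateField.inclusion hsM y) : M) : Om 6) = (b g.1 y : spl 6)
      rw [hy1, hax, hy2, hbx, hx, hx₀]
    rw [hz]
    exact DFunLike.congr_fun h8 y
  -- `G ≤ A`
  have hGA : G ≤ A := by
    have h9 : Fx (A ⊔ G) = Fx A := by
      apply le_antisymm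
      · intro y hy
        have hys := hFx_le _ hy
        exact (hFx_mem A ⟨y, hys⟩).2 (fun g hg =>
          (hFx_mem (A ⊔ G) ⟨y, hys⟩).1 hy g (Subgroup.mem_sup_left hg))
      · intro y hy
        have hys := hFx_le _ hy
        refine (hFx_mem (A ⊔ G) ⟨y, hys⟩).2 ?_
        let Sb : Subgroup (Equiv.Perm (Fin 6)) :=
          { carrier := {g | b g ⟨y, hys⟩ = ⟨y, hys⟩}
            one_mem' := by rw [Set.mem_ofPred_eq, map_one]; rfl
            mul_mem' := by
              intro g h hg hh
              rw [Set.mem_ofPred_eq] at hg hh ⊢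
              rw [map_mul, AlgEquiv.mul_apply, hh, hg]
            inv_mem' := by
              intro g hg
              rw [Set.mem_ofPred_eq] at hg ⊢
              rw [map_inv]
              have h := congrArg (b g).symm hg
              rw [AlgEquiv.symm_apply_apply] at h
              exact h.symm }
        have h10 : A ⊔ G ≤ Sb := by
          refine sup_le (fun g hg => (hFx_mem A ⟨y, hys⟩).1 hy g hg) (fun g hg => ?_)
          show b g ⟨y, hys⟩ = ⟨y, hys⟩
          apply Subtype.ext
          have h11 := hcomp ⟨g, hg⟩ ⟨y, hys⟩ ⟨y, hsM hys⟩ rfl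
          rw [haK ⟨g, hg⟩ ⟨y, hsM hys⟩ (hK₁K hy)] at h11
          exact h11.symm
        exact fun g hg => h10 hg
    have h12' : Nat.card (A ⊔ G : Subgroup (Equiv.Perm (Fin 6))) = Nat.card A := by
      rw [← hFx_deg, ← hFx_deg, h9]
    have h13 : A = A ⊔ G := Subgroup.eq_of_le_of_card_ge le_sup_left h12'.le
    rw [h13]; exact le_sup_right
  -- `G = A`
  have hGA' : G = A := by
    have h14 : Nat.card G * G.index = 720 := by
      rw [Subgroup.card_mul_index, Nat.card_eq_fintype_card, Fintype.card_perm, Fintype.card_fin]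
      rfl
    have h15 : G.index ≤ 24 := by
      have h16 : G.index ∣ relfinrank (base 6) K := ⟨_, hdeg.symm⟩
      have h17 := Nat.le_of_dvd (Nat.pos_of_ne_zero hK0) h16
      rcases hdegK' with h | h <;> omega
    have h18 : 30 ≤ Nat.card G := by
      by_contra hlt
      push Not at hlt
      have : Nat.card G * G.index ≤ 29 * 24 := Nat.mul_le_mul (by omega) h15
      omega
    have h19 : G.relIndex A * Nat.card G = 60 := by
      rw [mul_comm, ← hA]
      have := Subgroup.card_mul_index (G.subgroupOf A)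
      rw [Nat.card_congr (Subgroup.subgroupOfEquivOfLe hGA).toEquiv] at this
      exact this
    have h20 : G.relIndex A = 1 ∨ G.relIndex A = 2 := by
      have h21 : G.relIndex A ≤ 2 := by
        by_contra hlt
        push Not at hlt
        have : 3 * 30 ≤ G.relIndex A * Nat.card G := Nat.mul_le_mul hlt h18
        omega
      have h22 : G.relIndex A ≠ 0 := by
        intro h
        rw [h, zero_mul] at h19
        omega
      omega
    rcases h20 with h | h
    · exact le_antisymm hGA (Subgroup.relIndex_eq_one.1 h)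
    · exfalso
      have hn : (G.subgroupOf A).Normal := Subgroup.normal_of_index_eq_two h
      rcases hAs.eq_bot_or_eq_top_of_normal _ hn with h23 | h23
      · have h24 : Nat.card (G.subgroupOf A) = 1 := by rw [h23]; exact Subgroup.card_bot
        rw [Nat.card_congr (Subgroup.subgroupOfEquivOfLe hGA).toEquiv] at h24
        omega
      · have h25 : (G.subgroupOf A).index = 1 := by rw [h23]; exact Subgroup.index_top
        have h26 : (G.subgroupOf A).index = 2 := h
        omega
  subst hGA'
  exact ⟨a, hcomp, haK, hfix⟩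

end

end Pool.Agent.Sextic.AD
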