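import Pool.Agent.Work.MP_8e3fb2_ag.AD.Stmts

set_option autoImplicit false

/-!
# The accessory degree of the sextic, item Van: every place imposes one linear condition
-/

namespace Pool.Agent.Sextic.AD

open IntermediateField

noncomputable section

variable {E : Type} [Field E] [Algebra ℂ E]

/-- The functions of `Y` of order larger than `k` at `P`. -/
private def Van_sub (Y : Submodule ℂ E) (P : Pl E) (k : ℤ) : Submodule ℂ E where
  carrier := {w | w ∈ Y ∧ (w = 0 ∨ k < P.1 w)}
  zero_mem' := ⟨Y.zero_mem, Or.inl rfl⟩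
  add_mem' := by
    rintro a b ⟨haY, ha⟩ ⟨hbY, hb⟩
    refine ⟨Y.add_mem haY hbY, ?_⟩
    by_cases h : a + b = 0
    · exact Or.inl h
    by_cases ha0 : a = 0
    · subst ha0
      rw [zero_add] at h ⊢
      exact hb
    by_cases hb0 : b = 0
    · subst hb0
      rw [add_zero] at h ⊢
      exact ha
    right
    exact lt_of_lt_of_le (lt_min (ha.resolve_left ha0) (hb.resolve_left hb0))
      (P.2.add a b ha0 hb0 h)
  smul_mem' := by
    rintro c a ⟨haY, ha⟩
    refine ⟨Y.smul_mem c haY, ?_⟩
    by_cases hc : c = 0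
    · left
      rw [hc, zero_smul]
    rcases ha with rfl | ha
    · left
      rw [smul_zero]
    by_cases ha0 : a = 0
    · left
      rw [ha0, smul_zero]
    right
    have h1 : algebraMap ℂ E c ≠ 0 := by
      rw [Ne, map_eq_zero]
      exact hc
    rw [Algebra.smul_def, P.2.mul _ _ h1 ha0, P.2.const c, zero_add]
    exact ha

private theorem Van_step (Y : Submodule ℂ E) [FiniteDimensional ℂ Y] (P : Pl E) (k : ℤ)
    (hY : ∀ w ∈ Y, w ≠ 0 → k ≤ P.1 w) :
    Module.finrank ℂ Y ≤ Module.finrank ℂ (Van_sub Y P k) + 1 := by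
  have hle : Van_sub Y P k ≤ Y := fun w hw => hw.1
  have hfd : FiniteDimensional ℂ (Van_sub Y P k) := Submodule.finiteDimensional_of_le hle
  by_cases hall : ∀ w ∈ Y, w ∈ Van_sub Y P k
  · have h1 : Y ≤ Van_sub Y P k := hall
    have h2 : Van_sub Y P k = Y := le_antisymm hle h1
    rw [h2]
    exact Nat.le_succ _
  · push Not at hall
    obtain ⟨w0, hw0, hw0'⟩ := hall
    have hne : w0 ≠ 0 := fun h => hw0' ⟨hw0, Or.inl h⟩
    have hval : P.1 w0 = k :=
      le_antisymm (not_lt.1 fun h => hw0' ⟨hw0, Or.inr h⟩) (hY w0 hw0 hne)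
    have hsup : Y ≤ Van_sub Y P k ⊔ Submodule.span ℂ {w0} := by
      intro w hw
      by_cases hw1 : w ∈ Van_sub Y P k
      · exact Submodule.mem_sup_left hw1
      have hwne : w ≠ 0 := fun h => hw1 ⟨hw, Or.inl h⟩
      have hwval : P.1 w = k :=
        le_antisymm (not_lt.1 fun h => hw1 ⟨hw, Or.inr h⟩) (hY w hw hwne)
      have hq : w / w0 ≠ 0 := div_ne_zero hwne hne
      have hmul : w0 * (w / w0) = w := mul_div_cancel₀ w hne
      have hq0 : P.1 (w / w0) = 0 := by
        have h1 := P.2.mul w0 (w / w0) hne hq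
        rw [hmul, hwval, hval] at h1
        linarith
      obtain ⟨c, hc⟩ := P.2.res (w / w0) hq hq0
      have hsub : w - c • w0 ∈ Van_sub Y P k := by
        refine ⟨Y.sub_mem hw (Y.smul_mem c hw0), ?_⟩
        have hfac : w - c • w0 = w0 * (w / w0 - algebraMap ℂ E c) := by
          rw [mul_sub, hmul, Algebra.smul_def, mul_comm w0]
        by_cases hd : w / w0 - algebraMap ℂ E c = 0
        · left
          rw [hfac, hd, mul_zero]
        · right
          rcases hc with hc | hc
          · exact absurd (sub_eq_zero.2 hc) hd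
          · rw [hfac, P.2.mul _ _ hne hd, hval]
            linarith
      have hdec : w = (w - c • w0) + c • w0 := by ring
      rw [hdec]
      exact Submodule.add_mem_sup hsub
        (Submodule.smul_mem _ c (Submodule.mem_span_singleton_self w0))
    have h1 : Module.finrank ℂ Y ≤
        Module.finrank ℂ (Van_sub Y P k ⊔ Submodule.span ℂ {w0} : Submodule ℂ E) :=
      Submodule.finrank_mono hsup
    have h2 := Submodule.finrank_add_le_finrank_add_finrank (Van_sub Y P k)
      (Submodule.span ℂ {w0})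
    have h3 : Module.finrank ℂ (Submodule.span ℂ {w0}) = 1 := finrank_span_singleton hne
    omega

private theorem Van_ind (X : Submodule ℂ E) [FiniteDimensional ℂ X] (m : Pl E → ℤ)
    (hX : ∀ P : Pl E, ∀ w ∈ X, w ≠ 0 → m P ≤ P.1 w) (Q : Finset (Pl E)) :
    ∃ Y : Submodule ℂ E, Y ≤ X ∧ Module.finrank ℂ X ≤ Module.finrank ℂ Y + Q.card ∧
      ∀ w ∈ Y, w ≠ 0 → ∀ P ∈ Q, m P < P.1 w := by
  classical
  induction Q using Finset.induction_on with
  | empty => exact ⟨X, le_rfl, by simp, fun w _ _ P hP => absurd hP (Finset.notMem_empty P)⟩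
  | insert P Q hP ih =>
    obtain ⟨Y, hYX, hYr, hYv⟩ := ih
    have hfd : FiniteDimensional ℂ Y := Submodule.finiteDimensional_of_le hYX
    refine ⟨Van_sub Y P (m P), fun w hw => hYX hw.1, ?_, ?_⟩
    · have h1 := Van_step Y P (m P) (fun w hw hne => hX P w (hYX hw) hne)
      rw [Finset.card_insert_of_notMem hP]
      omega
    · intro w hw hne P' hP'
      rcases Finset.mem_insert.1 hP' with rfl | hP'
      · exact hw.2.resolve_left hne
      · exact hYv w hw.1 hne P' hP'

end

theorem prVan : StVan := by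
  intro E _ _ X _ m hX Q hQ
  obtain ⟨Y, hYX, hYr, hYv⟩ := Van_ind X m hX Q
  have hne : Y ≠ ⊥ := by
    rintro rfl
    rw [finrank_bot] at hYr
    omega
  obtain ⟨w, hw, hw0⟩ := Submodule.exists_mem_ne_zero_of_ne_bot hne
  exact ⟨w, hYX hw, hw0, hYv w hw hw0⟩

end Pool.Agent.Sextic.AD
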