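import Pool.Agent.Work.MP_8e3fb2_ag.AD.Formula2

set_option autoImplicit false

/-!
# Formulas in algebraic functions of one variable for the general sextic

The field over which the decisive function of such a formula is applied has degree at least `24`.
-/

namespace Pool.Agent.Sextic.AD

open IntermediateField XMain

noncomputable section

private theorem Tow_artin {E : Type} [Field E] [Algebra ℂ E] (H : Subgroup (E ≃ₐ[ℂ] E))
    (hH : Finite H) : Module.finrank (IntermediateField.fixedField H) E = Nat.card H := by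
  cases nonempty_fintype H
  rw [Nat.card_eq_fintype_card]
  exact FixedPoints.finrank_eq_card H E

/-- If an element is fixed by all the automorphisms in `H`, then `H` and `H ⊔ ⟨s⟩` agree. -/
private theorem Tow_mem {E : Type} [Field E] [Algebra ℂ E] (R H : Subgroup (E ≃ₐ[ℂ] E))
    (hR : Finite R) (hHR : H ≤ R) (s : E ≃ₐ[ℂ] E) (hs : s ∈ R)
    (h : ∀ z : E, (∀ f ∈ H, f z = z) → s z = z) : s ∈ H := by
  have hfin : ∀ Q : Subgroup (E ≃ₐ[ℂ] E), Q ≤ R → Finite Q := fun Q hQ =>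
    Finite.Set.subset (R : Set (E ≃ₐ[ℂ] E)) hQ
  have hQR : H ⊔ Subgroup.zpowers s ≤ R := sup_le hHR (by
    rw [Subgroup.zpowers_le]; exact hs)
  have hfix : IntermediateField.fixedField (H ⊔ Subgroup.zpowers s) =
      IntermediateField.fixedField H := by
    apply le_antisymm
    · exact IntermediateField.fixedField_antitone le_sup_left
    · intro z hz
      rw [IntermediateField.mem_fixedField_iff] at hz ⊢
      let Sb : Subgroup (E ≃ₐ[ℂ] E) :=
        { carrier := {f | f z = z}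
          one_mem' := rfl
          mul_mem' := by
            intro f g hf hg
            rw [Set.mem_ofPred_eq] at hf hg ⊢
            rw [AlgEquiv.mul_apply, hg, hf]
          inv_mem' := by
            intro f hf
            rw [Set.mem_ofPred_eq] at hf ⊢
            have h1 := congrArg f.symm hf
            rw [AlgEquiv.symm_apply_apply] at h1
            exact h1.symm }
      have h2 : H ⊔ Subgroup.zpowers s ≤ Sb := by
        refine sup_le (fun f hf => hz f hf) ?_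
        rw [Subgroup.zpowers_le]
        exact h z hz
      exact fun f hf => h2 hf
  have hcard : Nat.card (H ⊔ Subgroup.zpowers s : Subgroup (E ≃ₐ[ℂ] E)) = Nat.card H := by
    rw [← Tow_artin _ (hfin _ hQR), ← Tow_artin _ (hfin _ hHR), hfix]
  have : Finite (H ⊔ Subgroup.zpowers s : Subgroup (E ≃ₐ[ℂ] E)) := hfin _ hQR
  have h3 : H = H ⊔ Subgroup.zpowers s := Subgroup.eq_of_le_of_card_ge le_sup_left hcard.le
  rw [h3]
  exact (le_sup_right : Subgroup.zpowers s ≤ H ⊔ Subgroup.zpowers s)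
    (Subgroup.mem_zpowers s)

/-- The essential dimension of the splitting field over the base of the decisive function. -/
theorem Tow_ed (h1 : StSpl) (h2 : StGal) (h3 : StArt) (K E : IntermediateField ℂ (Om 6))
    (hK : base 6 ≤ K) (hK0 : relfinrank (base 6) K ≠ 0) (htr : Algebra.trdeg ℂ E ≤ 1)
    (hidx : (fixG K ⊓ fixG E : Subgroup (Om 6 ≃ₐ[K0 6] Om 6)).relIndex (fixG K) ≠ 0)
    (hE : ∀ σ : Om 6 ≃ₐ[K0 6] Om 6, (∀ x ∈ K, σ x = x) → (∀ x ∈ E, σ x ∈ E) ∧
      ((∀ x ∈ E, σ x = x) → ∀ y, Polynomial.aeval y (gen 6) = 0 → σ y = y)) :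
    EdLE K (K ⊔ spl 6) 1 := by
  classical
  obtain ⟨ξ, hξ⟩ := h1
  obtain ⟨M, hM⟩ : ∃ M, M = K ⊔ spl 6 := ⟨_, rfl⟩
  rw [← hM]
  obtain ⟨x, G, a, hx, hind, hfin, hainj, hax, haK, hfix, hdeg⟩ := h2 ξ hξ K M hK hK0 hM
  have hKM : K ≤ M := hM ▸ le_sup_left
  have hbM : ∀ c : K0 6, algebraMap (K0 6) (Om 6) c ∈ M := fun c =>
    hKM (hK (IntermediateField.algebraMap_mem (⊥ : IntermediateField (K0 6) (Om 6)) c))
  have : CharZero (K0 6) := charZero_of_injective_algebraMap (algebraMap ℂ (K0 6)).injective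
  have hgal : IsGalois (K0 6) (Om 6) := IsAlgClosure.isGalois (K0 6) (Om 6)
  -- lifts
  let _ : Algebra (K0 6) M := ((algebraMap (K0 6) (Om 6)).codRestrict M.toSubring hbM).toAlgebra
  have : IsScalarTower (K0 6) M (Om 6) := IsScalarTower.of_algebraMap_eq (fun c => rfl)
  have hlift : ∀ g : G, ∃ σ : Om 6 ≃ₐ[K0 6] Om 6, (∀ y : M, σ y = (a g y : M)) ∧
      ∀ y ∈ K, σ y = y := by
    intro g
    let χ : M ≃ₐ[K0 6] M := AlgEquiv.ofRingEquiv (f := ((a g : M ≃ₐ[ℂ] M) : M ≃+* M)) (by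
      intro c
      exact haK g _ (hK (IntermediateField.algebraMap_mem
        (⊥ : IntermediateField (K0 6) (Om 6)) c)))
    have h4 : ∀ y : M, χ.liftNormal (Om 6) y = (a g y : M) := fun y =>
      AlgEquiv.liftNormal_commutes χ (Om 6) y
    refine ⟨χ.liftNormal (Om 6), h4, fun y hy => ?_⟩
    have h5 := h4 ⟨y, hKM hy⟩
    rw [haK g ⟨y, hKM hy⟩ hy] at h5
    exact h5
  -- restriction to `E`
  let r : ↥(fixG K : Subgroup (Om 6 ≃ₐ[K0 6] Om 6)) → (E →ₐ[ℂ] E) := fun σ =>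
    (((σ.1 : Om 6 →ₐ[K0 6] Om 6).restrictScalars ℂ).comp E.val).codRestrict E.toSubalgebra
      (fun y => (hE σ.1 σ.2).1 y.1 y.2)
  have hr : ∀ σ y, ((r σ y : E) : Om 6) = σ.1 y := fun σ y => rfl
  have hrr : ∀ σ τ y, r σ (r τ y) = r (σ * τ) y := by
    intro σ τ y
    apply Subtype.ext
    rfl
  have hr1 : ∀ y, r 1 y = y := fun y => Subtype.ext rfl
  let f : ↥(fixG K : Subgroup (Om 6 ≃ₐ[K0 6] Om 6)) →* (E ≃ₐ[ℂ] E) :=
    { toFun := fun σ => AlgEquiv.ofAlgHom (r σ) (r σ⁻¹)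
        (by
          ext y
          show ((r σ (r σ⁻¹ y) : E) : Om 6) = y
          rw [hrr, mul_inv_cancel, hr1])
        (by
          ext y
          show ((r σ⁻¹ (r σ y) : E) : Om 6) = y
          rw [hrr, inv_mul_cancel, hr1])
      map_one' := by
        ext y
        rfl
      map_mul' := by
        intro σ τ
        ext y
        rfl }
  have hf : ∀ σ y, ((f σ y : E) : Om 6) = σ.1 y := fun σ y => rfl
  have hker : f.ker = (fixG K ⊓ fixG E : Subgroup (Om 6 ≃ₐ[K0 6] Om 6)).subgroupOf (fixG K) := by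
    ext σ
    rw [MonoidHom.mem_ker, Subgroup.mem_subgroupOf]
    constructor
    · intro h
      refine ⟨σ.2, fun y hy => ?_⟩
      have h4 := hf σ ⟨y, hy⟩
      rw [h] at h4
      exact h4.symm
    · intro h
      ext y
      exact h.2 y.1 y.2
  have hRfin : Finite f.range := by
    apply Nat.finite_of_card_ne_zero
    rw [← Subgroup.index_ker, hker]
    exact hidx
  have hfixM : ∀ z : Om 6, (∀ τ : Om 6 ≃ₐ[K0 6] Om 6, (∀ y ∈ M, τ y = y) → τ z = z) → z ∈ M := by
    intro z hz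
    let M' : IntermediateField (K0 6) (Om 6) :=
      { M with algebraMap_mem' := hbM }
    have h4 := InfiniteGalois.fixedField_fixingSubgroup M'
    have h5 : z ∈ IntermediateField.fixedField M'.fixingSubgroup := by
      rw [IntermediateField.mem_fixedField_iff]
      intro τ hτ
      exact hz τ (fun y hy => (IntermediateField.mem_fixingSubgroup_iff M' τ).1 hτ y hy)
    rw [h4] at h5
    exact h5
  refine h3 (Om 6) K M (E ⊓ M) hKM inf_le_right G a haK hfix ?_ ?_ ?_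
  · intro g y hy
    obtain ⟨σ, hσ, hσK⟩ := hlift g
    refine ⟨?_, (a g y).2⟩
    rw [← hσ y]
    exact (hE σ hσK).1 _ hy.1
  · intro g hg
    obtain ⟨σ, hσ, hσK⟩ := hlift g
    let Q : Subgroup (E ≃ₐ[ℂ] E) :=
      ((fixG M : Subgroup (Om 6 ≃ₐ[K0 6] Om 6)).subgroupOf (fixG K)).map f
    have h4 : f ⟨σ, hσK⟩ ∈ Q := by
      apply Tow_mem f.range Q hRfin (Subgroup.map_le_range _ _) (f ⟨σ, hσK⟩) ⟨_, rfl⟩
      intro z hz
      have hzM : (z : Om 6) ∈ M := by
        apply hfixM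
        intro τ hτ
        have hτK : τ ∈ (fixG K : Subgroup (Om 6 ≃ₐ[K0 6] Om 6)) := fun y hy => hτ y (hKM hy)
        have h5 := hz (f ⟨τ, hτK⟩) ⟨⟨τ, hτK⟩, hτ, rfl⟩
        have h6 := hf ⟨τ, hτK⟩ z
        rw [h5] at h6
        exact h6.symm
      apply Subtype.ext
      rw [hf]
      have h7 := hσ ⟨(z : Om 6), hzM⟩
      rw [hg ⟨(z : Om 6), hzM⟩ ⟨z.2, hzM⟩] at h7
      exact h7
    obtain ⟨τ, hτM, hτσ⟩ := h4
    have hτM' : ∀ y ∈ M, τ.1 y = y := hτM
    have hτE : ∀ y ∈ E, τ.1 y = σ y := by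
      intro y hy
      have h5 := hf τ ⟨y, hy⟩
      rw [hτσ] at h5
      exact h5.symm
    have h6 := (hE (τ.1⁻¹ * σ) (by
      intro y hy
      rw [AlgEquiv.mul_apply, hσK y hy]
      exact (inv_mem τ.2 : τ.1⁻¹ ∈ fixG K) y hy)).2 (by
      intro y hy
      rw [AlgEquiv.mul_apply, ← hτE y hy, ← AlgEquiv.mul_apply, inv_mul_cancel,
        AlgEquiv.one_apply])
    apply Subtype.ext
    apply Equiv.ext
    intro i
    apply hξ.1.injective
    have h7 := h6 (ξ i) ((hξ.2.1 _).2 ⟨i, rfl⟩)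
    rw [AlgEquiv.mul_apply] at h7
    have h8 : σ (ξ i) = τ.1 (ξ i) := by
      rw [← h7]
      conv_rhs => rw [h7]
      have h9 := congrArg τ.1 h7
      rw [← AlgEquiv.mul_apply, mul_inv_cancel, AlgEquiv.one_apply] at h9
      rw [h7]
      exact h9
    have h10 : ξ i ∈ M := by rw [← hx i]; exact (x i).2
    rw [hτM' _ h10] at h8
    have h11 := hσ (x i)
    rw [hax, hx, hx, h8] at h11
    exact h11.symm
  · exact (_root_.trdeg_le_of_injective
      (IntermediateField.inclusion (inf_le_left : E ⊓ M ≤ E))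
      (IntermediateField.inclusion_injective _)).trans (by exact_mod_cast htr)

/-- The theorem for formulas in functions of one variable. -/
theorem Tow_main (h : StFormula2) (h1 : StSpl) (h2 : StGal) (h3 : StArt) (h4 : StLow)
    (r : ℕ) (m : ℕ → ℕ) (K L : ℕ → ℕ → IntermediateField ℂ (Om 6)) (d : ℕ → ℕ → ℕ)
    (hF : Formula 6 r m K L d) (hd : ∀ i < r, ∀ j < m i, d i j ≤ 1) :
    ∃ i₀ < r, ∃ j₀ < m i₀, 360 ∣ monOrd (K i₀ 0) (L i₀ j₀) ∧
      EdLE (K i₀ 0) (K i₀ 0 ⊔ spl 6) 1 ∧ 24 ≤ relfinrank (base 6) (K i₀ 0) ∧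
      ∀ p : ℕ, p.Prime → 6 / p ≤ d i₀ j₀ + ∑ i ∈ Finset.range i₀, ∑ j ∈ Finset.range (m i),
        min (d i j) (padicValNat p (relfinrank (K i j) (K i (j + 1)))) := by
  obtain ⟨i₀, hi₀, j₀, hj₀, h5, h6, h7, h8, E, h9, h10, h11⟩ := h 6 r m K L d (by norm_num) hF
  have hb : base 6 ≤ K i₀ 0 := by
    intro y hy
    obtain ⟨c, rfl⟩ := IntermediateField.mem_bot.1
      (show y ∈ (⊥ : IntermediateField (K0 6) (Om 6)) from hy)
    exact h7 c
  have h12 : EdLE (K i₀ 0) (K i₀ 0 ⊔ spl 6) 1 :=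
    Tow_ed h1 h2 h3 (K i₀ 0) E hb h8 (h9.trans (by exact_mod_cast hd i₀ hi₀ j₀ hj₀)) h10 h11
  exact ⟨i₀, hi₀, j₀, hj₀, h5, h12, h4 _ hb h8 h12, h6⟩

end

end Pool.Agent.Sextic.AD
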