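import Pool.Agent.Work.MP_8e3fb2_ag.VT.All
import Pool.Agent.Work.MP_8e3fb2_ag.AD.Tow
import Pool.Agent.Work.MP_8e3fb2_ag.AD.I_Art
import Pool.Agent.Work.MP_8e3fb2_ag.AD.I_BD
import Pool.Agent.Work.MP_8e3fb2_ag.AD.I_Bas
import Pool.Agent.Work.MP_8e3fb2_ag.AD.I_C1
import Pool.Agent.Work.MP_8e3fb2_ag.AD.I_C12
import Pool.Agent.Work.MP_8e3fb2_ag.AD.I_C2
import Pool.Agent.Work.MP_8e3fb2_ag.AD.I_C6
import Pool.Agent.Work.MP_8e3fb2_ag.AD.I_C6a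
import Pool.Agent.Work.MP_8e3fb2_ag.AD.I_C6b
import Pool.Agent.Work.MP_8e3fb2_ag.AD.I_CS
import Pool.Agent.Work.MP_8e3fb2_ag.AD.I_Card
import Pool.Agent.Work.MP_8e3fb2_ag.AD.I_Case
import Pool.Agent.Work.MP_8e3fb2_ag.AD.I_Coc
import Pool.Agent.Work.MP_8e3fb2_ag.AD.I_Con
import Pool.Agent.Work.MP_8e3fb2_ag.AD.I_Cyc
import Pool.Agent.Work.MP_8e3fb2_ag.AD.I_DC
import Pool.Agent.Work.MP_8e3fb2_ag.AD.I_DK
import Pool.Agent.Work.MP_8e3fb2_ag.AD.I_DedP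
import Pool.Agent.Work.MP_8e3fb2_ag.AD.I_DedU
import Pool.Agent.Work.MP_8e3fb2_ag.AD.I_Deg
import Pool.Agent.Work.MP_8e3fb2_ag.AD.I_DegA
import Pool.Agent.Work.MP_8e3fb2_ag.AD.I_Div
import Pool.Agent.Work.MP_8e3fb2_ag.AD.I_E1
import Pool.Agent.Work.MP_8e3fb2_ag.AD.I_EInv
import Pool.Agent.Work.MP_8e3fb2_ag.AD.I_Eig
import Pool.Agent.Work.MP_8e3fb2_ag.AD.I_FF1
import Pool.Agent.Work.MP_8e3fb2_ag.AD.I_FG
import Pool.Agent.Work.MP_8e3fb2_ag.AD.I_Fd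
import Pool.Agent.Work.MP_8e3fb2_ag.AD.I_Five
import Pool.Agent.Work.MP_8e3fb2_ag.AD.I_Fix
import Pool.Agent.Work.MP_8e3fb2_ag.AD.I_Free
import Pool.Agent.Work.MP_8e3fb2_ag.AD.I_G6
import Pool.Agent.Work.MP_8e3fb2_ag.AD.I_G60
import Pool.Agent.Work.MP_8e3fb2_ag.AD.I_Gal
import Pool.Agent.Work.MP_8e3fb2_ag.AD.I_Gau
import Pool.Agent.Work.MP_8e3fb2_ag.AD.I_Gen
import Pool.Agent.Work.MP_8e3fb2_ag.AD.I_Hol
import Pool.Agent.Work.MP_8e3fb2_ag.AD.I_Ico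
import Pool.Agent.Work.MP_8e3fb2_ag.AD.I_Idx
import Pool.Agent.Work.MP_8e3fb2_ag.AD.I_IndA
import Pool.Agent.Work.MP_8e3fb2_ag.AD.I_Inf
import Pool.Agent.Work.MP_8e3fb2_ag.AD.I_IsoV
import Pool.Agent.Work.MP_8e3fb2_ag.AD.I_Ker
import Pool.Agent.Work.MP_8e3fb2_ag.AD.I_Low
import Pool.Agent.Work.MP_8e3fb2_ag.AD.I_ML
import Pool.Agent.Work.MP_8e3fb2_ag.AD.I_Min
import Pool.Agent.Work.MP_8e3fb2_ag.AD.I_Nrm
import Pool.Agent.Work.MP_8e3fb2_ag.AD.I_Orb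
import Pool.Agent.Work.MP_8e3fb2_ag.AD.I_Ord
import Pool.Agent.Work.MP_8e3fb2_ag.AD.I_P3
import Pool.Agent.Work.MP_8e3fb2_ag.AD.I_PJ
import Pool.Agent.Work.MP_8e3fb2_ag.AD.I_R6
import Pool.Agent.Work.MP_8e3fb2_ag.AD.I_RA
import Pool.Agent.Work.MP_8e3fb2_ag.AD.I_Rie
import Pool.Agent.Work.MP_8e3fb2_ag.AD.I_Rk
import Pool.Agent.Work.MP_8e3fb2_ag.AD.I_Sp
import Pool.Agent.Work.MP_8e3fb2_ag.AD.I_Spl
import Pool.Agent.Work.MP_8e3fb2_ag.AD.I_Stp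
import Pool.Agent.Work.MP_8e3fb2_ag.AD.I_Sum0
import Pool.Agent.Work.MP_8e3fb2_ag.AD.I_Tr
import Pool.Agent.Work.MP_8e3fb2_ag.AD.I_Tw
import Pool.Agent.Work.MP_8e3fb2_ag.AD.I_Two
import Pool.Agent.Work.MP_8e3fb2_ag.AD.I_Up
import Pool.Agent.Work.MP_8e3fb2_ag.AD.I_UpA
import Pool.Agent.Work.MP_8e3fb2_ag.AD.I_Van

set_option autoImplicit false

/-!
# The accessory degree of the sextic: assembly
-/

namespace Pool.Agent.Sextic.AD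

open IntermediateField

noncomputable section

theorem f_Deg : StDeg := prDeg (prDegA prFF1) prDedP prDedU

theorem f_Sum0 : StSum0 := prSum0 f_Deg

theorem f_Hol : StHol := prHol prFF1 f_Deg

theorem f_Inf : StInf := prInf prFF1 f_Deg

theorem f_Stp : StStp := prStp prGau prRk f_Hol

theorem f_DK : StDK := prDK f_Stp (prRie prFF1) prGen f_Sum0 f_Deg

theorem f_ML : StML := prML prIndA prKer prCoc prTwo (prMin f_Sum0) f_DK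

theorem f_Div : StDiv := prDiv f_Sum0 f_Hol

theorem f_EInv : StEInv := prEInv f_Div

theorem f_BD : StBD := prBD prOrb prEig prCyc f_Div f_EInv

theorem f_Tw : StTw := prTw f_BD (prDC prOrb) prCard prNrm

theorem f_PJ : StPJ := prPJ f_Inf (prFree f_Sum0) prVan f_Div f_EInv

theorem f_Bas : StBas := prBas f_Deg f_Div

theorem f_P3 : StP3 := prP3 f_Bas prFd f_Div f_EInv prCyc prFF1

theorem f_C1 : StC1 := prC1 f_PJ f_P3 (prR6 prTr prFix prCS) prCard prNrm prOrd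

theorem f_C2 : StC2 := prC2 f_PJ f_P3 (prRA prTr prFix prCS) prCard prNrm prOrd

theorem f_C6 : StC6 := prC6 prC6a (prC6b prCyc) prFive f_Div f_EInv f_Bas prFd prFF1

theorem f_C12 : StC12 := prC12 prEig f_EInv f_Div prCyc prG60

theorem f_Case : StCase := prCase f_Tw f_Div f_C1 f_C2 f_C6 f_C12 prIdx prG6

theorem f_Spl : StSpl := prSpl prf_Emb

/-- The lower bound. -/
theorem f_Low : StLow := prLow f_Spl prGal prE1 prFG f_ML f_Case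

/-- The upper bound. -/
theorem f_Up : StUp := prUp (prUpA f_Spl prGal) prSp prIco (prIsoV prCon prArt) f_Low

theorem f_Formula2 : StFormula2 :=
  prf_Formula2 (prf_Step prf_Rank prf_Chi) prf_NC
    (prf_Dec prf_Ext prf_Res prf_Conj (prf_Inv prf_Mon) prf_Emb)

/-- Formulas in algebraic functions of one variable. -/
theorem f_Tow (r : ℕ) (m : ℕ → ℕ) (K L : ℕ → ℕ → IntermediateField ℂ (Om 6)) (d : ℕ → ℕ → ℕ)
    (hF : Formula 6 r m K L d) (hd : ∀ i < r, ∀ j < m i, d i j ≤ 1) :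
    ∃ i₀ < r, ∃ j₀ < m i₀, 360 ∣ monOrd (K i₀ 0) (L i₀ j₀) ∧
      EdLE (K i₀ 0) (K i₀ 0 ⊔ spl 6) 1 ∧ 24 ≤ relfinrank (base 6) (K i₀ 0) ∧
      ∀ p : ℕ, p.Prime → 6 / p ≤ d i₀ j₀ + ∑ i ∈ Finset.range i₀, ∑ j ∈ Finset.range (m i),
        min (d i j) (padicValNat p (relfinrank (K i j) (K i (j + 1)))) :=
  Tow_main f_Formula2 f_Spl prGal prArt f_Low r m K L d hF hd

end

end Pool.Agent.Sextic.AD
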