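import Pool.Agent.Work.MP_8e3fb2_ag.AD.Defs
import Pool.Agent.Work.MP_8e3fb2_ag.VT.Stmts

set_option autoImplicit false

/-!
# The accessory degree of the sextic: statements of the items

All items are independent of each other: item `Foo` is the theorem `prFoo (h1 : St..) .. : StFoo` in
the file `AD/I_Foo.lean`, whose hypotheses are exactly the statements named in the docstring (in that
order). The docstring contains the complete proof.
-/

namespace Pool.Agent.Sextic.AD

open IntermediateField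

noncomputable section

/-! ### A. Places of a function field of one variable -/

/-- ITEM FF1: `theorem prFF1 : StFF1`. `t` from `FF E`. `f` is algebraic over `ℂ(t)`: a nonzero
polynomial relation `H(t, f) = 0` over `ℂ`; as `f` is transcendental, `H` gives an algebraic equation
of `t` over `ℂ(f)`. So `ℂ(f, t) / ℂ(f)` is finite, and `E / ℂ(f, t)` is finite because `E / ℂ(t)` is.
(Or: transcendence degree one, `{f}` is a transcendence basis, `E / ℂ(f)` is algebraic and finitely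
generated.) -/
def StFF1 : Prop := ∀ (E : Type) [Field E] [Algebra ℂ E], FF E → ∀ f : E, Transcendental ℂ f →
  FiniteDimensional (ℂ⟮f⟯ : IntermediateField ℂ E) E

/-- ITEM DegA: `theorem prDegA (h : StFF1) : StDegA`. `O` is the integral closure of `ℂ[f]` in `E`
(for instance `integralClosure ℂ[X] E` for the algebra structure `Polynomial.aeval f`;
`integralClosure.isDedekindDomain`, `IsIntegralClosure.isFractionRing_of_finite_extension`;
characteristic `0`). Residue fields: `O` is a finite `ℂ[X]`-module (`IsIntegralClosure.finite`), so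
`O / p` is finite over `ℂ[X] / (X - a) = ℂ`, which is algebraically closed. Nonnegativity: `y` is
integral over `ℂ[f]`: `y^n + a_1 y^(n-1) + .. = 0` with `P(a_i) ≥ 0`; if `P(y) < 0` then `P(y^n)` is
smaller than the orders of the other terms. Number of factors: `Ideal.sum_ramification_inertia` for
the prime `(X)` of `ℂ[X]`, all inertia degrees are `1`, and the ramification index is the count in the
factorisation (`Ideal.IsDedekindDomain.ramificationIdx_eq_normalizedFactors_count`). -/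
def StDegA : Prop := ∀ (E : Type) [Field E] [Algebra ℂ E], FF E → ∀ f : E, Transcendental ℂ f →
  ∃ (O : Type) (_ : CommRing O) (_ : IsDedekindDomain O) (_ : Algebra ℂ O) (_ : Algebra O E)
    (f' : O), IsScalarTower ℂ O E ∧ IsFractionRing O E ∧
    (∀ p : Ideal O, p.IsMaximal → ∀ y, ∃ c : ℂ, y - algebraMap ℂ O c ∈ p) ∧
    (∀ P : Pl E, 0 ≤ P.1 f → ∀ y : O, 0 ≤ P.1 (algebraMap O E y)) ∧ algebraMap O E f' = f ∧
    Multiset.card (UniqueFactorizationMonoid.normalizedFactors (Ideal.span {f'})) =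
      Module.finrank (ℂ⟮f⟯ : IntermediateField ℂ E) E

/-- ITEM DedP: `theorem prDedP : StDedP`. The `p`-adic valuation of `E`
(`IsDedekindDomain.HeightOneSpectrum.valuation`, written additively, `0` at `0`). Constants are units
of `O`. Uniformizer: `HeightOneSpectrum.valuation_exists_uniformizer`. Residues: an element of
valuation zero is `a / s` with `a, s ∈ O`, `a, s ∉ p`; choose constants `c₁, c₂` with `a - c₁`,
`s - c₂` in `p`, `c₂ ≠ 0`; `c = c₁ / c₂`: `a - c s ∈ p`. -/
def StDedP : Prop := ∀ (O E : Type) [CommRing O] [IsDedekindDomain O] [Field E] [Algebra ℂ O]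
  [Algebra O E] [Algebra ℂ E] [IsScalarTower ℂ O E] [IsFractionRing O E],
  (∀ p : Ideal O, p.IsMaximal → ∀ y, ∃ c : ℂ, y - algebraMap ℂ O c ∈ p) →
  ∀ p : Ideal O, p.IsPrime → p ≠ ⊥ → ∃ P : Pl E, ∀ y : O, y ≠ 0 →
    P.1 (algebraMap O E y) = cnt p y

/-- ITEM DedU: `theorem prDedU : StDedU`. `p = {y | y = 0 ∨ 0 < P y}` is a prime ideal; it is not
zero: `P u = 1` for some `u = a / s`, so `P a = 1 + P s > 0`. Let `π ∈ p \ p^2`, `cnt p π = 1`. If
`cnt p y = m` then `y / π^m = a / s` with `a, s ∈ O \ p` (valuation zero for the `p`-adic valuation),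
so `P y = m P π`. All values of `P` are therefore multiples of `P π > 0`, and `P u = 1` gives
`P π = 1`. -/
def StDedU : Prop := ∀ (O E : Type) [CommRing O] [IsDedekindDomain O] [Field E] [Algebra ℂ O]
  [Algebra O E] [Algebra ℂ E] [IsScalarTower ℂ O E] [IsFractionRing O E] (P : Pl E),
  (∀ y : O, 0 ≤ P.1 (algebraMap O E y)) → ∃ p : Ideal O, p.IsPrime ∧ p ≠ ⊥ ∧
    ∀ y : O, y ≠ 0 → P.1 (algebraMap O E y) = cnt p y

/-- ITEM Deg: `theorem prDeg (h1 : StDegA) (h2 : StDedP) (h3 : StDedU) : StDeg`. `O, f'` from h1. A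
place `P` with `P f > 0` is nonnegative on `O`, so h3 gives a prime `p ≠ 0` with `P = cnt p` on `O`
(this determines `P`, as `E` is the fraction field of `O`), and `p` is one of the normalized factors
of `(f')` as `cnt p f' = P f > 0`. Conversely every normalized factor `p` of `(f')` is a nonzero
prime, and h2 gives `P` with `P f = cnt p f' > 0`. So the sum is the sum over the different factors
of their counts, the cardinality of the multiset (`Multiset.toFinset_sum_count_eq`). -/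
def StDeg : Prop := ∀ (E : Type) [Field E] [Algebra ℂ E], FF E → ∀ f : E, Transcendental ℂ f →
  {P : Pl E | 0 < P.1 f}.Finite ∧
    ∑ᶠ P : Pl E, max (P.1 f) 0 = (Module.finrank (ℂ⟮f⟯ : IntermediateField ℂ E) E : ℤ)

/-- ITEM Inf: `theorem prInf (h1 : StFF1) (h2 : StDeg) : StInf`. For `t` transcendental and `c : ℂ`
the element `t - c` is transcendental and `[E : ℂ(t - c)]` is finite, so positive: by h2 there is a
place `P_c` with `P_c (t - c) > 0`. For `c ≠ c'` the places are different (otherwise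
`P (c' - c) > 0`). `ℂ` is infinite. -/
def StInf : Prop := ∀ (E : Type) [Field E] [Algebra ℂ E], FF E → Infinite (Pl E)

/-- ITEM Sum0: `theorem prSum0 (h : StDeg) : StSum0`. If `f` is algebraic over `ℂ` it is a constant
(`ℂ` is algebraically closed) and `P f = 0` for all `P`. Otherwise `f` and `f⁻¹` are transcendental,
`ℂ⟮f⟯ = ℂ⟮f⁻¹⟯`, and `P f = max (P f) 0 - max (P f⁻¹) 0`. -/
def StSum0 : Prop := ∀ (E : Type) [Field E] [Algebra ℂ E], FF E → ∀ f : E, f ≠ 0 →
  {P : Pl E | P.1 f ≠ 0}.Finite ∧ ∑ᶠ P : Pl E, P.1 f = 0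

/-- ITEM Hol: `theorem prHol (h1 : StFF1) (h2 : StDeg) : StHol`. If `f` is algebraic over `ℂ` it is a
constant. Otherwise `f⁻¹` is transcendental and by h1, h2 there is `P` with `P f⁻¹ > 0`, that is
`P f < 0`. -/
def StHol : Prop := ∀ (E : Type) [Field E] [Algebra ℂ E], FF E → ∀ f : E,
  (∀ P : Pl E, 0 ≤ P.1 f) → ∃ c : ℂ, f = algebraMap ℂ E c

/-- ITEM Rie: `theorem prRie (h : StFF1) : StRie` (weak form of Riemann's inequality). Let
`y_1, .., y_n` be a basis of `E / ℂ(w)` which is integral over `ℂ[w]`. At the places with `P w ≥ 0`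
one has `P y_i ≥ 0` (integral equation). There is `r` such that all coefficients `a_j` of the integral
equations `y^m + a_1 y^(m-1) + .. + a_m = 0` are polynomials in `w` of degree at most `r j`; at the
places with `P w < 0` this gives `P y_i ≥ r P w`. `X` is the span over `ℂ` of the `w^j y_i`, `j < s`:
they are linearly independent (`n s` elements) and of order at least `(s + r) min (P w) 0`. -/
def StRie : Prop := ∀ (E : Type) [Field E] [Algebra ℂ E], FF E → ∀ w : E, Transcendental ℂ w →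
  ∃ r : ℕ, ∀ s : ℕ, ∃ X : Submodule ℂ E, FiniteDimensional ℂ X ∧
    X ≤ RR (fun P => ((s + r : ℕ) : ℤ) * max (- P.1 w) 0) ∧
    Module.finrank (ℂ⟮w⟯ : IntermediateField ℂ E) E * s ≤ Module.finrank ℂ X

/-- ITEM Van: `theorem prVan : StVan`. Every place imposes one linear condition: if
`m P ≤ P w` on a space `Y`, then `{w ∈ Y | w = 0 ∨ m P < P w}` is a subspace of codimension at most
one (if `P w₁ = P w₂ = m P` then `w₁ / w₂` has order `0` at `P`, so `w₁ - c w₂` is zero or has larger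
order for some constant `c`). Induction on `Q`. -/
def StVan : Prop := ∀ (E : Type) [Field E] [Algebra ℂ E] (X : Submodule ℂ E)
  [FiniteDimensional ℂ X] (m : Pl E → ℤ), (∀ P : Pl E, ∀ w ∈ X, w ≠ 0 → m P ≤ P.1 w) →
  ∀ Q : Finset (Pl E), Q.card < Module.finrank ℂ X → ∃ w ∈ X, w ≠ 0 ∧ ∀ P ∈ Q, m P < P.1 w

/-- ITEM Gen: `theorem prGen : StGen`. The `{w ∈ X | w = 0 ∨ m P < P w}`, `P ∈ Q`, and `{0}` are
proper subspaces of `X`, and a vector space over an infinite field is not a finite union of proper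
subspaces (`Subspace.biUnion_ne_univ_of_top_notMem` or similar; or two elements at a time: `w + c w'`
for almost all `c` takes the minimum at all places where `w` or `w'` does). -/
def StGen : Prop := ∀ (E : Type) [Field E] [Algebra ℂ E] (X : Submodule ℂ E)
  [FiniteDimensional ℂ X] (m : Pl E → ℤ), X ≠ ⊥ →
  (∀ P : Pl E, ∀ w ∈ X, w ≠ 0 → m P ≤ P.1 w) → (∀ P : Pl E, ∃ w ∈ X, w ≠ 0 ∧ P.1 w = m P) →
  ∀ Q : Finset (Pl E), ∃ w ∈ X, w ≠ 0 ∧ ∀ P ∈ Q, P.1 w = m P

/-- ITEM Min: `theorem prMin (h : StSum0) : StMin`. `m P` is the minimum of the orders of the elements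
of a basis of `X` (`Finset.inf'` or similar; there are finitely many places where one of these orders
is not zero, by h); an element of `X` is a linear combination of the basis. -/
def StMin : Prop := ∀ (E : Type) [Field E] [Algebra ℂ E], FF E → ∀ (X : Submodule ℂ E)
  [FiniteDimensional ℂ X], X ≠ ⊥ → ∃ m : Pl E → ℤ, (Function.support m).Finite ∧
    (∀ P : Pl E, ∀ w ∈ X, w ≠ 0 → m P ≤ P.1 w) ∧ ∀ P : Pl E, ∃ w ∈ X, w ≠ 0 ∧ P.1 w = m P

/-! ### B. The main lemma -/

/-- ITEM IndA: `theorem prIndA : StIndA`. `M` is algebraic over `ℂ(x)`, so `trdeg ℂ M = n`;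
`trdeg ℂ E = 1` (`FF E`), so `trdeg E M = n - 1` (`Algebra.trdeg_add_eq`). `M` is algebraic over
`E(x)`, so the family `x` contains a transcendence basis of `M / E`
(`exists_isTranscendenceBasis_subset` or similar): it consists of `n - 1` of the `n` elements. -/
def StIndA : Prop := ∀ (n : ℕ) (G : Subgroup (Equiv.Perm (Fin n))) (M : Type) [Field M]
  [Algebra ℂ M] (E : IntermediateField ℂ M) (d : Dat n G M E),
  ¬ AlgebraicIndependent E d.x ∧
    ∃ i₀ : Fin n, AlgebraicIndependent E (fun i : {i // i ≠ i₀} => d.x i)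

/-- ITEM Ker: `theorem prKer : StKer`. `A = F[x_i : i ≠ i₀]` (polynomial ring) is a UFD which embeds
into `M`; `K` its fraction field, embedded into `M`. `MvPolynomial (Fin n) F` is `A[X]` with
`X = x_(i₀)` (`MvPolynomial.finSuccEquiv` after a permutation, or `MvPolynomial.optionEquivLeft`,
`sumAlgEquiv`). The kernel of the evaluation is a nonzero prime ideal which meets `A` only in `0`. Let
`φ` be an irreducible factor in the kernel of a nonzero element of the kernel. Its `X`-degree is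
positive, so it is primitive and (Gauss) generates over `K` the kernel of `K[X] → M` (it is a
multiple of the minimal polynomial, irreducible: `Polynomial.IsPrimitive.irreducible_iff_irreducible_map_fraction_map`);
if `p` is in the kernel then `φ ∣ p` in `K[X]`, so in `A[X]`
(`Polynomial.IsPrimitive.dvd_iff_fraction_map_dvd_fraction_map` or similar). -/
def StKer : Prop := ∀ (F M : Type) [Field F] [Field M] [Algebra F M] (n : ℕ) (x : Fin n → M)
  (i₀ : Fin n), ¬ AlgebraicIndependent F x →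
  AlgebraicIndependent F (fun i : {i // i ≠ i₀} => x i) →
  ∃ φ : MvPolynomial (Fin n) F, φ ≠ 0 ∧ ∀ p, MvPolynomial.aeval x p = 0 ↔ φ ∣ p

/-- ITEM Coc: `theorem prCoc : StCoc`. Let `Θ g` be the ring endomorphism of `MvPolynomial (Fin n) E`
which applies `d.b g` to the coefficients and renames the variables by `g` (`MvPolynomial.map`,
`MvPolynomial.rename`); `aeval x (Θ g p) = d.a g (aeval x p)`, `Θ` is multiplicative in `g` and
`Θ 1 = id`. So `φ ∣ Θ g φ` and (apply `Θ g` to `φ ∣ Θ g⁻¹ φ`) `Θ g φ ∣ φ`: `Θ g φ = C (e g) * φ` with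
`e g ≠ 0` (units of `MvPolynomial (Fin n) E` are constants). Compare coefficients
(`MvPolynomial.coeff_rename_mapDomain`); the cocycle identity is `Θ (g h) φ = Θ g (C (e h) φ)`. -/
def StCoc : Prop := ∀ (n : ℕ) (G : Subgroup (Equiv.Perm (Fin n))) (M : Type) [Field M]
  [Algebra ℂ M] (E : IntermediateField ℂ M) (d : Dat n G M E) (φ : MvPolynomial (Fin n) E), φ ≠ 0 →
  (∀ p, MvPolynomial.aeval d.x p = 0 ↔ φ ∣ p) → ∃ e : G → E, (∀ g, e g ≠ 0) ∧
    (∀ g h, e (g * h) = e g * d.b g (e h)) ∧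
    ∀ (g : G) (α : Fin n →₀ ℕ), d.b g (φ.coeff α) = e g * φ.coeff (α.mapDomain g.1)

/-- ITEM Two: `theorem prTwo : StTwo`. Finitely many coefficients are not zero. If the dimension is at
most one, all coefficients are complex multiples of one `c ∈ E`, `c ≠ 0`: `φ = C c * F` with `F ≠ 0`
with complex coefficients, and `0 = φ(x) = c F(x)` contradicts the algebraic independence of `x` over
`ℂ`. -/
def StTwo : Prop := ∀ (n : ℕ) (G : Subgroup (Equiv.Perm (Fin n))) (M : Type) [Field M]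
  [Algebra ℂ M] (E : IntermediateField ℂ M) (d : Dat n G M E) (φ : MvPolynomial (Fin n) E), φ ≠ 0 →
  (∀ p, MvPolynomial.aeval d.x p = 0 ↔ φ ∣ p) →
  FiniteDimensional ℂ (cs φ) ∧ 2 ≤ Module.finrank ℂ (cs φ)

/-- ITEM Gau: `theorem prGau : StGau` (Gauss lemma). Suppose `ψ ≠ 0` and let `δ` be the minimum of the
orders of its nonzero coefficients. Take the largest exponent `α` (for a monomial order, for instance
`MonomialOrder.lex` or a linear order on `Fin n →₀ ℕ` compatible with the addition) with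
`P (φ_α) = a` and the largest `β` with `P (ψ_β) = δ`: the coefficient of `φ ψ` at `α + β` is
`φ_α ψ_β` plus terms of order larger than `a + δ`, so its order is exactly `a + δ`, and
`a + b ≤ a + δ`. (Or: scale by powers of a uniformizer and reduce modulo the maximal ideal of the
valuation ring; `ℂ[x_1, .., x_n]` is a domain.) -/
def StGau : Prop := ∀ (E : Type) [Field E] [Algebra ℂ E] (P : Pl E) (n : ℕ)
  (φ ψ : MvPolynomial (Fin n) E) (a b : ℤ),
  (∃ α, φ.coeff α ≠ 0 ∧ P.1 (φ.coeff α) = a) → (∀ α, φ.coeff α ≠ 0 → a ≤ P.1 (φ.coeff α)) →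
  (∀ α, (φ * ψ).coeff α ≠ 0 → a + b ≤ P.1 ((φ * ψ).coeff α)) →
  ∀ α, ψ.coeff α ≠ 0 → b ≤ P.1 (ψ.coeff α)

/-- ITEM Rk: `theorem prRk : StRk` (pure linear algebra). Let `A = MvPolynomial (Fin n) ℂ`, `k` the
degree of `M` over `ℂ(x)`, `X₀ ≤ X` finite dimensional. `X₀[x]` (the polynomials over `E` with
coefficients in `X₀`) is a free `A`-module of rank `dim X₀`. The evaluation `X₀[x] → M` is
`A`-linear (`A` acts on `M` through `aeval x`), the rank of its image is at most the rank `k` of `M`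
over `A` (`x` is algebraically independent: `ℂ(x)` is the fraction field of `A`). Its kernel is
contained in `φ R[x]`, so it is isomorphic to an `A`-submodule of `R[x]` and has rank at most
`dim R`. By rank and nullity over the domain `A` (`LinearMap.rank_range_add_rank_ker`,
`HasRankNullity`) `dim X₀ ≤ k + dim R`. (By hand: `N > k + r` gives `r + 1` vectors of polynomials
over `A`, independent over the fraction field, in the kernel of `(a_j) ↦ ∑ a_j(x) e_j`; dividing by
`φ` and writing in a basis of `R` gives a relation over `A` between them.) So all finite dimensional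
subspaces of `X` have dimension at most `k + dim R`. -/
def StRk : Prop := ∀ (E M : Type) [Field E] [Field M] [Algebra ℂ E] [Algebra ℂ M] [Algebra E M]
  [IsScalarTower ℂ E M] (n : ℕ) (x : Fin n → M), AlgebraicIndependent ℂ x →
  FiniteDimensional (IntermediateField.adjoin ℂ (Set.range x)) M →
  ∀ (X R : Submodule ℂ E) (φ : MvPolynomial (Fin n) E), φ ≠ 0 → FiniteDimensional ℂ R →
  (∀ p : MvPolynomial (Fin n) E, (∀ α, p.coeff α ∈ X) → MvPolynomial.aeval x p = 0 →
    ∃ ψ : MvPolynomial (Fin n) E, (∀ α, ψ.coeff α ∈ R) ∧ p = φ * ψ) →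
  FiniteDimensional ℂ X ∧ Module.finrank ℂ X ≤
    Module.finrank (IntermediateField.adjoin ℂ (Set.range x)) M + Module.finrank ℂ R

/-- ITEM Stp: `theorem prStp (h1 : StGau) (h2 : StRk) (h3 : StHol) : StStp`. Induction on `s`. `s = 0`:
the space consists of the constants by h3. Step: apply h2 to `X = RR ((s+1) D)`, `R = RR (s D)`: if
`p` has coefficients in `X` and `p(x) = 0` then `p = φ ψ`, and h1 with `a = - D P`, `b = - s D P`
shows that the coefficients of `ψ` are in `R`. -/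
def StStp : Prop := ∀ (n : ℕ) (G : Subgroup (Equiv.Perm (Fin n))) (M : Type) [Field M]
  [Algebra ℂ M] (E : IntermediateField ℂ M) (d : Dat n G M E) (φ : MvPolynomial (Fin n) E)
  (D : Pl E → ℤ), φ ≠ 0 → (∀ p, MvPolynomial.aeval d.x p = 0 ↔ φ ∣ p) →
  (∀ P α, φ.coeff α ≠ 0 → - D P ≤ P.1 (φ.coeff α)) →
  (∀ P, ∃ α, φ.coeff α ≠ 0 ∧ P.1 (φ.coeff α) = - D P) → ∀ s : ℕ,
  FiniteDimensional ℂ (RR (fun P => (s : ℤ) * D P)) ∧
    Module.finrank ℂ (RR (fun P => (s : ℤ) * D P)) ≤ 1 + s * d.k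

/-- ITEM DK: `theorem prDK (h1 : StStp) (h2 : StRie) (h3 : StGen) (h4 : StSum0) (h5 : StDeg) : StDK`.
Divide `φ` by a nonzero coefficient `c`: the hypotheses hold for `c⁻¹ φ` and `m - ord c`, and the sum
does not change (h4). So one may assume that one coefficient is `1`; then `m ≤ 0`. Let
`w ∈ X = cs φ` be given by h3 for `Q` the support of `m` (`m P` is also the minimum of `P` on the span
`X`): `P w = m P` on the support and `P w ≥ 0` elsewhere, so `max (- P w) 0 = - m P` for all `P`. If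
`w` is algebraic over `ℂ` then it is constant, `m = 0`, and the assertion is clear. Otherwise h5 for
`w⁻¹` gives `- ∑ m = [E : ℂ(w⁻¹)] = [E : ℂ(w)] =: N`, and by h2 and h1 (with `D = - m`)
`N s ≤ 1 + (s + r) k` for all `s`: so `N ≤ k`. -/
def StDK : Prop := ∀ (n : ℕ) (G : Subgroup (Equiv.Perm (Fin n))) (M : Type) [Field M]
  [Algebra ℂ M] (E : IntermediateField ℂ M) (d : Dat n G M E) (φ : MvPolynomial (Fin n) E)
  (m : Pl E → ℤ), φ ≠ 0 → (∀ p, MvPolynomial.aeval d.x p = 0 ↔ φ ∣ p) →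
  (Function.support m).Finite → (∀ P α, φ.coeff α ≠ 0 → m P ≤ P.1 (φ.coeff α)) →
  (∀ P, ∃ α, φ.coeff α ≠ 0 ∧ P.1 (φ.coeff α) = m P) → - ∑ᶠ P, m P ≤ (d.k : ℤ)

/-- ITEM ML: `theorem prML (h1 : StIndA) (h2 : StKer) (h3 : StCoc) (h4 : StTwo) (h5 : StMin)
(h6 : StDK) : StML`. `φ` from h1, h2; `e` from h3; `W = cs φ` (h4); `m` from h5. `W` is stable because
`(e g)⁻¹ * b g (φ_α)` is a coefficient of `φ`. The minimum over the span is taken at a coefficient
(otherwise all coefficients, and all elements of the span, would have larger order), so h6 applies. -/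
def StML : Prop := ∀ (n : ℕ) (G : Subgroup (Equiv.Perm (Fin n))) (M : Type) [Field M]
  [Algebra ℂ M] (E : IntermediateField ℂ M) (d : Dat n G M E),
  ∃ S : LS E G d.b, S.deg ≤ (d.k : ℤ)

/-! ### C. Linear systems with a group action -/

/-- ITEM Div: `theorem prDiv (h1 : StSum0) (h2 : StHol) : StDiv`. `D_w(P) = P w - m P`. The first
three assertions: `m_le`, `m_fin`, h1 (`∑ P w = 0`). Equivariance: `(g P)(ρ(g) w) = - (g P)(e g) + P w`
(`smul_val`), and `m (g P) = - (g P)(e g) + m P` because `ρ(g)` maps `W` onto `W` (its inverse is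
`ρ(g⁻¹)`). The degree is nonnegative; if it is `0` then for independent `u, v ∈ W` all `D_u(P)`,
`D_v(P)` are zero, `P (u / v) = 0` for all `P`, `u / v` is constant by h2: contradiction. -/
def StDiv : Prop := ∀ (E : Type) [Field E] [Algebra ℂ E] (G : Type) [Group G]
  (b : G →* (E ≃ₐ[ℂ] E)) (S : LS E G b), FF E → 0 < S.deg ∧ ∀ w ∈ S.W, w ≠ 0 →
    (∀ P, 0 ≤ S.D w P) ∧ (Function.support (S.D w)).Finite ∧ ∑ᶠ P, S.D w P = S.deg ∧
    ∀ (g : G) (P : Pl E), S.D ((S.e g)⁻¹ * b g w) (b g • P) = S.D w P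

/-- ITEM EInv: `theorem prEInv (h : StDiv) : StEInv`. `(e g)⁻¹ * b g w = χ g • w` with `χ g ≠ 0` (`ρ g`
is injective), and `P (c • w) = P w` for constants `c ≠ 0`. -/
def StEInv : Prop := ∀ (E : Type) [Field E] [Algebra ℂ E] (G : Type) [Group G]
  (b : G →* (E ≃ₐ[ℂ] E)) (S : LS E G b), FF E → ∀ (B : Subgroup G) (χ : G → ℂ) (w : S.W), w ≠ 0 →
  w ∈ Eig S.rho B χ → ∀ g ∈ B, ∀ P : Pl E, S.D w.1 (b g • P) = S.D w.1 P

/-- ITEM Cyc: `theorem prCyc : StCyc`. Let `P u = 1`. For `h ∈ H` the element `(b h u) / u` has order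
`0` at `P`; let `χ h ∈ ℂ`, `χ h ≠ 0`, be its residue. `χ` is a homomorphism to `ℂˣ` (residues are
multiplicative, and `b h` does not change the residue at `P`). It is injective: let `χ h = 1`. Every
`f ≠ 0` is `u^(P f)` times a unit, and a unit `y ≡ c` has `b h y ≡ c`, so `(b h f) / f` has residue
`1` for all `f ≠ 0`. If `w = b h y - y ≠ 0` then all `b (h^i) w / w` have residue `1`, but
`∑_(i < N) b (h^i) w = b (h^N) y - y = 0` for `N` the order of `h`: so the constant `N` has residue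
`0`, a contradiction. So `b h = 1`, `h = 1`. A finite group with an injective homomorphism to a field
is cyclic (`isCyclic_of_subgroup_isDomain`). -/
def StCyc : Prop := ∀ (E : Type) [Field E] [Algebra ℂ E] (H : Type) [Group H] [Finite H]
  (b : H →* (E ≃ₐ[ℂ] E)), Function.Injective b → ∀ P : Pl E, (∀ h : H, b h • P = P) → IsCyclic H

/-- ITEM Five: `theorem prFive : StFive`. Let `P u = 1` and `ζ` the residue of `(σ u) / u` at `P`. The
product over `i < N` of the `σ^i ((σ u) / u)` is `(σ^N u) / u = 1` and `σ` does not change residues at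
`P`, so `ζ^N = 1`. `f = u^a y` with `P y = 0`, `a = P f`: `(σ f) / f` has residue `ζ^a`, and it is the
constant `c`. If `N ∣ a` then `c = 1`. -/
def StFive : Prop := ∀ (E : Type) [Field E] [Algebra ℂ E] (σ : E ≃ₐ[ℂ] E) (N : ℕ) (P : Pl E) (f : E)
  (c : ℂ), σ ^ N = 1 → σ • P = P → f ≠ 0 → σ f = c • f → c ≠ 1 → ¬ ((N : ℤ) ∣ P.1 f)

/-- ITEM Free: `theorem prFree (h : StSum0) : StFree`. For `g ≠ 1` let `y ∈ E` with
`w = b g y - y ≠ 0`. If `b g • P = P` and `P y ≥ 0` then `y ≡ c`, `b g y ≡ c` at `P`, so `P w > 0`. So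
the places fixed by `g` are among the finitely many places (h) with `P y ≠ 0` or `P w ≠ 0`. -/
def StFree : Prop := ∀ (E : Type) [Field E] [Algebra ℂ E] (G : Type) [Group G] [Finite G]
  (b : G →* (E ≃ₐ[ℂ] E)), FF E → Function.Injective b →
  {P : Pl E | ∃ g : G, g ≠ 1 ∧ b g • P = P}.Finite

/-- ITEM Orb: `theorem prOrb : StOrb` (pure). The sum over one orbit `B x` is `(|B| / |B_x|) D(x)`, and
`|B_x| ∣ N`. -/
def StOrb : Prop := ∀ (X B : Type) [Group B] [Finite B] [MulAction B X] (N : ℕ) (D : X → ℤ),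
  (Function.support D).Finite → (∀ (g : B) (x : X), D (g • x) = D x) →
  (∀ x : X, Nat.card (MulAction.stabilizer B x) ∣ N) → (Nat.card B : ℤ) ∣ N * ∑ᶠ x, D x

/-- ITEM Eig: `theorem prEig : StEig`. Commuting endomorphisms of a nonzero finite dimensional complex
vector space have a common eigenvector: strong induction on the dimension (if all `ρ g`, `g ∈ B`, are
scalar take any vector; otherwise an eigenspace of one of them is a proper stable subspace), or
Mathlib's simultaneous eigenspaces. -/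
def StEig : Prop := ∀ (V : Type) [AddCommGroup V] [Module ℂ V] [FiniteDimensional ℂ V]
  [Nontrivial V] (G : Type) [Group G] (ρ : Representation ℂ G V) (B : Subgroup G),
  (∀ g ∈ B, ∀ h ∈ B, g * h = h * g) → ∃ (v : V) (χ : G → ℂ), v ≠ 0 ∧ v ∈ Eig ρ B χ

/-- ITEM BD: `theorem prBD (h1 : StOrb) (h2 : StEig) (h3 : StCyc) (h4 : StDiv) (h5 : StEInv) : StBD`.
Eigenvector `w ∈ W` of `B` (h2), its divisor is `B`-invariant (h5) of degree `S.deg`. The stabiliser
in `B` of a place is cyclic (h3) and killed by `p`, so its order divides `p`. h1. -/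
def StBD : Prop := ∀ (E : Type) [Field E] [Algebra ℂ E] (G : Type) [Group G] [Finite G]
  (b : G →* (E ≃ₐ[ℂ] E)) (S : LS E G b), FF E → Function.Injective b →
  ∀ (p : ℕ) (B : Subgroup G), (∀ g ∈ B, ∀ h ∈ B, g * h = h * g) → (∀ g ∈ B, g ^ p = 1) →
  (Nat.card B : ℤ) ∣ p * S.deg

/-- ITEM DC: `theorem prDC (h : StOrb) : StDC` (pure). `T` acts on `H ⧸ G`; the stabiliser of `h G` is
`T ∩ h G h⁻¹`, of the same order as `h⁻¹ T h ∩ G`, so it divides `|N D|`. Apply h with
`(N * D).natAbs` in place of `N` and the constant function `1` (the sum is the index of `G`). -/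
def StDC : Prop := ∀ (H : Type) [Group H] [Finite H] (G T : Subgroup H) (N : ℕ) (D : ℤ),
  (∀ h : H, (Nat.card ((T.map (MulAut.conj h).toMonoidHom ⊓ G : Subgroup H)) : ℤ) ∣ N * D) →
  (Nat.card T : ℤ) ∣ N * (G.index * D)

/-- ITEM Tw: `theorem prTw (h1 : StBD) (h2 : StDC) (h3 : StCard) (h4 : StNrm) : StTw`. h1 for
`B = (conjugate of T6) ⊓ G` (as a subgroup of `G`) and `p = 2`, then h2: `8 ∣ 2 (index * deg)`. In the
same way with `H6` and `p = 3`: `9 ∣ 3 (index * deg)`. -/
def StTw : Prop := ∀ (E : Type) [Field E] [Algebra ℂ E] (G : Subgroup (Equiv.Perm (Fin 6)))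
  (b : G →* (E ≃ₐ[ℂ] E)) (S : LS E G b), FF E → Function.Injective b →
  (12 : ℤ) ∣ G.index * S.deg

/-- ITEM PJ: `theorem prPJ (h1 : StInf) (h2 : StFree) (h3 : StVan) (h4 : StDiv) (h5 : StEInv) : StPJ`.
Choose (h1, h2) places `Q_1, .., Q_j` with trivial stabilisers in `G` and in different `T`-orbits. h3
(for the image in `E` of the eigenspace) gives an eigenvector `w` with `D_w(Q_i) ≥ 1`; `D_w ≥ 0` is
`T`-invariant (h5), so it is at least `1` on the `j |T|` places of the orbits `T Q_i`. -/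
def StPJ : Prop := ∀ (E : Type) [Field E] [Algebra ℂ E] (G : Type) [Group G] [Finite G]
  (b : G →* (E ≃ₐ[ℂ] E)) (S : LS E G b), FF E → Function.Injective b →
  ∀ (T : Subgroup G) (χ : G → ℂ) (j : ℕ), j < Module.finrank ℂ (Eig S.rho T χ) →
  (j : ℤ) * Nat.card T ≤ S.deg

/-- ITEM Bas: `theorem prBas (h1 : StDeg) (h2 : StDiv) : StBas`. `u / v` is not constant, so it is
transcendental (`ℂ` is algebraically closed). `min (D_u) (D_v) = D_v - max (P (v / u)) 0`, and
`∑ max (P (v / u)) 0 = [E : ℂ(v / u)] = [E : ℂ(u / v)]` (h1). -/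
def StBas : Prop := ∀ (E : Type) [Field E] [Algebra ℂ E] (G : Type) [Group G]
  (b : G →* (E ≃ₐ[ℂ] E)) (S : LS E G b), FF E → ∀ u ∈ S.W, ∀ v ∈ S.W, v ≠ 0 →
  (∀ c : ℂ, u ≠ c • v) → Transcendental ℂ (u / v) ∧
  ∑ᶠ P : Pl E, min (S.D u P) (S.D v P) =
    S.deg - (Module.finrank (ℂ⟮u / v⟯ : IntermediateField ℂ E) E : ℤ)

/-- ITEM Fd: `theorem prFd : StFd`. Let `F` be the fixed field of `T` in `E`: `ℂ(f) ≤ F ≤ E` and
`[E : F] = |T|` (Artin, `FixedPoints.finrank_eq_card` or
`IntermediateField.finrank_fixedField_eq_card`; `b` is injective); tower law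
(`Module.finrank_mul_finrank`; it also holds in the infinite case). -/
def StFd : Prop := ∀ (E : Type) [Field E] [Algebra ℂ E] (G : Type) [Group G] [Finite G]
  (b : G →* (E ≃ₐ[ℂ] E)), Function.Injective b → ∀ (T : Subgroup G) (f : E),
  (∀ t ∈ T, b t f = f) → Nat.card T ∣ Module.finrank (ℂ⟮f⟯ : IntermediateField ℂ E) E

/-- ITEM P3: `theorem prP3 (h1 : StBas) (h2 : StFd) (h3 : StDiv) (h4 : StEInv) (h5 : StCyc)
(h6 : StFF1) : StP3`. Let `R` be the eigenspace, `u, v` a basis. `u / v` is `T`-invariant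
(`b t w = e t χ t w`), so `[E : ℂ(u / v)]` is a multiple of `|T|` (h2), it is positive (h6) and at most
`S.deg < 2 |T|` (h1; the minimum of two nonnegative divisors is nonnegative, h3), so
it is `|T|` and `B₀ = min (D_u) (D_v)` has degree `S.deg - |T| > 0`. `B₀(P)` is the minimum of
`D_w(P)` over `w ∈ R`, `w ≠ 0`. `ρ(n)`, `n ∈ N`, maps `R` to `R` (`T` is normalised by `N` and `χ` is
`N`-invariant), so `B₀ (b n • P) = B₀ P` (h3). Let `B₀(P) > 0`: the orbit `N P` has
`|N| / |N_P|` elements, where `B₀ ≥ 1`, and `N_P` is cyclic (h5), generated by some `g`. -/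
def StP3 : Prop := ∀ (E : Type) [Field E] [Algebra ℂ E] (G : Type) [Group G] [Finite G]
  (b : G →* (E ≃ₐ[ℂ] E)) (S : LS E G b), FF E → Function.Injective b →
  ∀ (T N : Subgroup G) (χ : G → ℂ), (∀ n ∈ N, ∀ t ∈ T, n * t * n⁻¹ ∈ T) →
  (∀ n ∈ N, ∀ t ∈ T, χ (n * t * n⁻¹) = χ t) → Module.finrank ℂ (Eig S.rho T χ) = 2 →
  (Nat.card T : ℤ) < S.deg → S.deg < 2 * Nat.card T →
  ∃ g ∈ N, (Nat.card N : ℤ) ≤ orderOf g * (S.deg - Nat.card T)

/-! ### D. Representations -/

/-- ITEM Tr: `theorem prTr : StTr`. `p = |T|⁻¹ ∑_(t ∈ T) χ(t) ρ(t)` (note `χ(t)⁻¹ = χ(t)`) is a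
projection onto `Eig ρ T χ` (`LinearMap.IsProj.trace`), and `ρ(g) p = p` in the second case. -/
def StTr : Prop := ∀ (G : Type) [Group G] [Finite G] (V : Type) [AddCommGroup V] [Module ℂ V]
  [FiniteDimensional ℂ V] (ρ : Representation ℂ G V) (T : Subgroup G) (χ : G → ℂ),
  (∀ s ∈ T, ∀ t ∈ T, χ (s * t) = χ s * χ t) → (∀ t ∈ T, χ t * χ t = 1) →
  (Module.finrank ℂ (Eig ρ T χ) : ℂ) * Nat.card T =
      ∑ᶠ (t : G) (_ : t ∈ T), χ t * LinearMap.trace ℂ V (ρ t) ∧
  ∀ g : G, (∀ v ∈ Eig ρ T χ, ρ g v = v) →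
    ∑ᶠ (t : G) (_ : t ∈ T), χ t * LinearMap.trace ℂ V (ρ (g * t)) =
      ∑ᶠ (t : G) (_ : t ∈ T), χ t * LinearMap.trace ℂ V (ρ t)

/-- ITEM Fix: `theorem prFix : StFix`. `ρ(g)` and `ρ(n)` map the eigenspace `R` to itself:
`ρ(t) ρ(h) v = ρ(h) ρ(h⁻¹ t h) v = χ(t) ρ(h) v`. If `v ≠ 0` then `ρ(g) v = λ v`, `ρ(n) v = μ v`,
`μ ≠ 0`; `λ³ = 1`, and `n g n⁻¹ = g⁻¹` gives `λ = λ⁻¹`: so `λ = 1`. -/
def StFix : Prop := ∀ (G : Type) [Group G] (V : Type) [AddCommGroup V] [Module ℂ V]
  [FiniteDimensional ℂ V] (ρ : Representation ℂ G V) (T : Subgroup G) (χ : G → ℂ) (g n : G),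
  g ^ 3 = 1 → n * g * n⁻¹ = g⁻¹ → (∀ t ∈ T, g⁻¹ * t * g ∈ T ∧ χ (g⁻¹ * t * g) = χ t) →
  (∀ t ∈ T, n⁻¹ * t * n ∈ T ∧ χ (n⁻¹ * t * n) = χ t) → Module.finrank ℂ (Eig ρ T χ) ≤ 1 →
  ∀ v ∈ Eig ρ T χ, ρ g v = v

/-- ITEM CS: `theorem prCS : StCS` (finite check). List the elements of the groups (`T6`: products of
the commuting transpositions `(01)`, `(23)`, `(45)`; `T7 = {1, (01)(23), (02)(13), (03)(12)} × {1,
(45)}`; `H6 = ⟨k1⟩ × ⟨k2⟩`; for instance `(T6 : Set _) = ↑(explicit Finset)` by `decide +kernel` and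
`finsum_mem_coe_finset`), and for every term give an element of the alternating group which
conjugates it to the representative (two elements of the same cycle type, different from the type
`(5, 1)`, are conjugate under the alternating group, because the centraliser contains an odd
permutation; find the conjugating elements with a small program). -/
def StCS : Prop := ∀ X : Equiv.Perm (Fin 6) → ℂ,
  (∀ g ∈ alternatingGroup (Fin 6), ∀ h, X (g * h * g⁻¹) = X h) →
  ∀ d A B C U W Y Z : ℂ, X 1 = d → X (Equiv.swap 0 1) = A →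
  X (Equiv.swap 0 1 * Equiv.swap 2 3) = B →
  X (Equiv.swap 0 1 * Equiv.swap 2 3 * Equiv.swap 4 5) = C → X k1 = U → X (k1 * k2) = W →
  X (k1 * Equiv.swap 4 5) = Y → X (k3 * Equiv.swap 0 1) = Z →
  (∑ᶠ (t) (_ : t ∈ T6), X t = d + 3 * A + 3 * B + C) ∧
  (∑ᶠ (t) (_ : t ∈ T6), sg t * X t = d - 3 * A + 3 * B - C) ∧
  (∑ᶠ (t) (_ : t ∈ T6), (if t 0 = 0 then 1 else -1) * X t = d + A - B - C) ∧
  (∑ᶠ (t) (_ : t ∈ T6), X (k3 * t) = 4 * W + 4 * Z) ∧
  (∑ᶠ (t) (_ : t ∈ T6), sg t * X (k3 * t) = 4 * W - 4 * Z) ∧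
  (∑ᶠ (t) (_ : t ∈ T7), X t = d + A + 3 * B + 3 * C) ∧
  (∑ᶠ (t) (_ : t ∈ T7), sg t * X t = d - A + 3 * B - 3 * C) ∧
  (∑ᶠ (t) (_ : t ∈ T7), X (k1 * t) = 4 * U + 4 * Y) ∧
  (∑ᶠ (t) (_ : t ∈ T7), sg t * X (k1 * t) = 4 * U - 4 * Y) ∧
  (∑ᶠ (t) (_ : t ∈ H6), X t = d + 4 * U + 4 * W) ∧
  (∑ᶠ (t) (_ : t ∈ T6 ⊓ alternatingGroup (Fin 6)), X t = d + 3 * B) ∧
  (∑ᶠ (t) (_ : t ∈ T6 ⊓ alternatingGroup (Fin 6)), X (k3 * t) = 4 * W) ∧
  (∑ᶠ (t) (_ : t ∈ T7 ⊓ alternatingGroup (Fin 6)), X t = d + 3 * B) ∧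
  (∑ᶠ (t) (_ : t ∈ T7 ⊓ alternatingGroup (Fin 6)), X (k1 * t) = 4 * U) ∧
  (∑ᶠ (t) (_ : t ∈ T7 ⊓ alternatingGroup (Fin 6)), (if t 0 = 0 ∨ t 0 = 1 then 1 else -1) * X t =
    d - B)

/-- ITEM R6: `theorem prR6 (h1 : StTr) (h2 : StFix) (h3 : StCS) : StR6`. Let `X g` be the trace of
`ρ g` and `d, A, .., Z` as in h3, `d = dim V`. By h1, h3 the natural numbers `t0, t3` (dimensions of
the eigenspaces of `T6` for `1`, `sg`), `s0, s3` (the same for `T7`), `h0` (`H6`) and `m` (`T6` and the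
character `t ↦ if t 0 = 0 then 1 else -1`) satisfy `8 t0 = d + 3A + 3B + C`,
`8 t3 = d - 3A + 3B - C`, `8 s0 = d + A + 3B + 3C`, `8 s3 = d - A + 3B - 3C`, `8 m = d + A - B - C`,
`9 h0 = d + 4U + 4W`. By h2 (for `T6`: `g = k3`, `n = (02)(13)`; for `T7`: `g = k1`, `n = (01)`; the
characters `1` and `sg`) and the second part of h1: `4W + 4Z = 8 t0`, `4W - 4Z = 8 t3`,
`4U + 4Y = 8 s0`, `4U - 4Y = 8 s3`. So `W = t0 + t3 = (d + 3B) / 4 = s0 + s3 = U =: M`, a natural
number, and `9 h0 = d + 8M` with `h0 ≤ 1`. If `M ≥ 1` then `d ≤ 1`. If `M = 0` then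
`t0 = t3 = s0 = s3 = 0`, so `A = C = 0`, `d = - 3B`, `9 h0 = d`, `8 m = 4 d / 3`: `d = 9` is
impossible, so `d = 0`. -/
def StR6 : Prop := ∀ (V : Type) [AddCommGroup V] [Module ℂ V] [FiniteDimensional ℂ V]
  (ρ : Representation ℂ (Equiv.Perm (Fin 6)) V),
  Module.finrank ℂ (Eig ρ T6 (fun _ => 1)) ≤ 1 → Module.finrank ℂ (Eig ρ T6 sg) ≤ 1 →
  Module.finrank ℂ (Eig ρ T7 (fun _ => 1)) ≤ 1 → Module.finrank ℂ (Eig ρ T7 sg) ≤ 1 →
  Module.finrank ℂ (Eig ρ H6 (fun _ => 1)) ≤ 1 → Module.finrank ℂ V ≤ 1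

/-- ITEM RA: `theorem prRA (h1 : StTr) (h2 : StFix) (h3 : StCS) : StRA`. `X g` is the trace of `ρ g`
for even `g` and `0` for odd `g`; `d = dim V`. By h1, h3 the dimensions `M'` (`T6`), `M` (`T7`) of the
invariants satisfy `4 M = d + 3B = 4 M'`, `b` (`T7` and the character
`t ↦ if t 0 = 0 ∨ t 0 = 1 then 1 else -1`) satisfies `4 b = d - B`, and `9 h0 = d + 4U + 4W` (`H6` is
contained in the alternating group). By h2 (for `T6`: `g = k3`, `n = (02)(13)`; for `T7`: `g = k1`,
`n = (01)(45)`; trivial character) and the second part of h1: `4 W = d + 3B`, `4 U = d + 3B`. So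
`9 h0 = d + 8M`, `h0 ≤ 1`, `M ≤ 1`. If `M = 1` then `d ≤ 1`. If `M = 0` then `B = - d / 3`,
`b = d / 3 ≤ 2` and `9 h0 = d`: `d = 0`. -/
def StRA : Prop := ∀ (V : Type) [AddCommGroup V] [Module ℂ V] [FiniteDimensional ℂ V]
  (ρ : Representation ℂ (alternatingGroup (Fin 6)) V),
  Module.finrank ℂ (Eig ρ (T6.subgroupOf (alternatingGroup (Fin 6))) (fun _ => 1)) ≤ 1 →
  Module.finrank ℂ (Eig ρ (T7.subgroupOf (alternatingGroup (Fin 6))) (fun _ => 1)) ≤ 1 →
  (∀ χ, Module.finrank ℂ (Eig ρ (T7.subgroupOf (alternatingGroup (Fin 6))) χ) ≤ 2) →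
  Module.finrank ℂ (Eig ρ (H6.subgroupOf (alternatingGroup (Fin 6))) (fun _ => 1)) ≤ 1 →
  Module.finrank ℂ V ≤ 1

/-! ### E. Subgroups of the symmetric group on six letters -/

/-- ITEM Card: `theorem prCard : StCard` (finite check; `Nat.card_eq_fintype_card`,
`decide +kernel`, membership in the groups is decidable). -/
def StCard : Prop := Nat.card T6 = 8 ∧ Nat.card T7 = 8 ∧ Nat.card H6 = 9 ∧ Nat.card N6 = 48 ∧
  Nat.card NT = 48 ∧ Nat.card NH = 72 ∧
  Nat.card (T6 ⊓ alternatingGroup (Fin 6) : Subgroup (Equiv.Perm (Fin 6))) = 4 ∧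
  Nat.card (T7 ⊓ alternatingGroup (Fin 6) : Subgroup (Equiv.Perm (Fin 6))) = 4 ∧
  Nat.card (N6 ⊓ alternatingGroup (Fin 6) : Subgroup (Equiv.Perm (Fin 6))) = 24 ∧
  Nat.card (NT ⊓ alternatingGroup (Fin 6) : Subgroup (Equiv.Perm (Fin 6))) = 24 ∧
  H6 ≤ alternatingGroup (Fin 6)

/-- ITEM Nrm: `theorem prNrm : StNrm` (finite check; for the normalisers use the descriptions: an
element of `N6` permutes the pairs, `T6` is the group which fixes all pairs; for `NT`, `NH` check on
the explicit elements of `T7`, `H6`). -/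
def StNrm : Prop := (∀ g ∈ T6, g ^ 2 = 1) ∧ (∀ g ∈ T7, g ^ 2 = 1) ∧ (∀ g ∈ H6, g ^ 3 = 1) ∧
  (∀ g ∈ T6, ∀ h ∈ T6, g * h = h * g) ∧ (∀ g ∈ T7, ∀ h ∈ T7, g * h = h * g) ∧
  (∀ g ∈ H6, ∀ h ∈ H6, g * h = h * g) ∧ (∀ n ∈ N6, ∀ t ∈ T6, n * t * n⁻¹ ∈ T6) ∧
  (∀ n ∈ NT, ∀ t ∈ T7, n * t * n⁻¹ ∈ T7) ∧ (∀ n ∈ NH, ∀ t ∈ H6, n * t * n⁻¹ ∈ H6)

/-- ITEM Ord: `theorem prOrd : StOrd` (one of the first six powers of `g` is `1`; `decide +kernel`). -/
def StOrd : Prop := ∀ g : Equiv.Perm (Fin 6), orderOf g ≤ 6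

/-- ITEM Idx: `theorem prIdx : StIdx`. The normal core of `G` has index at most `4! = 24` (the kernel
of the action on the cosets), and a normal subgroup of the symmetric group on six letters is trivial
or contains the alternating group (see VT/I_Chain.lean); so `G` contains the alternating group and its
index is at most `2`. -/
def StIdx : Prop := ∀ G : Subgroup (Equiv.Perm (Fin 6)), G.index ≠ 3 ∧ G.index ≠ 4

/-- ITEM G6: `theorem prG6 : StG6`. `|G| = 120`; let `z ∈ G` be of order `5` (Cauchy) and `C = ⟨z⟩`,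
a Sylow `5`-subgroup. The normaliser `N` of `C` in the symmetric group has order `20` (there are `36`
such subgroups; or: `z` is a `5`-cycle, conjugate to a fixed one, for which the normaliser can be
listed) and contains `t` with `t z t⁻¹ = z²`. The number of Sylow `5`-subgroups of `G` is
`120 / |N ∩ G|`, it is at least `6` and, by Sylow, it is `1` modulo `5` and divides `24`: so it is `6`,
`|N ∩ G| = 20` and `t ∈ N ≤ G`. -/
def StG6 : Prop := ∀ G : Subgroup (Equiv.Perm (Fin 6)), G.index = 6 →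
  ∃ z ∈ G, ∃ t ∈ G, orderOf z = 5 ∧ t * z * t⁻¹ = z ^ 2

/-- ITEM G60: `theorem prG60 : StG60`. A cyclic Sylow `2`-subgroup has a normal complement `K` (Burnside
transfer: `IsCyclic.isComplement'`, `MonoidHom.ker_transferSylow_isComplement'`, Mathlib's
`Mathlib/GroupTheory/Transfer.lean`), `|K| = 15`, a group of order `15` is cyclic (for instance
because the Sylow subgroups are normal), but no permutation of six letters has order `15`. -/
def StG60 : Prop := ∀ G : Subgroup (Equiv.Perm (Fin 6)), Nat.card G = 60 →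
  ∀ P : Subgroup G, Nat.card P = 4 → ¬ IsCyclic P

/-! ### F. The cases -/

/-- ITEM C1: `theorem prC1 (h1 : StPJ) (h2 : StP3) (h3 : StR6) (h4 : StCard) (h5 : StNrm) (h6 : StOrd) :
StC1`. Suppose `S.deg = 12`; all groups are subgroups of `G = ⊤` (`T6.subgroupOf G`, ...). h1 with
`j = 2`: the eigenspaces of `T6`, `T7` (characters `1`, `sg`) have dimension at most `2`, as
`16 > 12`, and the invariants of `H6` as `18 > 12`. Dimension `2` is impossible by h2 with the
normalisers `N6`, `NT`, `NH`: `48 ≤ 6 (12 - 8)`, `72 ≤ 6 (12 - 9)` are wrong (`sg` is invariant under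
conjugation). h3 for the representation `g ↦ S.rho ⟨g, _⟩` gives `dim W ≤ 1`. -/
def StC1 : Prop := ∀ (E : Type) [Field E] [Algebra ℂ E] (G : Subgroup (Equiv.Perm (Fin 6)))
  (b : G →* (E ≃ₐ[ℂ] E)) (S : LS E G b), FF E → Function.Injective b → G = ⊤ → S.deg ≠ 12

/-- ITEM C2: `theorem prC2 (h1 : StPJ) (h2 : StP3) (h3 : StRA) (h4 : StCard) (h5 : StNrm) (h6 : StOrd) :
StC2`. Suppose `S.deg = 6`. `T6.subgroupOf G`, `T7.subgroupOf G` have order `4`: h1 with `j = 2`: every
eigenspace has dimension at most `2` (`8 > 6`), and dimension `2` is impossible for the trivial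
character by h2 with `N6.subgroupOf G`, `NT.subgroupOf G` of order `24`: `24 ≤ 6 (6 - 4)` is wrong.
`H6.subgroupOf G` has order `9`: h1 with `j = 1`: dimension at most `1` as `9 > 6`. h3 gives
`dim W ≤ 1`. -/
def StC2 : Prop := ∀ (E : Type) [Field E] [Algebra ℂ E] (G : Subgroup (Equiv.Perm (Fin 6)))
  (b : G →* (E ≃ₐ[ℂ] E)) (S : LS E G b), FF E → Function.Injective b →
  G = alternatingGroup (Fin 6) → S.deg ≠ 6

/-- ITEM C6a: `theorem prC6a : StC6a`. `ρ z` satisfies `X^5 = 1` (separable), so it is diagonalisable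
with eigenvalues fifth roots of unity; it is not scalar, so there is an eigenvalue `c ≠ 1` with an
eigenvector `w`. `z² t w = t z w = c t w`, so `z (t w) = z^6 (t w) = c³ (t w)`: the vectors
`w, t w, t² w, t³ w` have the eigenvalues `c, c³, c⁴, c²`, which are different. -/
def StC6a : Prop := ∀ (V : Type) [AddCommGroup V] [Module ℂ V] [FiniteDimensional ℂ V] (G : Type)
  [Group G] (ρ : Representation ℂ G V) (z t : G), z ^ 5 = 1 → t * z * t⁻¹ = z ^ 2 →
  (¬ ∃ c : ℂ, ∀ v, ρ z v = c • v) → ∃ (w : Fin 4 → V) (c : Fin 4 → ℂ),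
    (∀ i, w i ≠ 0 ∧ ρ z (w i) = c i • w i) ∧ Function.Injective c

/-- ITEM C6b: `theorem prC6b (h : StCyc) : StC6b`. `t z³ t⁻¹ = z^6 = z`, so `t⁻¹ z t = z³` and `z`
fixes all `Q i = t^i P`, `i < 4`. If `t^i P = t^j P` with `i < j` then `s = t^(j - i)` fixes `P`; the
stabiliser of `P` is cyclic (h), so commutative, and contains `z`, but `s z s⁻¹ = z^(2^(j - i)) ≠ z`
for `j - i = 1, 2, 3`. -/
def StC6b : Prop := ∀ (E : Type) [Field E] [Algebra ℂ E] (G : Type) [Group G] [Finite G]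
  (b : G →* (E ≃ₐ[ℂ] E)), Function.Injective b → ∀ z t : G, orderOf z = 5 →
  t * z * t⁻¹ = z ^ 2 → ∀ P : Pl E, b z • P = P →
  ∃ Q : Fin 4 → Pl E, Function.Injective Q ∧ ∀ i, b z • Q i = Q i

/-- ITEM C6: `theorem prC6 (h1 : StC6a) (h2 : StC6b) (h3 : StFive) (h4 : StDiv) (h5 : StEInv)
(h6 : StBas) (h7 : StFd) (h8 : StFF1) : StC6`. Suppose `S.deg = 2`. (1) `z` is not scalar on `W`:
otherwise for independent `u, v ∈ W` the function `u / v` is fixed by `z`, so `5 ∣ [E : ℂ(u / v)]` (h7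
for the group generated by `z`), but `0 < [E : ℂ(u / v)]` (h8, h6) and `[E : ℂ(u / v)] ≤ S.deg = 2`
(h6; the minimum of two nonnegative divisors is nonnegative, h4). (2) So h1 gives `w_1, .., w_4 ∈ W`
with different eigenvalues under `z`. `D_i = D_(w_i)` is `z`-invariant (h5 for the group generated by
`z`) of degree `2`, and an orbit of `z` on the places has `1` or `5` elements, so `D_i` is supported in
the set of the places fixed by `z`, which is therefore not empty; by h2 it contains four different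
places. (3) At a place `P` fixed by `z` the four numbers `D_i(P) ≥ 0` are different modulo `5`: for
`i ≠ j` the function `w_i / w_j` is an eigenvector of `b z` with an eigenvalue `≠ 1`, and
`D_i(P) - D_j(P) = P (w_i / w_j)` is not divisible by `5` by h3. So
`∑_i D_i(P) ≥ 0 + 1 + 2 + 3 = 6`, and the sum over four places is at least `24 > 4 * 2`. -/
def StC6 : Prop := ∀ (E : Type) [Field E] [Algebra ℂ E] (G : Type) [Group G] [Finite G]
  (b : G →* (E ≃ₐ[ℂ] E)) (S : LS E G b), FF E → Function.Injective b → ∀ z t : G,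
  orderOf z = 5 → t * z * t⁻¹ = z ^ 2 → S.deg ≠ 2

/-- ITEM C12: `theorem prC12 (h1 : StEig) (h2 : StEInv) (h3 : StDiv) (h4 : StCyc) (h5 : StG60) : StC12`.
Suppose `S.deg = 1`. Let `P` be a subgroup of order `4` (Sylow), it is commutative; an eigenvector
`w ∈ W` of `P` (h1) has a `P`-invariant divisor (h2) of degree `1`, nonnegative, so it is one place
with multiplicity one, fixed by `P`; so `P` is cyclic (h4), against h5. -/
def StC12 : Prop := ∀ (E : Type) [Field E] [Algebra ℂ E] (G : Subgroup (Equiv.Perm (Fin 6)))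
  (b : G →* (E ≃ₐ[ℂ] E)) (S : LS E G b), FF E → Function.Injective b → Nat.card G = 60 →
  S.deg ≠ 1

/-- ITEM Case: `theorem prCase (h1 : StTw) (h2 : StDiv) (h3 : StC1) (h4 : StC2) (h5 : StC6)
(h6 : StC12) (h7 : StIdx) (h8 : StG6) : StCase`. The product is positive (h2) and divisible by `12`
(h1). If it is less than `24` it is `12`, so the index is `1, 2, 3, 4, 6` or `12` and the degree is
`12, 6, 4, 3, 2, 1`: h3, h4 (a subgroup of index `2` is the alternating group:
`Equiv.Perm.eq_alternatingGroup_of_index_eq_two`), h7, h5 with h8, h6. -/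
def StCase : Prop := ∀ (E : Type) [Field E] [Algebra ℂ E] (G : Subgroup (Equiv.Perm (Fin 6)))
  (b : G →* (E ≃ₐ[ℂ] E)) (S : LS E G b), FF E → Function.Injective b →
  (24 : ℤ) ≤ G.index * S.deg

/-! ### G. Galois theory -/

/-- The family of the roots of the general sextic. -/
def Roots (ξ : Fin 6 → Om 6) : Prop := AlgebraicIndependent ℂ ξ ∧
  (∀ y : Om 6, Polynomial.aeval y (gen 6) = 0 ↔ ∃ i, y = ξ i) ∧
  spl 6 = IntermediateField.adjoin ℂ (Set.range ξ) ∧ relfinrank (base 6) (spl 6) = 720 ∧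
  ∀ π : Equiv.Perm (Fin 6), ∃ σ : Om 6 ≃ₐ[K0 6] Om 6, ∀ i, σ (ξ i) = ξ (π i)

/-- ITEM Spl: `theorem prSpl (h : StEmb) : StSpl`. `ξ i = j (x_i)` with `j` from h (`StEmb` is in
VT/Stmts.lean, proved in VT/I_Emb.lean; not needed here). `j` is injective and the `x_i` are
algebraically independent; the image of `j` is `adjoin ℂ (range ξ)` (`RF 6` is generated by the
`x_i`) and contains the image of `K0 6`. The extension `spl 6 / base 6` is Galois (splitting field of
the separable polynomial `gen 6`), an automorphism is determined by the permutation of the `ξ i` and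
all permutations occur: the degree is `720`. -/
def StSpl : Prop := ∃ ξ : Fin 6 → Om 6, Roots ξ

/-- ITEM Gal: `theorem prGal : StGal`. `G` is the set of the permutations `π` such that some
automorphism `σ` of `Om 6` over `K0 6` fixes `K` pointwise and satisfies `σ (ξ i) = ξ (π i)`; `a π` is
the restriction of `σ` to `M` (it does not depend on `σ`, because `M` is generated by `K` and the
`ξ i`; `σ` maps `M` to `M`). `M / K` is Galois (`M` is generated over `K` by the roots of a separable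
polynomial; `Om 6` is algebraically closed, so automorphisms of `M / K` extend), so the fixed field of
`G` is `K` and `[M : K] = |G|`. `M / spl 6` is finite as `K / base 6` is. Tower laws:
`[M : base] = |G| [K : base] = 720 k`, `720 = |G| * index`. (`Subgroup.card_mul_index`,
`relfinrank_mul_relfinrank`.) -/
def StGal : Prop := ∀ ξ : Fin 6 → Om 6, Roots ξ → ∀ K M : IntermediateField ℂ (Om 6),
  base 6 ≤ K → relfinrank (base 6) K ≠ 0 → M = K ⊔ spl 6 →
  ∃ (x : Fin 6 → M) (G : Subgroup (Equiv.Perm (Fin 6))) (a : G →* (M ≃ₐ[ℂ] M)),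
    (∀ i, (x i : Om 6) = ξ i) ∧ AlgebraicIndependent ℂ x ∧
    FiniteDimensional (IntermediateField.adjoin ℂ (Set.range x)) M ∧
    Function.Injective a ∧ (∀ (g : G) (i : Fin 6), a g (x i) = x (g.1 i)) ∧
    (∀ (g : G) (y : M), (y : Om 6) ∈ K → a g y = y) ∧
    (∀ y : M, (∀ g : G, a g y = y) → (y : Om 6) ∈ K) ∧
    G.index * Module.finrank (IntermediateField.adjoin ℂ (Set.range x)) M =
      relfinrank (base 6) K

/-- ITEM E1: `theorem prE1 : StE1`. `E₀ = F(θ_1, .., θ_r)` as `[E₀ : F]` is finite; `E` is generated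
over `ℂ` by all `a g (θ_i)`. It is stable. `a g` fixes `F ≤ K` and maps `θ_i` to an element algebraic
over `F`, so `E` is contained in the algebraic closure of `F` in `M`, whose transcendence degree over
`ℂ` is that of `F`, at most `1`. If `a g` fixes `E` pointwise, then it fixes `F` and the `θ_i`, so
`E₀`, and `K`, so `K ⊔ E₀ = ⊤`. -/
def StE1 : Prop := ∀ (M : Type) [Field M] [Algebra ℂ M] (K F E₀ : IntermediateField ℂ M), F ≤ K →
  F ≤ E₀ → Algebra.trdeg ℂ F ≤ 1 → K ⊔ E₀ = ⊤ → relfinrank F E₀ ≠ 0 →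
  ∀ (A : Type) [Group A] [Finite A] (a : A →* (M ≃ₐ[ℂ] M)), (∀ g, ∀ y ∈ K, a g y = y) →
  ∃ E : IntermediateField ℂ M, E.FG ∧ Algebra.trdeg ℂ E ≤ 1 ∧ (∀ g, ∀ y ∈ E, a g y ∈ E) ∧
    ∀ g, (∀ y ∈ E, a g y = y) → a g = 1

/-- ITEM FG: `theorem prFG : StFG`. `E ≠ ⊥` contains a transcendental element `t` (an algebraic
element is constant); as the transcendence degree is at most one, `E / ℂ(t)` is algebraic, and it is
finitely generated, so finite. -/
def StFG : Prop := ∀ (M : Type) [Field M] [Algebra ℂ M] (E : IntermediateField ℂ M), E.FG →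
  Algebra.trdeg ℂ E ≤ 1 → E ≠ ⊥ → FF E

/-- ITEM Low: `theorem prLow (h1 : StSpl) (h2 : StGal) (h3 : StE1) (h4 : StFG) (h5 : StML)
(h6 : StCase) : StLow`. `M = K ⊔ spl 6`; `ξ`, `x, G, a` from h1, h2. `EdLE K M 1` gives
`F, E₀ ≤ M`; regard them as intermediate fields of `M` (`comap`, `restrict`) and let `E` be given by
h3. If `E = ⊥` then every `a g` is `1`, `G = ⊥`, the index is `720` and `k ≥ 1`. Otherwise `FF E` (h4)
and there is a `Dat 6 G M E`, with `d.b` injective; h5 gives `S`, and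
`24 ≤ index * S.deg ≤ index * k = [K : base]` (h6). -/
def StLow : Prop := ∀ K : IntermediateField ℂ (Om 6), base 6 ≤ K → relfinrank (base 6) K ≠ 0 →
  EdLE K (K ⊔ spl 6) 1 → 24 ≤ relfinrank (base 6) K

/-! ### U. The upper bound -/

/-- ITEM Sp: `theorem prSp : StSp` (Speiser). For `c ∈ L` and `u ∈ ℂ^r` the vector
`∑_g a g c • (ρ g u)` satisfies the equivariance. These vectors span `L^r` over `L`: if a linear form
`f` vanishes on all of them, then `∑_g (a g c) f(ρ g u) = 0` for all `c`, and the independence of the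
`a g` (Dedekind, `linearIndependent_monoidHom`) gives `f(ρ g u) = 0` for all `g`, in particular
`f(u) = 0` for all `u ∈ ℂ^r`, so `f = 0`. A spanning set contains a basis. -/
def StSp : Prop := ∀ (L : Type) [Field L] [Algebra ℂ L] (A : Type) [Group A] [Finite A]
  (a : A →* (L ≃ₐ[ℂ] L)), Function.Injective a → ∀ (r : ℕ) (ρ : A →* Matrix (Fin r) (Fin r) ℂ),
  ∃ v : Fin r → Fin r → L, LinearIndependent L v ∧
    ∀ (j : Fin r) (g : A) (i : Fin r), a g (v j i) = ∑ l, algebraMap ℂ L (ρ g⁻¹ i l) * v j l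

/-- ITEM Ico: `theorem prIco : StIco` (the icosahedral group). Recipe 1: `SL₂(𝔽₅)` permutes the six
lines of `𝔽₅²` (vectors `ℓ_i = (i, 1)`, `i < 5`, and `ℓ_5 = (1, 0)`): `g ℓ_i = s ℓ_(π i)`, and
`D(g)_i = χ(s) = ±1` (quadratic character, `χ(-1) = 1`); the signed permutation matrices
`S(g) e_i = χ(s) e_(π i)` depend only on the image `π` of `g` in the symmetric group; they commute with
the symmetric matrix `C_ij = χ(det(ℓ_i, ℓ_j))`, `C² = 5`. The eigenspace of `C` for `√5` has dimension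
`3`; three of the six coordinates are coordinates on it; `ρ` is the restriction of `S` to it, `Q` the
restriction of `∑ f_i²`. `A` is the image of `SL₂(𝔽₅)` in the symmetric group, of order `60`; it is
simple, isomorphic to the alternating group on `5` letters. Recipe 2: `A` is the alternating group
on five letters (`alternatingGroup.isSimpleGroup_five`) which fixes the last of the six letters, `ρ`
its action on the antisymmetric `5 × 5` matrices `ω` with zero row sums and `⋆ω = c ω`, where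
`(⋆ω)_(ij) = ∑ sign(i j k l m) ω_(kl)` over all `k, l, m` with `{i, j, k, l, m}` everything, and `c` is
one of the two eigenvalues `± 2√5` of `⋆` on the matrices with zero row sums (check the constant);
`Q` is `∑ ω_ij²`. Recipe 3: explicit rotation matrices over `ℚ(√5)` of the icosahedron. The sum of the
`ρ g` is zero because there is no invariant vector (or by computation). -/
def StIco : Prop := ∃ (A : Subgroup (Equiv.Perm (Fin 6))) (ρ : A →* Matrix (Fin 3) (Fin 3) ℂ)
  (Q : Matrix (Fin 3) (Fin 3) ℂ), Nat.card A = 60 ∧ IsSimpleGroup A ∧ Q.transpose = Q ∧ Q ≠ 0 ∧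
  (∀ g, (ρ g).transpose * Q * ρ g = Q) ∧ ∑ᶠ g, ρ g = 0

/-- ITEM Con: `theorem prCon : StCon`. Let `v i₀ ≠ 0`. The field is generated by the two quotients
`v i / v i₀`, `i ≠ i₀`, which satisfy the nonzero (inhomogeneous) quadratic polynomial equation given
by `Q`, so they are algebraically dependent. -/
def StCon : Prop := ∀ (M : Type) [Field M] [Algebra ℂ M] (Q : Matrix (Fin 3) (Fin 3) ℂ)
  (v : Fin 3 → M), Q.transpose = Q → Q ≠ 0 → v ≠ 0 →
  ∑ i, ∑ j, algebraMap ℂ M (Q i j) * (v i * v j) = 0 →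
  Algebra.trdeg ℂ (IntermediateField.adjoin ℂ {y : M | ∃ i j, y = v i / v j}) ≤ 1

/-- ITEM Art: `theorem prArt : StArt`. `F = E ⊓ K` is the fixed field of `A` in `E`. By Artin
`[E : F] = |A|` (`A` acts faithfully on `E`) and `[M : K] = |A|`. `K ⊔ E = M`: by Galois theory for
`M / K` with group `A`, the field `K ⊔ E` corresponds to the subgroup of the `g` which fix it
pointwise, and this is trivial. `trdeg F ≤ trdeg E ≤ 1`. -/
def StArt : Prop := ∀ (Ω : Type) [Field Ω] [Algebra ℂ Ω] (K M E : IntermediateField ℂ Ω), K ≤ M →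
  E ≤ M → ∀ (A : Type) [Group A] [Finite A] (a : A →* (M ≃ₐ[ℂ] M)),
  (∀ (g : A) (y : M), (y : Ω) ∈ K → a g y = y) →
  (∀ y : M, (∀ g : A, a g y = y) → (y : Ω) ∈ K) →
  (∀ (g : A) (y : M), (y : Ω) ∈ E → ((a g y : M) : Ω) ∈ E) →
  (∀ g : A, (∀ y : M, (y : Ω) ∈ E → a g y = y) → g = 1) → Algebra.trdeg ℂ E ≤ 1 → EdLE K M 1

/-- ITEM IsoV: `theorem prIsoV (h1 : StCon) (h2 : StArt) : StIsoV`. `E` is generated by the
`v i / v j` (as a subfield of `M`, mapped to `Ω`). It is stable under `A`, `trdeg E ≤ 1` by h1. The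
`g` which act trivially on `E` form a normal subgroup, so it is trivial or everything. If it is
everything: let `v i₀ ≠ 0` and `λ g = a g (v i₀) / v i₀ ∈ M`; then `a g (v i) = λ g v i` for all `i`,
so `ρ(g⁻¹) v = λ g v` and `λ` is multiplicative; its kernel is trivial or everything; it is not
trivial because `A` is not commutative (a commutative simple group has prime order), so `λ = 1`,
`ρ(g) v = v` for all `g` and `60 v = ∑ ρ(g) v = 0`: contradiction. So `A` acts faithfully on `E` and h2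
applies. -/
def StIsoV : Prop := ∀ (Ω : Type) [Field Ω] [Algebra ℂ Ω] (K M : IntermediateField ℂ Ω), K ≤ M →
  ∀ (A : Type) [Group A] [Finite A] (a : A →* (M ≃ₐ[ℂ] M)) (ρ : A →* Matrix (Fin 3) (Fin 3) ℂ)
  (Q : Matrix (Fin 3) (Fin 3) ℂ) (v : Fin 3 → M), IsSimpleGroup A → Nat.card A = 60 →
  Q.transpose = Q → Q ≠ 0 → ∑ᶠ g, ρ g = 0 →
  (∀ (g : A) (y : M), (y : Ω) ∈ K → a g y = y) →
  (∀ y : M, (∀ g : A, a g y = y) → (y : Ω) ∈ K) → v ≠ 0 →
  (∀ (g : A) (i : Fin 3), a g (v i) = ∑ l, algebraMap ℂ M (ρ g⁻¹ i l) * v l) →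
  ∑ i, ∑ j, algebraMap ℂ M (Q i j) * (v i * v j) = 0 → EdLE K M 1

/-- ITEM UpA: `theorem prUpA (h1 : StSpl) (h2 : StGal) : StUpA`. h2 for `K = base 6` gives the action
`a₀` of the full symmetric group on `spl 6` (index times degree is `1`); `K₁` is the fixed field of
`A`, `a` the restriction of `a₀` to `A`: `[spl 6 : K₁] = 60` (Artin), `[K₁ : base] = 12`. For `t`
as in the statement let `K = K₁ ⊔ ℂ⟮t⟯`: `[K : K₁]` is `1` or `2`. h2 for `K` gives `G`, `a'`. An
element `g ∈ G` fixes `K₁` pointwise, and `a' g` agrees with `a₀ g` on `spl 6 = ℂ(ξ)`, so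
`g ∈ A` (Galois correspondence for `spl 6 / base 6`: the fixer of the fixed field of `A` is `A`). The
index of `G` divides `[K : base] ≤ 24`, so `|G| ≥ 30`, `G ≤ A` has index at most `2` in `A`, so
`G = A` (`A` is simple and a subgroup of index two is normal). -/
def StUpA : Prop := ∀ A : Subgroup (Equiv.Perm (Fin 6)), Nat.card A = 60 → IsSimpleGroup A →
  ∃ (K₁ : IntermediateField ℂ (Om 6)) (a : A →* (spl 6 ≃ₐ[ℂ] spl 6)), base 6 ≤ K₁ ∧
    K₁ ≤ spl 6 ∧ relfinrank (base 6) K₁ = 12 ∧ Function.Injective a ∧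
    (∀ (g : A) (y : spl 6), (y : Om 6) ∈ K₁ → a g y = y) ∧
    (∀ y : spl 6, (∀ g : A, a g y = y) → (y : Om 6) ∈ K₁) ∧
    ∀ (t α β γ : Om 6), α ∈ K₁ → β ∈ K₁ → γ ∈ K₁ → γ ≠ 0 → γ * t ^ 2 + β * t + α = 0 →
      ∀ (K M : IntermediateField ℂ (Om 6)), K = K₁ ⊔ ℂ⟮t⟯ → M = K ⊔ spl 6 →
      (relfinrank (base 6) K = 12 ∨ relfinrank (base 6) K = 24) ∧
      ∃ a' : A →* (M ≃ₐ[ℂ] M),
        (∀ (g : A) (y : spl 6) (z : M), (z : Om 6) = y → ((a' g z : M) : Om 6) = (a g y : spl 6)) ∧
        (∀ (g : A) (y : M), (y : Om 6) ∈ K → a' g y = y) ∧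
        ∀ y : M, (∀ g : A, a' g y = y) → (y : Om 6) ∈ K

/-- ITEM Up: `theorem prUp (h1 : StUpA) (h2 : StSp) (h3 : StIco) (h4 : StIsoV) (h5 : StLow) : StUp`.
`A, ρ, Q` from h3, `K₁, a` from h1, equivariant independent vectors `v_1, v_2` (of three) from h2 for
`L = spl 6`. `q(v, w) = ∑ Q_ij v_i w_j`: `α = q(v_1, v_1)`, `β = 2 q(v_1, v_2)`, `γ = q(v_2, v_2)` are
invariant under `A` (`ρ` preserves `Q`), so in `K₁`. If `γ = 0` then h4 with `K = K₁`, `M = spl 6`,
`v = v_2` gives `EdLE K₁ (spl 6) 1`, and h5 (`K₁ ⊔ spl 6 = spl 6`) gives `24 ≤ 12`. So `γ ≠ 0`, and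
there is `t ∈ Om 6` with `γ t² + β t + α = 0`. `v = v_1 + t v_2 ≠ 0` in `M = K ⊔ spl 6`,
`K = K₁ ⊔ ℂ⟮t⟯`, is equivariant under `a'` (`a' g t = t`) and isotropic; h4 gives `EdLE K M 1`, and
h5 excludes the degree `12`. -/
def StUp : Prop := ∃ K : IntermediateField ℂ (Om 6), base 6 ≤ K ∧ relfinrank (base 6) K = 24 ∧
  EdLE K (K ⊔ spl 6) 1

end

end Pool.Agent.Sextic.AD
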