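import Pool.Agent.Work.MP_8e3fb2_ag.VT.Formula
import Pool.Agent.Work.MP_8e3fb2_ag.AD.Stmts

/-!
# The decisive function of a formula

The theorem of `VT/Formula.lean` (helper62) with more information about the decisive function; the
proof is the one given there.
-/

set_option autoImplicit false

namespace Pool.Agent.Sextic

open IntermediateField XMain

noncomputable section

/-- The theorem for formulas, with the field of transcendence degree at most `d i₀ j₀` which carries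
the decisive function. -/
def StFormula2 : Prop := ∀ (n r : ℕ) (m : ℕ → ℕ) (K L : ℕ → ℕ → IntermediateField ℂ (Om n))
    (d : ℕ → ℕ → ℕ), 5 ≤ n → Formula n r m K L d →
  ∃ i₀ < r, ∃ j₀ < m i₀, n.factorial / 2 ∣ monOrd (K i₀ 0) (L i₀ j₀) ∧
    (∀ p : ℕ, p.Prime → n / p ≤ d i₀ j₀ + ∑ i ∈ Finset.range i₀, ∑ j ∈ Finset.range (m i),
      min (d i j) (padicValNat p (relfinrank (K i j) (K i (j + 1))))) ∧
    (∀ a : K0 n, algebraMap (K0 n) (Om n) a ∈ K i₀ 0) ∧ relfinrank (base n) (K i₀ 0) ≠ 0 ∧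
    ∃ E : IntermediateField ℂ (Om n), Algebra.trdeg ℂ E ≤ d i₀ j₀ ∧
      (fixG (K i₀ 0) ⊓ fixG E : Subgroup (Om n ≃ₐ[K0 n] Om n)).relIndex (fixG (K i₀ 0)) ≠ 0 ∧
      ∀ σ : Om n ≃ₐ[K0 n] Om n, (∀ x ∈ K i₀ 0, σ x = x) → (∀ x ∈ E, σ x ∈ E) ∧
        ((∀ x ∈ E, σ x = x) → ∀ y, Polynomial.aeval y (gen n) = 0 → σ y = y)

open XMain XChain XLay XForm in
theorem prf_Formula2 (h1 : StStep) (h3 : StNC) (h4 : StDec) : StFormula2 := by
  intro n r m K L d hn hS
  -- the fields contain the base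
  have hmono : ∀ i < r, ∀ j ≤ m i, K i 0 ≤ K i j := by
    intro i hi j
    induction j with
    | zero => intro _; exact le_rfl
    | succ j ih =>
      intro hj
      rw [hS.step i hi j hj]
      exact (ih (Nat.le_of_succ_le hj)).trans le_sup_left
  have hbase0 : ∀ i ≤ r, ∀ a : K0 n, algebraMap (K0 n) (Om n) a ∈ K i 0 := by
    intro i
    induction i with
    | zero =>
      intro _ a
      rw [hS.zero]
      exact (⊥ : IntermediateField (K0 n) (Om n)).algebraMap_mem a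
    | succ i ih =>
      intro hi a
      rw [hS.next i hi]
      exact hmono i hi (m i) le_rfl (ih (Nat.le_of_succ_le hi) a)
  have hbase : ∀ i < r, ∀ j ≤ m i, ∀ a : K0 n, algebraMap (K0 n) (Om n) a ∈ K i j :=
    fun i hi j hj a => hmono i hi j hj (hbase0 i hi.le a)
  have hE : ∀ i j, ∃ E : IntermediateField ℂ (Om n), i < r → j < m i →
      Algebra.trdeg ℂ E ≤ d i j ∧
      (∀ σ : Om n ≃ₐ[K0 n] Om n, (∀ x ∈ K i 0, σ x = x) → (∀ x ∈ E, σ x ∈ E) ∧
        ((∀ x ∈ E, σ x = x) → ∀ x ∈ L i j, σ x = x)) ∧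
      monOrd (K i 0) (L i j) ≠ 0 ∧
      (fixG (K i 0) ⊓ fixG E : Subgroup (Om n ≃ₐ[K0 n] Om n)).relIndex (fixG (K i 0)) =
        monOrd (K i 0) (L i j) := by
    intro i j
    by_cases hi : i < r ∧ j < m i
    · obtain ⟨E, hE1, hE2, hE3, hE4⟩ :=
        h3 (K0 n) (Om n) (K i 0) (L i j) (d i j) (hbase0 i hi.1.le) (hS.le i hi.1 j hi.2)
          (hS.ed i hi.1 j hi.2)
      exact ⟨E, fun _ _ => ⟨hE1, hE2, hE3, hE4 _ _ (fun σ => Iff.rfl) (fun σ => Iff.rfl)⟩⟩
    · exact ⟨⊥, fun h h' => absurd ⟨h, h'⟩ hi⟩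
  choose E hE using hE
  -- conjugation
  have hconj : ∀ i < r, ∀ j < m i, ∀ g ∈ (fixG (K i 0) : Subgroup (Om n ≃ₐ[K0 n] Om n)),
      ∀ h : Om n ≃ₐ[K0 n] Om n, (∀ x ∈ E i j, h x = x) → ∀ x ∈ E i j, (g * h * g⁻¹) x = x := by
    intro i hi j hj g hg h hh' x hx
    have h5 : g⁻¹ x ∈ E i j := ((hE i j hi hj).2.1 g⁻¹ (inv_mem hg)).1 x hx
    rw [AlgEquiv.mul_apply, AlgEquiv.mul_apply, hh' _ h5, ← AlgEquiv.mul_apply, mul_inv_cancel,
      AlgEquiv.one_apply]
  -- the permutation representation for one prime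
  obtain ⟨-, -, ρ, ξ, -, -, hξ, hρs, hroot, hρ, -⟩ := @h4 n 2 ⟨Nat.prime_two⟩
  have htriv : ∀ S : Subgroup (Om n ≃ₐ[K0 n] Om n), S.map ρ = ⊥ ↔
      ∀ σ ∈ S, ∀ y, Polynomial.aeval y (gen n) = 0 → σ y = y := by
    intro S
    rw [Subgroup.map_eq_bot_iff]
    constructor
    · intro h σ hσ y hy
      obtain ⟨a, rfl⟩ := (hroot y).1 hy
      rw [hρ, show ρ σ = 1 from h hσ]
      rfl
    · intro h σ hσ
      rw [MonoidHom.mem_ker]
      ext a : 1
      apply hξ
      rw [← hρ]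
      exact h σ hσ _ ((hroot _).2 ⟨a, rfl⟩)
  -- the decisive layer
  have hfixr : ¬ alternatingGroup (Fin n) ≤
      (fixG (K r 0) : Subgroup (Om n ≃ₐ[K0 n] Om n)).map ρ := by
    intro hle
    obtain ⟨y, hy, hy0⟩ := hS.root
    obtain ⟨a, rfl⟩ := (hroot y).1 hy0
    obtain ⟨σ, hσ, hσa⟩ := alt_no_fix hn a
    obtain ⟨σ', hσ', rfl⟩ := hle hσ
    apply hσa
    apply hξ
    rw [← hρ]
    exact hσ' _ hy
  have hfix0 : alternatingGroup (Fin n) ≤
      (fixG (K 0 0) : Subgroup (Om n ≃ₐ[K0 n] Om n)).map ρ := by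
    intro σ _
    obtain ⟨σ', rfl⟩ := hρs σ
    refine Subgroup.mem_map_of_mem ρ ?_
    intro x hx
    rw [hS.zero] at hx
    obtain ⟨a, rfl⟩ := IntermediateField.mem_bot.1
      (show x ∈ (⊥ : IntermediateField (K0 n) (Om n)) from hx)
    exact σ'.commutes a
  obtain ⟨i₀, hi₀, hbig, hnext⟩ : ∃ i₀ < r,
      alternatingGroup (Fin n) ≤ (fixG (K i₀ 0) : Subgroup (Om n ≃ₐ[K0 n] Om n)).map ρ ∧
      ¬ alternatingGroup (Fin n) ≤
        (fixG (K (i₀ + 1) 0) : Subgroup (Om n ≃ₐ[K0 n] Om n)).map ρ := by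
    by_contra hcon
    push Not at hcon
    have hall : ∀ i ≤ r, alternatingGroup (Fin n) ≤
        (fixG (K i 0) : Subgroup (Om n ≃ₐ[K0 n] Om n)).map ρ := by
      intro i
      induction i with
      | zero => intro _; exact hfix0
      | succ i ih => intro hi; exact hcon i hi (ih (Nat.le_of_succ_le hi))
    exact hfixr (hall r le_rfl)
  have hc0 : (fixG (K i₀ 0) : Subgroup (Om n ≃ₐ[K0 n] Om n)).map ρ = ⊤ ∨
      (fixG (K i₀ 0) : Subgroup (Om n ≃ₐ[K0 n] Om n)).map ρ = alternatingGroup (Fin n) ∨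
      (fixG (K i₀ 0) : Subgroup (Om n ≃ₐ[K0 n] Om n)).map ρ = ⊥ := by
    rcases ge_alt hn hbig with h | h
    · exact Or.inl h
    · exact Or.inr (Or.inl h)
  -- the groups inside the decisive layer
  have hlayn : ∀ t ≤ m i₀, ∀ g ∈ (fixG (K i₀ 0) : Subgroup (Om n ≃ₐ[K0 n] Om n)),
      ∀ h ∈ (lay (E i₀) (fixG (K i₀ 0)) t : Subgroup (Om n ≃ₐ[K0 n] Om n)),
        g * h * g⁻¹ ∈ lay (E i₀) (fixG (K i₀ 0)) t := by
    intro t ht g hg h hh'
    rw [mem_lay] at hh' ⊢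
    exact ⟨mul_mem (mul_mem hg hh'.1) (inv_mem hg),
      fun j hj => hconj i₀ hi₀ j (hj.trans_le ht) g hg h (hh'.2 j hj)⟩
  have hlayK : ∀ t ≤ m i₀, (lay (E i₀) (fixG (K i₀ 0)) t : Subgroup (Om n ≃ₐ[K0 n] Om n)) ≤
      fixG (K i₀ t) := by
    intro t
    induction t with
    | zero => intro _; exact le_rfl
    | succ t ih =>
      intro ht σ hσ
      have h5 := ih (Nat.le_of_succ_le ht) hσ.1
      rw [hS.step i₀ hi₀ t ht]
      have h6 := fix_sup σ (K i₀ t) (fun _ : Unit => L i₀ t) h5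
        (fun _ => ((hE i₀ t hi₀ ht).2.1 σ (mem_lay.1 hσ).1).2 hσ.2)
      rw [iSup_const] at h6
      exact h6
  -- the decisive function
  obtain ⟨j₀, hj₀, hdec0⟩ : ∃ j₀ < m i₀,
      (fixG (K i₀ 0) ⊓ fixG (E i₀ j₀) : Subgroup (Om n ≃ₐ[K0 n] Om n)).map ρ = ⊥ := by
    by_contra hcon
    push Not at hcon
    have hall : ∀ t ≤ m i₀, alternatingGroup (Fin n) ≤
        (lay (E i₀) (fixG (K i₀ 0)) t : Subgroup (Om n ≃ₐ[K0 n] Om n)).map ρ := by
      intro t
      induction t with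
      | zero => intro _; exact hbig
      | succ t ih =>
        intro ht
        have hU : alternatingGroup (Fin n) ≤
            (fixG (K i₀ 0) ⊓ fixG (E i₀ t) : Subgroup (Om n ≃ₐ[K0 n] Om n)).map ρ := by
          rcases step hn hc0 (Subgroup.map_mono (f := ρ)
            (inf_le_left : fixG (K i₀ 0) ⊓ fixG (E i₀ t) ≤ fixG (K i₀ 0))) (by
              rintro g ⟨g', hg', rfl⟩ h ⟨h', hh', rfl⟩
              refine ⟨g' * h' * g'⁻¹, ⟨mul_mem (mul_mem hg' hh'.1)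
                ((fixG (K i₀ 0)).inv_mem hg'), ?_⟩, by simp⟩
              exact hconj i₀ hi₀ t ht g' hg' h' hh'.2) with h | h | h
          · rw [h]; exact le_top
          · rw [h]
          · exact absurd h (hcon t ht)
        have hne : (lay (E i₀) (fixG (K i₀ 0)) (t + 1) :
            Subgroup (Om n ≃ₐ[K0 n] Om n)).map ρ ≠ ⊥ := by
          refine not_commute hn (ih (Nat.le_of_succ_le ht)) hU ?_
          rintro g ⟨g', hg', rfl⟩ h ⟨h', hh', rfl⟩
          have hg'' := (mem_lay.1 hg').1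
          refine ⟨g' * h' * g'⁻¹ * h'⁻¹, ⟨?_, ?_⟩, by simp⟩
          · have h6 := hlayn t (Nat.le_of_succ_le ht) h' hh'.1 _ (inv_mem hg')
            have h7 : g' * h' * g'⁻¹ * h'⁻¹ = g' * (h' * g'⁻¹ * h'⁻¹) := by group
            rw [h7]
            exact mul_mem hg' h6
          · exact mul_mem (show g' * h' * g'⁻¹ ∈ fixG (E i₀ t) from
              hconj i₀ hi₀ t ht g' hg'' h' hh'.2) ((fixG (E i₀ t)).inv_mem hh'.2)
        rcases step hn hc0
          (Q := (lay (E i₀) (fixG (K i₀ 0)) (t + 1) : Subgroup (Om n ≃ₐ[K0 n] Om n)).map ρ)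
          (Subgroup.map_mono (fun σ hσ => (mem_lay.1 hσ).1)) (by
            rintro g ⟨g', hg', rfl⟩ h ⟨h', hh', rfl⟩
            exact ⟨g' * h' * g'⁻¹, hlayn (t + 1) ht g' hg' h' hh', by simp⟩) with h | h | h
        · rw [h]; exact le_top
        · rw [h]
        · exact absurd h hne
    apply hnext
    refine (hall (m i₀) le_rfl).trans (Subgroup.map_mono ?_)
    rw [hS.next i₀ hi₀]
    exact hlayK (m i₀) le_rfl
  -- the degrees are finite
  have hstep0 : ∀ i < r, ∀ j < m i, relfinrank (K i j) (K i (j + 1)) ≠ 0 := by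
    intro i hi j hj
    obtain ⟨hE1, hE2, hE3, hE4⟩ := hE i j hi hj
    have hMM : K i j ≤ K i (j + 1) := by
      rw [hS.step i hi j hj]
      exact le_sup_left
    have hEM : (fixG (K i j) ⊓ fixG (E i j) : Subgroup (Om n ≃ₐ[K0 n] Om n)) ≤
        fixG (K i (j + 1)) := by
      intro σ hσ
      rw [hS.step i hi j hj]
      have h6 := fix_sup σ (K i j) (fun _ : Unit => L i j) hσ.1
        (fun _ => (hE2 σ (fun x hx => hσ.1 x (hmono i hi j hj.le hx))).2 hσ.2)
      rw [iSup_const] at h6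
      exact h6
    have hle : (fixG (K i j) : Subgroup (Om n ≃ₐ[K0 n] Om n)) ≤ fixG (K i 0) :=
      fun σ hσ x hx => hσ x (hmono i hi j hj.le hx)
    rw [← relIndex_fixG (K i j) (K i (j + 1)) (hbase i hi j hj.le) hMM]
    intro h
    have h2 := Subgroup.relIndex_eq_zero_of_le_left hEM h
    have h3 : (fixG (K i 0) ⊓ fixG (E i j) : Subgroup (Om n ≃ₐ[K0 n] Om n)).relIndex
        (fixG (K i j)) = 0 := by
      have h4 : (fixG (K i j) ⊓ fixG (E i j) : Subgroup (Om n ≃ₐ[K0 n] Om n)) =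
          (fixG (K i 0) ⊓ fixG (E i j)) ⊓ fixG (K i j) := by
        ext σ
        constructor
        · intro h
          exact ⟨⟨hle h.1, h.2⟩, h.1⟩
        · intro h
          exact ⟨h.2, h.1.2⟩
      rw [h4, Subgroup.inf_relIndex_right] at h2
      exact h2
    have h5 := Subgroup.relIndex_eq_zero_of_le_right hle h3
    exact hE3 (hE4 ▸ h5)
  have hbase_le : ∀ i ≤ r, base n ≤ K i 0 := by
    intro i hi y hy
    obtain ⟨a, rfl⟩ := IntermediateField.mem_bot.1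
      (show y ∈ (⊥ : IntermediateField (K0 n) (Om n)) from hy)
    exact hbase0 i hi a
  have hdeg0 : ∀ i ≤ r, relfinrank (base n) (K i 0) ≠ 0 := by
    intro i
    induction i with
    | zero =>
      intro _
      rw [hS.zero, relfinrank_self]
      exact one_ne_zero
    | succ i ih =>
      intro hi
      have hi' : i < r := hi
      have h6 : ∀ t ≤ m i, relfinrank (base n) (K i t) ≠ 0 := by
        intro t
        induction t with
        | zero => intro _; exact ih hi'.le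
        | succ t iht =>
          intro ht
          have h7 : K i t ≤ K i (t + 1) := by
            rw [hS.step i hi' t ht]
            exact le_sup_left
          rw [← relfinrank_mul_relfinrank
            ((hbase_le i hi'.le).trans (hmono i hi' t (Nat.le_of_succ_le ht))) h7]
          exact mul_ne_zero (iht (Nat.le_of_succ_le ht)) (hstep0 i hi' t ht)
      rw [hS.next i hi']
      exact h6 (m i) le_rfl
  refine ⟨i₀, hi₀, j₀, hj₀, ?_, ?_, hbase0 i₀ hi₀.le, hdeg0 i₀ hi₀.le, E i₀ j₀,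
    (hE i₀ j₀ hi₀ hj₀).1, ?_, ?_⟩
  rotate_left 2
  · rw [(hE i₀ j₀ hi₀ hj₀).2.2.2]
    exact (hE i₀ j₀ hi₀ hj₀).2.2.1
  · intro σ hσ
    refine ⟨((hE i₀ j₀ hi₀ hj₀).2.1 σ hσ).1, fun hσE y hy => ?_⟩
    exact (htriv _).1 hdec0 σ ⟨hσ, hσE⟩ y hy
  · -- the order of the monodromy group
    obtain ⟨hE1, hE2, hE3, hE4⟩ := hE i₀ j₀ hi₀ hj₀
    have h6 : (fixG (K i₀ 0) ⊓ fixG (E i₀ j₀) : Subgroup (Om n ≃ₐ[K0 n] Om n)) ≤ ρ.ker := by
      rw [← Subgroup.map_eq_bot_iff]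
      exact hdec0
    have h8 : Nat.card ((fixG (K i₀ 0) : Subgroup (Om n ≃ₐ[K0 n] Om n)).map ρ) ∣
        monOrd (K i₀ 0) (L i₀ j₀) := by
      rw [← Subgroup.relIndex_ker, ← hE4]
      exact Subgroup.relIndex_dvd_of_le_left _ h6
    refine dvd_trans ?_ h8
    have h9 := Subgroup.card_dvd_of_le hbig
    have : Nontrivial (Fin n) := Fin.nontrivial_iff_two_le.mpr (by omega)
    rw [nat_card_alternatingGroup, Nat.card_fin] at h9
    exact h9
  -- counting
  intro p hp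
  have : Fact p.Prime := ⟨hp⟩
  obtain ⟨V, hh, ρ', ξ', hV, hhinj, hξ', hρs', hroot', hρ', hdec'⟩ := h4 n p
  have hRp : ∀ π ∈ hh.range, π ^ p = 1 := by
    rintro _ ⟨v, rfl⟩
    rw [← map_pow]
    have h5 : v ^ p = 1 := by
      apply Multiplicative.toAdd.injective
      rw [toAdd_pow, toAdd_one]
      funext b
      simp
    rw [h5, map_one]
  have hB0 : ((⊤ : Subgroup (Om n ≃ₐ[K0 n] Om n)) ⊓ (decG V ⊓ hh.range.comap ρ')).map ρ' =
      hh.range := by
    apply le_antisymm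
    · rintro _ ⟨σ, hσ, rfl⟩
      exact hσ.2.2
    · rintro _ ⟨v, rfl⟩
      obtain ⟨σ, hσ1, hσ2⟩ := hdec' v
      exact ⟨σ, ⟨Subgroup.mem_top σ, hσ1, ⟨v, hσ2.symm⟩⟩, hσ2⟩
  have hc0 : Nat.card (((⊤ : Subgroup (Om n ≃ₐ[K0 n] Om n)) ⊓
      (decG V ⊓ hh.range.comap ρ')).map ρ') = p ^ (n / p) := by
    rw [hB0, Nat.card_congr (MonoidHom.ofInjective hhinj).toEquiv.symm]
    simp [Nat.card_eq_fintype_card, Fintype.card_multiplicative]
  have hbig0 : Big n p ρ' (K 0 0) 0 := by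
    refine ⟨V, (⊤ : Subgroup (Om n ≃ₐ[K0 n] Om n)) ⊓ (decG V ⊓ hh.range.comap ρ'), hV, ?_,
      fun σ hσ => hσ.2.1, fun σ hσ => hRp _ hσ.2.2, ?_⟩
    · intro σ _ x hx
      rw [hS.zero] at hx
      obtain ⟨a, rfl⟩ := IntermediateField.mem_bot.1
        (show x ∈ (⊥ : IntermediateField (K0 n) (Om n)) from hx)
      exact σ.commutes a
    · rw [hc0, pow_zero, one_mul]
  -- one layer
  have hlayer : ∀ i < r, ∀ c, Big n p ρ' (K i 0) c → ∀ t ≤ m i, Big n p ρ' (K i t)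
      (c + ∑ j ∈ Finset.range t, min (d i j) (padicValNat p (relfinrank (K i j)
        (K i (j + 1))))) := by
    intro i hi c hc t
    induction t with
    | zero => intro _; simpa using hc
    | succ t ih =>
      intro ht
      obtain ⟨hE1, hE2, hE3, hE4⟩ := hE i t hi ht
      rw [Finset.sum_range_succ, ← add_assoc]
      refine big_step h1 hp ρ' (K i 0) (K i t) (K i (t + 1)) (E i t) _ (d i t) _ hE1
        (fun σ hσ => (hE2 σ hσ).1) hE3 hE4 (hmono i hi t (Nat.le_of_succ_le ht)) ?_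
        (hbase i hi t (Nat.le_of_succ_le ht)) ?_ (ih (Nat.le_of_succ_le ht))
      · rw [hS.step i hi t ht]
        exact le_sup_left
      · intro σ hσ
        rw [hS.step i hi t ht]
        have h6 := fix_sup σ (K i t) (fun _ : Unit => L i t) hσ.1
          (fun _ => (hE2 σ (fun x hx => hσ.1 x (hmono i hi t (Nat.le_of_succ_le ht) hx))).2 hσ.2)
        rw [iSup_const] at h6
        exact h6
  have hall : ∀ i ≤ r, Big n p ρ' (K i 0) (∑ i' ∈ Finset.range i, ∑ j ∈ Finset.range (m i'),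
      min (d i' j) (padicValNat p (relfinrank (K i' j) (K i' (j + 1))))) := by
    intro i
    induction i with
    | zero => intro _; simpa using hbig0
    | succ i ih =>
      intro hi
      rw [Finset.sum_range_succ, hS.next i hi]
      exact hlayer i hi _ (ih (Nat.le_of_succ_le hi)) (m i) le_rfl
  obtain ⟨V₂, B, hV₂, hBK, hBV, hBp, hB⟩ := hall i₀ hi₀.le
  obtain ⟨hE1, hE2, hE3, hE4⟩ := hE i₀ j₀ hi₀ hj₀
  obtain ⟨-, hlast⟩ := use_step h1 hp V₂ hV₂ ρ' (K i₀ 0) (E i₀ j₀) _ (d i₀ j₀) hE1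
    (fun σ hσ => (hE2 σ hσ).1) hE3 hE4 B hBK hBV hBp
  have hbot : ((B ⊓ fixG (E i₀ j₀)).map ρ') = ⊥ := by
    rw [Subgroup.map_eq_bot_iff]
    intro σ hσ
    rw [MonoidHom.mem_ker]
    ext a : 1
    apply hξ'
    rw [← hρ']
    exact (htriv _).1 hdec0 σ ⟨hBK hσ.1, hσ.2⟩ _ ((hroot' _).2 ⟨a, rfl⟩)
  rw [hbot, Subgroup.card_bot, mul_one] at hlast
  have hfin := hB.trans (Nat.mul_le_mul_left _ hlast)
  rw [← pow_add] at hfin
  have hfin' := (Nat.pow_le_pow_iff_right hp.one_lt).1 hfin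
  rw [add_comm] at hfin'
  exact hfin'

end

end Pool.Agent.Sextic
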