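import Pool.Agent.Work.MP_8e3fb2_ag.AD.Stmts

set_option autoImplicit false

/-!
# Item C6a: four eigenvectors of an element of order five
-/

namespace Pool.Agent.Sextic.AD

theorem C6a_step {V : Type} [AddCommGroup V] [Module ℂ V] {G : Type} [Group G]
    (ρ : Representation ℂ G V) (z t : G) (hz : z ^ 5 = 1) (ht : t * z * t⁻¹ = z ^ 2) (d : ℂ) (x : V)
    (hx : ρ z x = d • x) : ρ z (ρ t x) = d ^ 3 • ρ t x := by
  have h1 : z * t = t * z ^ 3 := by
    have h2 : (t * z * t⁻¹) ^ 3 = t * z ^ 3 * t⁻¹ := by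
      rw [conj_pow]
    rw [ht, ← pow_mul] at h2
    have h3 : z ^ (2 * 3) = z := by
      calc z ^ (2 * 3) = z ^ 5 * z := by rw [← pow_succ]
        _ = z := by rw [hz, one_mul]
    rw [h3] at h2
    calc z * t = (t * z ^ 3 * t⁻¹) * t := by rw [← h2]
      _ = t * z ^ 3 := by group
  have h4 : ρ z (ρ t x) = ρ t (ρ (z ^ 3) x) := by
    rw [← Module.End.mul_apply, ← Module.End.mul_apply, ← map_mul, ← map_mul, h1]
  have h5 : ρ (z ^ 3) x = d ^ 3 • x := by
    have h6 : z ^ 3 = z * (z * z) := by rw [pow_succ, pow_two, mul_assoc]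
    rw [h6, map_mul, map_mul, Module.End.mul_apply, Module.End.mul_apply, hx, map_smul, hx,
      map_smul, map_smul, hx, smul_smul, smul_smul]
    congr 1
    ring
  rw [h4, h5, map_smul]

theorem C6a_ev {V : Type} [AddCommGroup V] [Module ℂ V] [FiniteDimensional ℂ V]
    (A : Module.End ℂ V) (hA : A ^ 5 = 1) (hne : A ≠ 1) :
    ∃ (w : V) (c : ℂ), w ≠ 0 ∧ A w = c • w ∧ c ^ 5 = 1 ∧ c ≠ 1 := by
  let S : Module.End ℂ V := 1 + A + A ^ 2 + A ^ 3 + A ^ 4
  have hS : S = 1 + A + A ^ 2 + A ^ 3 + A ^ 4 := rfl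
  have hSA : S * (A - 1) = 0 := by
    have h1 : S * (A - 1) = A ^ 5 - 1 := by
      rw [hS]
      noncomm_ring
    rw [h1, hA, sub_self]
  have hcomm : A * S = S * A := by
    rw [hS]
    noncomm_ring
  have hinv : ∀ x ∈ LinearMap.ker S, A x ∈ LinearMap.ker S := by
    intro x hx
    rw [LinearMap.mem_ker] at hx ⊢
    rw [← Module.End.mul_apply, ← hcomm, Module.End.mul_apply, hx, map_zero]
  obtain ⟨v, hv⟩ : ∃ v, A v ≠ v := by
    by_contra h
    push Not at h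
    exact hne (LinearMap.ext h)
  have hu : A v - v ∈ LinearMap.ker S := by
    rw [LinearMap.mem_ker]
    have h2 := LinearMap.congr_fun hSA v
    rw [Module.End.mul_apply, LinearMap.sub_apply, Module.End.one_apply] at h2
    exact h2
  have hnt : Nontrivial (LinearMap.ker S) :=
    ⟨⟨⟨A v - v, hu⟩, 0, fun h => hv (sub_eq_zero.mp (congrArg Subtype.val h))⟩⟩
  obtain ⟨c, hc⟩ := Module.End.exists_eigenvalue (A.restrict hinv)
  obtain ⟨w, hw⟩ := hc.exists_hasEigenvector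
  have hw1 : A w.1 = c • w.1 := congrArg Subtype.val hw.apply_eq_smul
  have hw0 : w.1 ≠ 0 := fun h => hw.2 (Subtype.ext h)
  have hwS : S w.1 = (1 + c + c ^ 2 + c ^ 3 + c ^ 4) • w.1 := by
    have e2 : (A ^ 2) w.1 = c ^ 2 • w.1 := by
      rw [pow_two, Module.End.mul_apply, hw1, map_smul, hw1, smul_smul, pow_two]
    have e3 : (A ^ 3) w.1 = c ^ 3 • w.1 := by
      rw [pow_succ, Module.End.mul_apply, hw1, map_smul, e2, smul_smul]
      congr 1
      ring
    have e4 : (A ^ 4) w.1 = c ^ 4 • w.1 := by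
      rw [pow_succ, Module.End.mul_apply, hw1, map_smul, e3, smul_smul]
      congr 1
      ring
    change (1 + A + A ^ 2 + A ^ 3 + A ^ 4 : Module.End ℂ V) w.1 = _
    rw [LinearMap.add_apply, LinearMap.add_apply, LinearMap.add_apply, LinearMap.add_apply,
      Module.End.one_apply, hw1, e2, e3, e4, add_smul, add_smul, add_smul, add_smul, one_smul]
  have h0 : (1 + c + c ^ 2 + c ^ 3 + c ^ 4) = 0 := by
    have h3 := w.2
    rw [LinearMap.mem_ker, hwS] at h3
    exact (smul_eq_zero.mp h3).resolve_right hw0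
  refine ⟨w.1, c, hw0, hw1, ?_, ?_⟩
  · have h4 : c ^ 5 - 1 = (1 + c + c ^ 2 + c ^ 3 + c ^ 4) * (c - 1) := by ring
    rw [h0, zero_mul] at h4
    exact sub_eq_zero.mp h4
  · rintro rfl
    norm_num at h0

theorem prC6a : StC6a := by
  intro V _ _ _ G _ ρ z t hz ht hns
  have hne : ρ z ≠ 1 := by
    intro h
    exact hns ⟨1, fun v => by rw [h, one_smul, Module.End.one_apply]⟩
  obtain ⟨w, c, hw0, hw, hc5, hc1⟩ := C6a_ev (ρ z) (by rw [← map_pow, hz, map_one]) hne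
  have hprim : IsPrimitiveRoot c 5 := by
    have : Fact (Nat.Prime 5) := ⟨by norm_num⟩
    have h := IsPrimitiveRoot.orderOf c
    rwa [orderOf_eq_prime hc5 hc1] at h
  have e1 := C6a_step ρ z t hz ht c w hw
  have e2 := C6a_step ρ z t hz ht _ _ e1
  have e3 := C6a_step ρ z t hz ht _ _ e2
  have h9 : (c ^ 3) ^ 3 = c ^ 4 := by
    calc (c ^ 3) ^ 3 = c ^ 5 * c ^ 4 := by ring
      _ = c ^ 4 := by rw [hc5, one_mul]
  rw [h9] at e2 e3
  have h12 : (c ^ 4) ^ 3 = c ^ 2 := by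
    calc (c ^ 4) ^ 3 = c ^ 5 * c ^ 5 * c ^ 2 := by ring
      _ = c ^ 2 := by rw [hc5, one_mul, one_mul]
  rw [h12] at e3
  have hinj : ∀ x : V, x ≠ 0 → ρ t x ≠ 0 := by
    intro x hx h
    apply hx
    have h1 : ρ t⁻¹ (ρ t x) = x := by
      rw [← Module.End.mul_apply, ← map_mul, inv_mul_cancel, map_one, Module.End.one_apply]
    rw [← h1, h, map_zero]
  refine ⟨![w, ρ t w, ρ t (ρ t w), ρ t (ρ t (ρ t w))], ![c, c ^ 3, c ^ 4, c ^ 2], ?_, ?_⟩
  · intro i
    fin_cases i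
    · exact ⟨hw0, hw⟩
    · exact ⟨hinj _ hw0, e1⟩
    · exact ⟨hinj _ (hinj _ hw0), e2⟩
    · exact ⟨hinj _ (hinj _ (hinj _ hw0)), e3⟩
  · have hx : ∀ i : Fin 4, (![c, c ^ 3, c ^ 4, c ^ 2] : Fin 4 → ℂ) i =
        c ^ ((![1, 3, 4, 2] : Fin 4 → ℕ) i) := by
      intro i
      fin_cases i
      · exact (pow_one c).symm
      · rfl
      · rfl
      · rfl
    intro i j hij
    rw [hx i, hx j] at hij
    have hlt : ∀ i : Fin 4, (![1, 3, 4, 2] : Fin 4 → ℕ) i < 5 := by decide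
    have h1 := hprim.pow_inj (hlt i) (hlt j) hij
    have h2 : ∀ i j : Fin 4, (![1, 3, 4, 2] : Fin 4 → ℕ) i = (![1, 3, 4, 2] : Fin 4 → ℕ) j →
        i = j := by decide
    exact h2 i j h1

end Pool.Agent.Sextic.AD
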