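import Pool.Agent.Work.MP_8e3fb2_ag.AD.Stmts

set_option autoImplicit false

/-!
# Block AD, item DedP: the place of a prime ideal of a Dedekind domain
-/

namespace Pool.Agent.Sextic.AD

open IsDedekindDomain WithZero

noncomputable section

/-- The additive valuation of a prime. -/
def DedP_val {O : Type} (E : Type) [CommRing O] [IsDedekindDomain O] [Field E] [Algebra O E]
    [IsFractionRing O E] (v : HeightOneSpectrum O) (f : E) : ℤ :=
  - log (v.valuation E f)

section

variable {O E : Type} [CommRing O] [IsDedekindDomain O] [Field E] [Algebra O E]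
  [IsFractionRing O E] (v : HeightOneSpectrum O)

theorem DedP_ne {f : E} (hf : f ≠ 0) : v.valuation E f ≠ 0 := by
  rw [Valuation.ne_zero_iff]
  exact hf

theorem DedP_pos {f : E} (hf : f ≠ 0) : 0 < DedP_val E v f ↔ v.valuation E f < 1 := by
  unfold DedP_val
  rw [← log_lt_log (DedP_ne v hf) one_ne_zero, log_one]
  omega

theorem DedP_nonneg {f : E} (hf : f ≠ 0) : 0 ≤ DedP_val E v f ↔ v.valuation E f ≤ 1 := by
  unfold DedP_val
  rw [← log_le_log (DedP_ne v hf) one_ne_zero, log_one]
  omega

theorem DedP_isPl [Algebra ℂ O] [Algebra ℂ E] [IsScalarTower ℂ O E]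
    (hres : ∀ y : O, ∃ c : ℂ, y - algebraMap ℂ O c ∈ v.asIdeal) :
    IsPl (DedP_val E v) := by
  have hmul : ∀ f g : E, f ≠ 0 → g ≠ 0 →
      DedP_val E v (f * g) = DedP_val E v f + DedP_val E v g := by
    intro f g hf hg
    unfold DedP_val
    rw [map_mul, log_mul (DedP_ne v hf) (DedP_ne v hg)]
    ring
  refine ⟨?_, hmul, ?_, ?_, ?_, ?_⟩
  · unfold DedP_val
    rw [map_zero, log_zero, neg_zero]
  · intro f g hf hg hfg
    have h := (v.valuation E).map_add f g
    unfold DedP_val
    rcases le_max_iff.1 h with h | h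
    · have h1 := (log_le_log (DedP_ne v hfg) (DedP_ne v hf)).2 h
      exact (min_le_left _ _).trans (neg_le_neg h1)
    · have h1 := (log_le_log (DedP_ne v hfg) (DedP_ne v hg)).2 h
      exact (min_le_right _ _).trans (neg_le_neg h1)
  · intro c
    by_cases hc : c = 0
    · rw [hc, map_zero]
      unfold DedP_val
      rw [map_zero, log_zero, neg_zero]
    · have h1 : ∀ a : ℂ, 0 ≤ DedP_val E v (algebraMap ℂ E a) := by
        intro a
        by_cases ha : a = 0
        · rw [ha, map_zero]
          unfold DedP_val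
          rw [map_zero, log_zero, neg_zero]
        · rw [DedP_nonneg v (by rw [Ne, map_eq_zero]; exact ha),
            IsScalarTower.algebraMap_apply ℂ O E]
          exact v.valuation_le_one _
      have h2 := hmul (algebraMap ℂ E c) (algebraMap ℂ E c⁻¹) (by rw [Ne, map_eq_zero]; exact hc)
        (by rw [Ne, map_eq_zero]; exact inv_ne_zero hc)
      rw [← map_mul, mul_inv_cancel₀ hc, map_one] at h2
      have h3 : DedP_val E v 1 = 0 := by
        unfold DedP_val
        rw [map_one, log_one, neg_zero]
      have h4 := h1 c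
      have h5 := h1 c⁻¹
      omega
  · obtain ⟨π, hπ⟩ := v.valuation_exists_uniformizer E
    refine ⟨π, ?_, ?_⟩
    · rintro rfl
      rw [map_zero] at hπ
      exact exp_ne_zero hπ.symm
    · unfold DedP_val
      rw [hπ, log_exp, neg_neg]
  · intro f hf h
    have h1 : v.valuation E f ≤ 1 := (DedP_nonneg v hf).1 h.ge
    obtain ⟨a, ha⟩ := v.exists_valuation_sub_lt_of_integer h1 1
    obtain ⟨c, hc⟩ := hres a
    refine ⟨c, ?_⟩
    by_cases hfc : f = algebraMap ℂ E c
    · exact Or.inl hfc
    · right
      rw [DedP_pos v (sub_ne_zero.2 hfc)]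
      have h2 : v.valuation E (algebraMap O E (a - algebraMap ℂ O c)) < 1 :=
        (v.valuation_lt_one_iff_mem _).2 hc
      rw [map_sub, ← IsScalarTower.algebraMap_apply ℂ O E] at h2
      have h3 : f - algebraMap ℂ E c =
          (algebraMap O E a - algebraMap ℂ E c) - (algebraMap O E a - f) := by ring
      rw [h3]
      refine lt_of_le_of_lt ((v.valuation E).map_sub _ _) (max_lt h2 ?_)
      rwa [Units.val_one] at ha

theorem DedP_cnt (y : O) (hy : y ≠ 0) :
    DedP_val E v (algebraMap O E y) = cnt v.asIdeal y := by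
  classical
  have hI : Ideal.span {y} ≠ (0 : Ideal O) := by
    rw [Ne, Ideal.zero_eq_bot, Ideal.span_singleton_eq_bot]
    exact hy
  unfold DedP_val cnt
  rw [v.valuation_of_algebraMap, v.intValuation_if_neg hy, log_exp, neg_neg,
    Ideal.count_associates_factors_eq hI v.isPrime v.ne_bot]

end

theorem prDedP : StDedP := by
  intro O E _ _ _ _ _ _ _ _ hres p hp hp0
  let v : HeightOneSpectrum O := ⟨p, hp, hp0⟩
  have hmax : p.IsMaximal := hp.isMaximal hp0
  exact ⟨⟨DedP_val E v, DedP_isPl v fun y => hres p hmax y⟩, fun y hy => DedP_cnt v y hy⟩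

end

end Pool.Agent.Sextic.AD
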