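import Pool.Agent.Work.MP_8e3fb2_ag.AD.Stmts

set_option autoImplicit false

/-!
# Item Fd: the order of a group of automorphisms fixing `f` divides the degree over `ℂ(f)`
-/

namespace Pool.Agent.Sextic.AD

open IntermediateField

noncomputable section

private theorem Fd_card {E : Type} [Field E] [Algebra ℂ E] (H : Subgroup (E ≃ₐ[ℂ] E)) [Finite H] :
    Module.finrank (IntermediateField.fixedField H) E = Nat.card H := by
  have := Fintype.ofFinite H
  rw [Nat.card_eq_fintype_card]
  exact FixedPoints.finrank_eq_card H E

theorem prFd : StFd := by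
  intro E _ _ G _ _ b hb T f hf
  let H : Subgroup (E ≃ₐ[ℂ] E) := T.map b
  have hcard : Nat.card H = Nat.card T := by
    exact (Nat.card_congr (T.equivMapOfInjective b hb).toEquiv).symm
  have hfin : Finite H := by
    exact Finite.of_equiv T (T.equivMapOfInjective b hb).toEquiv
  have h1 := Fd_card H
  have hle : (ℂ⟮f⟯ : IntermediateField ℂ E) ≤ IntermediateField.fixedField H := by
    rw [IntermediateField.adjoin_simple_le_iff, IntermediateField.mem_fixedField_iff]
    rintro σ ⟨t, ht, rfl⟩
    exact hf t ht
  have h2 := IntermediateField.relfinrank_mul_finrank_top hle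
  rw [h1, hcard] at h2
  exact ⟨_, by rw [← h2, mul_comm]⟩

end

end Pool.Agent.Sextic.AD
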