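import Pool.Agent.Work.MP_8e3fb2_ag.AD.Stmts

/-! Item Ico of the block AD (MP_8e3fb2_ag): the icosahedral group, written by helper92. -/

set_option autoImplicit false

namespace Pool.Agent.Sextic.AD

open Matrix

/-- Four times the three basis vectors (alternating functions of two of five letters), an entry
`(a, b)` stands for `a + b √5`. -/
def icoZ (l : Fin 3) (i j : Fin 5) : ℤ × ℤ :=
  (match l with
   | 0 => (![![(0,0),(4,0),(0,0),(0,0),(-4,0)],
             ![(-4,0),(0,0),(1,1),(1,-1),(2,0)],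
             ![(0,0),(-1,-1),(0,0),(0,2),(1,-1)],
             ![(0,0),(-1,1),(0,-2),(0,0),(1,1)],
             ![(4,0),(-2,0),(-1,1),(-1,-1),(0,0)]] : Fin 5 → Fin 5 → ℤ × ℤ)
   | 1 => ![![(0,0),(0,0),(4,0),(0,0),(-4,0)],
             ![(0,0),(0,0),(-1,1),(0,-2),(1,1)],
             ![(-4,0),(1,-1),(0,0),(1,1),(2,0)],
             ![(0,0),(0,2),(-1,-1),(0,0),(1,-1)],
             ![(4,0),(-1,-1),(-2,0),(-1,1),(0,0)]]
   | 2 => ![![(0,0),(0,0),(0,0),(4,0),(-4,0)],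
             ![(0,0),(0,0),(0,2),(-1,-1),(1,-1)],
             ![(0,0),(0,-2),(0,0),(-1,1),(1,1)],
             ![(-4,0),(1,1),(1,-1),(0,0),(2,0)],
             ![(4,0),(-1,1),(-1,-1),(-2,0),(0,0)]]) i j

/-- The product of `ℤ[√5]`. -/
def icoM (x y : ℤ × ℤ) : ℤ × ℤ := (x.1 * y.1 + 5 * (x.2 * y.2), x.1 * y.2 + x.2 * y.1)

set_option maxRecDepth 100000 in
theorem ico_keyZ : ∀ g : Equiv.Perm (Fin 5), Equiv.Perm.sign g = 1 → ∀ l i j,
    4 * (icoZ l (g i) (g j)).1 = (icoM (icoZ l (g 0) (g 1)) (icoZ 0 i j)).1 +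
      (icoM (icoZ l (g 0) (g 2)) (icoZ 1 i j)).1 + (icoM (icoZ l (g 0) (g 3)) (icoZ 2 i j)).1 ∧
    4 * (icoZ l (g i) (g j)).2 = (icoM (icoZ l (g 0) (g 1)) (icoZ 0 i j)).2 +
      (icoM (icoZ l (g 0) (g 2)) (icoZ 1 i j)).2 +
      (icoM (icoZ l (g 0) (g 3)) (icoZ 2 i j)).2 := by
  decide +kernel

theorem ico_antiZ : ∀ l i j, (icoZ l i j).1 = -(icoZ l j i).1 ∧
    (icoZ l i j).2 = -(icoZ l j i).2 := by
  decide +kernel

/-- A permutation with sign `1` which exchanges two letters. -/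
theorem ico_swap : ∀ k : Fin 3, ∃ s : Equiv.Perm (Fin 5), Equiv.Perm.sign s = 1 ∧
    s 0 = k.succ.castSucc ∧ s k.succ.castSucc = 0 := by
  intro k
  fin_cases k
  · exact ⟨Equiv.swap 0 1 * Equiv.swap 2 3, by decide, by decide, by decide⟩
  · exact ⟨Equiv.swap 0 2 * Equiv.swap 1 3, by decide, by decide, by decide⟩
  · exact ⟨Equiv.swap 0 3 * Equiv.swap 1 2, by decide, by decide, by decide⟩

/-- The basis vectors. -/
noncomputable def icoB (l : Fin 3) (i j : Fin 5) : ℂ :=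
  (((icoZ l i j).1 : ℂ) + ((icoZ l i j).2 : ℂ) * ((Real.sqrt 5 : ℝ) : ℂ)) / 4

theorem ico_s5 : ((Real.sqrt 5 : ℝ) : ℂ) * ((Real.sqrt 5 : ℝ) : ℂ) = 5 := by
  rw [← Complex.ofReal_mul, Real.mul_self_sqrt (by norm_num)]
  norm_num

theorem ico_anti (l : Fin 3) (i j : Fin 5) : icoB l i j = - icoB l j i := by
  obtain ⟨h1, h2⟩ := ico_antiZ l i j
  unfold icoB
  rw [h1, h2]
  push_cast
  ring

theorem ico_key (g : Equiv.Perm (Fin 5)) (hg : Equiv.Perm.sign g = 1) (l : Fin 3) (i j : Fin 5) :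
    icoB l (g i) (g j) = ∑ k : Fin 3, icoB l (g 0) (g k.succ.castSucc) * icoB k i j := by
  obtain ⟨h1, h2⟩ := ico_keyZ g hg l i j
  have h1' := congrArg (fun z : ℤ => (z : ℂ)) h1
  have h2' := congrArg (fun z : ℤ => (z : ℂ)) h2
  simp only [icoM] at h1' h2'
  push_cast at h1' h2'
  have e1 : (Fin.succ (0 : Fin 3)).castSucc = (1 : Fin 5) := rfl
  have e2 : (Fin.succ (1 : Fin 3)).castSucc = (2 : Fin 5) := rfl
  have e3 : (Fin.succ (2 : Fin 3)).castSucc = (3 : Fin 5) := rfl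
  rw [Fin.sum_univ_three, e1, e2, e3]
  unfold icoB
  linear_combination (1 / 16 : ℂ) * h1' + (1 / 16 : ℂ) * ((Real.sqrt 5 : ℝ) : ℂ) * h2' -
    (1 / 16 : ℂ) * (((icoZ l (g 0) (g 1)).2 : ℂ) * ((icoZ 0 i j).2 : ℂ) +
      ((icoZ l (g 0) (g 2)).2 : ℂ) * ((icoZ 1 i j).2 : ℂ) +
      ((icoZ l (g 0) (g 3)).2 : ℂ) * ((icoZ 2 i j).2 : ℂ)) * ico_s5

/-- The representation of the alternating group on five letters. -/
noncomputable def icoR : alternatingGroup (Fin 5) →* Matrix (Fin 3) (Fin 3) ℂ where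
  toFun g := Matrix.of fun k l => icoB l ((g⁻¹ : Equiv.Perm (Fin 5)) 0)
    ((g⁻¹ : Equiv.Perm (Fin 5)) k.succ.castSucc)
  map_one' := by
    ext k l
    fin_cases k <;> fin_cases l <;> simp [icoB, icoZ]
  map_mul' g h := by
    ext k l
    simp only [Matrix.of_apply, Matrix.mul_apply]
    have hh : Equiv.Perm.sign ((h⁻¹ : Equiv.Perm (Fin 5))) = 1 := by
      rw [Equiv.Perm.sign_inv]
      exact Equiv.Perm.mem_alternatingGroup.1 h.2
    have := ico_key ((h⁻¹ : Equiv.Perm (Fin 5))) hh l ((g⁻¹ : Equiv.Perm (Fin 5)) 0)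
      ((g⁻¹ : Equiv.Perm (Fin 5)) k.succ.castSucc)
    rw [show (((g * h : alternatingGroup (Fin 5)) : Equiv.Perm (Fin 5))⁻¹) =
      (h⁻¹ : Equiv.Perm (Fin 5)) * (g⁻¹ : Equiv.Perm (Fin 5)) by simp]
    simp only [Equiv.Perm.mul_apply]
    rw [this]
    exact Finset.sum_congr rfl fun m _ => mul_comm _ _

theorem icoR_apply (g : alternatingGroup (Fin 5)) (k l : Fin 3) :
    icoR g k l = icoB l ((g⁻¹ : Equiv.Perm (Fin 5)) 0)
      ((g⁻¹ : Equiv.Perm (Fin 5)) k.succ.castSucc) := rfl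

/-- The invariant quadratic form. -/
noncomputable def icoQ : Matrix (Fin 3) (Fin 3) ℂ :=
  Matrix.of fun k l => ∑ i, ∑ j, icoB k i j * icoB l i j

theorem icoQ_apply (k l : Fin 3) : icoQ k l = ∑ i, ∑ j, icoB k i j * icoB l i j := rfl

theorem ico_act (g : alternatingGroup (Fin 5)) (l : Fin 3) (i j : Fin 5) :
    ∑ m, icoR g m l * icoB m i j = icoB l ((g⁻¹ : Equiv.Perm (Fin 5)) i)
      ((g⁻¹ : Equiv.Perm (Fin 5)) j) := by
  have hh : Equiv.Perm.sign ((g⁻¹ : Equiv.Perm (Fin 5))) = 1 := by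
    rw [Equiv.Perm.sign_inv]
    exact Equiv.Perm.mem_alternatingGroup.1 g.2
  rw [ico_key _ hh l i j]
  rfl

theorem icoQ_inv (g : alternatingGroup (Fin 5)) : (icoR g).transpose * icoQ * icoR g = icoQ := by
  ext k l
  have h1 : ((icoR g).transpose * icoQ * icoR g) k l =
      ∑ i, ∑ j, (∑ m, icoR g m k * icoB m i j) * (∑ n, icoR g n l * icoB n i j) := by
    simp only [Matrix.mul_apply, Matrix.transpose_apply, icoQ_apply,
      Finset.mul_sum, Finset.sum_mul]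
    have e1 : ∀ F : Fin 3 → Fin 3 → Fin 5 → Fin 5 → ℂ, (∑ m, ∑ n, ∑ i, ∑ j, F m n i j) =
        ∑ i, ∑ j, ∑ m, ∑ n, F m n i j := by
      intro F
      calc (∑ m, ∑ n, ∑ i, ∑ j, F m n i j) = ∑ m, ∑ i, ∑ n, ∑ j, F m n i j :=
            Finset.sum_congr rfl fun m _ => Finset.sum_comm
        _ = ∑ i, ∑ m, ∑ n, ∑ j, F m n i j := Finset.sum_comm
        _ = ∑ i, ∑ m, ∑ j, ∑ n, F m n i j :=
            Finset.sum_congr rfl fun i _ => Finset.sum_congr rfl fun m _ => Finset.sum_comm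
        _ = ∑ i, ∑ j, ∑ m, ∑ n, F m n i j :=
            Finset.sum_congr rfl fun i _ => Finset.sum_comm
    rw [e1]
    refine Finset.sum_congr rfl fun i _ => Finset.sum_congr rfl fun j _ =>
      Finset.sum_congr rfl fun m _ => Finset.sum_congr rfl fun n _ => ?_
    ring
  rw [h1, icoQ_apply]
  simp only [ico_act]
  rw [← Equiv.sum_comp (g⁻¹ : Equiv.Perm (Fin 5)) (fun i => ∑ j, icoB k i j * icoB l i j)]
  refine Finset.sum_congr rfl fun i _ => ?_
  rw [← Equiv.sum_comp (g⁻¹ : Equiv.Perm (Fin 5)) (fun j => icoB k _ j * icoB l _ j)]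

theorem ico_sum : ∑ g : alternatingGroup (Fin 5), icoR g = 0 := by
  ext k l
  rw [Matrix.sum_apply, Matrix.zero_apply]
  obtain ⟨s, hs, h1, h2⟩ := ico_swap k
  let s' : alternatingGroup (Fin 5) := ⟨s, Equiv.Perm.mem_alternatingGroup.2 hs⟩
  have e1 : ∑ g : alternatingGroup (Fin 5), icoR g k l =
      ∑ g : alternatingGroup (Fin 5), icoR (s'⁻¹ * g) k l :=
    (Equiv.sum_comp (Equiv.mulLeft (s'⁻¹)) (fun g => icoR g k l)).symm
  have e2 : ∀ g : alternatingGroup (Fin 5), icoR (s'⁻¹ * g) k l = - icoR g k l := by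
    intro g
    rw [icoR_apply, icoR_apply]
    rw [show (((s'⁻¹ * g : alternatingGroup (Fin 5)) : Equiv.Perm (Fin 5))⁻¹) =
      (g⁻¹ : Equiv.Perm (Fin 5)) * s by simp [s']]
    simp only [Equiv.Perm.mul_apply]
    rw [h1, h2, ico_anti]
  rw [Finset.sum_congr rfl (fun g _ => e2 g), Finset.sum_neg_distrib] at e1
  have h3 : (2 : ℂ) * ∑ g : alternatingGroup (Fin 5), icoR g k l = 0 := by
    linear_combination e1
  exact (mul_eq_zero.1 h3).resolve_left two_ne_zero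

theorem icoQ_symm : icoQ.transpose = icoQ := by
  ext k l
  rw [Matrix.transpose_apply, icoQ_apply, icoQ_apply]
  exact Finset.sum_congr rfl fun i _ => Finset.sum_congr rfl fun j _ => mul_comm _ _

theorem icoQ_ne : icoQ ≠ 0 := by
  intro h
  have h0 : icoQ 0 0 = 0 := by rw [h]; rfl
  have h5 := ico_s5
  have h1 : icoQ 0 0 = 10 := by
    rw [icoQ_apply]
    simp only [Fin.sum_univ_five, icoB, icoZ, Matrix.cons_val]
    push_cast
    linear_combination h5
  rw [h0] at h1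
  norm_num at h1

/-- The embedding of the symmetric group on five letters. -/
noncomputable def icoE : Equiv.Perm (Fin 5) →* Equiv.Perm (Fin 6) :=
  Equiv.Perm.viaEmbeddingHom (Fin.castSuccEmb)

theorem prIco : StIco := by
  have hinj : Function.Injective icoE := Equiv.Perm.viaEmbeddingHom_injective _
  let e := (alternatingGroup (Fin 5)).equivMapOfInjective icoE hinj
  refine ⟨(alternatingGroup (Fin 5)).map icoE, icoR.comp e.symm.toMonoidHom, icoQ, ?_, ?_,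
    icoQ_symm, icoQ_ne, ?_, ?_⟩
  · rw [← Nat.card_congr e.toEquiv, nat_card_alternatingGroup]
    simp [Nat.factorial]
  · exact (MulEquiv.isSimpleGroup_congr e).1 (alternatingGroup.isSimpleGroup_five)
  · intro g
    exact icoQ_inv _
  · have : ∑ᶠ g, (icoR.comp e.symm.toMonoidHom) g = ∑ᶠ g, icoR g :=
      finsum_comp_equiv e.symm.toEquiv (f := fun g => icoR g)
    rw [this, finsum_eq_sum_of_fintype]
    exact ico_sum

end Pool.Agent.Sextic.AD
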