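import Pool.Agent.Work.MP_8e3fb2_ag.AD.Stmts

set_option autoImplicit false

/-!
# Item Orb: divisibility of the sum of an invariant function
-/

namespace Pool.Agent.Sextic.AD

theorem Orb_aux {X B : Type} [Group B] [Finite B] [MulAction B X] (N : ℕ) (D : X → ℤ)
    (hD : ∀ (g : B) (x : X), D (g • x) = D x)
    (hN : ∀ x : X, Nat.card (MulAction.stabilizer B x) ∣ N) :
    ∀ (n : ℕ) (F : Finset X), F.card = n → (∀ (g : B), ∀ x ∈ F, g • x ∈ F) →
      (Nat.card B : ℤ) ∣ N * ∑ x ∈ F, D x := by
  classical
  intro n
  induction n using Nat.strong_induction_on with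
  | _ n ih =>
    intro F hF hinv
    by_cases hne : F = ∅
    · rw [hne, Finset.sum_empty, mul_zero]
      exact dvd_zero _
    obtain ⟨x, hx⟩ := Finset.nonempty_iff_ne_empty.mpr hne
    have hOF : ∀ y ∈ MulAction.orbit B x, y ∈ F := by
      rintro y ⟨g, rfl⟩
      exact hinv g x hx
    have hO : ((F.filter fun y => y ∈ MulAction.orbit B x : Finset X) : Set X) =
        MulAction.orbit B x := by
      ext y
      rw [Finset.coe_filter]
      exact ⟨fun h => h.2, fun h => ⟨hOF y h, h⟩⟩
    have hcard : (F.filter fun y => y ∈ MulAction.orbit B x).card =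
        (MulAction.orbit B x).ncard := by
      rw [← Set.ncard_coe_finset, hO]
    rw [← Finset.sum_filter_add_sum_filter_not F (fun y => y ∈ MulAction.orbit B x), mul_add]
    refine dvd_add ?_ ?_
    · have h1 : ∑ y ∈ F.filter (fun y => y ∈ MulAction.orbit B x), D y =
          ((MulAction.orbit B x).ncard : ℤ) * D x := by
        have h2 : ∀ y ∈ F.filter (fun y => y ∈ MulAction.orbit B x), D y = D x := by
          intro y hy
          obtain ⟨g, rfl⟩ := (Finset.mem_filter.mp hy).2
          exact hD g x
        rw [Finset.sum_congr rfl h2, Finset.sum_const, hcard, nsmul_eq_mul]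
      rw [h1]
      obtain ⟨k, hk⟩ := hN x
      have h3 := (MulAction.stabilizer B x).card_mul_index
      rw [MulAction.index_stabilizer] at h3
      refine ⟨k * D x, ?_⟩
      rw [hk, ← h3]
      push_cast
      ring
    · refine ih _ ?_ _ rfl ?_
      · rw [← hF]
        refine Finset.card_lt_card ?_
        rw [Finset.filter_ssubset]
        exact ⟨x, hx, fun h => h (MulAction.mem_orbit_self x)⟩
      · intro g y hy
        rw [Finset.mem_filter] at hy ⊢
        refine ⟨hinv g y hy.1, fun h => hy.2 ?_⟩
        have h4 := MulAction.mem_orbit_of_mem_orbit g⁻¹ h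
        rwa [inv_smul_smul] at h4

theorem prOrb : StOrb := by
  classical
  intro X B _ _ _ N D hfin hD hN
  rw [finsum_eq_sum_of_support_toFinset_subset D hfin (Finset.Subset.refl _)]
  refine Orb_aux N D hD hN _ _ rfl ?_
  intro g x hx
  rw [Set.Finite.mem_toFinset] at hx ⊢
  rw [Function.mem_support] at hx ⊢
  rw [hD]
  exact hx

end Pool.Agent.Sextic.AD
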