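import Pool.Agent.Work.MP_8e3fb2_ag.AD.Stmts

set_option autoImplicit false

/-!
# The accessory degree of the sextic, item Stp
-/

namespace Pool.Agent.Sextic.AD

open IntermediateField

private theorem Stp_mem {E : Type} [Field E] [Algebra ℂ E] (N : Pl E → ℤ) (w : E) :
    w ∈ RR N ↔ w = 0 ∨ ∀ P : Pl E, - N P ≤ P.1 w := Iff.rfl

theorem prStp (h1 : StGau) (h2 : StRk) (h3 : StHol) : StStp := by
  intro n G M _ _ E d φ D hφ0 hφ hlow heq s
  induction s with
  | zero =>
    have hle : RR (fun P : Pl E => ((0 : ℕ) : ℤ) * D P) ≤ Submodule.span ℂ {(1 : E)} := by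
      intro w hw
      rw [Stp_mem] at hw
      rcases hw with rfl | hw
      · exact Submodule.zero_mem _
      · obtain ⟨c, rfl⟩ := h3 E d.ff w (fun P => by
          have h := hw P
          simpa using h)
        rw [Submodule.mem_span_singleton]
        exact ⟨c, by rw [Algebra.smul_def, mul_one]⟩
    have hfin : FiniteDimensional ℂ (Submodule.span ℂ {(1 : E)}) :=
      FiniteDimensional.span_singleton ℂ (1 : E)
    refine ⟨Submodule.finiteDimensional_of_le hle, ?_⟩
    have h4 := Submodule.finrank_mono hle
    have h5 : Module.finrank ℂ (Submodule.span ℂ {(1 : E)}) = 1 :=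
      finrank_span_singleton one_ne_zero
    omega
  | succ s ih =>
    obtain ⟨ih1, ih2⟩ := ih
    have h4 := h2 E M n d.x d.ind d.fin (RR (fun P : Pl E => ((s + 1 : ℕ) : ℤ) * D P))
      (RR (fun P : Pl E => (s : ℤ) * D P)) φ hφ0 ih1 (by
        intro p hp hp0
        obtain ⟨ψ, rfl⟩ := (hφ p).1 hp0
        refine ⟨ψ, fun α => ?_, rfl⟩
        rw [Stp_mem]
        by_cases h0 : ψ.coeff α = 0
        · exact Or.inl h0
        · right
          intro P
          refine h1 E P n φ ψ (- D P) (- ((s : ℤ) * D P)) (heq P) (hlow P) (fun β hβ => ?_) α h0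
          have h5 := hp β
          rw [Stp_mem] at h5
          rcases h5 with h5 | h5
          · exact absurd h5 hβ
          · have h6 := h5 P
            push_cast at h6
            linarith)
    refine ⟨h4.1, ?_⟩
    have h5 := h4.2
    have h6 : Module.finrank (IntermediateField.adjoin ℂ (Set.range d.x)) M = d.k := rfl
    rw [h6] at h5
    have h7 : 1 + (s + 1) * d.k = d.k + (1 + s * d.k) := by ring
    rw [h7]
    exact h5.trans (Nat.add_le_add_left ih2 _)

end Pool.Agent.Sextic.AD
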