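import Pool.Agent.Work.MP_8e3fb2_ag.AD.Stmts

set_option autoImplicit false

/-!
# Auxiliary lemmas on places: maximal ideal, residues
-/

namespace Pool.Agent.Sextic.AD

open IntermediateField

variable {E : Type} [Field E] [Algebra ℂ E]

namespace Pl

/-- The maximal ideal of the place. -/
def Mx (P : Pl E) (x : E) : Prop := x = 0 ∨ 0 < P.1 x

/-- The valuation ring of the place. -/
def Ox (P : Pl E) (x : E) : Prop := x = 0 ∨ 0 ≤ P.1 x

theorem one (P : Pl E) : P.1 1 = 0 := by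
  have h := P.2.const 1
  rwa [map_one] at h

theorem inv (P : Pl E) {f : E} (hf : f ≠ 0) : P.1 f⁻¹ = - P.1 f := by
  have h := P.2.mul f f⁻¹ hf (inv_ne_zero hf)
  rw [mul_inv_cancel₀ hf, one] at h
  linarith

theorem div (P : Pl E) {f g : E} (hf : f ≠ 0) (hg : g ≠ 0) : P.1 (f / g) = P.1 f - P.1 g := by
  rw [div_eq_mul_inv, P.2.mul _ _ hf (inv_ne_zero hg), inv P hg]
  ring

theorem pow (P : Pl E) {f : E} (hf : f ≠ 0) (n : ℕ) : P.1 (f ^ n) = n * P.1 f := by
  induction n with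
  | zero => rw [pow_zero, one]; simp
  | succ n ih =>
    rw [pow_succ, P.2.mul _ _ (pow_ne_zero n hf) hf, ih]
    push_cast
    ring

theorem zpow (P : Pl E) {f : E} (hf : f ≠ 0) (n : ℤ) : P.1 (f ^ n) = n * P.1 f := by
  cases n with
  | ofNat n => rw [Int.ofNat_eq_natCast, zpow_natCast, pow P hf]
  | negSucc n =>
    rw [zpow_negSucc, inv P (pow_ne_zero _ hf), pow P hf, Int.negSucc_eq]
    push_cast
    ring

theorem Mx_zero (P : Pl E) : Mx P 0 := Or.inl rfl

theorem Mx_add {P : Pl E} {x y : E} (hx : Mx P x) (hy : Mx P y) : Mx P (x + y) := by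
  rcases hx with rfl | hx
  · rw [zero_add]; exact hy
  rcases hy with rfl | hy
  · rw [add_zero]; exact Or.inr hx
  by_cases h : x + y = 0
  · exact Or.inl h
  have hx0 : x ≠ 0 := by
    rintro rfl
    rw [P.2.zero] at hx
    omega
  have hy0 : y ≠ 0 := by
    rintro rfl
    rw [P.2.zero] at hy
    omega
  exact Or.inr (lt_of_lt_of_le (lt_min hx hy) (P.2.add x y hx0 hy0 h))

theorem Mx_neg {P : Pl E} {x : E} (hx : Mx P x) : Mx P (-x) := by
  rcases hx with rfl | hx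
  · rw [neg_zero]; exact Or.inl rfl
  right
  have hx0 : x ≠ 0 := by
    rintro rfl
    rw [P.2.zero] at hx
    omega
  have h1 : (-x : E) = algebraMap ℂ E (-1) * x := by rw [map_neg, map_one, neg_one_mul]
  rw [h1, P.2.mul _ _ (by rw [map_neg, map_one]; exact neg_ne_zero.2 one_ne_zero) hx0, P.2.const]
  linarith

theorem Mx_sub {P : Pl E} {x y : E} (hx : Mx P x) (hy : Mx P y) : Mx P (x - y) := by
  rw [sub_eq_add_neg]
  exact Mx_add hx (Mx_neg hy)

theorem Mx_mul {P : Pl E} {x y : E} (hx : Ox P x) (hy : Mx P y) : Mx P (x * y) := by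
  rcases hx with rfl | hx
  · rw [zero_mul]; exact Or.inl rfl
  rcases hy with rfl | hy
  · rw [mul_zero]; exact Or.inl rfl
  by_cases hx0 : x = 0
  · rw [hx0, zero_mul]; exact Or.inl rfl
  have hy0 : y ≠ 0 := by
    rintro rfl
    rw [P.2.zero] at hy
    omega
  right
  rw [P.2.mul _ _ hx0 hy0]
  linarith

theorem Ox_const (P : Pl E) (c : ℂ) : Ox P (algebraMap ℂ E c) := Or.inr (P.2.const c).ge

theorem Mx_Ox {P : Pl E} {x : E} (hx : Mx P x) : Ox P x := by
  rcases hx with rfl | hx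
  · exact Or.inl rfl
  · exact Or.inr hx.le

theorem Mx_const {P : Pl E} {c : ℂ} (h : Mx P (algebraMap ℂ E c)) : c = 0 := by
  rcases h with h | h
  · rwa [map_eq_zero] at h
  · rw [P.2.const] at h
    omega

theorem Ox_add {P : Pl E} {x y : E} (hx : Ox P x) (hy : Ox P y) : Ox P (x + y) := by
  by_cases hx0 : x = 0
  · rw [hx0, zero_add]; exact hy
  by_cases hy0 : y = 0
  · rw [hy0, add_zero]; exact hx
  by_cases h : x + y = 0
  · exact Or.inl h
  have hx' : 0 ≤ P.1 x := by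
    rcases hx with h | h
    · exact absurd h hx0
    · exact h
  have hy' : 0 ≤ P.1 y := by
    rcases hy with h | h
    · exact absurd h hy0
    · exact h
  exact Or.inr (le_trans (le_min hx' hy') (P.2.add x y hx0 hy0 h))

theorem Ox_mul {P : Pl E} {x y : E} (hx : Ox P x) (hy : Ox P y) : Ox P (x * y) := by
  by_cases hx0 : x = 0
  · rw [hx0, zero_mul]; exact Or.inl rfl
  by_cases hy0 : y = 0
  · rw [hy0, mul_zero]; exact Or.inl rfl
  have hx' : 0 ≤ P.1 x := by
    rcases hx with h | h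
    · exact absurd h hx0
    · exact h
  have hy' : 0 ≤ P.1 y := by
    rcases hy with h | h
    · exact absurd h hy0
    · exact h
  right
  rw [P.2.mul _ _ hx0 hy0]
  linarith

/-- `f` has the residue `c` at `P`. -/
def Rs (P : Pl E) (f : E) (c : ℂ) : Prop := Mx P (f - algebraMap ℂ E c)

theorem Rs_exists (P : Pl E) {f : E} (hf : f ≠ 0) (h : P.1 f = 0) : ∃ c : ℂ, c ≠ 0 ∧ Rs P f c := by
  obtain ⟨c, hc⟩ := P.2.res f hf h
  have h1 : Rs P f c := by
    rcases hc with hc | hc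
    · exact Or.inl (sub_eq_zero.2 hc)
    · exact Or.inr hc
  refine ⟨c, ?_, h1⟩
  rintro rfl
  rcases h1 with h2 | h2
  · rw [map_zero, sub_zero] at h2
    exact hf h2
  · rw [map_zero, sub_zero, h] at h2
    omega

theorem Rs_Ox {P : Pl E} {f : E} {c : ℂ} (h : Rs P f c) : Ox P f := by
  have h1 : f = (f - algebraMap ℂ E c) + algebraMap ℂ E c := by ring
  rw [h1]
  exact Ox_add (Mx_Ox h) (Ox_const P c)

theorem Rs_mul {P : Pl E} {f g : E} {c d : ℂ} (hf : Rs P f c) (hg : Rs P g d) :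
    Rs P (f * g) (c * d) := by
  have h1 : f * g - algebraMap ℂ E (c * d) =
      f * (g - algebraMap ℂ E d) + algebraMap ℂ E d * (f - algebraMap ℂ E c) := by
    rw [map_mul]; ring
  show Mx P _
  rw [h1]
  exact Mx_add (Mx_mul (Rs_Ox hf) hg) (Mx_mul (Ox_const P d) hf)

theorem Rs_one (P : Pl E) : Rs P 1 1 := Or.inl (by rw [map_one, sub_self])

theorem Rs_const (P : Pl E) (c : ℂ) : Rs P (algebraMap ℂ E c) c := Or.inl (sub_self _)

theorem Rs_unique {P : Pl E} {f : E} {c d : ℂ} (hc : Rs P f c) (hd : Rs P f d) : c = d := by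
  have h1 : Mx P (algebraMap ℂ E (c - d)) := by
    have h2 : algebraMap ℂ E (c - d) =
        (f - algebraMap ℂ E d) - (f - algebraMap ℂ E c) := by
      rw [map_sub]; ring
    rw [h2]
    exact Mx_sub hd hc
  exact sub_eq_zero.1 (Mx_const h1)

theorem Rs_inv {P : Pl E} {f : E} {c : ℂ} (h : Rs P f c) (hf : f ≠ 0) (hP : P.1 f = 0) :
    Rs P f⁻¹ c⁻¹ := by
  obtain ⟨d, hd0, hd⟩ := Rs_exists P (inv_ne_zero hf) (by rw [inv P hf, hP, neg_zero])
  have h1 := Rs_mul h hd
  rw [mul_inv_cancel₀ hf] at h1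
  have h2 : (1 : ℂ) = c * d := Rs_unique (Rs_one P) h1
  have h3 : d = c⁻¹ := (eq_inv_of_mul_eq_one_right h2.symm)
  rwa [← h3]

theorem Rs_pow {P : Pl E} {f : E} {c : ℂ} (h : Rs P f c) (n : ℕ) : Rs P (f ^ n) (c ^ n) := by
  induction n with
  | zero => rw [pow_zero, pow_zero]; exact Rs_one P
  | succ n ih => rw [pow_succ, pow_succ]; exact Rs_mul ih h

theorem val_of_Rs {P : Pl E} {f : E} {c : ℂ} (h : Rs P f c) (hc : c ≠ 0) : f ≠ 0 ∧ P.1 f = 0 := by
  have hf : f ≠ 0 := by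
    rintro rfl
    have h1 : Mx P (0 - algebraMap ℂ E c) := h
    rw [zero_sub] at h1
    have h2 := Mx_neg h1
    rw [neg_neg] at h2
    exact hc (Mx_const h2)
  refine ⟨hf, ?_⟩
  rcases Rs_Ox h with h1 | h1
  · exact absurd h1 hf
  · by_contra hne
    have h2 : Mx P f := Or.inr (lt_of_le_of_ne h1 (Ne.symm hne))
    have h3 : Mx P (algebraMap ℂ E c) := by
      have h4 : algebraMap ℂ E c = f - (f - algebraMap ℂ E c) := by ring
      rw [h4]
      exact Mx_sub h2 h
    exact hc (Mx_const h3)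

/-! ### Automorphisms fixing the place -/

theorem fix_val {σ : E ≃ₐ[ℂ] E} {P : Pl E} (h : σ • P = P) (f : E) : P.1 (σ f) = P.1 f := by
  have h1 := smul_val σ P f
  rwa [h] at h1

theorem fix_Mx {σ : E ≃ₐ[ℂ] E} {P : Pl E} (h : σ • P = P) {f : E} (hf : Mx P f) : Mx P (σ f) := by
  rcases hf with rfl | hf
  · rw [map_zero]; exact Or.inl rfl
  · exact Or.inr (by rw [fix_val h]; exact hf)

theorem fix_Rs {σ : E ≃ₐ[ℂ] E} {P : Pl E} (h : σ • P = P) {f : E} {c : ℂ} (hf : Rs P f c) :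
    Rs P (σ f) c := by
  have h1 := fix_Mx h hf
  rwa [map_sub, AlgEquiv.commutes] at h1

/-- A unit does not change its class modulo the maximal ideal. -/
theorem fix_unit {σ : E ≃ₐ[ℂ] E} {P : Pl E} (h : σ • P = P) {y : E} (hy : y ≠ 0)
    (hP : P.1 y = 0) : Rs P (σ y / y) 1 := by
  obtain ⟨c, hc0, hc⟩ := Rs_exists P hy hP
  have h1 := Rs_mul (fix_Rs h hc) (Rs_inv hc hy hP)
  rwa [mul_inv_cancel₀ hc0, ← div_eq_mul_inv] at h1

/-- The residues of `σ^n w / w`. -/
theorem fix_pow {σ : E ≃ₐ[ℂ] E} {P : Pl E} (h : σ • P = P) {w : E} (hw : w ≠ 0) :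
    ∃ η : ℂ, η ≠ 0 ∧ Rs P (σ w / w) η ∧ ∀ n : ℕ, Rs P ((σ ^ n) w / w) (η ^ n) := by
  have hσw : σ w ≠ 0 := by
    rw [Ne, EmbeddingLike.map_eq_zero_iff]; exact hw
  obtain ⟨η, hη0, hη⟩ := Rs_exists P (div_ne_zero hσw hw) (by
    rw [div P hσw hw, fix_val h, sub_self])
  refine ⟨η, hη0, hη, fun n => ?_⟩
  induction n with
  | zero =>
    rw [pow_zero, pow_zero, AlgEquiv.one_apply, div_self hw]
    exact Rs_one P
  | succ n ih =>
    have h1 := Rs_mul (fix_Rs h ih) hη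
    have h2 : σ ((σ ^ n) w / w) * (σ w / w) = (σ ^ (n + 1)) w / w := by
      rw [map_div₀, pow_succ', AlgEquiv.mul_apply]
      field_simp
    rw [h2, ← pow_succ] at h1
    exact h1

end Pl

end Pool.Agent.Sextic.AD
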